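import Mathlib

/-!
# The giant shadow in the Linial-Meshulam process: definitions

* orderings `e : Fin N ≃ α`, the set `Y e m` of the first `m` elements, expectation `EE` and
  probability `PP` over a uniformly random ordering;
* `Sys α b`: an abstract closure system with a set function `Sm` (elements in small circuits);
* families of `(d+1)`-subsets of `Fin n`: covered `d`-sets, cores, minimal cores, exploration.
-/

namespace Pool.Agent.Lib.P0fb

open Finset

section Prob

variable {N : ℕ} {α : Type*} [Fintype α] [DecidableEq α]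

/-- expectation over a uniformly random ordering of `α` -/
noncomputable def EE (f : (Fin N ≃ α) → ℝ) : ℝ :=
  (∑ e, f e) / (Fintype.card (Fin N ≃ α) : ℝ)

/-- indicator of a proposition -/
noncomputable def ind (P : Prop) : ℝ := by
  classical exact if P then 1 else 0

/-- probability over a uniformly random ordering of `α` -/
noncomputable def PP (A : (Fin N ≃ α) → Prop) : ℝ := EE (fun e => ind (A e))

/-- the set of the first `m` elements of the ordering `e` -/
def Y (e : Fin N ≃ α) (m : ℕ) : Finset α :=
  (univ.filter (fun i : Fin N => i.val < m)).image e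

/-- `Φ` depends only on the unordered set of the first `m` elements and on the later elements -/
def FutM (m : ℕ) (Φ : (Fin N ≃ α) → ℝ) : Prop :=
  ∀ (e : Fin N ≃ α) (i j : Fin N), i.val < m → j.val < m → Φ ((Equiv.swap i j).trans e) = Φ e

/-- `Φ` depends only on the (ordered) first `m` elements -/
def PastM (m : ℕ) (Φ : (Fin N ≃ α) → ℝ) : Prop :=
  ∀ (e : Fin N ≃ α) (i j : Fin N), m ≤ i.val → m ≤ j.val → Φ ((Equiv.swap i j).trans e) = Φ e

end Prob

/-- An abstract closure system `cl` on `α` with a monotone set function `Sm` (the elements that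
lie in a small circuit).  `NC W` is the set of the elements of `W` that lie in the closure of the
others. -/
structure Sys (α : Type*) [Fintype α] [DecidableEq α] (b : ℕ) where
  cl : Finset α → Finset α
  Sm : Finset α → Finset α
  mono : ∀ {W W' : Finset α}, W ⊆ W' → cl W ⊆ cl W'
  sub : ∀ W : Finset α, W ⊆ cl W
  smono : ∀ {W W' : Finset α}, W ⊆ W' → Sm W ⊆ Sm W'
  d1 : ∀ (W : Finset α) (g : α), g ∈ cl W → g ∉ W → g ∉ Sm W →
    b ≤ (W.filter (fun h => g ∉ cl (W.erase h))).card
      + (W.filter (fun h => h ∈ cl (W.erase h))).card + 1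
  d2 : ∀ W : Finset α, b ≤ (W.filter (fun h => h ∈ cl (W.erase h))).card ∨
    W.filter (fun h => h ∈ cl (W.erase h)) ⊆ Sm W

/-- the non-coloops of `W` -/
def Sys.NC {α : Type*} [Fintype α] [DecidableEq α] {b : ℕ} (S : Sys α b) (W : Finset α) :
    Finset α := W.filter (fun h => h ∈ S.cl (W.erase h))

/-- the number of the indices `i` with `m ≤ i < m + r` whose element lies in the closure of the
earlier elements -/
def Sys.J {α : Type*} [Fintype α] [DecidableEq α] {b N : ℕ} (S : Sys α b) (e : Fin N ≃ α)
    (m r : ℕ) : ℕ :=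
  (univ.filter (fun i : Fin N => m ≤ i.val ∧ i.val < m + r ∧ e i ∈ S.cl (Y e i.val))).card

section Comb

variable {n : ℕ}

/-- the `d`-dimensional faces of the simplex on `n` vertices -/
abbrev Fc (n d : ℕ) := {σ : Finset (Fin n) // σ.card = d + 1}

/-- the `d`-subsets covered by the family `K` -/
def cov (d : ℕ) (K : Finset (Finset (Fin n))) : Finset (Finset (Fin n)) :=
  K.biUnion (fun σ => σ.powersetCard d)

/-- a core: a family of `(d+1)`-sets in which every covered `d`-set is covered at least twice -/
def Core (d : ℕ) (K : Finset (Finset (Fin n))) : Prop :=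
  (∀ σ ∈ K, σ.card = d + 1) ∧ ∀ σ ∈ K, ∀ u ∈ σ, ∃ σ' ∈ K, σ' ≠ σ ∧ σ.erase u ⊆ σ'

/-- `K` is minimal among the cores that contain `g` -/
def MinCore (d : ℕ) (g : Finset (Fin n)) (K : Finset (Finset (Fin n))) : Prop :=
  g ∈ K ∧ Core d K ∧ ∀ K' : Finset (Finset (Fin n)), K' ⊆ K → g ∈ K' → Core d K' → K' = K

/-- the `d`-sets covered exactly once by `S` -/
def uns (d : ℕ) (S : Finset (Finset (Fin n))) : Finset (Finset (Fin n)) :=
  (cov d S).filter (fun τ => (S.filter (fun σ => τ ⊆ σ)).card = 1)

open Classical in
/-- a chosen `d`-set covered exactly once by `S` -/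
noncomputable def pick (d : ℕ) (S : Finset (Finset (Fin n))) : Finset (Fin n) :=
  if h : (uns d S).Nonempty then h.choose else ∅

/-- one step of the exploration -/
noncomputable def step (d : ℕ) (S : Finset (Finset (Fin n))) (v : Fin n) :
    Finset (Finset (Fin n)) := insert (insert v (pick d S)) S

/-- the result of an exploration -/
noncomputable def run (d : ℕ) : Finset (Finset (Fin n)) → List (Fin n) → Finset (Finset (Fin n))
  | S, [] => S
  | S, v :: vs => run d (step d S v) vs

open Classical in
/-- the number of the steps of the exploration that satisfy `ch` -/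
noncomputable def cnt (d : ℕ) (ch : Finset (Finset (Fin n)) → Fin n → Prop) :
    Finset (Finset (Fin n)) → List (Fin n) → ℕ
  | _, [] => 0
  | S, v :: vs => (if ch S v then 1 else 0) + cnt d ch (step d S v) vs

/-- the exploration stays inside `K`, adds a new member of `K` in every step, and ends in `K` -/
def Valid (d : ℕ) (K : Finset (Finset (Fin n))) :
    Finset (Finset (Fin n)) → List (Fin n) → Prop
  | S, [] => S = K
  | S, v :: vs => S ⊆ K ∧ (uns d S).Nonempty ∧ v ∉ pick d S ∧ insert v (pick d S) ∈ K ∧
      insert v (pick d S) ∉ S ∧ Valid d K (step d S v) vs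

/-- cheap steps with respect to the family `H` -/
def ch0 (d : ℕ) (H : Finset (Finset (Fin n))) (S : Finset (Finset (Fin n))) (v : Fin n) : Prop :=
  ∃ π : Finset (Fin n), π ⊂ pick d S ∧ π ∉ H ∧ insert v π ∈ H ∪ cov d S

/-- `τ` has two different minimal subsets in `H` -/
def badT (H : Finset (Finset (Fin n))) (τ : Finset (Fin n)) : Prop :=
  ∃ π π' : Finset (Fin n), π ⊆ τ ∧ π' ⊆ τ ∧ π ≠ π' ∧ π ∈ H ∧ π' ∈ H ∧
    (∀ ρ : Finset (Fin n), ρ ⊂ π → ρ ∉ H) ∧ (∀ ρ : Finset (Fin n), ρ ⊂ π' → ρ ∉ H)

/-- steps that use an old vertex -/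
def chV (S : Finset (Finset (Fin n))) (v : Fin n) : Prop := v ∈ S.biUnion id

open Classical in
/-- the faces `g` that lie in a core with less than `b` members, the other members in `W` -/
noncomputable def Smc (d n b : ℕ) (W : Finset (Fc n d)) : Finset (Fc n d) :=
  univ.filter (fun g => ∃ K : Finset (Finset (Fin n)), Core d K ∧ g.val ∈ K ∧
    K.erase g.val ⊆ W.image Subtype.val ∧ K.card < b)

end Comb

end Pool.Agent.Lib.P0fb
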