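import Mathlib
import Pool.Agent.Lib.P0fb.Defs

/-!
# Basic facts on random orderings: expectation, union bound, exchangeability

`back` : given the unordered set of the first `t+1` elements (and all later elements), the element
at position `t` is uniform in that set.  Proof: for every `i ≤ t` the substitution
`e ↦ (Equiv.swap i t).trans e` (a bijection of `Fin N ≃ α`, `Equiv.sum_comp` for
`Function.Involutive` or `Equiv.mk`) turns `∑_e h e (e t)` into `∑_e h e (e i)` (the invariance `hh`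
for the fixed `x`); sum over `i ≤ t` and use that `Y e (t+1)` is the image of `{i | i < t+1}` under
the injective `e`.  `forw` is the same with the positions `i ≥ t`, whose images form `(Y e t)ᶜ`.
-/

namespace Pool.Agent.Lib.P0fb

open Finset

theorem ind_nonneg (P : Prop) : 0 ≤ ind P := by
  unfold ind
  split_ifs <;> norm_num
theorem ind_le_one (P : Prop) : ind P ≤ 1 := by
  unfold ind
  split_ifs <;> norm_num
theorem ind_of {P : Prop} (h : P) : ind P = 1 := by
  unfold ind
  rw [if_pos h]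
theorem ind_not_of {P : Prop} (h : ¬ P) : ind P = 0 := by
  unfold ind
  rw [if_neg h]
theorem ind_mono {P Q : Prop} (h : P → Q) : ind P ≤ ind Q := by
  by_cases hP : P
  · rw [ind_of hP, ind_of (h hP)]
  · rw [ind_not_of hP]
    exact ind_nonneg Q
theorem ind_and (P Q : Prop) : ind (P ∧ Q) = ind P * ind Q := by
  by_cases hP : P
  · by_cases hQ : Q
    · rw [ind_of hP, ind_of hQ, ind_of ⟨hP, hQ⟩, one_mul]
    · rw [ind_not_of hQ, ind_not_of (fun h => hQ h.2), mul_zero]
  · rw [ind_not_of hP, ind_not_of (fun h => hP h.1), zero_mul]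
theorem ind_or_le (P Q : Prop) : ind (P ∨ Q) ≤ ind P + ind Q := by
  by_cases hP : P
  · rw [ind_of hP, ind_of (Or.inl hP)]
    linarith [ind_nonneg Q]
  · by_cases hQ : Q
    · rw [ind_of hQ, ind_of (Or.inr hQ)]
      linarith [ind_nonneg P]
    · rw [ind_not_of hP, ind_not_of hQ, ind_not_of (fun h => h.elim hP hQ)]
      norm_num
theorem ind_add_not (P : Prop) : ind P + ind (¬ P) = 1 := by
  by_cases hP : P
  · rw [ind_of hP, ind_not_of (fun h => h hP), add_zero]
  · rw [ind_not_of hP, ind_of hP, zero_add]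

section

variable {N : ℕ} {α : Type*} [Fintype α] [DecidableEq α]

theorem EE_nonneg {f : (Fin N ≃ α) → ℝ} (h : ∀ e, 0 ≤ f e) : 0 ≤ EE f := by
  unfold EE
  exact div_nonneg (Finset.sum_nonneg fun e _ => h e) (Nat.cast_nonneg _)

theorem EE_mono {f g : (Fin N ≃ α) → ℝ} (h : ∀ e, f e ≤ g e) : EE f ≤ EE g := by
  unfold EE
  exact div_le_div_of_nonneg_right (Finset.sum_le_sum fun e _ => h e) (Nat.cast_nonneg _)

theorem EE_congr {f g : (Fin N ≃ α) → ℝ} (h : ∀ e, f e = g e) : EE f = EE g := by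
  rw [funext h]

theorem EE_add (f g : (Fin N ≃ α) → ℝ) : EE (fun e => f e + g e) = EE f + EE g := by
  unfold EE
  rw [Finset.sum_add_distrib, add_div]

theorem EE_sub (f g : (Fin N ≃ α) → ℝ) : EE (fun e => f e - g e) = EE f - EE g := by
  unfold EE
  rw [Finset.sum_sub_distrib, sub_div]

theorem EE_mul_left (c : ℝ) (f : (Fin N ≃ α) → ℝ) : EE (fun e => c * f e) = c * EE f := by
  unfold EE
  rw [← Finset.mul_sum, mul_div_assoc]

theorem EE_sum {ι : Type*} (s : Finset ι) (f : ι → (Fin N ≃ α) → ℝ) :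
    EE (fun e => ∑ i ∈ s, f i e) = ∑ i ∈ s, EE (f i) := by
  unfold EE
  rw [Finset.sum_comm, Finset.sum_div]

theorem EE_const (hN : Fintype.card α = N) (c : ℝ) : EE (fun _ : Fin N ≃ α => c) = c := by
  have hne : Nonempty (Fin N ≃ α) := ⟨(Fintype.equivFinOfCardEq hN).symm⟩
  have h0 : (Fintype.card (Fin N ≃ α) : ℝ) ≠ 0 := by
    exact_mod_cast (Fintype.card_pos).ne'
  unfold EE
  rw [Finset.sum_const, Finset.card_univ, nsmul_eq_mul, mul_div_cancel_left₀ _ h0]

theorem PP_nonneg (A : (Fin N ≃ α) → Prop) : 0 ≤ PP A := EE_nonneg fun _ => ind_nonneg _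

theorem PP_le_one (A : (Fin N ≃ α) → Prop) : PP A ≤ 1 := by
  unfold PP EE
  refine div_le_one_of_le₀ ?_ (Nat.cast_nonneg _)
  calc ∑ e, ind (A e) ≤ ∑ _e : Fin N ≃ α, (1 : ℝ) := Finset.sum_le_sum fun e _ => ind_le_one _
    _ = (Fintype.card (Fin N ≃ α) : ℝ) := by
        rw [Finset.sum_const, Finset.card_univ, nsmul_eq_mul, mul_one]

theorem PP_mono {A B : (Fin N ≃ α) → Prop} (h : ∀ e, A e → B e) : PP A ≤ PP B :=
  EE_mono fun e => ind_mono (h e)

theorem PP_add_not (hN : Fintype.card α = N) (A : (Fin N ≃ α) → Prop) :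
    PP A + PP (fun e => ¬ A e) = 1 := by
  unfold PP
  rw [← EE_add, ← EE_const (α := α) hN 1]
  exact EE_congr fun e => ind_add_not _

theorem PP_or_le (A B : (Fin N ≃ α) → Prop) : PP (fun e => A e ∨ B e) ≤ PP A + PP B := by
  unfold PP
  rw [← EE_add]
  exact EE_mono fun e => ind_or_le _ _

theorem PP_exists_le {ι : Type*} (s : Finset ι) (A : ι → (Fin N ≃ α) → Prop) :
    PP (fun e => ∃ i ∈ s, A i e) ≤ ∑ i ∈ s, PP (A i) := by
  unfold PP
  rw [← EE_sum]
  refine EE_mono fun e => ?_
  by_cases h : ∃ i ∈ s, A i e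
  · obtain ⟨i, hi, hA⟩ := h
    rw [ind_of ⟨i, hi, hA⟩, ← ind_of hA]
    exact Finset.single_le_sum (f := fun i => ind (A i e)) (fun _ _ => ind_nonneg _) hi
  · rw [ind_not_of h]
    exact Finset.sum_nonneg fun _ _ => ind_nonneg _

/-- Markov's inequality -/
theorem markov {f : (Fin N ≃ α) → ℝ} (hf : ∀ e, 0 ≤ f e) {t : ℝ} (ht : 0 < t) :
    PP (fun e => t ≤ f e) ≤ EE f / t := by
  rw [le_div_iff₀ ht, mul_comm]
  unfold PP
  rw [← EE_mul_left]
  refine EE_mono fun e => ?_
  by_cases h : t ≤ f e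
  · rw [ind_of h, mul_one]
    exact h
  · rw [ind_not_of h, mul_zero]
    exact hf e

theorem PP_eq_card (A : (Fin N ≃ α) → Prop) :
    PP A = (Nat.card {e : Fin N ≃ α // A e} : ℝ) / (Nat.card (Fin N ≃ α) : ℝ) := by
  classical
  unfold PP EE
  rw [Nat.card_eq_fintype_card, Nat.card_eq_fintype_card, Fintype.card_subtype]
  congr 1
  rw [← Finset.sum_boole]
  refine Finset.sum_congr rfl fun e _ => ?_
  change ind (A e) = _
  by_cases h : A e
  · rw [ind_of h, if_pos h]
  · rw [ind_not_of h, if_neg h]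

theorem mem_Y {e : Fin N ≃ α} {m : ℕ} {x : α} : x ∈ Y e m ↔ (e.symm x).val < m := by
  unfold Y
  rw [Finset.mem_image]
  constructor
  · rintro ⟨i, hi, rfl⟩
    rw [Finset.mem_filter] at hi
    rw [Equiv.symm_apply_apply]
    exact hi.2
  · intro h
    exact ⟨e.symm x, by simpa using h, e.apply_symm_apply x⟩

theorem card_Y (e : Fin N ≃ α) {m : ℕ} (hm : m ≤ N) : (Y e m).card = m := by
  unfold Y
  rw [Finset.card_image_of_injective _ e.injective]
  have h : (univ.filter fun i : Fin N => i.val < m) =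
      (Finset.range m).attachFin (fun i hi => (Finset.mem_range.1 hi).trans_le hm) := by
    ext i
    simp
  rw [h, Finset.card_attachFin, Finset.card_range]

theorem card_Y_le (e : Fin N ≃ α) (m : ℕ) : (Y e m).card ≤ m := by
  unfold Y
  refine Finset.card_image_le.trans ?_
  have h : ((univ.filter fun i : Fin N => i.val < m).image Fin.val) ⊆ Finset.range m := by
    intro x hx
    rw [Finset.mem_image] at hx
    obtain ⟨i, hi, rfl⟩ := hx
    rw [Finset.mem_filter] at hi
    exact Finset.mem_range.2 hi.2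
  have h1 := Finset.card_le_card h
  rwa [Finset.card_image_of_injective _ Fin.val_injective, Finset.card_range] at h1

theorem Y_zero (e : Fin N ≃ α) : Y e 0 = ∅ := by
  ext x
  rw [mem_Y]
  simp

theorem Y_mono (e : Fin N ≃ α) {m m' : ℕ} (h : m ≤ m') : Y e m ⊆ Y e m' := by
  intro x hx
  rw [mem_Y] at hx ⊢
  omega

theorem Y_succ (e : Fin N ≃ α) (i : Fin N) : Y e (i.val + 1) = insert (e i) (Y e i.val) := by
  ext x
  rw [Finset.mem_insert, mem_Y, mem_Y]
  constructor
  · intro h
    rcases Nat.lt_succ_iff_lt_or_eq.1 h with h | h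
    · exact Or.inr h
    · left
      have : e.symm x = i := Fin.ext h
      rw [← this, Equiv.apply_symm_apply]
  · rintro (rfl | h)
    · rw [Equiv.symm_apply_apply]
      omega
    · omega

theorem app_notMem_Y (e : Fin N ≃ α) (i : Fin N) : e i ∉ Y e i.val := by
  rw [mem_Y, Equiv.symm_apply_apply]
  omega

theorem Y_erase (e : Fin N ≃ α) (i : Fin N) : (Y e (i.val + 1)).erase (e i) = Y e i.val := by
  rw [Y_succ, Finset.erase_insert (app_notMem_Y e i)]

theorem ProbAux_swap_lt {i j k : Fin N} {m m' : ℕ} (hi : i.val < m) (hj : j.val < m)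
    (h : m ≤ m') : (Equiv.swap i j k).val < m' ↔ k.val < m' := by
  by_cases h1 : k = i
  · rw [h1, Equiv.swap_apply_left]
    omega
  · by_cases h2 : k = j
    · rw [h2, Equiv.swap_apply_right]
      omega
    · rw [Equiv.swap_apply_of_ne_of_ne h1 h2]

theorem ProbAux_swap_lt' {i j k : Fin N} {m m' : ℕ} (hi : m ≤ i.val) (hj : m ≤ j.val)
    (h : m' ≤ m) : (Equiv.swap i j k).val < m' ↔ k.val < m' := by
  by_cases h1 : k = i
  · rw [h1, Equiv.swap_apply_left]
    omega
  · by_cases h2 : k = j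
    · rw [h2, Equiv.swap_apply_right]
      omega
    · rw [Equiv.swap_apply_of_ne_of_ne h1 h2]

theorem Y_swap_fut (e : Fin N ≃ α) {i j : Fin N} {m m' : ℕ} (hi : i.val < m) (hj : j.val < m)
    (h : m ≤ m') : Y ((Equiv.swap i j).trans e) m' = Y e m' := by
  ext x
  rw [mem_Y, mem_Y, Equiv.symm_trans_apply, Equiv.symm_swap]
  exact ProbAux_swap_lt hi hj h

theorem Y_swap_past (e : Fin N ≃ α) {i j : Fin N} {m m' : ℕ} (hi : m ≤ i.val) (hj : m ≤ j.val)
    (h : m' ≤ m) : Y ((Equiv.swap i j).trans e) m' = Y e m' := by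
  ext x
  rw [mem_Y, mem_Y, Equiv.symm_trans_apply, Equiv.symm_swap]
  exact ProbAux_swap_lt' hi hj h

theorem app_swap_fut (e : Fin N ≃ α) {i j t : Fin N} {m : ℕ} (hi : i.val < m) (hj : j.val < m)
    (ht : m ≤ t.val) : ((Equiv.swap i j).trans e) t = e t := by
  rw [Equiv.trans_apply, Equiv.swap_apply_of_ne_of_ne]
  · rintro rfl
    omega
  · rintro rfl
    omega

theorem app_swap_past (e : Fin N ≃ α) {i j t : Fin N} {m : ℕ} (hi : m ≤ i.val) (hj : m ≤ j.val)
    (ht : t.val < m) : ((Equiv.swap i j).trans e) t = e t := by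
  rw [Equiv.trans_apply, Equiv.swap_apply_of_ne_of_ne]
  · rintro rfl
    omega
  · rintro rfl
    omega

theorem FutM.mono {m m' : ℕ} {Φ : (Fin N ≃ α) → ℝ} (h : m ≤ m') (hΦ : FutM m' Φ) : FutM m Φ :=
  fun e i j hi hj => hΦ e i j (hi.trans_le h) (hj.trans_le h)

theorem PastM.mono {m m' : ℕ} {Φ : (Fin N ≃ α) → ℝ} (h : m ≤ m') (hΦ : PastM m Φ) :
    PastM m' Φ := fun e i j hi hj => hΦ e i j (h.trans hi) (h.trans hj)

theorem ProbAux_exch (T : Finset (Fin N)) (t : Fin N) (h : (Fin N ≃ α) → α → ℝ)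
    (hh : ∀ i ∈ T, ∀ e x, h ((Equiv.swap i t).trans e) x = h e x) :
    (T.card : ℝ) * ∑ e, h e (e t) = ∑ e, ∑ i ∈ T, h e (e i) := by
  rw [Finset.sum_comm, ← nsmul_eq_mul, ← Finset.sum_const]
  refine Finset.sum_congr rfl fun i hi => ?_
  have h1 : ∀ e : Fin N ≃ α, (Equiv.swap i t).trans ((Equiv.swap i t).trans e) = e := by
    intro e
    rw [← Equiv.trans_assoc]
    ext x
    simp
  rw [← Equiv.sum_comp (⟨fun e => (Equiv.swap i t).trans e, fun e => (Equiv.swap i t).trans e,
    h1, h1⟩ : (Fin N ≃ α) ≃ (Fin N ≃ α)) (fun e => h e (e t))]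
  refine Finset.sum_congr rfl fun e _ => ?_
  change h ((Equiv.swap i t).trans e) (((Equiv.swap i t).trans e) t) = h e (e i)
  rw [hh i hi, Equiv.trans_apply, Equiv.swap_apply_right]

theorem ProbAux_sumY (e : Fin N ≃ α) (m : ℕ) (f : α → ℝ) :
    ∑ x ∈ Y e m, f x = ∑ i ∈ univ.filter (fun i : Fin N => i.val < m), f (e i) := by
  unfold Y
  exact Finset.sum_image fun i _ j _ hij => e.injective hij

theorem ProbAux_sumYc (e : Fin N ≃ α) (m : ℕ) (f : α → ℝ) :
    ∑ x ∈ (Y e m)ᶜ, f x = ∑ i ∈ univ.filter (fun i : Fin N => m ≤ i.val), f (e i) := by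
  have h : (Y e m)ᶜ = (univ.filter (fun i : Fin N => m ≤ i.val)).image e := by
    ext x
    rw [Finset.mem_compl, mem_Y, Finset.mem_image]
    constructor
    · intro h
      exact ⟨e.symm x, by simpa using h, e.apply_symm_apply x⟩
    · rintro ⟨i, hi, rfl⟩
      rw [Finset.mem_filter] at hi
      rw [Equiv.symm_apply_apply]
      omega
  rw [h]
  exact Finset.sum_image fun i _ j _ hij => e.injective hij

theorem ProbAux_card_lt {m : ℕ} (hm : m ≤ N) :
    (univ.filter (fun i : Fin N => i.val < m)).card = m := by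
  have h : (univ.filter fun i : Fin N => i.val < m) =
      (Finset.range m).attachFin (fun i hi => (Finset.mem_range.1 hi).trans_le hm) := by
    ext i
    simp
  rw [h, Finset.card_attachFin, Finset.card_range]

theorem ProbAux_card_ge {m : ℕ} (hm : m ≤ N) :
    (univ.filter (fun i : Fin N => m ≤ i.val)).card = N - m := by
  have h1 := Finset.card_filter_add_card_filter_not (s := (univ : Finset (Fin N)))
    (fun i : Fin N => i.val < m)
  rw [ProbAux_card_lt hm, Finset.card_univ, Fintype.card_fin] at h1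
  have h2 : (univ.filter (fun i : Fin N => ¬ i.val < m)) =
      univ.filter (fun i : Fin N => m ≤ i.val) := by
    ext i
    simp
  rw [h2] at h1
  omega

/-- given the set of the first `t+1` elements, the element at position `t` is uniform in it -/
theorem back (t : Fin N) (h : (Fin N ≃ α) → α → ℝ)
    (hh : ∀ x, FutM (t.val + 1) (fun e => h e x)) :
    EE (fun e => h e (e t)) =
      EE (fun e => (∑ x ∈ Y e (t.val + 1), h e x) / ((t.val : ℝ) + 1)) := by
  have ht : (0 : ℝ) < (t.val : ℝ) + 1 := by positivity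
  have h1 := ProbAux_exch (univ.filter (fun i : Fin N => i.val < t.val + 1)) t h
    (fun i hi e x => hh x e i t (Finset.mem_filter.1 hi).2 (Nat.lt_succ_self _))
  rw [ProbAux_card_lt (Nat.succ_le_of_lt t.isLt)] at h1
  push_cast at h1
  unfold EE
  congr 1
  simp_rw [ProbAux_sumY]
  rw [← Finset.sum_div, ← h1, mul_div_cancel_left₀ _ ht.ne']

/-- given the first `t` elements, the element at position `t` is uniform in the rest -/
theorem forw (t : Fin N) (h : (Fin N ≃ α) → α → ℝ)
    (hh : ∀ x, PastM t.val (fun e => h e x)) :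
    EE (fun e => h e (e t)) =
      EE (fun e => (∑ x ∈ (Y e t.val)ᶜ, h e x) / ((N : ℝ) - (t.val : ℝ))) := by
  have ht : (0 : ℝ) < (N : ℝ) - (t.val : ℝ) := by
    have : (t.val : ℝ) < (N : ℝ) := by exact_mod_cast t.isLt
    linarith
  have h1 := ProbAux_exch (univ.filter (fun i : Fin N => t.val ≤ i.val)) t h
    (fun i hi e x => hh x e i t (Finset.mem_filter.1 hi).2 le_rfl)
  rw [ProbAux_card_ge t.isLt.le, Nat.cast_sub t.isLt.le] at h1
  unfold EE
  congr 1
  simp_rw [ProbAux_sumYc]
  rw [← Finset.sum_div, ← h1, mul_div_cancel_left₀ _ ht.ne']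

end

section

variable {N b : ℕ} {α : Type*} [Fintype α] [DecidableEq α]

theorem Sys.mem_NC_iff (S : Sys α b) (e : Fin N ≃ α) (i : Fin N) :
    e i ∈ S.NC (Y e (i.val + 1)) ↔ e i ∈ S.cl (Y e i.val) := by
  unfold Sys.NC
  rw [Finset.mem_filter, Y_erase]
  exact ⟨fun h => h.2, fun h => ⟨by rw [Y_succ]; exact Finset.mem_insert_self _ _, h⟩⟩

theorem Sys.NC_mono (S : Sys α b) {W W' : Finset α} (h : W ⊆ W') : S.NC W ⊆ S.NC W' := by
  intro x hx
  unfold Sys.NC at hx ⊢
  rw [Finset.mem_filter] at hx ⊢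
  exact ⟨h hx.1, S.mono (Finset.erase_subset_erase x h) hx.2⟩

theorem Sys.J_zero (S : Sys α b) (e : Fin N ≃ α) (m : ℕ) : S.J e m 0 = 0 := by
  unfold Sys.J
  rw [Finset.card_eq_zero, Finset.filter_eq_empty_iff]
  intro i _ h
  omega

theorem Sys.J_le (S : Sys α b) (e : Fin N ≃ α) (m r : ℕ) : S.J e m r ≤ r := by
  unfold Sys.J
  have h : ((univ.filter (fun i : Fin N => m ≤ i.val ∧ i.val < m + r ∧
      e i ∈ S.cl (Y e i.val))).image Fin.val) ⊆ Finset.Ico m (m + r) := by
    intro x hx
    rw [Finset.mem_image] at hx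
    obtain ⟨i, hi, rfl⟩ := hx
    rw [Finset.mem_filter] at hi
    exact Finset.mem_Ico.2 ⟨hi.2.1, hi.2.2.1⟩
  have h1 := Finset.card_le_card h
  rwa [Finset.card_image_of_injective _ Fin.val_injective, Nat.card_Ico,
    Nat.add_sub_cancel_left] at h1

open Classical in
theorem Sys.J_succ_left (S : Sys α b) (e : Fin N ≃ α) (i : Fin N) (r : ℕ) :
    S.J e i.val (r + 1) = (if e i ∈ S.cl (Y e i.val) then 1 else 0) + S.J e (i.val + 1) r := by
  unfold Sys.J
  by_cases h : e i ∈ S.cl (Y e i.val)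
  · rw [if_pos h]
    have h1 : (univ.filter (fun k : Fin N => i.val ≤ k.val ∧ k.val < i.val + (r + 1) ∧
        e k ∈ S.cl (Y e k.val))) = insert i (univ.filter (fun k : Fin N => i.val + 1 ≤ k.val ∧
          k.val < i.val + 1 + r ∧ e k ∈ S.cl (Y e k.val))) := by
      ext k
      simp only [Finset.mem_filter, Finset.mem_univ, true_and, Finset.mem_insert]
      constructor
      · rintro ⟨h2, h3, h4⟩
        by_cases h5 : k = i
        · exact Or.inl h5
        · right
          have : k.val ≠ i.val := fun h6 => h5 (Fin.ext h6)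
          exact ⟨by omega, by omega, h4⟩
      · rintro (rfl | ⟨h2, h3, h4⟩)
        · exact ⟨le_rfl, by omega, h⟩
        · exact ⟨by omega, by omega, h4⟩
    rw [h1, Finset.card_insert_of_notMem]
    · omega
    · simp
  · rw [if_neg h, zero_add]
    congr 1
    ext k
    simp only [Finset.mem_filter, Finset.mem_univ, true_and]
    constructor
    · rintro ⟨h2, h3, h4⟩
      have h5 : k.val ≠ i.val := by
        intro h6
        have : k = i := Fin.ext h6
        subst this
        exact h h4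
      exact ⟨by omega, by omega, h4⟩
    · rintro ⟨h2, h3, h4⟩
      exact ⟨by omega, by omega, h4⟩

open Classical in
theorem Sys.J_succ_right (S : Sys α b) (e : Fin N ≃ α) (m r : ℕ) (h : m + r < N) :
    S.J e m (r + 1) =
      S.J e m r + (if e ⟨m + r, h⟩ ∈ S.cl (Y e (m + r)) then 1 else 0) := by
  unfold Sys.J
  by_cases h0 : e ⟨m + r, h⟩ ∈ S.cl (Y e (m + r))
  · rw [if_pos h0]
    have h1 : (univ.filter (fun k : Fin N => m ≤ k.val ∧ k.val < m + (r + 1) ∧
        e k ∈ S.cl (Y e k.val))) = insert ⟨m + r, h⟩ (univ.filter (fun k : Fin N =>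
          m ≤ k.val ∧ k.val < m + r ∧ e k ∈ S.cl (Y e k.val))) := by
      ext k
      simp only [Finset.mem_filter, Finset.mem_univ, true_and, Finset.mem_insert]
      constructor
      · rintro ⟨h2, h3, h4⟩
        by_cases h5 : k.val = m + r
        · exact Or.inl (Fin.ext h5)
        · exact Or.inr ⟨h2, by omega, h4⟩
      · rintro (rfl | ⟨h2, h3, h4⟩)
        · exact ⟨by simp, by simp, h0⟩
        · exact ⟨h2, by omega, h4⟩
    rw [h1, Finset.card_insert_of_notMem]
    simp
  · rw [if_neg h0, add_zero]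
    congr 1
    ext k
    simp only [Finset.mem_filter, Finset.mem_univ, true_and]
    constructor
    · rintro ⟨h2, h3, h4⟩
      have h5 : k.val ≠ m + r := by
        intro h6
        have h7 : k = ⟨m + r, h⟩ := Fin.ext h6
        subst h7
        exact h0 h4
      exact ⟨h2, by omega, h4⟩
    · rintro ⟨h2, h3, h4⟩
      exact ⟨h2, by omega, h4⟩

theorem Sys.J_swap_fut (S : Sys α b) (e : Fin N ≃ α) {i j : Fin N} {m m' r : ℕ}
    (hi : i.val < m') (hj : j.val < m') (h : m' ≤ m) :
    S.J ((Equiv.swap i j).trans e) m r = S.J e m r := by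
  unfold Sys.J
  congr 1
  ext k
  simp only [Finset.mem_filter, Finset.mem_univ, true_and]
  refine and_congr_right fun h1 => and_congr_right fun _ => ?_
  rw [app_swap_fut e hi hj (h.trans h1), Y_swap_fut e hi hj (h.trans h1)]

theorem Sys.J_swap_past (S : Sys α b) (e : Fin N ≃ α) {i j : Fin N} {m m' r : ℕ}
    (hi : m' ≤ i.val) (hj : m' ≤ j.val) (h : m + r ≤ m') :
    S.J ((Equiv.swap i j).trans e) m r = S.J e m r := by
  unfold Sys.J
  congr 1
  ext k
  simp only [Finset.mem_filter, Finset.mem_univ, true_and]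
  refine and_congr_right fun _ => and_congr_right fun h2 => ?_
  rw [app_swap_past e hi hj (h2.trans_le h), Y_swap_past e hi hj (h2.le.trans h)]

end

end Pool.Agent.Lib.P0fb
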