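import Mathlib
import Pool.Agent.Lib.P0fb.Prob

/-!
# Forward and backward bounds for the number `J` of closed steps

`backJ`: put `u_t = Φ * ind (b ≤ |NC(Y_t)|) * (1/2)^(J on [t, m+r))`.  Then
`EE u_t ≤ (1 - ε/2) EE u_{t+1}` for `m ≤ t < m + r`: by `J_succ_left`, `NC_mono`, `mem_NC_iff`
`u_t ≤ Φ * ind (b ≤ |NC(Y_{t+1})|) * (1/2)^(J on [t+1, m+r)) * (1/2)^[f_t ∈ NC(Y_{t+1})]`, the first
factors are `FutM (t+1)`, and by `back` the mean of the last factor over `f_t ∈ Y_{t+1}` is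
`1 - |NC(Y_{t+1})|/(2(t+1)) ≤ 1 - b/(2(t+1)) ≤ 1 - ε/2`.

`forJ`: `v_t = Ψ * ind (|cl(Y_t)| < D) * Θ^(J on [m, t))`, `EE v_{t+1} ≤ (1 + Θ δ) EE v_t`: by
`J_succ_right` and `forw` the mean of `Θ^[f_t ∈ cl(Y_t)]` over the elements outside `Y_t` is at most
`1 + (Θ - 1) |cl(Y_t)|/(N - t) ≤ 1 + Θ D/(N-t) ≤ 1 + Θ δ`.

`tails`: choose `η > 0` with `2^η (1 - ε/2) ≤ q := 1 - ε/4 < 1` and then `δ₀ ≤ 1` with
`2 δ₀^η ≤ q`; on `J ≤ η r` one has `1 ≤ 2^(η r) (1/2)^J`, on `J ≥ η r` one has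
`1 ≤ Θ^(-η r) Θ^J` with `Θ = 1/δ₀`.
-/

namespace Pool.Agent.Lib.P0fb

open Finset

theorem backJ {N b : ℕ} {α : Type} [Fintype α] [DecidableEq α] (S : Sys α b)
    {Φ : (Fin N ≃ α) → ℝ} (hΦ0 : ∀ e, 0 ≤ Φ e)
    {m r : ℕ} (hmr : m + r ≤ N) (hΦ : FutM (m + r) Φ) {ε : ℝ} (h0 : 0 ≤ ε) (h1 : ε ≤ 1)
    (hε : ε * ((m + r : ℕ) : ℝ) ≤ b) :
    EE (fun e => Φ e * (ind (b ≤ (S.NC (Y e m)).card) * (1 / 2 : ℝ) ^ (S.J e m r)))
      ≤ (1 - ε / 2) ^ r * EE Φ := by
  generalize hM : m + r = M at hmr hΦ hε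
  induction r generalizing m with
  | zero =>
    rw [pow_zero, one_mul]
    apply EE_mono
    intro e
    rw [S.J_zero, pow_zero, mul_one]
    have h2 := ind_le_one (b ≤ (S.NC (Y e m)).card)
    nlinarith [hΦ0 e]
  | succ r ih =>
    have hmN : m < N := by omega
    have hmM : m + 1 ≤ M := by omega
    set i : Fin N := ⟨m, hmN⟩ with hi
    have ih' := ih (m := m + 1) (by omega)
    set g : (Fin N ≃ α) → ℝ := fun e => Φ e * (ind (b ≤ (S.NC (Y e (m + 1))).card) *
      (1 / 2 : ℝ) ^ (S.J e (m + 1) r)) with hg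
    set h : (Fin N ≃ α) → α → ℝ := fun e x =>
      g e * (if x ∈ S.NC (Y e (m + 1)) then (1 / 2 : ℝ) else 1) with hh
    have hg0 : ∀ e, 0 ≤ g e := by
      intro e
      exact mul_nonneg (hΦ0 e) (mul_nonneg (ind_nonneg _) (by positivity))
    have hF : ∀ x, FutM (i.val + 1) (fun e => h e x) := by
      intro x e a b' ha hb
      have h1 : Φ ((Equiv.swap a b').trans e) = Φ e := (FutM.mono hmM hΦ) e a b' ha hb
      have h2 : Y ((Equiv.swap a b').trans e) (m + 1) = Y e (m + 1) :=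
        Y_swap_fut e ha hb le_rfl
      have h3 : S.J ((Equiv.swap a b').trans e) (m + 1) r = S.J e (m + 1) r :=
        S.J_swap_fut e ha hb le_rfl
      simp only [hh, hg, h1, h2, h3]
    have step1 : EE (fun e => Φ e * (ind (b ≤ (S.NC (Y e m)).card) *
        (1 / 2 : ℝ) ^ (S.J e m (r + 1)))) ≤ EE (fun e => h e (e i)) := by
      apply EE_mono
      intro e
      have e1 : S.J e m (r + 1) = (if e i ∈ S.cl (Y e m) then 1 else 0) + S.J e (m + 1) r := by
        convert S.J_succ_left e i r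
      have e2 : (e i ∈ S.NC (Y e (m + 1))) ↔ e i ∈ S.cl (Y e m) := S.mem_NC_iff e i
      have e3 : ind (b ≤ (S.NC (Y e m)).card) ≤ ind (b ≤ (S.NC (Y e (m + 1))).card) :=
        ind_mono fun hb => hb.trans (Finset.card_le_card (S.NC_mono (Y_mono e (Nat.le_succ m))))
      have e4 : (1 / 2 : ℝ) ^ (S.J e m (r + 1))
          = (1 / 2 : ℝ) ^ (S.J e (m + 1) r) *
            (if e i ∈ S.NC (Y e (m + 1)) then (1 / 2 : ℝ) else 1) := by
        rw [e1, pow_add]
        by_cases hc : e i ∈ S.cl (Y e m)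
        · rw [if_pos hc, if_pos (e2.2 hc)]; ring
        · rw [if_neg hc, if_neg (fun h' => hc (e2.1 h'))]; ring
      rw [e4]
      simp only [hh, hg]
      have e5 : (0 : ℝ) ≤ (if e i ∈ S.NC (Y e (m + 1)) then (1 / 2 : ℝ) else 1) := by
        split_ifs <;> norm_num
      calc Φ e * (ind (b ≤ (S.NC (Y e m)).card) * ((1 / 2 : ℝ) ^ (S.J e (m + 1) r) *
            (if e i ∈ S.NC (Y e (m + 1)) then (1 / 2 : ℝ) else 1)))
          ≤ Φ e * (ind (b ≤ (S.NC (Y e (m + 1))).card) * ((1 / 2 : ℝ) ^ (S.J e (m + 1) r) *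
            (if e i ∈ S.NC (Y e (m + 1)) then (1 / 2 : ℝ) else 1))) := by
            apply mul_le_mul_of_nonneg_left _ (hΦ0 e)
            exact mul_le_mul_of_nonneg_right e3 (mul_nonneg (by positivity) e5)
        _ = _ := by ring
    have step2 : EE (fun e => h e (e i)) ≤ EE (fun e => (1 - ε / 2) * g e) := by
      rw [back i h hF]
      apply EE_mono
      intro e
      have hm1 : (0 : ℝ) < (m : ℝ) + 1 := by positivity
      have hsum : ∑ x ∈ Y e (m + 1), h e x
          = g e * (((m : ℝ) + 1) - (S.NC (Y e (m + 1))).card / 2) := by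
        have hsub : S.NC (Y e (m + 1)) ⊆ Y e (m + 1) := Finset.filter_subset _ _
        have hcard : (Y e (m + 1)).card = m + 1 := card_Y e (by omega)
        have h1 : ∑ x ∈ Y e (m + 1), (if x ∈ S.NC (Y e (m + 1)) then (1 / 2 : ℝ) else 1)
            = ((m : ℝ) + 1) - (S.NC (Y e (m + 1))).card / 2 := by
          have h2 : ∀ x ∈ Y e (m + 1), (if x ∈ S.NC (Y e (m + 1)) then (1 / 2 : ℝ) else 1)
              = 1 - (if x ∈ S.NC (Y e (m + 1)) then (1 / 2 : ℝ) else 0) := by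
            intro x _
            split_ifs <;> norm_num
          rw [Finset.sum_congr rfl h2, Finset.sum_sub_distrib, Finset.sum_const, hcard,
            ← Finset.sum_filter]
          have h3 : (Y e (m + 1)).filter (fun x => x ∈ S.NC (Y e (m + 1))) = S.NC (Y e (m + 1)) := by
            ext x
            simp only [Finset.mem_filter]
            exact ⟨fun hx => hx.2, fun hx => ⟨hsub hx, hx⟩⟩
          rw [h3, Finset.sum_const]
          simp only [nsmul_eq_mul]
          push_cast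
          ring
        simp only [hh]
        rw [← Finset.mul_sum, h1]
      show (∑ x ∈ Y e (m + 1), h e x) / ((m : ℝ) + 1) ≤ (1 - ε / 2) * g e
      rw [hsum, div_le_iff₀ hm1]
      by_cases hb : b ≤ (S.NC (Y e (m + 1))).card
      · have hb' : (b : ℝ) ≤ (S.NC (Y e (m + 1))).card := by exact_mod_cast hb
        have hM' : ((m : ℝ) + 1) ≤ (M : ℝ) := by exact_mod_cast hmM
        have h5 : ε * ((m : ℝ) + 1) ≤ (S.NC (Y e (m + 1))).card :=
          ((mul_le_mul_of_nonneg_left hM' h0).trans hε).trans hb'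
        have h6 : ((m : ℝ) + 1) - (S.NC (Y e (m + 1))).card / 2 ≤ (1 - ε / 2) * ((m : ℝ) + 1) := by
          linarith
        calc g e * (((m : ℝ) + 1) - (S.NC (Y e (m + 1))).card / 2)
            ≤ g e * ((1 - ε / 2) * ((m : ℝ) + 1)) := mul_le_mul_of_nonneg_left h6 (hg0 e)
          _ = _ := by ring
      · have hz : g e = 0 := by
          simp only [hg]
          rw [ind_not_of hb]
          ring
        rw [hz]
        simp
    have h12 : (0 : ℝ) ≤ 1 - ε / 2 := by linarith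
    calc EE (fun e => Φ e * (ind (b ≤ (S.NC (Y e m)).card) * (1 / 2 : ℝ) ^ (S.J e m (r + 1))))
        ≤ (1 - ε / 2) * EE g := by
          refine step1.trans (step2.trans (le_of_eq ?_))
          rw [EE_mul_left]
      _ ≤ (1 - ε / 2) * ((1 - ε / 2) ^ r * EE Φ) := mul_le_mul_of_nonneg_left ih' h12
      _ = _ := by ring

theorem forJ {N b : ℕ} {α : Type} [Fintype α] [DecidableEq α] (S : Sys α b)
    {Ψ : (Fin N ≃ α) → ℝ} (hΨ0 : ∀ e, 0 ≤ Ψ e)
    {m r D : ℕ} (hmr : m + r ≤ N) (hΨ : PastM m Ψ) {δ Θ : ℝ} (hδ : 0 ≤ δ) (hΘ : 1 ≤ Θ)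
    (hD : (D : ℝ) ≤ δ * ((N : ℝ) - ((m + r : ℕ) : ℝ))) :
    EE (fun e => Ψ e * (ind ((S.cl (Y e (m + r))).card < D) * Θ ^ (S.J e m r)))
      ≤ (1 + Θ * δ) ^ r * EE Ψ := by
  have hΘ0 : 0 ≤ Θ := by linarith
  induction r with
  | zero =>
    rw [pow_zero, one_mul]
    apply EE_mono
    intro e
    rw [S.J_zero, pow_zero, mul_one]
    have h2 := ind_le_one ((S.cl (Y e (m + 0))).card < D)
    nlinarith [hΨ0 e]
  | succ r ih =>
    have hmN : m + r < N := by omega
    have hNr : (0 : ℝ) < (N : ℝ) - ((m + r : ℕ) : ℝ) := by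
      have : ((m + r : ℕ) : ℝ) < (N : ℝ) := by exact_mod_cast hmN
      linarith
    have hD' : (D : ℝ) ≤ δ * ((N : ℝ) - ((m + r : ℕ) : ℝ)) := by
      refine hD.trans (mul_le_mul_of_nonneg_left ?_ hδ)
      push_cast
      linarith
    have ih' := ih (by omega) hD'
    set i : Fin N := ⟨m + r, hmN⟩ with hi
    set g : (Fin N ≃ α) → ℝ := fun e => Ψ e * (ind ((S.cl (Y e (m + r))).card < D) *
      Θ ^ (S.J e m r)) with hg
    set h : (Fin N ≃ α) → α → ℝ := fun e x =>
      g e * (if x ∈ S.cl (Y e (m + r)) then Θ else 1) with hh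
    have hg0 : ∀ e, 0 ≤ g e := by
      intro e
      exact mul_nonneg (hΨ0 e) (mul_nonneg (ind_nonneg _) (by positivity))
    have hF : ∀ x, PastM i.val (fun e => h e x) := by
      intro x e a b' ha hb
      have h1 : Ψ ((Equiv.swap a b').trans e) = Ψ e :=
        (PastM.mono (Nat.le_add_right m r) hΨ) e a b' ha hb
      have h2 : Y ((Equiv.swap a b').trans e) (m + r) = Y e (m + r) :=
        Y_swap_past e ha hb le_rfl
      have h3 : S.J ((Equiv.swap a b').trans e) m r = S.J e m r :=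
        S.J_swap_past e ha hb le_rfl
      simp only [hh, hg, h1, h2, h3]
    have step1 : EE (fun e => Ψ e * (ind ((S.cl (Y e (m + (r + 1)))).card < D) *
        Θ ^ (S.J e m (r + 1)))) ≤ EE (fun e => h e (e i)) := by
      apply EE_mono
      intro e
      have e1 : S.J e m (r + 1) = S.J e m r + (if e i ∈ S.cl (Y e (m + r)) then 1 else 0) := by
        convert S.J_succ_right e m r hmN
      have e3 : ind ((S.cl (Y e (m + (r + 1)))).card < D) ≤
          ind ((S.cl (Y e (m + r))).card < D) :=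
        ind_mono fun hb => lt_of_le_of_lt
          (Finset.card_le_card (S.mono (Y_mono e (by omega : m + r ≤ m + (r + 1))))) hb
      have e4 : Θ ^ (S.J e m (r + 1))
          = Θ ^ (S.J e m r) * (if e i ∈ S.cl (Y e (m + r)) then Θ else 1) := by
        rw [e1, pow_add]
        by_cases hc : e i ∈ S.cl (Y e (m + r))
        · rw [if_pos hc, if_pos hc, pow_one]
        · rw [if_neg hc, if_neg hc, pow_zero]
      rw [e4]
      simp only [hh, hg]
      have e5 : (0 : ℝ) ≤ (if e i ∈ S.cl (Y e (m + r)) then Θ else 1) := by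
        split_ifs
        · exact hΘ0
        · norm_num
      calc Ψ e * (ind ((S.cl (Y e (m + (r + 1)))).card < D) * (Θ ^ (S.J e m r) *
            (if e i ∈ S.cl (Y e (m + r)) then Θ else 1)))
          ≤ Ψ e * (ind ((S.cl (Y e (m + r))).card < D) * (Θ ^ (S.J e m r) *
            (if e i ∈ S.cl (Y e (m + r)) then Θ else 1))) := by
            apply mul_le_mul_of_nonneg_left _ (hΨ0 e)
            exact mul_le_mul_of_nonneg_right e3 (mul_nonneg (by positivity) e5)
        _ = _ := by ring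
    have step2 : EE (fun e => h e (e i)) ≤ EE (fun e => (1 + Θ * δ) * g e) := by
      rw [forw i h hF]
      apply EE_mono
      intro e
      show (∑ x ∈ (Y e (m + r))ᶜ, h e x) / ((N : ℝ) - ((m + r : ℕ) : ℝ)) ≤ (1 + Θ * δ) * g e
      rw [div_le_iff₀ hNr]
      have hcardα : Fintype.card α = N := by
        have := Fintype.card_congr e
        simpa using this.symm
      have hYc : (((Y e (m + r))ᶜ).card : ℝ) = (N : ℝ) - ((m + r : ℕ) : ℝ) := by
        rw [Finset.card_compl, hcardα, card_Y e (by omega), Nat.cast_sub (by omega)]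
      have hsum : ∑ x ∈ (Y e (m + r))ᶜ, h e x
          ≤ g e * (((N : ℝ) - ((m + r : ℕ) : ℝ)) + Θ * (S.cl (Y e (m + r))).card) := by
        simp only [hh]
        rw [← Finset.mul_sum]
        apply mul_le_mul_of_nonneg_left _ (hg0 e)
        calc ∑ x ∈ (Y e (m + r))ᶜ, (if x ∈ S.cl (Y e (m + r)) then Θ else 1)
            ≤ ∑ x ∈ (Y e (m + r))ᶜ, (1 + (if x ∈ S.cl (Y e (m + r)) then Θ else 0)) := by
              apply Finset.sum_le_sum
              intro x _
              split_ifs <;> linarith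
          _ = ((N : ℝ) - ((m + r : ℕ) : ℝ)) +
              ∑ x ∈ (Y e (m + r))ᶜ, (if x ∈ S.cl (Y e (m + r)) then Θ else 0) := by
              rw [Finset.sum_add_distrib, Finset.sum_const, nsmul_eq_mul, hYc, mul_one]
          _ ≤ ((N : ℝ) - ((m + r : ℕ) : ℝ)) +
              ∑ x, (if x ∈ S.cl (Y e (m + r)) then Θ else 0) := by
              apply add_le_add le_rfl
              apply Finset.sum_le_sum_of_subset_of_nonneg (Finset.subset_univ _)
              intro x _ _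
              split_ifs
              · exact hΘ0
              · exact le_rfl
          _ = _ := by
              rw [← Finset.sum_filter, Finset.sum_const, nsmul_eq_mul]
              have : (Finset.univ.filter fun x => x ∈ S.cl (Y e (m + r))) = S.cl (Y e (m + r)) := by
                ext x; simp
              rw [this]
              ring
      refine hsum.trans ?_
      by_cases hb : (S.cl (Y e (m + r))).card < D
      · have hb' : ((S.cl (Y e (m + r))).card : ℝ) ≤ D := by exact_mod_cast hb.le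
        have h6 : ((N : ℝ) - ((m + r : ℕ) : ℝ)) + Θ * (S.cl (Y e (m + r))).card
            ≤ (1 + Θ * δ) * ((N : ℝ) - ((m + r : ℕ) : ℝ)) := by
          have := mul_le_mul_of_nonneg_left (hb'.trans hD') hΘ0
          linarith
        calc g e * (((N : ℝ) - ((m + r : ℕ) : ℝ)) + Θ * (S.cl (Y e (m + r))).card)
            ≤ g e * ((1 + Θ * δ) * ((N : ℝ) - ((m + r : ℕ) : ℝ))) :=
              mul_le_mul_of_nonneg_left h6 (hg0 e)
          _ = _ := by ring
      · have hz : g e = 0 := by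
          simp only [hg]
          rw [ind_not_of hb]
          ring
        rw [hz]
        simp
    have h12 : (0 : ℝ) ≤ 1 + Θ * δ := by positivity
    calc EE (fun e => Ψ e * (ind ((S.cl (Y e (m + (r + 1)))).card < D) *
          Θ ^ (S.J e m (r + 1))))
        ≤ (1 + Θ * δ) * EE g := by
          refine step1.trans (step2.trans (le_of_eq ?_))
          rw [EE_mul_left]
      _ ≤ (1 + Θ * δ) * ((1 + Θ * δ) ^ r * EE Ψ) := mul_le_mul_of_nonneg_left ih' h12
      _ = _ := by ring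

theorem tails {ε : ℝ} (h0 : 0 < ε) (h1 : ε ≤ 1) : ∃ q η δ₀ : ℝ, 1 - ε / 2 ≤ q ∧ 0 < q ∧ q < 1 ∧
    0 < η ∧ 0 < δ₀ ∧
    ∀ (α : Type) [Fintype α] [DecidableEq α] {b N : ℕ} (S : Sys α b) {m r D : ℕ}, m + r ≤ N →
      (∀ Φ : (Fin N ≃ α) → ℝ, (∀ e, 0 ≤ Φ e) → FutM (m + r) Φ → ε * ((m + r : ℕ) : ℝ) ≤ b →
        EE (fun e => Φ e * ind (b ≤ (S.NC (Y e m)).card ∧ (S.J e m r : ℝ) ≤ η * r))
          ≤ q ^ r * EE Φ) ∧
      (∀ Ψ : (Fin N ≃ α) → ℝ, (∀ e, 0 ≤ Ψ e) → PastM m Ψ →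
        (D : ℝ) ≤ δ₀ * ((N : ℝ) - ((m + r : ℕ) : ℝ)) →
        EE (fun e => Ψ e * ind ((S.cl (Y e (m + r))).card < D ∧ η * r ≤ (S.J e m r : ℝ)))
          ≤ q ^ r * EE Ψ) := by
  have hp : 0 < 1 - ε / 2 := by linarith
  have hq0 : 0 < 1 - ε / 4 := by linarith
  have hratio : 1 < (1 - ε / 4) / (1 - ε / 2) := by
    rw [lt_div_iff₀ hp]; linarith
  set q : ℝ := 1 - ε / 4 with hq
  set η : ℝ := Real.logb 2 (q / (1 - ε / 2)) with hη
  have hη0 : 0 < η := Real.logb_pos (by norm_num) hratio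
  have h2η : (2 : ℝ) ^ η = q / (1 - ε / 2) :=
    Real.rpow_logb (by norm_num) (by norm_num) (by positivity)
  set δ₀ : ℝ := (q / 2) ^ (1 / η) with hδ
  have hδ0 : 0 < δ₀ := Real.rpow_pos_of_pos (by positivity) _
  have hδ1 : δ₀ ≤ 1 := by
    apply Real.rpow_le_one (by positivity) _ (by positivity)
    linarith
  have hδη : δ₀ ^ η = q / 2 := by
    rw [hδ, ← Real.rpow_mul (by positivity), one_div, inv_mul_cancel₀ hη0.ne', Real.rpow_one]
  refine ⟨q, η, δ₀, by linarith, hq0, by linarith, hη0, hδ0, ?_⟩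
  intro α _ _ b N S m r D hmr
  constructor
  · intro Φ hΦ0 hΦ hb
    have h1 := backJ S hΦ0 hmr hΦ h0.le h1 hb
    have hc : (0 : ℝ) < (2 : ℝ) ^ (η * r) := Real.rpow_pos_of_pos (by norm_num) _
    have h2 : EE (fun e => Φ e * ind (b ≤ (S.NC (Y e m)).card ∧ (S.J e m r : ℝ) ≤ η * r))
        ≤ EE (fun e => (2 : ℝ) ^ (η * r) *
          (Φ e * (ind (b ≤ (S.NC (Y e m)).card) * (1 / 2 : ℝ) ^ (S.J e m r)))) := by
      apply EE_mono
      intro e
      have h3 : ind (b ≤ (S.NC (Y e m)).card ∧ (S.J e m r : ℝ) ≤ η * r)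
          ≤ (2 : ℝ) ^ (η * r) * (ind (b ≤ (S.NC (Y e m)).card) * (1 / 2 : ℝ) ^ (S.J e m r)) := by
        by_cases hP : b ≤ (S.NC (Y e m)).card ∧ (S.J e m r : ℝ) ≤ η * r
        · rw [ind_of hP, ind_of hP.1, one_mul]
          have h4 : (1 / 2 : ℝ) ^ (S.J e m r) = (2 : ℝ) ^ (-(S.J e m r : ℝ)) := by
            rw [Real.rpow_neg (by norm_num), Real.rpow_natCast, one_div, inv_pow]
          rw [h4, ← Real.rpow_add (by norm_num)]
          apply Real.one_le_rpow (by norm_num)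
          linarith [hP.2]
        · rw [ind_not_of hP]
          exact mul_nonneg hc.le (mul_nonneg (ind_nonneg _) (by positivity))
      calc Φ e * ind (b ≤ (S.NC (Y e m)).card ∧ (S.J e m r : ℝ) ≤ η * r)
          ≤ Φ e * ((2 : ℝ) ^ (η * r) *
            (ind (b ≤ (S.NC (Y e m)).card) * (1 / 2 : ℝ) ^ (S.J e m r))) :=
            mul_le_mul_of_nonneg_left h3 (hΦ0 e)
        _ = _ := by ring
    refine h2.trans ?_
    rw [EE_mul_left]
    calc (2 : ℝ) ^ (η * r) * EE (fun e => Φ e * (ind (b ≤ (S.NC (Y e m)).card) *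
          (1 / 2 : ℝ) ^ (S.J e m r)))
        ≤ (2 : ℝ) ^ (η * r) * ((1 - ε / 2) ^ r * EE Φ) := mul_le_mul_of_nonneg_left h1 hc.le
      _ = q ^ r * EE Φ := by
          rw [Real.rpow_mul (by norm_num), h2η, Real.rpow_natCast, ← mul_assoc, ← mul_pow,
            div_mul_cancel₀ _ hp.ne']
  · intro Ψ hΨ0 hΨ hD
    have hΘ1 : 1 ≤ 1 / δ₀ := by
      rw [le_div_iff₀ hδ0]; linarith
    have hΘ0 : 0 < 1 / δ₀ := by positivity
    have h1 := forJ S hΨ0 hmr hΨ hδ0.le hΘ1 hD
    have h11 : 1 + 1 / δ₀ * δ₀ = 2 := by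
      rw [one_div, inv_mul_cancel₀ hδ0.ne']; norm_num
    rw [h11] at h1
    have hc : (0 : ℝ) < δ₀ ^ (η * r) := Real.rpow_pos_of_pos hδ0 _
    have h2 : EE (fun e => Ψ e * ind ((S.cl (Y e (m + r))).card < D ∧
          η * r ≤ (S.J e m r : ℝ)))
        ≤ EE (fun e => δ₀ ^ (η * r) *
          (Ψ e * (ind ((S.cl (Y e (m + r))).card < D) * (1 / δ₀) ^ (S.J e m r)))) := by
      apply EE_mono
      intro e
      have h3 : ind ((S.cl (Y e (m + r))).card < D ∧ η * r ≤ (S.J e m r : ℝ))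
          ≤ δ₀ ^ (η * r) * (ind ((S.cl (Y e (m + r))).card < D) * (1 / δ₀) ^ (S.J e m r)) := by
        by_cases hP : (S.cl (Y e (m + r))).card < D ∧ η * r ≤ (S.J e m r : ℝ)
        · rw [ind_of hP, ind_of hP.1, one_mul]
          have h4 : (1 / δ₀) ^ (S.J e m r) = δ₀ ^ (-(S.J e m r : ℝ)) := by
            rw [Real.rpow_neg hδ0.le, Real.rpow_natCast, one_div, inv_pow]
          rw [h4, ← Real.rpow_add hδ0]
          apply Real.one_le_rpow_of_pos_of_le_one_of_nonpos hδ0 hδ1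
          linarith [hP.2]
        · rw [ind_not_of hP]
          exact mul_nonneg hc.le (mul_nonneg (ind_nonneg _) (by positivity))
      calc Ψ e * ind ((S.cl (Y e (m + r))).card < D ∧ η * r ≤ (S.J e m r : ℝ))
          ≤ Ψ e * (δ₀ ^ (η * r) *
            (ind ((S.cl (Y e (m + r))).card < D) * (1 / δ₀) ^ (S.J e m r))) :=
            mul_le_mul_of_nonneg_left h3 (hΨ0 e)
        _ = _ := by ring
    refine h2.trans ?_
    rw [EE_mul_left]
    calc δ₀ ^ (η * r) * EE (fun e => Ψ e * (ind ((S.cl (Y e (m + r))).card < D) *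
          (1 / δ₀) ^ (S.J e m r)))
        ≤ δ₀ ^ (η * r) * (2 ^ r * EE Ψ) := mul_le_mul_of_nonneg_left h1 hc.le
      _ = q ^ r * EE Ψ := by
          rw [Real.rpow_mul hδ0.le, hδη, Real.rpow_natCast, ← mul_assoc, ← mul_pow,
            div_mul_cancel₀ _ (by norm_num)]

end Pool.Agent.Lib.P0fb
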