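import Mathlib
import Pool.Agent.Lib.P0fb.WFor

/-!
# The number of the times with a big circuit and a small closure has an exponential tail

The set `{m ≤ M : b ≤ |NC(Y_m)|, |cl(Y_m)| < D}` is an interval `[m₀, m₀ + ρ]` (`NC` and `cl` are
monotone); if it has more than `r` elements then `ρ ≥ r`.  `first(m)`: `b ≤ |NC(Y_m)|` and
(`m = 0` or `|NC(Y_{m-1})| < b`), this is `PastM m`; `last(m)`: `|cl(Y_m)| < D` and (`m = M` or
`D ≤ |cl(Y_{m+1})|`), this is `FutM m`.  By `tails` (with `Φ = ind last(m+ρ)`, resp.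
`Ψ = ind first(m)`), splitting according to `J ≤ η ρ` or `J ≥ η ρ`,
`P(first(m) ∧ last(m+ρ)) ≤ q^ρ (P(last(m+ρ)) + P(first(m)))`.  The events `first(m)` are disjoint,
and so are the `last(m)`; sum over `m` and over `ρ ≥ r`: the total is `≤ 2 q^r/(1-q)`.
-/

namespace Pool.Agent.Lib.P0fb

open Finset

namespace BandBAux

variable {N b : ℕ} {α : Type} [Fintype α] [DecidableEq α]

/-- the first time with a big circuit is `m` -/
def F (S : Sys α b) (m : ℕ) (e : Fin N ≃ α) : Prop :=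
  b ≤ (S.NC (Y e m)).card ∧ ∀ m' < m, (S.NC (Y e m')).card < b

/-- the last time `≤ M` with a small closure is `m` -/
def L (S : Sys α b) (D M m : ℕ) (e : Fin N ≃ α) : Prop :=
  (S.cl (Y e m)).card < D ∧ ∀ m', m < m' → m' ≤ M → D ≤ (S.cl (Y e m')).card

theorem past_F (S : Sys α b) (m : ℕ) : PastM m fun e : Fin N ≃ α => ind (F S m e) := by
  intro e i j hi hj
  have h : ∀ m' ≤ m, Y ((Equiv.swap i j).trans e) m' = Y e m' := fun m' h =>
    Y_swap_past e hi hj h
  have h2 : F S m ((Equiv.swap i j).trans e) ↔ F S m e := by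
    unfold F
    rw [h m le_rfl]
    refine and_congr Iff.rfl (forall_congr' fun m' => forall_congr' fun hm => ?_)
    rw [h m' hm.le]
  simp only [h2]

theorem fut_L (S : Sys α b) (D M m : ℕ) : FutM m fun e : Fin N ≃ α => ind (L S D M m e) := by
  intro e i j hi hj
  have h : ∀ m', m ≤ m' → Y ((Equiv.swap i j).trans e) m' = Y e m' := fun m' h =>
    Y_swap_fut e hi hj h
  have h2 : L S D M m ((Equiv.swap i j).trans e) ↔ L S D M m e := by
    unfold L
    rw [h m le_rfl]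
    refine and_congr Iff.rfl (forall_congr' fun m' => forall_congr' fun hm => ?_)
    rw [h m' hm.le]
  simp only [h2]

/-- Exclusive events. -/
theorem sum_ind_le_one (s : Finset ℕ) (P : ℕ → Prop)
    (h : ∀ i ∈ s, ∀ j ∈ s, P i → P j → i = j) : ∑ i ∈ s, ind (P i) ≤ 1 := by
  by_cases hex : ∃ i ∈ s, P i
  · obtain ⟨i, hi, hPi⟩ := hex
    rw [Finset.sum_eq_single i]
    · exact ind_le_one _
    · intro j hj hji
      exact ind_not_of fun hPj => hji (h j hj i hi hPj hPi)
    · intro h'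
      exact absurd hi h'
  · have : ∑ i ∈ s, ind (P i) = 0 := by
      refine Finset.sum_eq_zero fun i hi => ind_not_of fun hPi => hex ⟨i, hi, hPi⟩
    rw [this]
    exact zero_le_one

theorem sum_PP_le_one (hN : Fintype.card α = N) (s : Finset ℕ) (P : ℕ → (Fin N ≃ α) → Prop)
    (h : ∀ e, ∀ i ∈ s, ∀ j ∈ s, P i e → P j e → i = j) : ∑ i ∈ s, PP (P i) ≤ 1 := by
  have h1 : ∑ i ∈ s, PP (P i) = EE fun e : Fin N ≃ α => ∑ i ∈ s, ind (P i e) := by
    rw [EE_sum]
    rfl
  rw [h1]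
  refine (EE_mono fun e => sum_ind_le_one s (fun i => P i e) (h e)).trans ?_
  rw [EE_const hN]

end BandBAux

open BandBAux

open Classical in
theorem band_bad {ε : ℝ} (h0 : 0 < ε) (h1 : ε ≤ 1) : ∃ q δ₀ : ℝ, 0 < q ∧ q < 1 ∧ 0 < δ₀ ∧
    ∀ (α : Type) [Fintype α] [DecidableEq α] {b N : ℕ} (S : Sys α b), Fintype.card α = N →
      ∀ {M D r : ℕ}, M ≤ N → ε * M ≤ b → (D : ℝ) ≤ δ₀ * ((N : ℝ) - (M : ℝ)) →
      PP (fun e : Fin N ≃ α => r < ((range (M + 1)).filter (fun m => b ≤ (S.NC (Y e m)).card ∧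
        (S.cl (Y e m)).card < D)).card) ≤ 2 * q ^ r / (1 - q) := by
  obtain ⟨q, η, δ₀, _, hq0, hq1, hη, hδ, ht⟩ := tails h0 h1
  refine ⟨q, δ₀, hq0, hq1, hδ, ?_⟩
  intro α _ _ b N S hN M D r hMN hεM hD
  have hpair : ∀ m ρ : ℕ, m + ρ ≤ M →
      PP (fun e : Fin N ≃ α => F S m e ∧ L S D M (m + ρ) e) ≤
        q ^ ρ * (PP (fun e : Fin N ≃ α => L S D M (m + ρ) e) + PP (fun e : Fin N ≃ α => F S m e)) := by
    intro m ρ hm
    obtain ⟨t1, t2⟩ := ht α S (D := D) (m := m) (r := ρ) (hm.trans hMN)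
    have hc : ((m + ρ : ℕ) : ℝ) ≤ (M : ℝ) := by exact_mod_cast hm
    have u1 := t1 (fun e : Fin N ≃ α => ind (L S D M (m + ρ) e)) (fun e => ind_nonneg _) (fut_L S D M (m + ρ))
      ((mul_le_mul_of_nonneg_left hc h0.le).trans hεM)
    have u2 := t2 (fun e : Fin N ≃ α => ind (F S m e)) (fun e => ind_nonneg _) (past_F S m)
      (hD.trans (mul_le_mul_of_nonneg_left (by linarith) hδ.le))
    have u3 : PP (fun e : Fin N ≃ α => F S m e ∧ L S D M (m + ρ) e) ≤
        EE (fun e : Fin N ≃ α => ind (L S D M (m + ρ) e) *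
          ind (b ≤ (S.NC (Y e m)).card ∧ (S.J e m ρ : ℝ) ≤ η * ρ)) +
        EE (fun e : Fin N ≃ α => ind (F S m e) *
          ind ((S.cl (Y e (m + ρ))).card < D ∧ η * ρ ≤ (S.J e m ρ : ℝ))) := by
      rw [← EE_add]
      refine EE_mono fun e => ?_
      by_cases hFL : F S m e ∧ L S D M (m + ρ) e
      · rw [ind_of hFL, ind_of hFL.1, ind_of hFL.2, one_mul, one_mul]
        rcases le_total (S.J e m ρ : ℝ) (η * ρ) with hJ | hJ
        · rw [ind_of ⟨hFL.1.1, hJ⟩]
          exact le_add_of_nonneg_right (ind_nonneg _)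
        · rw [ind_of (P := (S.cl (Y e (m + ρ))).card < D ∧ η * ρ ≤ (S.J e m ρ : ℝ))
            ⟨hFL.2.1, hJ⟩]
          exact le_add_of_nonneg_left (ind_nonneg _)
      · rw [ind_not_of hFL]
        exact add_nonneg (mul_nonneg (ind_nonneg _) (ind_nonneg _))
          (mul_nonneg (ind_nonneg _) (ind_nonneg _))
    calc PP (fun e : Fin N ≃ α => F S m e ∧ L S D M (m + ρ) e) ≤ _ := u3
      _ ≤ q ^ ρ * EE (fun e : Fin N ≃ α => ind (L S D M (m + ρ) e)) +
          q ^ ρ * EE (fun e : Fin N ≃ α => ind (F S m e)) := add_le_add u1 u2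
      _ = _ := by
          unfold PP
          ring
  have hsub : ∀ e : Fin N ≃ α, r < ((range (M + 1)).filter (fun m => b ≤ (S.NC (Y e m)).card ∧
      (S.cl (Y e m)).card < D)).card →
      ∃ ρ ∈ Ico r (M + 1), ∃ m ∈ range (M + 1 - ρ), F S m e ∧ L S D M (m + ρ) e := by
    intro e he
    set A := (range (M + 1)).filter (fun m => b ≤ (S.NC (Y e m)).card ∧
      (S.cl (Y e m)).card < D) with hA
    have hne : A.Nonempty := by
      rw [← Finset.card_pos]
      omega
    have hmemA : ∀ m, m ∈ A ↔ m ≤ M ∧ b ≤ (S.NC (Y e m)).card ∧ (S.cl (Y e m)).card < D := by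
      intro m
      rw [hA, Finset.mem_filter, Finset.mem_range, Nat.lt_succ_iff]
    have h0A := A.min'_mem hne
    have h1A := A.max'_mem hne
    have hle : A.min' hne ≤ A.max' hne := Finset.min'_le _ _ h1A
    have hsubI : A ⊆ Icc (A.min' hne) (A.max' hne) := by
      intro m hm
      rw [Finset.mem_Icc]
      exact ⟨Finset.min'_le _ _ hm, Finset.le_max' _ _ hm⟩
    have hcard := Finset.card_le_card hsubI
    rw [Nat.card_Icc] at hcard
    set m₀ := A.min' hne with hm₀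
    set m₁ := A.max' hne with hm₁
    obtain ⟨a1, a2, a3⟩ := (hmemA m₀).1 h0A
    obtain ⟨b1, b2, b3⟩ := (hmemA m₁).1 h1A
    refine ⟨m₁ - m₀, Finset.mem_Ico.2 ⟨by omega, by omega⟩, m₀, Finset.mem_range.2 (by omega), ?_⟩
    have hm : m₀ + (m₁ - m₀) = m₁ := by omega
    rw [hm]
    refine ⟨⟨a2, fun m' hm' => ?_⟩, ⟨b3, fun m' hm' hM' => ?_⟩⟩
    · by_contra hcon
      have hmem : m' ∈ A := (hmemA m').2 ⟨by omega, not_lt.1 hcon,
        lt_of_le_of_lt (Finset.card_le_card (S.mono (Y_mono e hm'.le))) a3⟩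
      have := Finset.min'_le _ _ hmem
      omega
    · by_contra hcon
      have hmem : m' ∈ A := (hmemA m').2 ⟨hM',
        b2.trans (Finset.card_le_card (S.NC_mono (Y_mono e hm'.le))), not_le.1 hcon⟩
      have := Finset.le_max' _ _ hmem
      omega
  refine (PP_mono hsub).trans ?_
  refine (PP_exists_le (Ico r (M + 1)) fun ρ e => ∃ m ∈ range (M + 1 - ρ), F S m e ∧
    L S D M (m + ρ) e).trans ?_
  have hρ : ∀ ρ ∈ Ico r (M + 1),
      PP (fun e : Fin N ≃ α => ∃ m ∈ range (M + 1 - ρ), F S m e ∧ L S D M (m + ρ) e) ≤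
        q ^ ρ * 2 := by
    intro ρ _
    refine (PP_exists_le (range (M + 1 - ρ)) fun m e => F S m e ∧ L S D M (m + ρ) e).trans ?_
    have h2 : ∑ m ∈ range (M + 1 - ρ), PP (fun e : Fin N ≃ α => F S m e ∧ L S D M (m + ρ) e) ≤
        ∑ m ∈ range (M + 1 - ρ), q ^ ρ * (PP (fun e : Fin N ≃ α => L S D M (m + ρ) e) +
          PP (fun e : Fin N ≃ α => F S m e)) := by
      refine Finset.sum_le_sum fun m hm => hpair m ρ ?_
      rw [Finset.mem_range] at hm
      omega
    refine h2.trans ?_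
    rw [← Finset.mul_sum, Finset.sum_add_distrib]
    have e1 : ∑ m ∈ range (M + 1 - ρ), PP (fun e : Fin N ≃ α => L S D M (m + ρ) e) ≤ 1 := by
      refine sum_PP_le_one hN _ (fun m e => L S D M (m + ρ) e) ?_
      intro e i hi j hj hi1 hj1
      rw [Finset.mem_range] at hi hj
      rcases lt_trichotomy i j with h | h | h
      · have := hi1.2 (j + ρ) (by omega) (by omega)
        exact absurd hj1.1 (not_lt.2 this)
      · exact h
      · have := hj1.2 (i + ρ) (by omega) (by omega)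
        exact absurd hi1.1 (not_lt.2 this)
    have e2 : ∑ m ∈ range (M + 1 - ρ), PP (fun e : Fin N ≃ α => F S m e) ≤ 1 := by
      refine sum_PP_le_one hN _ (fun m e => F S m e) ?_
      intro e i hi j hj hi1 hj1
      rcases lt_trichotomy i j with h | h | h
      · exact absurd hi1.1 (not_le.2 (hj1.2 i h))
      · exact h
      · exact absurd hj1.1 (not_le.2 (hi1.2 j h))
    exact mul_le_mul_of_nonneg_left (by linarith) (pow_nonneg hq0.le _)
  refine (Finset.sum_le_sum hρ).trans ?_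
  rw [← Finset.sum_mul]
  have hg := geom_sum_Ico_le_of_lt_one (m := r) (n := M + 1) hq0.le hq1
  calc (∑ i ∈ Ico r (M + 1), q ^ i) * 2 ≤ q ^ r / (1 - q) * 2 :=
        mul_le_mul_of_nonneg_right hg (by norm_num)
    _ = 2 * q ^ r / (1 - q) := by ring

end Pool.Agent.Lib.P0fb
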