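import Mathlib
import Pool.Agent.Lib.P0fb.Prob

/-!
# The number of the times in the band before the first big circuit has an exponential tail

`x_m = #{g ∈ cl(Y_m) : g ∉ Y_M, g ∉ Sm(Y_M)}` (for `m ≤ M`), `h x = 1 + min (x/D) 1 ∈ [1,2]`,
`λ = 1 + ε/8`, `good_m`: `|NC(Y_m)| < b`; `band_m`: `D ≤ 2 |cl(Y_m)|` and `|cl(Y_m)| < D`;
`R_m = #{t ∈ (m, M] : good_t and band_t}`, `G`: `|Sm(Y_M)| ≤ s`.  Put
`U_m = EE (ind (good_m ∧ G) * h (x_m) * λ ^ R_m)`.  Claim, for `1 ≤ m ≤ M`:
`U_{m-1} ≤ U_m + 2 PP (good_{m-1} ∧ ¬ good_m)`.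
Proof: `good` is decreasing in `m` (`NC_mono`).  If `¬ good_m` then `R_{m-1} = 0` and `h ≤ 2`.
If `good_m`: `R_{m-1} = R_m + [band_m]`; everything but `x_{m-1}` is `FutM m`, and by `back` the
mean of `h (x_{m-1})` over `f_m ∈ Y_m` is at most `2` if `x_m ≥ D` (then not `band_m`, as
`|cl(Y_m)| ≥ x_m ≥ D`), and at most `1 + (1 - ε) x_m / D` if `x_m < D`: indeed for each `g` counted
in `x_m` the number of the `y ∈ Y_m` with `g ∈ cl(Y_m.erase y)` is `≤ m - (b - 1 - s) ≤ (1-ε) m`
by `S.d1`, `S.d2` (as in `back1`).  If `band_m` then `x_m ≥ |cl(Y_m)| - M - s ≥ D/4`, and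
`λ (1 + (1-ε) y) ≤ 1 + y` for `y ≥ 1/4`.
Sum up: `U_0 ≤ U_M + 2 PP (good_0 ∧ ¬ good_M) ≤ 2 PP(good_M) + 2 PP(¬ good_M) ≤ 2` (the events
`good_{m-1} ∧ ¬ good_m` are disjoint), and `U_0 ≥ EE (ind G * λ^{R_0})` (`good_0` holds because
`NC ∅ = ∅` and `0 < b`).  Markov.
-/

namespace Pool.Agent.Lib.P0fb

open Finset

variable {N b : ℕ} {α : Type*} [Fintype α] [DecidableEq α]

namespace BandGAux

/-- the function `h` -/
noncomputable def hf (D x : ℕ) : ℝ := 1 + min ((x : ℝ) / D) 1

theorem hf_ge (D x : ℕ) : 1 ≤ hf D x := by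
  unfold hf
  have : 0 ≤ min ((x : ℝ) / D) 1 := le_min (by positivity) zero_le_one
  linarith

theorem hf_le (D x : ℕ) : hf D x ≤ 2 := by
  unfold hf
  have : min ((x : ℝ) / D) 1 ≤ 1 := min_le_right _ _
  linarith

open Classical in
/-- the elements of `cl W` that are not in `Y_M` and not in `Sm (Y_M)` -/
noncomputable def XX (S : Sys α b) (e : Fin N ≃ α) (M : ℕ) (W : Finset α) : Finset α :=
  (S.cl W).filter (fun g => g ∉ Y e M ∧ g ∉ S.Sm (Y e M))

open Classical in
/-- the times in the band -/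
noncomputable def RR (S : Sys α b) (D M : ℕ) (e : Fin N ≃ α) (m : ℕ) : ℕ :=
  ((Icc (m + 1) M).filter (fun m => (S.NC (Y e m)).card < b ∧
        D ≤ 2 * (S.cl (Y e m)).card ∧ (S.cl (Y e m)).card < D)).card

theorem XX_mono (S : Sys α b) (e : Fin N ≃ α) (M : ℕ) {W W' : Finset α} (h : W ⊆ W') :
    XX S e M W ⊆ XX S e M W' := filter_subset_filter _ (S.mono h)

theorem XX_swap (S : Sys α b) (e : Fin N ≃ α) {M m : ℕ} (hm : m ≤ M) {i j : Fin N}
    (hi : i.val < m) (hj : j.val < m) (W : Finset α) :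
    XX S ((Equiv.swap i j).trans e) M W = XX S e M W := by
  unfold XX
  rw [Y_swap_fut e hi hj hm]

theorem RR_swap (S : Sys α b) (e : Fin N ≃ α) {M D m m' : ℕ} (hm : m ≤ m' + 1) {i j : Fin N}
    (hi : i.val < m) (hj : j.val < m) :
    RR S D M ((Equiv.swap i j).trans e) m' = RR S D M e m' := by
  unfold RR
  congr 1
  refine filter_congr fun t ht => ?_
  rw [mem_Icc] at ht
  rw [Y_swap_fut e hi hj (hm.trans ht.1)]

open Classical in
/-- `R_i = R_{i+1} + [band_{i+1}]` if `good_{i+1}` -/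
theorem RR_succ (S : Sys α b) (e : Fin N ≃ α) {M D i : ℕ} (hi : i < M)
    (hg : (S.NC (Y e (i + 1))).card < b) :
    RR S D M e i = RR S D M e (i + 1) + if (D ≤ 2 * (S.cl (Y e (i + 1))).card ∧
      (S.cl (Y e (i + 1))).card < D) then 1 else 0 := by
  unfold RR
  have h : Icc (i + 1) M = insert (i + 1) (Icc (i + 1 + 1) M) := by
    ext t
    simp only [mem_Icc, mem_insert]
    omega
  rw [h, filter_insert]
  have hn : i + 1 ∉ (Icc (i + 1 + 1) M).filter (fun m => (S.NC (Y e m)).card < b ∧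
        D ≤ 2 * (S.cl (Y e m)).card ∧ (S.cl (Y e m)).card < D) := by
    simp
  by_cases hb : D ≤ 2 * (S.cl (Y e (i + 1))).card ∧ (S.cl (Y e (i + 1))).card < D
  · rw [if_pos ⟨hg, hb⟩, if_pos hb, card_insert_of_notMem hn]
  · rw [if_neg (fun h => hb h.2), if_neg hb, add_zero]

/-- `R_i = 0` if not `good_{i+1}` -/
theorem RR_zero (S : Sys α b) (e : Fin N ≃ α) {M D i : ℕ}
    (hg : ¬ (S.NC (Y e (i + 1))).card < b) : RR S D M e i = 0 := by
  unfold RR
  rw [card_eq_zero, filter_eq_empty_iff]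
  intro t ht h
  rw [mem_Icc] at ht
  exact hg (lt_of_le_of_lt (card_le_card (S.NC_mono (Y_mono e ht.1))) h.1)

/-- an element of `XX` is in the closure of few of the sets `Y_m \ y` -/
theorem few (S : Sys α b) {M s m : ℕ} {ε : ℝ} (h0 : 0 ≤ ε) (hε : ε * M + s + 1 ≤ b)
    (hm : m ≤ M) (hMN : M ≤ N) (e : Fin N ≃ α) (hg : (S.NC (Y e m)).card < b)
    (hG : (S.Sm (Y e M)).card ≤ s) {g : α} (hgX : g ∈ XX S e M (Y e m)) :
    (((Y e m).filter (fun y => g ∈ S.cl ((Y e m).erase y))).card : ℝ) ≤ (1 - ε) * m := by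
  unfold XX at hgX
  rw [mem_filter] at hgX
  obtain ⟨hg1, hg2, hg3⟩ := hgX
  have hsub := Y_mono e hm
  have hd1 := S.d1 (Y e m) g hg1 (fun h => hg2 (hsub h)) (fun h => hg3 (S.smono hsub h))
  have hNC : ((Y e m).filter (fun h => h ∈ S.cl ((Y e m).erase h))).card ≤ s := by
    rcases S.d2 (Y e m) with h | h
    · exfalso
      unfold Sys.NC at hg
      omega
    · exact (card_le_card (h.trans (S.smono hsub))).trans hG
  have hsplit := card_filter_add_card_filter_not (s := Y e m)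
    (fun y => g ∈ S.cl ((Y e m).erase y))
  rw [card_Y e (hm.trans hMN)] at hsplit
  have h1 : (b : ℝ) ≤ (((Y e m).filter (fun h => ¬ g ∈ S.cl ((Y e m).erase h))).card : ℝ) +
      s + 1 := by
    exact_mod_cast hd1.trans (by omega)
  have h2 : (((Y e m).filter (fun y => g ∈ S.cl ((Y e m).erase y))).card : ℝ) +
      (((Y e m).filter (fun y => ¬ g ∈ S.cl ((Y e m).erase y))).card : ℝ) = m := by
    exact_mod_cast hsplit
  have h3 : ε * m ≤ ε * M := mul_le_mul_of_nonneg_left (by exact_mod_cast hm) h0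
  linarith

theorem sum_XX (S : Sys α b) {M s m : ℕ} {ε : ℝ} (h0 : 0 ≤ ε) (hε : ε * M + s + 1 ≤ b)
    (hm : m ≤ M) (hMN : M ≤ N) (e : Fin N ≃ α) (hg : (S.NC (Y e m)).card < b)
    (hG : (S.Sm (Y e M)).card ≤ s) :
    ∑ y ∈ Y e m, ((XX S e M ((Y e m).erase y)).card : ℝ) ≤
      (XX S e M (Y e m)).card * ((1 - ε) * m) := by
  classical
  have h1 : ∀ y ∈ Y e m, ((XX S e M ((Y e m).erase y)).card : ℝ) =
      ∑ g ∈ XX S e M (Y e m), if g ∈ S.cl ((Y e m).erase y) then 1 else 0 := by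
    intro y _
    rw [← Finset.sum_filter, sum_const, nsmul_eq_mul, mul_one]
    congr 2
    ext g
    simp only [XX, mem_filter]
    constructor
    · rintro ⟨h1, h2⟩
      exact ⟨⟨S.mono (erase_subset _ _) h1, h2⟩, h1⟩
    · rintro ⟨⟨_, h2⟩, h1⟩
      exact ⟨h1, h2⟩
  rw [sum_congr rfl h1, sum_comm]
  calc ∑ g ∈ XX S e M (Y e m), ∑ y ∈ Y e m, (if g ∈ S.cl ((Y e m).erase y) then (1 : ℝ) else 0)
      ≤ ∑ g ∈ XX S e M (Y e m), (1 - ε) * m := by
        refine sum_le_sum fun g hgX => ?_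
        rw [← Finset.sum_filter, sum_const, nsmul_eq_mul, mul_one]
        exact few S h0 hε hm hMN e hg hG hgX
    _ = _ := by rw [sum_const, nsmul_eq_mul]

open Classical in
/-- the mean over the last element -/
theorem mean_le (S : Sys α b) {M s m D : ℕ} {ε : ℝ} (h0 : 0 ≤ ε) (h1 : ε ≤ 1)
    (hε : ε * M + s + 1 ≤ b) (hD : 4 * (M + s) ≤ D) (hD0 : 0 < D)
    (hm : m ≤ M) (hMN : M ≤ N) (hm0 : 0 < m) (e : Fin N ≃ α) (hg : (S.NC (Y e m)).card < b)
    (hG : (S.Sm (Y e M)).card ≤ s) :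
    (1 + ε / 8) ^ (if (D ≤ 2 * (S.cl (Y e m)).card ∧ (S.cl (Y e m)).card < D) then 1 else 0) *
      ((∑ y ∈ Y e m, hf D (XX S e M ((Y e m).erase y)).card) / m) ≤
      hf D (XX S e M (Y e m)).card := by
  have hcard := card_Y e (hm.trans hMN)
  have hmR : (0 : ℝ) < m := by exact_mod_cast hm0
  have hDR : (0 : ℝ) < D := by exact_mod_cast hD0
  have hle : (XX S e M (Y e m)).card ≤ (S.cl (Y e m)).card := card_filter_le _ _
  by_cases hx : D ≤ (XX S e M (Y e m)).card
  · have hnb : ¬ (D ≤ 2 * (S.cl (Y e m)).card ∧ (S.cl (Y e m)).card < D) := by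
      intro h
      omega
    rw [if_neg hnb, pow_zero, one_mul]
    have h2 : hf D (XX S e M (Y e m)).card = 2 := by
      unfold hf
      rw [min_eq_right]
      · norm_num
      · rw [le_div_iff₀ hDR, one_mul]
        exact_mod_cast hx
    rw [h2, div_le_iff₀ hmR]
    calc ∑ y ∈ Y e m, hf D (XX S e M ((Y e m).erase y)).card ≤ ∑ _y ∈ Y e m, (2 : ℝ) :=
          sum_le_sum fun y _ => hf_le _ _
      _ = 2 * m := by rw [sum_const, hcard, nsmul_eq_mul]; ring
  · push Not at hx
    set z : ℝ := ((XX S e M (Y e m)).card : ℝ) / D with hz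
    have hz0 : 0 ≤ z := by positivity
    have hz1 : z ≤ 1 := by
      rw [hz, div_le_one hDR]
      exact_mod_cast hx.le
    have h2 : hf D (XX S e M (Y e m)).card = 1 + z := by
      unfold hf
      rw [min_eq_left hz1]
    have h3 : (∑ y ∈ Y e m, hf D (XX S e M ((Y e m).erase y)).card) / m ≤ 1 + (1 - ε) * z := by
      rw [div_le_iff₀ hmR]
      calc ∑ y ∈ Y e m, hf D (XX S e M ((Y e m).erase y)).card
          ≤ ∑ y ∈ Y e m, (1 + ((XX S e M ((Y e m).erase y)).card : ℝ) / D) := by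
            refine sum_le_sum fun y _ => ?_
            unfold hf
            have := min_le_left (((XX S e M ((Y e m).erase y)).card : ℝ) / D) 1
            linarith
        _ = m + (∑ y ∈ Y e m, ((XX S e M ((Y e m).erase y)).card : ℝ)) / D := by
            rw [sum_add_distrib, sum_const, hcard, nsmul_eq_mul, mul_one, sum_div]
        _ ≤ m + ((XX S e M (Y e m)).card * ((1 - ε) * m)) / D := by
            have := sum_XX S h0 hε hm hMN e hg hG
            gcongr
        _ = (1 + (1 - ε) * z) * m := by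
            rw [hz]
            ring
    rw [h2]
    split_ifs with hb
    · have h4 : (1 : ℝ) / 4 ≤ z := by
        rw [hz, div_le_div_iff₀ (by norm_num) hDR]
        have h5 : (S.cl (Y e m)).card ≤ (XX S e M (Y e m)).card + (M + s) := by
          have h6 : S.cl (Y e m) ⊆ XX S e M (Y e m) ∪ (Y e M ∪ S.Sm (Y e M)) := by
            intro g hgc
            rw [mem_union, mem_union]
            unfold XX
            rw [mem_filter]
            tauto
          refine (card_le_card h6).trans ((card_union_le _ _).trans ?_)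
          refine Nat.add_le_add_left ((card_union_le _ _).trans ?_) _
          rw [card_Y e hMN]
          exact Nat.add_le_add_left hG _
        have h7 : 1 * D ≤ (XX S e M (Y e m)).card * 4 := by omega
        exact_mod_cast h7
      rw [pow_one]
      calc (1 + ε / 8) * ((∑ y ∈ Y e m, hf D (XX S e M ((Y e m).erase y)).card) / m)
          ≤ (1 + ε / 8) * (1 + (1 - ε) * z) := mul_le_mul_of_nonneg_left h3 (by linarith)
        _ ≤ 1 + z := by
          have e1 : 0 ≤ ε * (z - 1 / 4) := mul_nonneg h0 (by linarith)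
          have e2 : 0 ≤ ε * z * ε := mul_nonneg (mul_nonneg h0 hz0) h0
          nlinarith
    · rw [pow_zero, one_mul]
      have : 0 ≤ ε * z := mul_nonneg h0 hz0
      linarith

/-- the potential -/
noncomputable def TT (S : Sys α b) (M s D : ℕ) (lam : ℝ) (e : Fin N ≃ α) (m : ℕ) : ℝ :=
  ind ((S.NC (Y e m)).card < b ∧ (S.Sm (Y e M)).card ≤ s) *
    (lam ^ RR S D M e m * hf D (XX S e M (Y e m)).card)

open Classical in
/-- the expectation of the potential grows, up to the loss of good orderings -/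
theorem step_le (S : Sys α b) {M s D : ℕ} (hM : M ≤ N) {ε : ℝ}
    (h0 : 0 ≤ ε) (h1 : ε ≤ 1) (hε : ε * M + s + 1 ≤ b) (hD : 4 * (M + s) ≤ D) (hD0 : 0 < D)
    {i : ℕ} (hi : i < M) :
    EE (fun e : Fin N ≃ α => TT S M s D (1 + ε / 8) e i) -
        2 * PP (fun e : Fin N ≃ α => (S.NC (Y e i)).card < b) ≤
      EE (fun e : Fin N ≃ α => TT S M s D (1 + ε / 8) e (i + 1)) -
        2 * PP (fun e : Fin N ≃ α => (S.NC (Y e (i + 1))).card < b) := by
  let t : Fin N := ⟨i, lt_of_lt_of_le hi hM⟩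
  set lam := 1 + ε / 8 with hlam
  have hlam1 : 1 ≤ lam := by rw [hlam]; linarith
  have hlam0 : 0 < lam := by linarith
  let bd : (Fin N ≃ α) → ℕ := fun e =>
    if (D ≤ 2 * (S.cl (Y e (i + 1))).card ∧ (S.cl (Y e (i + 1))).card < D) then 1 else 0
  let H : (Fin N ≃ α) → α → ℝ := fun e y =>
    ind ((S.NC (Y e (i + 1))).card < b ∧ (S.Sm (Y e M)).card ≤ s) *
      (lam ^ (RR S D M e (i + 1) + bd e) * hf D (XX S e M ((Y e (i + 1)).erase y)).card)
  have hH : ∀ x, FutM (t.val + 1) (fun e => H e x) := by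
    intro x e k l hk hl
    have hk' : k.val < i + 1 := hk
    have hl' : l.val < i + 1 := hl
    simp only [H, bd]
    rw [Y_swap_fut e hk' hl' le_rfl, Y_swap_fut e hk' hl' hi, XX_swap S e hi hk' hl',
      RR_swap S e (Nat.le_succ _) hk' hl']
  have hback := back t H hH
  have hpt : ∀ e : Fin N ≃ α, TT S M s D lam e i ≤ H e (e t) +
      2 * (ind ((S.NC (Y e i)).card < b) - ind ((S.NC (Y e (i + 1))).card < b)) := by
    intro e
    have hYe : (Y e (i + 1)).erase (e t) = Y e i := Y_erase e t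
    have hmono : (S.NC (Y e i)).card ≤ (S.NC (Y e (i + 1))).card :=
      card_le_card (S.NC_mono (Y_mono e (Nat.le_succ i)))
    unfold TT
    by_cases hg : (S.NC (Y e (i + 1))).card < b
    · have hgi : (S.NC (Y e i)).card < b := lt_of_le_of_lt hmono hg
      rw [ind_of hg, ind_of hgi, sub_self, mul_zero, add_zero]
      simp only [H, bd]
      rw [hYe, RR_succ S e hi hg]
      by_cases hG : (S.Sm (Y e M)).card ≤ s
      · rw [ind_of ⟨hgi, hG⟩, ind_of ⟨hg, hG⟩]
      · have e1 : ind ((S.NC (Y e i)).card < b ∧ (S.Sm (Y e M)).card ≤ s) = 0 :=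
          ind_not_of (fun h => hG h.2)
        have e2 : ind ((S.NC (Y e (i + 1))).card < b ∧ (S.Sm (Y e M)).card ≤ s) = 0 :=
          ind_not_of (fun h => hG h.2)
        rw [e1, e2]
    · rw [ind_not_of hg, sub_zero, RR_zero S e hg, pow_zero, one_mul]
      have hHn : 0 ≤ H e (e t) := by
        simp only [H]
        have := hf_ge D (XX S e M ((Y e (i + 1)).erase (e t))).card
        exact mul_nonneg (ind_nonneg _) (mul_nonneg (by positivity) (by linarith))
      by_cases hgi : (S.NC (Y e i)).card < b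
      · rw [ind_of hgi]
        have h2 := ind_le_one ((S.NC (Y e i)).card < b ∧ (S.Sm (Y e M)).card ≤ s)
        have h3 := ind_nonneg ((S.NC (Y e i)).card < b ∧ (S.Sm (Y e M)).card ≤ s)
        have h4 := hf_le D (XX S e M (Y e i)).card
        have h5 := hf_ge D (XX S e M (Y e i)).card
        have h6 : ind ((S.NC (Y e i)).card < b ∧ (S.Sm (Y e M)).card ≤ s) *
            hf D (XX S e M (Y e i)).card ≤ 1 * 2 :=
          mul_le_mul h2 h4 (by linarith) zero_le_one
        linarith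
      · rw [ind_not_of hgi, ind_not_of (fun h => hgi h.1)]
        linarith
  have hE1 : EE (fun e : Fin N ≃ α => TT S M s D lam e i) ≤ EE (fun e => H e (e t)) +
      2 * (PP (fun e : Fin N ≃ α => (S.NC (Y e i)).card < b) -
        PP (fun e : Fin N ≃ α => (S.NC (Y e (i + 1))).card < b)) := by
    refine (EE_mono hpt).trans (le_of_eq ?_)
    rw [EE_add, EE_mul_left, EE_sub]
    rfl
  have hE2 : EE (fun e => H e (e t)) ≤ EE (fun e : Fin N ≃ α => TT S M s D lam e (i + 1)) := by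
    rw [hback]
    refine EE_mono fun e => ?_
    simp only [H, TT]
    rw [← mul_sum, ← mul_sum]
    by_cases hgG : (S.NC (Y e (i + 1))).card < b ∧ (S.Sm (Y e M)).card ≤ s
    · rw [ind_of hgG, one_mul, one_mul]
      have h2 := mean_le S h0 h1 hε hD hD0 (m := i + 1) hi hM (Nat.succ_pos i) e hgG.1 hgG.2
      rw [pow_add, mul_assoc, mul_div_assoc]
      refine mul_le_mul_of_nonneg_left ?_ (by positivity)
      rw [mul_div_assoc]
      have h3 : ((t.val : ℝ) + 1) = ((i + 1 : ℕ) : ℝ) := by push_cast; rfl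
      rw [h3]
      exact h2
    · rw [ind_not_of hgG]
      simp
  linarith

open Classical in
theorem TT_le (S : Sys α b) {M s D : ℕ} (hM : M ≤ N) {ε : ℝ}
    (h0 : 0 ≤ ε) (h1 : ε ≤ 1) (hε : ε * M + s + 1 ≤ b) (hD : 4 * (M + s) ≤ D) (hD0 : 0 < D)
    (i : ℕ) (hi : i ≤ M) :
    EE (fun e : Fin N ≃ α => TT S M s D (1 + ε / 8) e (M - i)) -
        2 * PP (fun e : Fin N ≃ α => (S.NC (Y e (M - i))).card < b) ≤ 0 := by
  induction i with
  | zero =>
    rw [Nat.sub_zero]
    have : EE (fun e : Fin N ≃ α => TT S M s D (1 + ε / 8) e M) ≤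
        2 * PP (fun e : Fin N ≃ α => (S.NC (Y e M)).card < b) := by
      unfold PP
      rw [← EE_mul_left]
      refine EE_mono fun e => ?_
      unfold TT
      have hR : RR S D M e M = 0 := by
        unfold RR
        rw [Icc_eq_empty (by omega)]
        rfl
      rw [hR, pow_zero, one_mul]
      have h2 : ind ((S.NC (Y e M)).card < b ∧ (S.Sm (Y e M)).card ≤ s) ≤
          ind ((S.NC (Y e M)).card < b) := ind_mono fun h => h.1
      have h4 := hf_le D (XX S e M (Y e M)).card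
      have h5 := hf_ge D (XX S e M (Y e M)).card
      calc _ ≤ ind ((S.NC (Y e M)).card < b) * 2 :=
            mul_le_mul h2 h4 (by linarith) (ind_nonneg _)
        _ = _ := by ring
    linarith
  | succ i ih =>
    have h := step_le (N := N) S hM h0 h1 hε hD hD0 (i := M - (i + 1)) (by omega)
    have h2 : M - (i + 1) + 1 = M - i := by omega
    rw [h2] at h
    exact h.trans (ih (by omega))

end BandGAux

open BandGAux

open Classical in
theorem band_good (S : Sys α b) (hN : Fintype.card α = N) {M s D r : ℕ} (hM : M ≤ N) {ε : ℝ}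
    (h0 : 0 ≤ ε) (h1 : ε ≤ 1) (hε : ε * M + s + 1 ≤ b) (hD : 4 * (M + s) ≤ D) (hD0 : 0 < D) :
    PP (fun e : Fin N ≃ α => (S.Sm (Y e M)).card ≤ s ∧
      r ≤ ((Icc 1 M).filter (fun m => (S.NC (Y e m)).card < b ∧
        D ≤ 2 * (S.cl (Y e m)).card ∧ (S.cl (Y e m)).card < D)).card)
      ≤ 2 / (1 + ε / 8) ^ r := by
  have hb : 0 < b := by
    have h2 : (0 : ℝ) < b := by
      have : 0 ≤ ε * M := by positivity
      have : (0 : ℝ) ≤ s := by positivity
      linarith
    exact_mod_cast h2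
  have hlam1 : 1 ≤ 1 + ε / 8 := by linarith
  have hlam0 : 0 < 1 + ε / 8 := by linarith
  have hT := TT_le (N := N) S hM h0 h1 hε hD hD0 M le_rfl
  rw [Nat.sub_self] at hT
  have hP := PP_le_one (fun e : Fin N ≃ α => (S.NC (Y e 0)).card < b)
  have hT2 : EE (fun e : Fin N ≃ α => TT S M s D (1 + ε / 8) e 0) ≤ 2 := by linarith
  have hmk := markov (f := fun e : Fin N ≃ α => TT S M s D (1 + ε / 8) e 0) (fun e => by
    unfold TT
    have := hf_ge D (XX S e M (Y e 0)).card
    exact mul_nonneg (ind_nonneg _) (mul_nonneg (by positivity) (by linarith)))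
    (t := (1 + ε / 8) ^ r) (by positivity)
  refine (PP_mono ?_).trans (hmk.trans ?_)
  · rintro e ⟨hG, hr⟩
    have hg : (S.NC (Y e 0)).card < b := by
      rw [Y_zero]
      have : S.NC ∅ = ∅ := by
        unfold Sys.NC
        exact filter_empty _
      rw [this, card_empty]
      exact hb
    simp only [TT]
    rw [ind_of ⟨hg, hG⟩, one_mul]
    have h2 : (1 + ε / 8) ^ r ≤ (1 + ε / 8) ^ RR S D M e 0 := by
      refine pow_le_pow_right₀ hlam1 ?_
      unfold RR
      rw [Nat.zero_add]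
      exact hr
    have h3 := hf_ge D (XX S e M (Y e 0)).card
    calc (1 + ε / 8) ^ r ≤ (1 + ε / 8) ^ RR S D M e 0 * 1 := by rw [mul_one]; exact h2
      _ ≤ _ := mul_le_mul_of_nonneg_left h3 (by positivity)
  · exact div_le_div_of_nonneg_right hT2 (by positivity)

end Pool.Agent.Lib.P0fb
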