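import Mathlib
import Pool.Agent.Lib.P0fb.Defs

/-!
# Exploration of minimal cores, and the number of the exploration paths

`exists_valid`: start with `S = {g}`.  As long as `S ≠ K` (`g ∈ S ⊆ K`), `S` is not a core by
minimality, so some `τ = σ.erase u`, `σ ∈ S`, is covered only by `σ`, i.e. `uns d S` is nonempty;
`pick d S ∈ uns d S` is covered by exactly one `σ ∈ S`, it is `σ.erase u` for some `u`, and the core
`K` has `σ' ≠ σ` with `σ.erase u ⊆ σ'`; `σ' ∉ S`, `σ' = insert v (pick d S)`, `v ∉ pick d S`.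
Induction on `K.card - S.card`.

`card_le_of_runs`: induction on `j` (generalizing `S`, `s`, `𝒦`): the members of `𝒦` whose run
starts with `v` have a run of length `j` from `step d S v` with at least `s - [ch S v]` steps in
`ch`; for `s = 0` sum up to `n (2n)^j`; for `s ≥ 1` the `v ∉ ch` give `n β^s (2n)^j` and the
`v ∈ ch`, at most `β n` many, give `β n β^(s-1) (2n)^j`.
-/

namespace Pool.Agent.Lib.P0fb

open Finset

variable {n : ℕ}

private theorem exists_valid_aux {d : ℕ} {g : Finset (Fin n)} {K : Finset (Finset (Fin n))}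
    (h : MinCore d g K) (m : ℕ) : ∀ S : Finset (Finset (Fin n)), g ∈ S → S ⊆ K →
      S.card + m = K.card → ∃ vs : List (Fin n), vs.length = m ∧ Valid d K S vs := by
  obtain ⟨hg, hK, hmin⟩ := h
  induction m with
  | zero =>
    intro S _ hSK hcard
    exact ⟨[], rfl, Finset.eq_of_subset_of_card_le hSK (by omega)⟩
  | succ m ih =>
    intro S hgS hSK hcard
    have hne : S ≠ K := by
      rintro rfl
      omega
    have hncore : ¬ Core d S := fun hc => hne (hmin S hSK hgS hc)
    have hex : ∃ σ ∈ S, ∃ u ∈ σ, ∀ σ' ∈ S, σ' ≠ σ → ¬ σ.erase u ⊆ σ' := by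
      by_contra hcon
      push Not at hcon
      exact hncore ⟨fun σ hσ => hK.1 σ (hSK hσ), hcon⟩
    obtain ⟨σ, hσ, u, hu, hσu⟩ := hex
    have huns : (uns d S).Nonempty := by
      refine ⟨σ.erase u, ?_⟩
      unfold uns cov
      rw [Finset.mem_filter, Finset.mem_biUnion]
      refine ⟨⟨σ, hσ, ?_⟩, ?_⟩
      · rw [Finset.mem_powersetCard, Finset.card_erase_of_mem hu, hK.1 σ (hSK hσ)]
        exact ⟨Finset.erase_subset _ _, rfl⟩
      · rw [Finset.card_eq_one]
        refine ⟨σ, ?_⟩
        ext σ'
        rw [Finset.mem_filter, Finset.mem_singleton]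
        constructor
        · rintro ⟨h1, h2⟩
          by_contra h3
          exact hσu σ' h1 h3 h2
        · rintro rfl
          exact ⟨hσ, Finset.erase_subset _ _⟩
    have hpick : pick d S ∈ uns d S := by
      unfold pick
      rw [dif_pos huns]
      exact huns.choose_spec
    set π := pick d S with hπ
    unfold uns cov at hpick
    rw [Finset.mem_filter, Finset.mem_biUnion] at hpick
    obtain ⟨⟨σ₁, hσ₁, hπσ⟩, hcard1⟩ := hpick
    rw [Finset.mem_powersetCard] at hπσ
    obtain ⟨hπσ, hπc⟩ := hπσ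
    have hσ₁c := hK.1 σ₁ (hSK hσ₁)
    -- the missing vertex
    obtain ⟨u₁, hu₁⟩ : ∃ u₁, σ₁ \ π = {u₁} := by
      rw [← Finset.card_eq_one, Finset.card_sdiff_of_subset hπσ, hσ₁c, hπc]
      omega
    have hu₁' : u₁ ∈ σ₁ ∧ u₁ ∉ π := by
      rw [← Finset.mem_sdiff, hu₁]
      exact Finset.mem_singleton_self _
    have hπe : π = σ₁.erase u₁ := by
      refine Finset.eq_of_subset_of_card_le ?_ ?_
      · intro x hx
        rw [Finset.mem_erase]
        exact ⟨fun hxu => hu₁'.2 (hxu ▸ hx), hπσ hx⟩
      · rw [Finset.card_erase_of_mem hu₁'.1, hσ₁c, hπc]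
        omega
    obtain ⟨σ', hσ'K, hσ'ne, hσ'sub⟩ := hK.2 σ₁ (hSK hσ₁) u₁ hu₁'.1
    rw [← hπe] at hσ'sub
    have hσ'S : σ' ∉ S := by
      intro hσ'S
      rw [Finset.card_eq_one] at hcard1
      obtain ⟨a, ha⟩ := hcard1
      have h1 : σ₁ ∈ S.filter (fun σ => π ⊆ σ) := Finset.mem_filter.2 ⟨hσ₁, hπσ⟩
      have h2 : σ' ∈ S.filter (fun σ => π ⊆ σ) := Finset.mem_filter.2 ⟨hσ'S, hσ'sub⟩
      rw [ha, Finset.mem_singleton] at h1 h2
      exact hσ'ne (h2.trans h1.symm)
    have hσ'c := hK.1 σ' hσ'K
    obtain ⟨v, hv⟩ : ∃ v, σ' \ π = {v} := by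
      rw [← Finset.card_eq_one, Finset.card_sdiff_of_subset hσ'sub, hσ'c, hπc]
      omega
    have hv' : v ∈ σ' ∧ v ∉ π := by
      rw [← Finset.mem_sdiff, hv]
      exact Finset.mem_singleton_self _
    have hins : insert v π = σ' := by
      refine Finset.eq_of_subset_of_card_le ?_ ?_
      · intro x hx
        rw [Finset.mem_insert] at hx
        rcases hx with rfl | hx
        · exact hv'.1
        · exact hσ'sub hx
      · rw [Finset.card_insert_of_notMem hv'.2, hσ'c, hπc]
    have hstep : step d S v = insert σ' S := by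
      unfold step
      rw [← hπ, hins]
    obtain ⟨vs, hvs, hval⟩ := ih (step d S v) (by
        rw [hstep]
        exact Finset.mem_insert_of_mem hgS) (by
        rw [hstep]
        exact Finset.insert_subset hσ'K hSK) (by
        rw [hstep, Finset.card_insert_of_notMem hσ'S]
        omega)
    refine ⟨v :: vs, by simp [hvs], hSK, huns, hv'.2, ?_, ?_, hval⟩
    · rw [← hπ, hins]
      exact hσ'K
    · rw [← hπ, hins]
      exact hσ'S

theorem exists_valid {d : ℕ} {g : Finset (Fin n)} {K : Finset (Finset (Fin n))}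
    (h : MinCore d g K) : ∃ vs : List (Fin n), vs.length + 1 = K.card ∧ Valid d K {g} vs := by
  have h1 : 1 ≤ K.card := Finset.card_pos.2 ⟨g, h.1⟩
  obtain ⟨vs, hvs, hval⟩ := exists_valid_aux h (K.card - 1) {g} (Finset.mem_singleton_self g)
    (Finset.singleton_subset_iff.2 h.1) (by
      rw [Finset.card_singleton]
      omega)
  exact ⟨vs, by omega, hval⟩

theorem valid_run {d : ℕ} {K S : Finset (Finset (Fin n))} {vs : List (Fin n)}
    (h : Valid d K S vs) : run d S vs = K := by
  induction vs generalizing S with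
  | nil => exact h
  | cons v vs ih => exact ih h.2.2.2.2.2

theorem valid_sub {d : ℕ} {K S : Finset (Finset (Fin n))} {vs : List (Fin n)}
    (h : Valid d K S vs) : S ⊆ K := by
  cases vs with
  | nil => exact subset_of_eq h
  | cons v vs => exact h.1

/-- comparison of two notions of cheap steps along a valid exploration -/
theorem cnt_mono_valid {d : ℕ} {ch ch' : Finset (Finset (Fin n)) → Fin n → Prop}
    {K S : Finset (Finset (Fin n))} {vs : List (Fin n)}
    (h : ∀ S' ⊆ K, (uns d S').Nonempty → ∀ v, v ∉ pick d S' → ch S' v → ch' S' v)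
    (hv : Valid d K S vs) : cnt d ch S vs ≤ cnt d ch' S vs := by
  induction vs generalizing S with
  | nil => exact le_rfl
  | cons v vs ih =>
    obtain ⟨h1, h2, h3, _, _, h6⟩ := hv
    have h7 := ih h6
    classical
    unfold cnt
    have h8 : (if ch S v then 1 else 0) ≤ (if ch' S v then 1 else 0) := by
      by_cases hc : ch S v
      · rw [if_pos hc, if_pos (h S h1 h2 v h3 hc)]
      · rw [if_neg hc]
        exact Nat.zero_le _
    omega

open Classical in
theorem card_le_of_runs {d : ℕ} (ch : Finset (Finset (Fin n)) → Fin n → Prop) {β : ℝ}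
    (hβ0 : 0 < β) (hβ1 : β ≤ 1)
    (hch : ∀ S : Finset (Finset (Fin n)),
      ((univ.filter (fun v : Fin n => ch S v)).card : ℝ) ≤ β * n)
    (j s : ℕ) (S : Finset (Finset (Fin n))) (𝒦 : Finset (Finset (Finset (Fin n))))
    (h : ∀ K ∈ 𝒦, ∃ vs : List (Fin n), vs.length = j ∧ run d S vs = K ∧ s ≤ cnt d ch S vs) :
    (𝒦.card : ℝ) ≤ β ^ s * (2 * n) ^ j := by
  induction j generalizing s S 𝒦 with
  | zero =>
    rcases 𝒦.eq_empty_or_nonempty with rfl | ⟨K, hK⟩
    · rw [Finset.card_empty, Nat.cast_zero]
      positivity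
    · obtain ⟨vs, hvs, _, hs⟩ := h K hK
      rw [List.length_eq_zero_iff] at hvs
      subst hvs
      have hs0 : s = 0 := Nat.le_zero.1 hs
      subst hs0
      have hsub : 𝒦 ⊆ {S} := by
        intro K' hK'
        obtain ⟨vs, hvs, hr, _⟩ := h K' hK'
        rw [List.length_eq_zero_iff] at hvs
        subst hvs
        rw [Finset.mem_singleton]
        exact hr.symm
      have := Finset.card_le_card hsub
      rw [Finset.card_singleton] at this
      rw [pow_zero, pow_zero, mul_one]
      exact_mod_cast this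
  | succ j ih =>
    set F : Fin n → Finset (Finset (Finset (Fin n))) := fun v => 𝒦.filter (fun K =>
      ∃ vs : List (Fin n), vs.length = j ∧ run d (step d S v) vs = K ∧
        s ≤ (if ch S v then 1 else 0) + cnt d ch (step d S v) vs) with hF
    have hsub : 𝒦 ⊆ univ.biUnion F := by
      intro K hK
      obtain ⟨vs, hvs, hr, hs⟩ := h K hK
      cases vs with
      | nil => simp at hvs
      | cons v vs =>
        rw [Finset.mem_biUnion]
        refine ⟨v, Finset.mem_univ v, ?_⟩
        rw [hF, Finset.mem_filter]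
        exact ⟨hK, vs, by simpa using hvs, hr, hs⟩
    have h1 : (𝒦.card : ℝ) ≤ ∑ v, ((F v).card : ℝ) := by
      have := (Finset.card_le_card hsub).trans Finset.card_biUnion_le
      exact_mod_cast this
    refine h1.trans ?_
    have hn : (0 : ℝ) ≤ n := Nat.cast_nonneg n
    have hp : (0 : ℝ) ≤ (2 * n) ^ j := by positivity
    rcases Nat.eq_zero_or_pos s with rfl | hs
    · have h2 : ∀ v ∈ (univ : Finset (Fin n)), ((F v).card : ℝ) ≤ (2 * n) ^ j := by
        intro v _
        have := ih 0 (step d S v) (F v) (by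
          intro K hK
          rw [hF, Finset.mem_filter] at hK
          obtain ⟨_, vs, hvs, hr, _⟩ := hK
          exact ⟨vs, hvs, hr, Nat.zero_le _⟩)
        rwa [pow_zero, one_mul] at this
      refine (Finset.sum_le_sum h2).trans ?_
      rw [Finset.sum_const, Finset.card_univ, Fintype.card_fin, nsmul_eq_mul, pow_zero, one_mul,
        pow_succ]
      nlinarith
    · obtain ⟨t, rfl⟩ : ∃ t, s = t + 1 := ⟨s - 1, by omega⟩
      have h2 : ∀ v ∈ (univ : Finset (Fin n)), ((F v).card : ℝ) ≤
          β ^ (t + 1) * (2 * n) ^ j + (if ch S v then β ^ t * (2 * n) ^ j else 0) := by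
        intro v _
        by_cases hc : ch S v
        · rw [if_pos hc]
          have := ih t (step d S v) (F v) (by
            intro K hK
            rw [hF, Finset.mem_filter] at hK
            obtain ⟨_, vs, hvs, hr, hs'⟩ := hK
            rw [if_pos hc] at hs'
            exact ⟨vs, hvs, hr, by omega⟩)
          have h3 : 0 ≤ β ^ (t + 1) * (2 * (n : ℝ)) ^ j := by positivity
          linarith
        · rw [if_neg hc, add_zero]
          refine ih (t + 1) (step d S v) (F v) (fun K hK => ?_)
          rw [hF, Finset.mem_filter] at hK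
          obtain ⟨_, vs, hvs, hr, hs'⟩ := hK
          rw [if_neg hc] at hs'
          exact ⟨vs, hvs, hr, by omega⟩
      refine (Finset.sum_le_sum h2).trans ?_
      rw [Finset.sum_add_distrib, Finset.sum_const, Finset.card_univ, Fintype.card_fin,
        nsmul_eq_mul, ← Finset.sum_filter, Finset.sum_const, nsmul_eq_mul]
      have h4 : ((univ.filter (fun v : Fin n => ch S v)).card : ℝ) * (β ^ t * (2 * n) ^ j) ≤
          β * n * (β ^ t * (2 * n) ^ j) :=
        mul_le_mul_of_nonneg_right (hch S) (by positivity)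
      calc (n : ℝ) * (β ^ (t + 1) * (2 * n) ^ j) +
          ((univ.filter (fun v : Fin n => ch S v)).card : ℝ) * (β ^ t * (2 * n) ^ j) ≤
          (n : ℝ) * (β ^ (t + 1) * (2 * n) ^ j) + β * n * (β ^ t * (2 * n) ^ j) := by linarith
        _ = β ^ (t + 1) * (2 * n) ^ (j + 1) := by ring

end Pool.Agent.Lib.P0fb
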