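import Mathlib
import Pool.Agent.Lib.P0fb.Defs

/-!
# Heavy sets: levels

`lev 0 = cov d K`; `lev (j+1)` = the sets `π` with `d - (j+1)` elements such that
`insert v π ∈ lev j` for at least `θ (j+1)` elements `v ∉ π`.  `HH` = the union of the levels
`1, .., d`.  All statements follow from the definition and double counting
(`lev_count`: each `ρ ∈ lev j` has `d - j` subsets `ρ.erase v`).
-/

namespace Pool.Agent.Lib.P0fb

open Finset

variable {n : ℕ}

open Classical in
/-- the heavy sets of level `j` -/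
noncomputable def lev (d : ℕ) (K : Finset (Finset (Fin n))) (θ : ℕ → ℕ) :
    ℕ → Finset (Finset (Fin n))
  | 0 => cov d K
  | j + 1 => (univ.powersetCard (d - (j + 1))).filter (fun π =>
      θ (j + 1) ≤ (univ.filter (fun v : Fin n => v ∉ π ∧ insert v π ∈ lev d K θ j)).card)

/-- the heavy sets of the levels `1, .., d` -/
noncomputable def HH (d : ℕ) (K : Finset (Finset (Fin n))) (θ : ℕ → ℕ) :
    Finset (Finset (Fin n)) := (range d).biUnion (fun j => lev d K θ (j + 1))

theorem lev_card {d : ℕ} {K : Finset (Finset (Fin n))} {θ : ℕ → ℕ} {j : ℕ}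
    {π : Finset (Fin n)} (h : π ∈ lev d K θ j) : π.card = d - j := by
  cases j with
  | zero =>
    rw [lev, cov, mem_biUnion] at h
    obtain ⟨σ, _, h⟩ := h
    rw [Nat.sub_zero]
    exact (mem_powersetCard.1 h).2
  | succ j =>
    rw [lev, mem_filter] at h
    exact (mem_powersetCard.1 h.1).2

theorem cov_card_le {d : ℕ} {K : Finset (Finset (Fin n))} (hK : ∀ σ ∈ K, σ.card = d + 1) :
    (cov d K).card ≤ (d + 1) * K.card := by
  unfold cov
  refine card_biUnion_le.trans ?_
  rw [mul_comm]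
  refine (Finset.sum_le_card_nsmul K _ (d + 1) fun σ hσ => ?_).trans (le_of_eq (by simp))
  rw [card_powersetCard, hK σ hσ, Nat.choose_succ_self_right]

theorem lev_count {d : ℕ} (K : Finset (Finset (Fin n))) (θ : ℕ → ℕ) {j : ℕ} (hj : j < d) :
    (lev d K θ (j + 1)).card * θ (j + 1) ≤ d * (lev d K θ j).card := by
  classical
  set F : Finset (Fin n) → Finset (Fin n) := fun π =>
    univ.filter (fun v : Fin n => v ∉ π ∧ insert v π ∈ lev d K θ j) with hF
  have h1 : (lev d K θ (j + 1)).card * θ (j + 1) ≤ ∑ π ∈ lev d K θ (j + 1), (F π).card := by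
    rw [← smul_eq_mul]
    refine Finset.card_nsmul_le_sum _ _ _ fun π hπ => ?_
    rw [lev, mem_filter] at hπ
    exact hπ.2
  have h2 : ∑ π ∈ lev d K θ (j + 1), (F π).card = ((lev d K θ (j + 1)).sigma F).card := by
    rw [card_sigma]
  have h3 : ((lev d K θ (j + 1)).sigma F).card ≤
      ((lev d K θ j).sigma (fun ρ => ρ)).card := by
    refine Finset.card_le_card_of_injOn (fun x => ⟨insert x.2 x.1, x.2⟩) ?_ ?_
    · rintro ⟨π, v⟩ h
      rw [Finset.mem_coe, mem_sigma] at h
      have h4 := (mem_filter.1 h.2).2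
      rw [Finset.mem_coe, mem_sigma]
      exact ⟨h4.2, mem_insert_self _ _⟩
    · rintro ⟨π, v⟩ h ⟨π', v'⟩ h' heq
      rw [Finset.mem_coe, mem_sigma] at h h'
      have h4 := (mem_filter.1 h.2).2
      have h5 := (mem_filter.1 h'.2).2
      simp only [Sigma.mk.injEq, heq_eq_eq] at heq
      obtain ⟨e1, e2⟩ := heq
      subst e2
      have h6 : v ∉ π := h4.1
      have h7 : v ∉ π' := h5.1
      have : π = π' := by
        rw [← erase_insert h6, e1, erase_insert h7]
      subst this
      rfl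
  have h4 : ((lev d K θ j).sigma (fun ρ => ρ)).card ≤ d * (lev d K θ j).card := by
    rw [card_sigma, mul_comm]
    refine (Finset.sum_le_card_nsmul _ _ d fun ρ hρ => ?_).trans (le_of_eq (by simp))
    rw [lev_card hρ]
    exact Nat.sub_le _ _
  exact h1.trans (h2.le.trans (h3.trans h4))

theorem HH_card_lt {d : ℕ} {K : Finset (Finset (Fin n))} {θ : ℕ → ℕ} {π : Finset (Fin n)}
    (h : π ∈ HH d K θ) : π.card < d := by
  rw [HH, mem_biUnion] at h
  obtain ⟨j, hj, h⟩ := h
  rw [mem_range] at hj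
  have := lev_card h
  omega

theorem mem_lev_of_HH {d : ℕ} {K : Finset (Finset (Fin n))} {θ : ℕ → ℕ} {π : Finset (Fin n)}
    (h : π ∈ HH d K θ) : π ∈ lev d K θ (d - π.card) := by
  rw [HH, mem_biUnion] at h
  obtain ⟨j, hj, h⟩ := h
  rw [mem_range] at hj
  have h1 := lev_card h
  have h2 : d - π.card = j + 1 := by omega
  rw [h2]
  exact h

/-- few extensions of a light set stay heavy or covered -/
theorem few_ext {d : ℕ} {K S : Finset (Finset (Fin n))} (hS : S ⊆ K) {θ : ℕ → ℕ}
    {π : Finset (Fin n)} (hπ : π ∉ HH d K θ) (hc : π.card < d) :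
    (univ.filter (fun v : Fin n => v ∉ π ∧ insert v π ∈ HH d K θ ∪ cov d S)).card <
      θ (d - π.card) := by
  classical
  obtain ⟨j, hj⟩ : ∃ j, d - π.card = j + 1 := ⟨d - π.card - 1, by omega⟩
  rw [hj]
  have h1 : π ∉ lev d K θ (j + 1) := by
    intro h
    apply hπ
    rw [HH, mem_biUnion]
    exact ⟨j, mem_range.2 (by omega), h⟩
  rw [lev, mem_filter, not_and, not_le] at h1
  have h2 := h1 (mem_powersetCard.2 ⟨subset_univ _, by omega⟩)
  refine lt_of_le_of_lt (card_le_card ?_) h2
  intro v hv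
  rw [mem_filter] at hv ⊢
  refine ⟨mem_univ _, hv.2.1, ?_⟩
  have hcard : (insert v π).card = π.card + 1 := card_insert_of_notMem hv.2.1
  rcases mem_union.1 hv.2.2 with h | h
  · have h3 := mem_lev_of_HH h
    rw [hcard] at h3
    have h4 : d - (π.card + 1) = j := by omega
    rwa [h4] at h3
  · rw [cov, mem_biUnion] at h
    obtain ⟨σ, hσ, h⟩ := h
    have h3 := (mem_powersetCard.1 h).2
    have h4 : j = 0 := by omega
    rw [h4, lev, cov, mem_biUnion]
    exact ⟨σ, hS hσ, h⟩

end Pool.Agent.Lib.P0fb
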