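import Mathlib
import Pool.Agent.Lib.P0fb.HeavyA

/-!
# The number of the bad `d`-sets

Let `τ` have `d` elements and two different minimal subsets `π, π'` in `H = HH d K θ`, say
`|π| ≥ |π'|`, `|π| = d - j`.  `1 ≤ j` (`HH_card_lt`) and `j ≤ d - 1` (`∅ ∉ H`).  `π' ⊄ π` (not equal,
and a proper subset of `π` is not in `H`), so there is `v ∈ π' \ π`; `ω = π'.erase v ∉ H`,
`|ω| = |π'| - 1 ≤ d - (j+1)`, and `insert v ω = π' ∈ H`: by `few_ext` the number of such `v` is
`< θ (d - |ω|) ≤ θ (j+1)` (`θ` antitone).  So `τ = insert v τ'` with `τ' = τ.erase v`, `π ⊆ τ'`,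
`|τ'| = d - 1`, `ω ⊆ τ'`.  Count: `π ∈ lev j`, `τ'` is the union of `π` and a set of `j - 1` elements
(at most `n^(j-1)` choices), `ω` a subset of `τ'` (at most `2^(d-1)` choices), `v`: at most
`θ (j+1)` choices.
-/

namespace Pool.Agent.Lib.P0fb

open Finset

open Classical in
theorem bad_count {n d : ℕ} (hd : 2 ≤ d) (K : Finset (Finset (Fin n))) (θ : ℕ → ℕ)
    (hθ : ∀ i j : ℕ, 1 ≤ i → i ≤ j → θ j ≤ θ i) (h0 : ∅ ∉ HH d K θ) :
    ((cov d K).filter (fun τ => badT (HH d K θ) τ)).card ≤
      ∑ j ∈ Icc 1 (d - 1), (lev d K θ j).card * n ^ (j - 1) * 2 ^ d * θ (j + 1) := by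
  set H := HH d K θ with hH
  let T : ℕ → Finset (Finset (Fin n)) := fun j =>
    ((lev d K θ j) ×ˢ (univ : Finset (Fin (j - 1) → Fin n))).biUnion fun p =>
      ((p.1 ∪ univ.image p.2).powerset.filter fun ω => ω ∉ H ∧ ω.card + (j + 1) ≤ d).biUnion fun ω =>
        (univ.filter fun v : Fin n => v ∉ ω ∧ insert v ω ∈ H).image fun v =>
          insert v (p.1 ∪ univ.image p.2)
  have hT : ∀ j, 1 ≤ j → j ≤ d - 1 → (T j).card ≤
      (lev d K θ j).card * n ^ (j - 1) * 2 ^ d * θ (j + 1) := by
    intro j hj1 hj2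
    refine card_biUnion_le.trans ?_
    have h1 : ∀ p ∈ (lev d K θ j) ×ˢ (univ : Finset (Fin (j - 1) → Fin n)),
        (((p.1 ∪ univ.image p.2).powerset.filter fun ω => ω ∉ H ∧ ω.card + (j + 1) ≤ d).biUnion
          fun ω => (univ.filter fun v : Fin n => v ∉ ω ∧ insert v ω ∈ H).image fun v =>
          insert v (p.1 ∪ univ.image p.2)).card ≤ 2 ^ d * θ (j + 1) := by
      intro p hp
      have hp1 : p.1.card = d - j := lev_card (mem_product.1 hp).1
      have hp2 : (univ.image p.2).card ≤ j - 1 := by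
        refine card_image_le.trans ?_
        simp
      refine card_biUnion_le.trans ?_
      have h2 : ∀ ω ∈ (p.1 ∪ univ.image p.2).powerset.filter fun ω => ω ∉ H ∧ ω.card + (j + 1) ≤ d,
          ((univ.filter fun v : Fin n => v ∉ ω ∧ insert v ω ∈ H).image fun v =>
            insert v (p.1 ∪ univ.image p.2)).card ≤ θ (j + 1) := by
        intro ω hω
        rw [mem_filter] at hω
        obtain ⟨-, hω1, hω2⟩ := hω
        refine card_image_le.trans ?_
        have h3 := few_ext (S := ∅) (K := K) (empty_subset _) (θ := θ) hω1 (by omega)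
        have h4 : (univ.filter fun v : Fin n => v ∉ ω ∧ insert v ω ∈ H).card ≤
            (univ.filter fun v : Fin n => v ∉ ω ∧ insert v ω ∈ HH d K θ ∪ cov d ∅).card := by
          apply card_le_card
          intro v hv
          rw [mem_filter] at hv ⊢
          exact ⟨hv.1, hv.2.1, mem_union_left _ hv.2.2⟩
        have h5 : θ (d - ω.card) ≤ θ (j + 1) := hθ _ _ (by omega) (by omega)
        omega
      refine (sum_le_sum h2).trans ?_
      rw [sum_const, smul_eq_mul]
      apply Nat.mul_le_mul_right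
      refine (card_filter_le _ _).trans ?_
      rw [card_powerset]
      apply Nat.pow_le_pow_right (by norm_num)
      have := card_union_le p.1 (univ.image p.2)
      omega
    refine (sum_le_sum h1).trans ?_
    rw [sum_const, smul_eq_mul, card_product, card_univ, Fintype.card_fun, Fintype.card_fin,
      Fintype.card_fin]
    apply le_of_eq
    ring
  have hsub : (cov d K).filter (fun τ => badT H τ) ⊆ (Icc 1 (d - 1)).biUnion T := by
    intro τ hτ
    rw [mem_filter] at hτ
    obtain ⟨hτc, hb⟩ := hτ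
    have hτd : τ.card = d := by
      unfold cov at hτc
      simp only [mem_biUnion, mem_powersetCard] at hτc
      obtain ⟨σ, _, _, h⟩ := hτc
      exact h
    have hb' : ∃ π π' : Finset (Fin n), π ⊆ τ ∧ π' ⊆ τ ∧ π ≠ π' ∧ π ∈ H ∧ π' ∈ H ∧
        (∀ ρ : Finset (Fin n), ρ ⊂ π → ρ ∉ H) ∧ (∀ ρ : Finset (Fin n), ρ ⊂ π' → ρ ∉ H) ∧
        π'.card ≤ π.card := by
      obtain ⟨π, π', h1, h2, h3, h4, h5, h6, h7⟩ := hb
      rcases le_total π'.card π.card with h | h
      · exact ⟨π, π', h1, h2, h3, h4, h5, h6, h7, h⟩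
      · exact ⟨π', π, h2, h1, h3.symm, h5, h4, h7, h6, h⟩
    obtain ⟨π, π', h1, h2, h3, h4, h5, h6, h7, h8⟩ := hb'
    have hπd : π.card < d := HH_card_lt h4
    have hπ0 : 0 < π.card := by
      rw [card_pos, nonempty_iff_ne_empty]
      rintro rfl
      exact h0 h4
    have hlev : π ∈ lev d K θ (d - π.card) := mem_lev_of_HH h4
    obtain ⟨v, hv1, hv2⟩ : ∃ v ∈ π', v ∉ π := by
      by_contra hno
      push Not at hno
      have hss : π' ⊂ π := by
        rw [ssubset_iff_subset_ne]
        exact ⟨fun v hv => hno v hv, h3.symm⟩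
      exact h6 π' hss h5
    have hvτ : v ∈ τ := h2 hv1
    have hπ'c : (π'.erase v).card = π'.card - 1 := card_erase_of_mem hv1
    have hπ'p : 0 < π'.card := card_pos.2 ⟨v, hv1⟩
    rw [mem_biUnion]
    refine ⟨d - π.card, by rw [mem_Icc]; omega, ?_⟩
    have hsd : ((τ.erase v) \ π).card = d - π.card - 1 := by
      rw [card_sdiff_of_subset, card_erase_of_mem hvτ, hτd]
      · omega
      · intro x hx
        rw [mem_erase]
        exact ⟨fun hxv => hv2 (hxv ▸ hx), h1 hx⟩
    have hpi : π ⊆ τ.erase v := by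
      intro x hx
      rw [mem_erase]
      exact ⟨fun hxv => hv2 (hxv ▸ hx), h1 hx⟩
    let f : Fin (d - π.card - 1) → Fin n := fun i => ((τ.erase v) \ π).orderEmbOfFin hsd i
    have hf : univ.image f = (τ.erase v) \ π := by
      ext x
      rw [mem_image]
      constructor
      · rintro ⟨i, -, rfl⟩
        exact orderEmbOfFin_mem _ hsd i
      · intro hx
        have := range_orderEmbOfFin ((τ.erase v) \ π) hsd
        have hx' : x ∈ Set.range (((τ.erase v) \ π).orderEmbOfFin hsd) := by
          rw [this]; exact hx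
        obtain ⟨i, hi⟩ := hx'
        exact ⟨i, mem_univ _, hi⟩
    have hun : π ∪ univ.image f = τ.erase v := by
      rw [hf, union_sdiff_of_subset hpi]
    simp only [T, mem_biUnion]
    refine ⟨(π, f), ?_, π'.erase v, ?_, ?_⟩
    · rw [mem_product]
      exact ⟨hlev, mem_univ _⟩
    · rw [mem_filter, mem_powerset]
      refine ⟨?_, ?_, ?_⟩
      · show π'.erase v ⊆ π ∪ univ.image f
        rw [hun]
        exact erase_subset_erase v h2
      · exact h7 _ (erase_ssubset hv1)
      · omega
    · rw [mem_image]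
      refine ⟨v, ?_, ?_⟩
      · rw [mem_filter]
        refine ⟨mem_univ _, notMem_erase v _, ?_⟩
        rw [insert_erase hv1]
        exact h5
      · show insert v (π ∪ univ.image f) = τ
        rw [hun, insert_erase hvτ]
  calc _ ≤ ((Icc 1 (d - 1)).biUnion T).card := card_le_card hsub
    _ ≤ ∑ j ∈ Icc 1 (d - 1), (T j).card := card_biUnion_le
    _ ≤ _ := sum_le_sum fun j hj => by
      rw [mem_Icc] at hj
      exact hT j hj.1 hj.2

end Pool.Agent.Lib.P0fb
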