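import Mathlib
import Pool.Agent.Lib.P0fb.HeavyB

/-!
# Choice of the thresholds

Take `η : ℕ → ℝ` positive, antitone, `η 1 ≤ β/2`, `η 1 ≤ 1`, and
`η (j+1) ≤ γ * η 1 * .. * η j / (2 d * d^j * (d+1) * 2^d)` for `1 ≤ j ≤ d - 1`;
`θ j = ⌈η j * n⌉₊`, so `η j * n ≤ θ j ≤ 2 * η j * n` as soon as `η j * n ≥ 1`.
By `lev_count` and `cov_card_le`, `|lev j| * θ 1 * .. * θ j ≤ d^j (d+1) |K|`.
* `∅ ∉ HH`: `∅ ∈ HH` means `∅ ∈ lev d`, so `θ d ≤ |lev (d-1)|` and
  `θ 1 * .. * θ d ≤ d^(d-1) (d+1) |K|`; excluded for `|K| ≤ ε n^d`,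
  `ε = η 1 * .. * η d / (2 d^(d-1) (d+1))`.
* `|HH| * n ≤ ∑_{j=1}^d |lev j| n ≤ C |K|` because `|lev j| ≤ d^j (d+1) |K| / (η 1 .. η j n^j)`.
* `few_ext`, `θ` antitone: `≤ θ 1 ≤ 2 η 1 n ≤ β n`.
* `bad_count`: each summand is `≤ d^j (d+1) |K| 2^d (2 η (j+1)) / (η 1 .. η j) ≤ γ |K| / d`.
-/

namespace Pool.Agent.Lib.P0fb

open Finset Filter

/-- the thresholds and their products -/
private theorem exists_eta (β A : ℝ) (hβ : 0 < β) (hA : 0 < A) : ∃ η P : ℕ → ℝ,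
    (∀ j, 0 < η j) ∧ (∀ j, 0 < P j) ∧ P 0 = 1 ∧ (∀ j, P (j + 1) = P j * η (j + 1)) ∧
    (∀ i j, i ≤ j → η j ≤ η i) ∧ η 0 ≤ β / 2 ∧ ∀ j, η (j + 1) ≤ A * P j := by
  let F : ℕ → ℝ × ℝ := fun j => Nat.rec (β / 2, 1)
    (fun _ p => (min p.1 (A * p.2), p.2 * min p.1 (A * p.2))) j
  have hF0 : F 0 = (β / 2, 1) := rfl
  have hF : ∀ j, F (j + 1) = (min (F j).1 (A * (F j).2), (F j).2 * min (F j).1 (A * (F j).2)) :=
    fun _ => rfl
  have hpos : ∀ j, 0 < (F j).1 ∧ 0 < (F j).2 := by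
    intro j
    induction j with
    | zero =>
      rw [hF0]
      exact ⟨by positivity, one_pos⟩
    | succ j ih =>
      rw [hF]
      obtain ⟨h1, h2⟩ := ih
      have h3 : 0 < min (F j).1 (A * (F j).2) := lt_min h1 (mul_pos hA h2)
      exact ⟨h3, mul_pos h2 h3⟩
  have hanti : Antitone fun j => (F j).1 := by
    refine antitone_nat_of_succ_le fun j => ?_
    rw [hF]
    exact min_le_left _ _
  refine ⟨fun j => (F j).1, fun j => (F j).2, fun j => (hpos j).1, fun j => (hpos j).2, rfl,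
    fun j => ?_, fun i j hij => hanti hij, le_rfl, fun j => ?_⟩
  · show (F (j + 1)).2 = (F j).2 * (F (j + 1)).1
    rw [hF]
  · show (F (j + 1)).1 ≤ A * (F j).2
    rw [hF]
    exact min_le_right _ _

private theorem lev_prod {n d : ℕ} (K : Finset (Finset (Fin n)))
    (hK : ∀ σ ∈ K, σ.card = d + 1) {η P : ℕ → ℝ} (hη : ∀ j, 0 < η j) (hP : ∀ j, 0 < P j)
    (hP0 : P 0 = 1)
    (hPs : ∀ j, P (j + 1) = P j * η (j + 1)) {θ : ℕ → ℕ} (hθ : ∀ j, η j * n ≤ θ j) :
    ∀ j ≤ d, ((lev d K θ j).card : ℝ) * (P j * (n : ℝ) ^ j) ≤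
      (d : ℝ) ^ j * ((d + 1) * (K.card : ℝ)) := by
  intro j
  induction j with
  | zero =>
    intro _
    rw [hP0, pow_zero, pow_zero, mul_one, mul_one, one_mul]
    have h1 := cov_card_le hK
    have h2 : (lev d K θ 0).card = (cov d K).card := by
      rw [lev]
    rw [h2]
    exact_mod_cast h1
  | succ j ih =>
    intro hj
    have h1 := ih (by omega)
    have h2 : ((lev d K θ (j + 1)).card : ℝ) * θ (j + 1) ≤ d * (lev d K θ j).card := by
      exact_mod_cast lev_count K θ (by omega : j < d)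
    have h3 : ((lev d K θ (j + 1)).card : ℝ) * (η (j + 1) * n) ≤ d * (lev d K θ j).card :=
      (mul_le_mul_of_nonneg_left (hθ (j + 1)) (Nat.cast_nonneg _)).trans h2
    have h4 : 0 ≤ P j * (n : ℝ) ^ j := mul_nonneg (hP j).le (by positivity)
    calc ((lev d K θ (j + 1)).card : ℝ) * (P (j + 1) * (n : ℝ) ^ (j + 1))
        = ((lev d K θ (j + 1)).card : ℝ) * (η (j + 1) * n) * (P j * (n : ℝ) ^ j) := by
          rw [hPs, pow_succ]; ring
      _ ≤ d * (lev d K θ j).card * (P j * (n : ℝ) ^ j) := mul_le_mul_of_nonneg_right h3 h4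
      _ = d * ((lev d K θ j).card * (P j * (n : ℝ) ^ j)) := by ring
      _ ≤ d * ((d : ℝ) ^ j * ((d + 1) * (K.card : ℝ))) :=
          mul_le_mul_of_nonneg_left h1 (Nat.cast_nonneg _)
      _ = (d : ℝ) ^ (j + 1) * ((d + 1) * (K.card : ℝ)) := by rw [pow_succ]; ring

open Classical in
theorem heavy (d : ℕ) (hd : 2 ≤ d) (β γ : ℝ) (hβ : 0 < β) (hγ : 0 < γ) :
    ∃ ε C : ℝ, 0 < ε ∧ 0 < C ∧ ∀ᶠ n : ℕ in atTop, ∀ K : Finset (Finset (Fin n)),
      (∀ σ ∈ K, σ.card = d + 1) → (K.card : ℝ) ≤ ε * (n : ℝ) ^ d →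
      ∃ H : Finset (Finset (Fin n)), (∀ π ∈ H, π.card < d) ∧ ∅ ∉ H ∧
        (H.card : ℝ) * n ≤ C * K.card ∧
        (∀ S ⊆ K, ∀ π : Finset (Fin n), π ∉ H → π.card < d →
          ((univ.filter (fun v : Fin n => v ∉ π ∧ insert v π ∈ H ∪ cov d S)).card : ℝ) ≤ β * n) ∧
        (((cov d K).filter (fun τ => badT H τ)).card : ℝ) ≤ γ * K.card := by
  have hd0 : (0 : ℝ) < d := by exact_mod_cast (by omega : 0 < d)
  obtain ⟨η, P, hη, hP, hP0, hPs, hanti, hη0, hηP⟩ :=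
    exists_eta β (γ / (d * 2 ^ (d + 1) * (d : ℝ) ^ d * (d + 1))) hβ (by positivity)
  set A : ℝ := γ / (d * 2 ^ (d + 1) * (d : ℝ) ^ d * (d + 1)) with hA
  have hApos : 0 < A := by rw [hA]; positivity
  have hPd := hP d
  refine ⟨P d / (2 * (d : ℝ) ^ d * (d + 1)), ∑ j ∈ range d, (d : ℝ) ^ (j + 1) * (d + 1) / P (j + 1),
    by positivity, ?_, ?_⟩
  · refine Finset.sum_pos (fun j _ => ?_) ⟨0, by rw [mem_range]; omega⟩
    have := hP (j + 1)
    positivity
  obtain ⟨n₀, hn₀⟩ := exists_nat_ge (1 / η d)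
  filter_upwards [eventually_ge_atTop (n₀ + 1)] with n hn K hK hKc
  have hn1 : (1 : ℝ) ≤ n := by exact_mod_cast (by omega : 1 ≤ n)
  have hnpos : (0 : ℝ) < n := by linarith
  have hηn : ∀ j ≤ d, 1 ≤ η j * n := by
    intro j hj
    have h1 : 1 / η d ≤ n := hn₀.trans (by exact_mod_cast (by omega : n₀ ≤ n))
    have h2 : 1 ≤ η d * n := by
      rw [div_le_iff₀ (hη d)] at h1
      linarith
    exact h2.trans (mul_le_mul_of_nonneg_right (hanti j d hj) hnpos.le)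
  set θ : ℕ → ℕ := fun j => ⌈η j * n⌉₊ with hθdef
  have hθ : ∀ j, η j * n ≤ θ j := fun j => Nat.le_ceil _
  have hθ2 : ∀ j ≤ d, (θ j : ℝ) ≤ 2 * (η j * n) := by
    intro j hj
    have h1 : (θ j : ℝ) < η j * n + 1 := Nat.ceil_lt_add_one (by have := hη j; positivity)
    have h2 := hηn j hj
    linarith
  have hθanti : ∀ i j : ℕ, 1 ≤ i → i ≤ j → θ j ≤ θ i := by
    intro i j _ hij
    exact Nat.ceil_mono (mul_le_mul_of_nonneg_right (hanti i j hij) hnpos.le)
  have hlev := lev_prod K hK hη hP hP0 hPs hθ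
  have hempty : ∅ ∉ HH d K θ := by
    intro hmem
    have h1 := mem_lev_of_HH hmem
    rw [card_empty, Nat.sub_zero] at h1
    have h2 : (1 : ℝ) ≤ (lev d K θ d).card := by
      exact_mod_cast Finset.card_pos.2 ⟨_, h1⟩
    have h3 := hlev d le_rfl
    have h4 : P d * (n : ℝ) ^ d ≤ (d : ℝ) ^ d * ((d + 1) * (K.card : ℝ)) := by
      refine le_trans ?_ h3
      exact le_mul_of_one_le_left (by positivity) h2
    have h5 : (d : ℝ) ^ d * ((d + 1) * (K.card : ℝ)) ≤ P d * (n : ℝ) ^ d / 2 := by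
      calc (d : ℝ) ^ d * ((d + 1) * (K.card : ℝ))
          ≤ (d : ℝ) ^ d * ((d + 1) * (P d / (2 * (d : ℝ) ^ d * (d + 1)) * (n : ℝ) ^ d)) := by
            refine mul_le_mul_of_nonneg_left ?_ (by positivity)
            exact mul_le_mul_of_nonneg_left hKc (by positivity)
        _ = P d * (n : ℝ) ^ d / 2 := by field_simp
    have h6 : 0 < P d * (n : ℝ) ^ d := by positivity
    linarith
  refine ⟨HH d K θ, fun π hπ => HH_card_lt hπ, hempty, ?_, ?_, ?_⟩
  · have h1 : ((HH d K θ).card : ℝ) ≤ ∑ j ∈ range d, ((lev d K θ (j + 1)).card : ℝ) := by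
      have : (HH d K θ).card ≤ ∑ j ∈ range d, (lev d K θ (j + 1)).card := by
        unfold HH
        convert Finset.card_biUnion_le
      exact_mod_cast this
    have h2 : ∀ j ∈ range d, ((lev d K θ (j + 1)).card : ℝ) * n ≤
        (d : ℝ) ^ (j + 1) * (d + 1) / P (j + 1) * K.card := by
      intro j hj
      rw [mem_range] at hj
      have h3 := hlev (j + 1) (by omega)
      have h4 := hP (j + 1)
      have h5 : (n : ℝ) ≤ (n : ℝ) ^ (j + 1) := le_self_pow₀ hn1 (by omega)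
      calc ((lev d K θ (j + 1)).card : ℝ) * n
          ≤ ((lev d K θ (j + 1)).card : ℝ) * (n : ℝ) ^ (j + 1) :=
            mul_le_mul_of_nonneg_left h5 (Nat.cast_nonneg _)
        _ = ((lev d K θ (j + 1)).card : ℝ) * (P (j + 1) * (n : ℝ) ^ (j + 1)) / P (j + 1) := by
            field_simp
        _ ≤ (d : ℝ) ^ (j + 1) * ((d + 1) * (K.card : ℝ)) / P (j + 1) :=
            div_le_div_of_nonneg_right h3 h4.le
        _ = (d : ℝ) ^ (j + 1) * (d + 1) / P (j + 1) * K.card := by ring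
    calc ((HH d K θ).card : ℝ) * n ≤ (∑ j ∈ range d, ((lev d K θ (j + 1)).card : ℝ)) * n :=
          mul_le_mul_of_nonneg_right h1 hnpos.le
      _ = ∑ j ∈ range d, ((lev d K θ (j + 1)).card : ℝ) * n := Finset.sum_mul _ _ _
      _ ≤ ∑ j ∈ range d, (d : ℝ) ^ (j + 1) * (d + 1) / P (j + 1) * K.card := sum_le_sum h2
      _ = (∑ j ∈ range d, (d : ℝ) ^ (j + 1) * (d + 1) / P (j + 1)) * K.card :=
          (Finset.sum_mul _ _ _).symm
  · intro S hS π hπ hπc
    have h1 := few_ext hS hπ hπc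
    have h2 : (((univ.filter (fun v : Fin n => v ∉ π ∧ insert v π ∈ HH d K θ ∪ cov d S)).card : ℕ)
        : ℝ) ≤ θ (d - π.card) := by
      have h3 : (univ.filter (fun v : Fin n => v ∉ π ∧ insert v π ∈ HH d K θ ∪ cov d S)).card ≤
          θ (d - π.card) := by
        refine le_trans (le_of_eq ?_) h1.le
        congr!
      exact_mod_cast h3
    refine h2.trans ((hθ2 _ (Nat.sub_le _ _)).trans ?_)
    have h3 : η (d - π.card) ≤ β / 2 := (hanti 0 _ (Nat.zero_le _)).trans hη0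
    nlinarith
  · have h1 := bad_count hd K θ hθanti hempty
    have h2 : (((cov d K).filter (fun τ => badT (HH d K θ) τ)).card : ℝ) ≤
        ∑ j ∈ Icc 1 (d - 1), ((lev d K θ j).card : ℝ) * (n : ℝ) ^ (j - 1) * 2 ^ d * θ (j + 1) := by
      exact_mod_cast h1
    refine h2.trans ?_
    have h3 : ∀ j ∈ Icc 1 (d - 1), ((lev d K θ j).card : ℝ) * (n : ℝ) ^ (j - 1) * 2 ^ d * θ (j + 1)
        ≤ γ * K.card / d := by
      intro j hj
      rw [mem_Icc] at hj
      have h4 : (θ (j + 1) : ℝ) ≤ 2 * (A * P j * n) :=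
        (hθ2 (j + 1) (by omega)).trans (by
          have := mul_le_mul_of_nonneg_right (hηP j) hnpos.le
          linarith)
      have h5 := hlev j (by omega)
      have h6 : (n : ℝ) ^ j = (n : ℝ) ^ (j - 1) * n := by
        rw [← pow_succ]
        congr 1
        omega
      calc ((lev d K θ j).card : ℝ) * (n : ℝ) ^ (j - 1) * 2 ^ d * θ (j + 1)
          ≤ ((lev d K θ j).card : ℝ) * (n : ℝ) ^ (j - 1) * 2 ^ d * (2 * (A * P j * n)) :=
            mul_le_mul_of_nonneg_left h4 (by positivity)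
        _ = 2 ^ (d + 1) * A * (((lev d K θ j).card : ℝ) * (P j * (n : ℝ) ^ j)) := by
            rw [h6, pow_succ]; ring
        _ ≤ 2 ^ (d + 1) * A * ((d : ℝ) ^ j * ((d + 1) * (K.card : ℝ))) :=
            mul_le_mul_of_nonneg_left h5 (by positivity)
        _ ≤ 2 ^ (d + 1) * A * ((d : ℝ) ^ d * ((d + 1) * (K.card : ℝ))) := by
            refine mul_le_mul_of_nonneg_left ?_ (by positivity)
            refine mul_le_mul_of_nonneg_right ?_ (by positivity)
            exact pow_le_pow_right₀ (by exact_mod_cast (by omega : 1 ≤ d)) (by omega)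
        _ = γ * K.card / d := by
            rw [hA]
            field_simp
    refine (sum_le_sum h3).trans ?_
    rw [sum_const, Nat.card_Icc, nsmul_eq_mul]
    have h7 : ((d - 1 + 1 - 1 : ℕ) : ℝ) ≤ d := by exact_mod_cast (by omega : d - 1 + 1 - 1 ≤ d)
    have h8 : 0 ≤ γ * K.card / d := by positivity
    calc ((d - 1 + 1 - 1 : ℕ) : ℝ) * (γ * K.card / d) ≤ d * (γ * K.card / d) :=
          mul_le_mul_of_nonneg_right h7 h8
      _ = γ * K.card := by field_simp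

end Pool.Agent.Lib.P0fb
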