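import Mathlib
import Pool.Agent.Lib.P0fb.Defs

/-!
# The potential argument: a positive proportion of the steps of an exploration is cheap

`P(S)` = the `d`-sets `τ ∈ uns d S` no subset of which belongs to `H`; `B(S)` = the `τ ∈ cov d K`
with `badT H τ` that are covered at most once by `S`.  Claim, by induction on `vs`:
`Valid d K S vs → |P(S)| + vs.length ≤ (d+2) * cnt d (ch0 d H) S vs + |B(S)|`.
End: `S = K`, a core covers nothing exactly once, `P(K) = ∅`.
Step with `τ = pick d S ∈ uns d S`, `v ∉ τ`, `σ' = insert v τ ∈ K \ S`, `S' = insert σ' S`.  The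
`d`-subsets of `σ'` are `τ` (covered once by `S`, twice by `S'`) and `τ_u = insert v (τ.erase u)`,
`u ∈ τ`; only these change.
* cheap step: `|P(S')| ≥ |P(S)| - (d+1)`, `B(S') ⊆ B(S)`.
* not cheap: (*) every `π ⊂ τ` with `π ∉ H` has `insert v π ∉ H ∪ cov d S`.  Let `u ∈ τ` be such
  that no subset of `τ.erase u` is in `H`.  Then `τ_u ∉ cov d S` by (*) for `π = τ.erase u`, and no
  subset of `τ_u` is in `H` (a subset is a subset `ρ` of `τ.erase u` or `insert v ρ` with
  `ρ ⊆ τ.erase u`, use (*)).  So `τ_u ∈ P(S') \ P(S)`.  If on the other hand `τ_u ∈ P(S)`, then no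
  subset of `τ.erase u` is in `H` and `τ_u ∈ cov d S`, a contradiction; so nothing but possibly
  `τ` itself leaves `P`.
  - no subset of `τ` is in `H`: `τ` leaves `P`, all `d ≥ 2` sets `τ_u` enter: `|P(S')| ≥ |P(S)|+1`.
  - `τ` has a subset in `H` but not `badT H τ`: there is exactly one minimal `π₀ ⊆ τ` in `H`,
    `π₀ ≠ ∅` as `∅ ∉ H`; `τ ∉ P(S)`; for `u ∈ π₀` no subset of `τ.erase u` is in `H` (it would
    contain a minimal one, different from `π₀`), so `τ_u` enters: `|P(S')| ≥ |P(S)| + 1`.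
  - `badT H τ`: `|P(S')| ≥ |P(S)|` and `|B(S')| ≤ |B(S)| - 1` (`τ` is covered once by `S` and
    twice by `S'`, and `τ ∈ cov d K`).
At the start `|B({g})| ≤ |{τ ∈ cov d K : badT H τ}|`.
-/

namespace Pool.Agent.Lib.P0fb

open Finset

private theorem mem_cov {n d : ℕ} {K : Finset (Finset (Fin n))} {τ : Finset (Fin n)} :
    τ ∈ cov d K ↔ ∃ σ ∈ K, τ ⊆ σ ∧ τ.card = d := by
  simp [cov, Finset.mem_biUnion, Finset.mem_powersetCard]

private theorem mem_uns {n d : ℕ} {S : Finset (Finset (Fin n))} {τ : Finset (Fin n)} :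
    τ ∈ uns d S ↔ τ.card = d ∧ (S.filter (fun σ => τ ⊆ σ)).card = 1 := by
  unfold uns
  rw [Finset.mem_filter, mem_cov]
  constructor
  · rintro ⟨⟨σ, _, _, h⟩, h1⟩
    exact ⟨h, h1⟩
  · rintro ⟨h, h1⟩
    refine ⟨?_, h1⟩
    obtain ⟨σ, hσ⟩ := Finset.card_pos.1 (by rw [h1]; exact one_pos :
      0 < (S.filter (fun σ => τ ⊆ σ)).card)
    exact ⟨σ, (Finset.mem_filter.1 hσ).1, (Finset.mem_filter.1 hσ).2, h⟩

private theorem pick_mem {n d : ℕ} {S : Finset (Finset (Fin n))} (h : (uns d S).Nonempty) :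
    pick d S ∈ uns d S := by
  unfold pick
  rw [dif_pos h]
  exact h.choose_spec

private theorem exists_minH {n : ℕ} {H : Finset (Finset (Fin n))} {ρ : Finset (Fin n)}
    (hρ : ρ ∈ H) : ∃ π ∈ H, π ⊆ ρ ∧ ∀ ρ' : Finset (Fin n), ρ' ⊂ π → ρ' ∉ H := by
  obtain ⟨π, hπ, hmin⟩ := (H.filter (fun π => π ⊆ ρ)).exists_min_image Finset.card
    ⟨ρ, Finset.mem_filter.2 ⟨hρ, Finset.Subset.refl _⟩⟩
  obtain ⟨h1, h2⟩ := Finset.mem_filter.1 hπ
  refine ⟨π, h1, h2, fun ρ' hρ' h => ?_⟩
  have h3 := hmin ρ' (Finset.mem_filter.2 ⟨h, hρ'.1.trans h2⟩)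
  have h4 := Finset.card_lt_card hρ'
  omega

/-- the `d`-sets covered once without a subset in `H` -/
private def PP' (n d : ℕ) (H S : Finset (Finset (Fin n))) : Finset (Finset (Fin n)) :=
  (uns d S).filter (fun τ => ∀ ρ ∈ H, ¬ ρ ⊆ τ)

private theorem mem_PP' {n d : ℕ} {H S : Finset (Finset (Fin n))} {τ : Finset (Fin n)} :
    τ ∈ PP' n d H S ↔ τ.card = d ∧ (S.filter (fun σ => τ ⊆ σ)).card = 1 ∧ ∀ ρ ∈ H, ¬ ρ ⊆ τ := by
  unfold PP'
  rw [Finset.mem_filter, mem_uns, and_assoc]

private theorem cv_in {n : ℕ} {S : Finset (Finset (Fin n))} {σ τ : Finset (Fin n)} (hσ : σ ∉ S)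
    (h : τ ⊆ σ) : ((insert σ S).filter (fun x => τ ⊆ x)).card =
      (S.filter (fun x => τ ⊆ x)).card + 1 := by
  rw [Finset.filter_insert, if_pos h, Finset.card_insert_of_notMem]
  exact fun h' => hσ (Finset.mem_filter.1 h').1

private theorem cv_out {n : ℕ} {S : Finset (Finset (Fin n))} {σ τ : Finset (Fin n)}
    (h : ¬ τ ⊆ σ) : ((insert σ S).filter (fun x => τ ⊆ x)).card =
      (S.filter (fun x => τ ⊆ x)).card := by
  rw [Finset.filter_insert, if_neg h]

private theorem cheap_le {n d : ℕ} {H S : Finset (Finset (Fin n))} {σ : Finset (Fin n)}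
    (hσ : σ.card = d + 1) :
    (PP' n d H S).card ≤ (PP' n d H (insert σ S)).card + (d + 1) := by
  have hsub : PP' n d H S ⊆ PP' n d H (insert σ S) ∪ σ.powersetCard d := by
    intro τ hτ
    rw [mem_PP'] at hτ
    rw [Finset.mem_union, mem_PP', Finset.mem_powersetCard]
    by_cases h : τ ⊆ σ
    · exact Or.inr ⟨h, hτ.1⟩
    · left
      rw [cv_out h]
      exact hτ
  refine (Finset.card_le_card hsub).trans ((Finset.card_union_le _ _).trans ?_)
  rw [Finset.card_powersetCard, hσ, Nat.choose_succ_self_right]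

private theorem facet {n d : ℕ} {τ τ' : Finset (Fin n)} {v : Fin n} (hτ : τ.card = d) (hv : v ∉ τ)
    (h : τ' ⊆ insert v τ) (hc : τ'.card = d) : τ' = τ ∨ ∃ u ∈ τ, τ' = insert v (τ.erase u) := by
  by_cases hv' : v ∈ τ'
  · right
    have h1 : τ'.erase v ⊆ τ := by
      intro x hx
      obtain ⟨h2, h3⟩ := Finset.mem_erase.1 hx
      rcases Finset.mem_insert.1 (h h3) with h4 | h4
      · exact absurd h4 h2
      · exact h4
    have h2 : (τ'.erase v).card + 1 = d := by rw [Finset.card_erase_add_one hv', hc]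
    have h3 : (τ'.erase v).card < τ.card := by omega
    obtain ⟨u, hu, hu'⟩ := Finset.exists_mem_notMem_of_card_lt_card h3
    refine ⟨u, hu, ?_⟩
    have h4 : τ'.erase v = τ.erase u := by
      apply Finset.eq_of_subset_of_card_le
      · intro x hx
        refine Finset.mem_erase.2 ⟨?_, h1 hx⟩
        rintro rfl
        exact hu' hx
      · have := Finset.card_erase_add_one hu
        omega
    rw [← h4, Finset.insert_erase hv']
  · left
    apply Finset.eq_of_subset_of_card_le
    · intro x hx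
      rcases Finset.mem_insert.1 (h hx) with h4 | h4
      · rw [h4] at hx
        exact absurd hx hv'
      · exact h4
    · omega

private theorem dear_le {n d : ℕ} {H S : Finset (Finset (Fin n))} {τ : Finset (Fin n)} {v : Fin n}
    (hτ : τ ∈ uns d S) (hv : v ∉ τ) (hS : insert v τ ∉ S)
    (hdear : ∀ π : Finset (Fin n), π ⊂ τ → π ∉ H → insert v π ∉ H ∧ insert v π ∉ cov d S) :
    ((PP' n d H S).erase τ).card + (τ.filter (fun u => ∀ ρ ∈ H, ¬ ρ ⊆ τ.erase u)).card ≤
      (PP' n d H (insert (insert v τ) S)).card := by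
  have hτc := (mem_uns.1 hτ).1
  -- the new facets
  have hnew : ∀ u ∈ τ, (∀ ρ ∈ H, ¬ ρ ⊆ τ.erase u) → insert v (τ.erase u) ∉ cov d S ∧
      insert v (τ.erase u) ∈ PP' n d H (insert (insert v τ) S) := by
    intro u hu hH
    have hss : τ.erase u ⊂ τ := Finset.erase_ssubset hu
    have h1 := (hdear _ hss (fun h => hH _ h (Finset.Subset.refl _))).2
    have hve : v ∉ τ.erase u := fun h => hv (Finset.mem_of_mem_erase h)
    have hcard : (insert v (τ.erase u)).card = d := by
      rw [Finset.card_insert_of_notMem hve, Finset.card_erase_add_one hu, hτc]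
    have hsub : insert v (τ.erase u) ⊆ insert v τ :=
      Finset.insert_subset_insert _ (Finset.erase_subset _ _)
    refine ⟨h1, mem_PP'.2 ⟨hcard, ?_, ?_⟩⟩
    · rw [cv_in hS hsub]
      have h2 : (S.filter (fun x => insert v (τ.erase u) ⊆ x)).card = 0 := by
        rw [Finset.card_eq_zero, Finset.filter_eq_empty_iff]
        intro σ hσ hsub'
        exact h1 (mem_cov.2 ⟨σ, hσ, hsub', hcard⟩)
      rw [h2]
    · intro ρ hρ hρs
      by_cases hvρ : v ∈ ρ
      · have h3 : ρ.erase v ⊆ τ.erase u := by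
          intro x hx
          obtain ⟨h4, h5⟩ := Finset.mem_erase.1 hx
          rcases Finset.mem_insert.1 (hρs h5) with h6 | h6
          · exact absurd h6 h4
          · exact h6
        have h4 : ρ.erase v ⊂ τ := lt_of_le_of_lt h3 hss
        have h5 := (hdear _ h4 (fun h => hH _ h h3)).1
        rw [Finset.insert_erase hvρ] at h5
        exact h5 hρ
      · refine hH ρ hρ fun x hx => ?_
        rcases Finset.mem_insert.1 (hρs hx) with h6 | h6
        · rw [h6] at hx
          exact absurd hx hvρ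
        · exact h6
  have hinj : Set.InjOn (fun u => insert v (τ.erase u))
      (τ.filter (fun u => ∀ ρ ∈ H, ¬ ρ ⊆ τ.erase u) : Set (Fin n)) := by
    intro u hu u' hu' h
    have hu1 := (Finset.mem_filter.1 (Finset.mem_coe.1 hu)).1
    by_contra hne
    have h1 : u ∈ insert v (τ.erase u') :=
      Finset.mem_insert_of_mem (Finset.mem_erase.2 ⟨hne, hu1⟩)
    have h2 : u ∈ insert v (τ.erase u) := by
      have h' : insert v (τ.erase u) = insert v (τ.erase u') := h
      rw [h']
      exact h1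
    rcases Finset.mem_insert.1 h2 with h3 | h3
    · rw [h3] at hu1
      exact hv hu1
    · exact (Finset.notMem_erase _ _) h3
  have hdisj : Disjoint ((PP' n d H S).erase τ)
      ((τ.filter (fun u => ∀ ρ ∈ H, ¬ ρ ⊆ τ.erase u)).image (fun u => insert v (τ.erase u))) := by
    rw [Finset.disjoint_left]
    intro τ' h1 h2
    obtain ⟨u, hu, rfl⟩ := Finset.mem_image.1 h2
    obtain ⟨hu1, hu2⟩ := Finset.mem_filter.1 hu
    have h3 := (hnew u hu1 hu2).1
    have h4 := mem_PP'.1 (Finset.mem_of_mem_erase h1)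
    have h5 := mem_uns.2 ⟨h4.1, h4.2.1⟩
    exact h3 (Finset.mem_filter.1 h5).1
  rw [← Finset.card_image_of_injOn hinj, ← Finset.card_union_of_disjoint hdisj]
  refine Finset.card_le_card (Finset.union_subset ?_ ?_)
  · intro τ' hτ'
    obtain ⟨hne, hP⟩ := Finset.mem_erase.1 hτ'
    have hP' := mem_PP'.1 hP
    by_cases hsub : τ' ⊆ insert v τ
    · exfalso
      rcases facet hτc hv hsub hP'.1 with h | ⟨u, hu, h⟩
      · exact hne h
      · have h1 := (hnew u hu (fun ρ hρ hρs => hP'.2.2 ρ hρ (by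
          rw [h]
          exact hρs.trans (Finset.subset_insert _ _)))).1
        rw [← h] at h1
        have h5 := mem_uns.2 ⟨hP'.1, hP'.2.1⟩
        exact h1 (Finset.mem_filter.1 h5).1
    · rw [mem_PP', cv_out hsub]
      exact hP'
  · intro τ' hτ'
    obtain ⟨u, hu, rfl⟩ := Finset.mem_image.1 hτ'
    obtain ⟨hu1, hu2⟩ := Finset.mem_filter.1 hu
    exact (hnew u hu1 hu2).2

open Classical in
private theorem pot_aux {n d : ℕ} (hd : 2 ≤ d) {K H : Finset (Finset (Fin n))} (hK : Core d K)
    (h0 : ∅ ∉ H) (vs : List (Fin n)) : ∀ S : Finset (Finset (Fin n)), Valid d K S vs →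
    (PP' n d H S).card + vs.length ≤ (d + 2) * cnt d (ch0 d H) S vs +
      ((cov d K).filter (fun τ => badT H τ ∧ (S.filter (fun σ => τ ⊆ σ)).card ≤ 1)).card := by
  induction vs with
  | nil =>
    intro S hS
    have hS' : S = K := hS
    subst hS'
    have he : PP' n d H S = ∅ := by
      rw [Finset.eq_empty_iff_forall_notMem]
      intro τ hτ
      have h1 := mem_PP'.1 hτ
      obtain ⟨σ, hσ⟩ := Finset.card_eq_one.1 h1.2.1
      have hσ1 : σ ∈ S.filter (fun σ => τ ⊆ σ) := by
        rw [hσ]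
        exact Finset.mem_singleton_self _
      obtain ⟨hσS, hτσ⟩ := Finset.mem_filter.1 hσ1
      have hσc := hK.1 σ hσS
      have hlt : τ.card < σ.card := by omega
      obtain ⟨u, hu, hu'⟩ := Finset.exists_mem_notMem_of_card_lt_card hlt
      obtain ⟨σ', hσ', hne, hsub⟩ := hK.2 σ hσS u hu
      have h2 : σ' ∈ S.filter (fun σ => τ ⊆ σ) := by
        refine Finset.mem_filter.2 ⟨hσ', fun x hx => hsub (Finset.mem_erase.2 ⟨?_, hτσ hx⟩)⟩
        rintro rfl
        exact hu' hx
      rw [hσ, Finset.mem_singleton] at h2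
      exact hne h2
    rw [he]
    simp
  | cons v vs ih =>
    intro S hS
    obtain ⟨hSK, hne, hvp, hin, hnin, hval⟩ := hS
    have hτ := pick_mem hne
    obtain ⟨τ, hτe⟩ : ∃ τ, τ = pick d S := ⟨_, rfl⟩
    have hstep : step d S v = insert (insert v τ) S := by rw [hτe]; rfl
    have hIH := ih _ hval
    rw [hstep] at hIH
    rw [← hτe] at hτ hvp hin hnin
    have hτ' := mem_uns.1 hτ
    simp only [cnt, List.length_cons]
    rw [hstep]
    -- the bad sets
    have hBsub : (cov d K).filter (fun τ' => badT H τ' ∧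
          ((insert (insert v τ) S).filter (fun σ => τ' ⊆ σ)).card ≤ 1) ⊆
        (cov d K).filter (fun τ' => badT H τ' ∧ (S.filter (fun σ => τ' ⊆ σ)).card ≤ 1) := by
      intro τ' h
      obtain ⟨h1, h2, h3⟩ := Finset.mem_filter.1 h
      refine Finset.mem_filter.2 ⟨h1, h2, le_trans (Finset.card_le_card ?_) h3⟩
      exact Finset.filter_subset_filter _ (Finset.subset_insert _ _)
    have hB := Finset.card_le_card hBsub
    by_cases hch : ch0 d H S v
    · rw [if_pos hch]
      have h1 := cheap_le (H := H) (S := S) (hK.1 _ hin)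
      have h2 : (d + 2) * (1 + cnt d (ch0 d H) (insert (insert v τ) S) vs) =
          (d + 2) + (d + 2) * cnt d (ch0 d H) (insert (insert v τ) S) vs := by ring
      omega
    · rw [if_neg hch, zero_add]
      have hdear : ∀ π : Finset (Fin n), π ⊂ τ → π ∉ H →
          insert v π ∉ H ∧ insert v π ∉ cov d S := by
        intro π hπ hπH
        constructor
        · intro h
          exact hch ⟨π, hτe ▸ hπ, hπH, Finset.mem_union_left _ h⟩
        · intro h
          exact hch ⟨π, hτe ▸ hπ, hπH, Finset.mem_union_right _ h⟩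
      have hD := dear_le hτ hvp hnin hdear
      by_cases hsubH : ∀ ρ ∈ H, ¬ ρ ⊆ τ
      · -- no subset of `τ` in `H`
        have hU : τ.filter (fun u => ∀ ρ ∈ H, ¬ ρ ⊆ τ.erase u) = τ := by
          rw [Finset.filter_true_of_mem]
          intro u _ ρ hρ h
          exact hsubH ρ hρ (h.trans (Finset.erase_subset _ _))
        rw [hU, hτ'.1] at hD
        have hmem : τ ∈ PP' n d H S := mem_PP'.2 ⟨hτ'.1, hτ'.2, hsubH⟩
        have := Finset.card_erase_add_one hmem
        omega
      · have hnm : τ ∉ PP' n d H S := fun h => hsubH (mem_PP'.1 h).2.2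
        rw [Finset.erase_eq_of_notMem hnm] at hD
        by_cases hbad : badT H τ
        · have hmem1 : τ ∈ (cov d K).filter (fun τ' => badT H τ' ∧
              (S.filter (fun σ => τ' ⊆ σ)).card ≤ 1) := by
            refine Finset.mem_filter.2 ⟨?_, hbad, hτ'.2.le⟩
            obtain ⟨σ, hσ, h1, h2⟩ := mem_cov.1 (Finset.mem_filter.1 hτ).1
            exact mem_cov.2 ⟨σ, hSK hσ, h1, h2⟩
          have hmem2 : τ ∉ (cov d K).filter (fun τ' => badT H τ' ∧
              ((insert (insert v τ) S).filter (fun σ => τ' ⊆ σ)).card ≤ 1) := by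
            intro h
            have h1 := (Finset.mem_filter.1 h).2.2
            rw [cv_in hnin (Finset.subset_insert _ _), hτ'.2] at h1
            omega
          have hlt := Finset.card_lt_card
            (Finset.ssubset_iff_subset_ne.2 ⟨hBsub, fun e => hmem2 (by rw [e]; exact hmem1)⟩)
          omega
        · -- exactly one minimal subset
          push Not at hsubH
          obtain ⟨ρ, hρ, hρτ⟩ := hsubH
          obtain ⟨π₀, h1, h2, h3⟩ := exists_minH hρ
          have hπne : π₀.Nonempty := by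
            rw [Finset.nonempty_iff_ne_empty]
            rintro rfl
            exact h0 h1
          obtain ⟨u, hu⟩ := hπne
          have hpos : 0 < (τ.filter (fun u => ∀ ρ ∈ H, ¬ ρ ⊆ τ.erase u)).card := by
            rw [Finset.card_pos]
            refine ⟨u, Finset.mem_filter.2 ⟨hρτ (h2 hu), fun ρ' hρ' hs => ?_⟩⟩
            obtain ⟨π', h4, h5, h6⟩ := exists_minH hρ'
            refine hbad ⟨π₀, π', h2.trans hρτ, (h5.trans hs).trans (Finset.erase_subset _ _), ?_,
              h1, h4, h3, h6⟩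
            rintro rfl
            exact (Finset.notMem_erase _ _) (hs (h5 hu))
          omega

open Classical in
theorem potential {n d : ℕ} (hd : 2 ≤ d) {K H : Finset (Finset (Fin n))} (hK : Core d K)
    (hH : ∀ π ∈ H, π.card < d) (h0 : ∅ ∉ H) {g : Finset (Fin n)} (hg : g ∈ K)
    {vs : List (Fin n)} (hv : Valid d K {g} vs) :
    vs.length ≤ (d + 2) * cnt d (ch0 d H) {g} vs + ((cov d K).filter (fun τ => badT H τ)).card := by
  have h1 := pot_aux hd hK h0 vs {g} hv
  have h2 : ((cov d K).filter (fun τ => badT H τ ∧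
      (({g} : Finset (Finset (Fin n))).filter (fun σ => τ ⊆ σ)).card ≤ 1)).card ≤
      ((cov d K).filter (fun τ => badT H τ)).card := by
    apply Finset.card_le_card
    intro τ hτ
    obtain ⟨h3, h4, _⟩ := Finset.mem_filter.1 hτ
    exact Finset.mem_filter.2 ⟨h3, h4⟩
  omega

end Pool.Agent.Lib.P0fb
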