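import Mathlib
import Pool.Agent.Lib.P0fb.Expl
import Pool.Agent.Lib.P0fb.Pot
import Pool.Agent.Lib.P0fb.HeavyC

/-!
# The number of large minimal cores

Apply `heavy` with `β' = β / 2^d` and `γ = 1/4`.  Let `K` be a minimal core at `g`, `|K| = k`,
`4 ≤ k ≤ ε n^d`, `H = H(K)` as in `heavy`, and `vs` a valid exploration.  By `potential`
`k - 1 ≤ (d+2) cnt + k/4`, so `k/(2(d+2)) ≤ cnt`.  For fixed `H` use `card_le_of_runs` with
`ch S v := ∃ π ⊂ pick d S, π ∉ H ∧ insert v π ∈ H ∪ cov d S ∧ v ∉ π ∧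
   #{w ∉ π | insert w π ∈ H ∪ cov d S} ≤ β' n`,
which holds for at most `2^d β' n = β n` elements `v` (note `|pick d S| ≤ d` always: a member of
`uns d S` has `d` elements), and agrees with `ch0 d H S v` (`v ∉ pick d S`) along a valid
exploration of `K` (`π ⊂ pick d S` has less than `d` elements; `cnt_mono_valid`).  The number of the
families `H` of sets with less than `d` elements and `|H| ≤ q := ⌊C k / n⌋` is at most
`(n+2)^(d q)` (the number of the sets with less than `d` elements plus one is at most `(n+2)^d`, and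
a family of at most `q` elements is the image of a map from `Fin q` to `Option`), and
`(n+2)^(d C k/n) ≤ 2^k` for large `n` (`C d log (n+2) ≤ n log 2` eventually).
-/

namespace Pool.Agent.Lib.P0fb

open Finset Filter

namespace CntLargeAux

theorem sum_choose_le (a q : ℕ) : ∑ i ∈ range (q + 1), a.choose i ≤ (a + 1) ^ q := by
  induction q with
  | zero => simp
  | succ q ih =>
    have h1 : a.choose (q + 1) ≤ a * a.choose q := by
      calc a.choose (q + 1) ≤ a.choose (q + 1) * (q + 1) := Nat.le_mul_of_pos_right _ (by omega)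
        _ = a.choose q * (a - q) := Nat.choose_succ_right_eq a q
        _ ≤ a.choose q * a := Nat.mul_le_mul_left _ (Nat.sub_le a q)
        _ = a * a.choose q := Nat.mul_comm _ _
    have h2 : a.choose q ≤ ∑ i ∈ range (q + 1), a.choose i :=
      Finset.single_le_sum (f := fun i => a.choose i) (fun i _ => Nat.zero_le _)
        (self_mem_range_succ q)
    calc ∑ i ∈ range (q + 1 + 1), a.choose i
        = ∑ i ∈ range (q + 1), a.choose i + a.choose (q + 1) := sum_range_succ _ _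
      _ ≤ ∑ i ∈ range (q + 1), a.choose i + a * ∑ i ∈ range (q + 1), a.choose i :=
          Nat.add_le_add_left (h1.trans (Nat.mul_le_mul_left _ h2)) _
      _ = (a + 1) * ∑ i ∈ range (q + 1), a.choose i := by ring
      _ ≤ (a + 1) * (a + 1) ^ q := Nat.mul_le_mul_left _ ih
      _ = (a + 1) ^ (q + 1) := by ring

theorem card_small {α : Type*} [DecidableEq α] (A : Finset α) (q : ℕ) :
    ((range (q + 1)).biUnion (fun i => A.powersetCard i)).card ≤ (A.card + 1) ^ q := by
  refine (card_biUnion_le).trans ?_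
  simp only [card_powersetCard]
  exact sum_choose_le A.card q

theorem log_ev (d : ℕ) (C : ℝ) (hC : 0 < C) :
    ∀ᶠ n : ℕ in atTop, (d : ℝ) * C * Real.log ((n : ℝ) + 2) ≤ n * Real.log 2 := by
  have hl2 : 0 < Real.log 2 := Real.log_pos (by norm_num)
  have hc : 0 < Real.log 2 / (2 * (d * C + 1)) := by positivity
  have h1 := (Real.isLittleO_log_id_atTop).def hc
  have h2 : Tendsto (fun n : ℕ => (n : ℝ) + 2) atTop atTop :=
    tendsto_atTop_add_const_right _ _ tendsto_natCast_atTop_atTop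
  filter_upwards [h2.eventually h1, eventually_ge_atTop 2] with n hn hn2
  have hn2' : (2 : ℝ) ≤ n := by exact_mod_cast hn2
  have h3 : Real.log ((n : ℝ) + 2) ≤ Real.log 2 / (2 * (d * C + 1)) * ((n : ℝ) + 2) := by
    have h4 := (le_abs_self _).trans hn
    simp only [id, Real.norm_eq_abs] at h4
    rwa [abs_of_pos (by linarith : (0 : ℝ) < (n : ℝ) + 2)] at h4
  have h5 : (d : ℝ) * C ≤ d * C + 1 := by linarith
  have h6 : 0 ≤ (d : ℝ) * C := by positivity
  calc (d : ℝ) * C * Real.log ((n : ℝ) + 2)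
      ≤ (d : ℝ) * C * (Real.log 2 / (2 * (d * C + 1)) * ((n : ℝ) + 2)) :=
        mul_le_mul_of_nonneg_left h3 h6
    _ ≤ (d * C + 1) * (Real.log 2 / (2 * (d * C + 1)) * ((n : ℝ) + 2)) :=
        mul_le_mul_of_nonneg_right h5 (by positivity)
    _ = Real.log 2 * (((n : ℝ) + 2) / 2) := by
        field_simp
    _ ≤ Real.log 2 * n := mul_le_mul_of_nonneg_left (by linarith) hl2.le
    _ = n * Real.log 2 := mul_comm _ _

theorem pick_card_le {n d : ℕ} (S : Finset (Finset (Fin n))) : (pick d S).card ≤ d := by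
  unfold pick
  split_ifs with h
  · have h1 := h.choose_spec
    unfold uns cov at h1
    simp only [mem_filter, mem_biUnion, mem_powersetCard] at h1
    obtain ⟨⟨σ, -, -, h2⟩, -⟩ := h1
    exact h2.le
  · simp

theorem pick_card {n d : ℕ} {S : Finset (Finset (Fin n))} (h : (uns d S).Nonempty) :
    (pick d S).card = d := by
  unfold pick
  rw [dif_pos h]
  have h1 := h.choose_spec
  unfold uns cov at h1
  simp only [mem_filter, mem_biUnion, mem_powersetCard] at h1
  obtain ⟨⟨σ, -, -, h2⟩, -⟩ := h1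
  exact h2

open Classical in
/-- cheap steps with few extensions -/
def chb (d : ℕ) (b : ℝ) {n : ℕ} (H S : Finset (Finset (Fin n))) (v : Fin n) : Prop :=
  ∃ π : Finset (Fin n), π ⊂ pick d S ∧ v ∉ π ∧ insert v π ∈ H ∪ cov d S ∧
    ((univ.filter (fun v : Fin n => v ∉ π ∧ insert v π ∈ H ∪ cov d S)).card : ℝ) ≤ b

open Classical in
theorem card_chb (d : ℕ) (b : ℝ) (hb : 0 ≤ b) {n : ℕ} (H S : Finset (Finset (Fin n))) :
    ((univ.filter (fun v : Fin n => chb d b H S v)).card : ℝ) ≤ 2 ^ d * b := by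
  set P := (pick d S).ssubsets.filter (fun π : Finset (Fin n) =>
    ((univ.filter (fun v : Fin n => v ∉ π ∧ insert v π ∈ H ∪ cov d S)).card : ℝ) ≤ b) with hP
  have hsub : univ.filter (fun v : Fin n => chb d b H S v) ⊆
      P.biUnion (fun π => univ.filter (fun v : Fin n => v ∉ π ∧ insert v π ∈ H ∪ cov d S)) := by
    intro v hv
    rw [mem_filter] at hv
    obtain ⟨-, π, h1, h2, h3, h4⟩ := hv
    rw [mem_biUnion]
    exact ⟨π, mem_filter.2 ⟨mem_ssubsets.2 h1, h4⟩, mem_filter.2 ⟨mem_univ _, h2, h3⟩⟩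
  have hPc : (P.card : ℝ) ≤ 2 ^ d := by
    have h1 : P.card ≤ 2 ^ d := by
      calc P.card ≤ (pick d S).ssubsets.card := card_filter_le _ _
        _ ≤ (pick d S).powerset.card := card_le_card (fun x hx =>
            mem_powerset.2 (mem_ssubsets.1 hx).1)
        _ = 2 ^ (pick d S).card := card_powerset _
        _ ≤ 2 ^ d := Nat.pow_le_pow_right (by norm_num) (pick_card_le S)
    exact_mod_cast h1
  calc ((univ.filter (fun v : Fin n => chb d b H S v)).card : ℝ)
      ≤ ((P.biUnion (fun π => univ.filter (fun v : Fin n => v ∉ π ∧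
          insert v π ∈ H ∪ cov d S))).card : ℝ) := by exact_mod_cast card_le_card hsub
    _ ≤ ((∑ π ∈ P, (univ.filter (fun v : Fin n => v ∉ π ∧
          insert v π ∈ H ∪ cov d S)).card : ℕ) : ℝ) := by exact_mod_cast card_biUnion_le
    _ = ∑ π ∈ P, ((univ.filter (fun v : Fin n => v ∉ π ∧
          insert v π ∈ H ∪ cov d S)).card : ℝ) := by push_cast; rfl
    _ ≤ ∑ π ∈ P, b := sum_le_sum fun π hπ => (mem_filter.1 hπ).2
    _ = P.card * b := by rw [sum_const, nsmul_eq_mul]
    _ ≤ 2 ^ d * b := mul_le_mul_of_nonneg_right hPc hb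

open Classical in
/-- `H` works for `K` -/
def Wk (d : ℕ) (b : ℝ) {n : ℕ} (H K : Finset (Finset (Fin n))) : Prop :=
  (∀ π ∈ H, π.card < d) ∧ ∅ ∉ H ∧
    (∀ S ⊆ K, ∀ π : Finset (Fin n), π ∉ H → π.card < d →
      ((univ.filter (fun v : Fin n => v ∉ π ∧ insert v π ∈ H ∪ cov d S)).card : ℝ) ≤ b) ∧
    (((cov d K).filter (fun τ => badT H τ)).card : ℝ) ≤ 1 / 4 * K.card

open Classical in
theorem card_FH (d : ℕ) (hd : 2 ≤ d) (β : ℝ) (hβ : 0 < β) (hβ1 : β < 1) {n : ℕ}
    (g : Finset (Fin n)) (k : ℕ) (hk : 4 ≤ k) (H : Finset (Finset (Fin n)))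
    (𝒦 : Finset (Finset (Finset (Fin n))))
    (h : ∀ K ∈ 𝒦, MinCore d g K ∧ K.card = k ∧ Wk d (β / 2 ^ d * n) H K) :
    (𝒦.card : ℝ) ≤ β ^ (k / (2 * (d + 2))) * (2 * n) ^ (k - 1) := by
  have hb : 0 ≤ β / 2 ^ d * n := by positivity
  refine card_le_of_runs (d := d) (chb d (β / 2 ^ d * n) H) hβ hβ1.le ?_ (k - 1) (k / (2 * (d + 2))) {g} 𝒦 ?_
  · intro S
    refine (card_chb d _ hb H S).trans (le_of_eq ?_)
    field_simp
  · intro K hK
    obtain ⟨hmin, hcard, hW⟩ := h K hK
    obtain ⟨hH, h0, hext, hbad⟩ := hW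
    obtain ⟨vs, hlen, hval⟩ := exists_valid hmin
    refine ⟨vs, by omega, valid_run hval, ?_⟩
    have h1 := potential hd hmin.2.1 hH h0 hmin.1 hval
    have h2 : cnt d (ch0 d H) {g} vs ≤ cnt d (chb d (β / 2 ^ d * n) H) {g} vs := by
      refine cnt_mono_valid ?_ hval
      intro S' hS' hne v hv hch
      obtain ⟨π, hπ, hπH, hins⟩ := hch
      refine ⟨π, hπ, fun hvπ => hv (hπ.1 hvπ), hins, hext S' hS' π hπH ?_⟩
      have := card_lt_card hπ
      rwa [pick_card hne] at this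
    rw [hcard] at hbad
    have h3 : (vs.length : ℝ) ≤ (d + 2) * cnt d (ch0 d H) {g} vs + 1 / 4 * k := by
      calc (vs.length : ℝ) ≤ (((d + 2) * cnt d (ch0 d H) {g} vs +
            ((cov d K).filter (fun τ => badT H τ)).card : ℕ) : ℝ) := by exact_mod_cast h1
        _ = (d + 2) * cnt d (ch0 d H) {g} vs +
            (((cov d K).filter (fun τ => badT H τ)).card : ℝ) := by push_cast; ring
        _ ≤ _ := by linarith
    have h4 : (vs.length : ℝ) = k - 1 := by
      have : vs.length + 1 = k := by omega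
      have : ((vs.length + 1 : ℕ) : ℝ) = k := by exact_mod_cast this
      push_cast at this
      linarith
    have hk' : (4 : ℝ) ≤ k := by exact_mod_cast hk
    have h5 : (k : ℝ) ≤ ((2 * (d + 2) * cnt d (ch0 d H) {g} vs : ℕ) : ℝ) := by
      push_cast
      linarith
    have h6 : k ≤ 2 * (d + 2) * cnt d (ch0 d H) {g} vs := by exact_mod_cast h5
    refine le_trans ?_ h2
    exact Nat.div_le_of_le_mul h6

end CntLargeAux

open CntLargeAux

open Classical in
theorem cntLarge (d : ℕ) (hd : 2 ≤ d) (β : ℝ) (hβ : 0 < β) (hβ1 : β < 1) :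
    ∃ ε : ℝ, 0 < ε ∧ ∀ᶠ n : ℕ in atTop, ∀ (g : Finset (Fin n)) (k : ℕ), 4 ≤ k →
      (k : ℝ) ≤ ε * (n : ℝ) ^ d →
      ((univ.filter (fun K : Finset (Finset (Fin n)) => MinCore d g K ∧ K.card = k)).card : ℝ) ≤
        2 ^ k * β ^ (k / (2 * (d + 2))) * (2 * n) ^ (k - 1) := by
  obtain ⟨ε, C, hε, hC, hev⟩ := heavy d hd (β / 2 ^ d) (1 / 4) (by positivity) (by norm_num)
  refine ⟨ε, hε, ?_⟩
  filter_upwards [hev, log_ev d C hC, eventually_ge_atTop 1] with n hn hl hn1
  intro g k hk hkε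
  have hn0 : (0 : ℝ) < n := by exact_mod_cast hn1
  set q := ⌊C * k / n⌋₊ with hq
  set A : Finset (Finset (Fin n)) :=
    (range (d - 1 + 1)).biUnion (fun i => univ.powersetCard i) with hAdef
  have hA : ∀ π : Finset (Fin n), π.card < d → π ∈ A := by
    intro π hπ
    rw [hAdef, mem_biUnion]
    exact ⟨π.card, by rw [mem_range]; omega, by rw [mem_powersetCard]; exact ⟨subset_univ _, rfl⟩⟩
  have hAcard : A.card + 1 ≤ (n + 2) ^ d := by
    have h1 : A.card ≤ (n + 1) ^ (d - 1) := by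
      have := card_small (univ : Finset (Fin n)) (d - 1)
      rwa [card_univ, Fintype.card_fin] at this
    have h2 : (n + 1) ^ (d - 1) ≤ (n + 2) ^ (d - 1) := Nat.pow_le_pow_left (by omega) _
    have h3 : 1 ≤ (n + 2) ^ (d - 1) := Nat.one_le_pow _ _ (by omega)
    calc A.card + 1 ≤ (n + 2) ^ (d - 1) * 2 := by omega
      _ ≤ (n + 2) ^ (d - 1) * (n + 2) := Nat.mul_le_mul_left _ (by omega)
      _ = (n + 2) ^ (d - 1 + 1) := (pow_succ _ _).symm
      _ = (n + 2) ^ d := by congr 1; omega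
  set 𝓗 : Finset (Finset (Finset (Fin n))) :=
    (range (q + 1)).biUnion (fun i => A.powersetCard i) with h𝓗
  have h𝓗card : (𝓗.card : ℝ) ≤ 2 ^ k := by
    have h1 : 𝓗.card ≤ ((n + 2) ^ d) ^ q :=
      (card_small A q).trans (Nat.pow_le_pow_left hAcard q)
    have h2 : (𝓗.card : ℝ) ≤ ((n : ℝ) + 2) ^ (d * q) := by
      rw [pow_mul]
      exact_mod_cast h1
    refine h2.trans ?_
    have hl0 : 0 ≤ Real.log ((n : ℝ) + 2) := Real.log_nonneg (by linarith)
    have hqle : (q : ℝ) ≤ C * k / n := Nat.floor_le (by positivity)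
    rw [← Real.log_le_log_iff (by positivity) (by positivity), Real.log_pow, Real.log_pow]
    push_cast
    calc (d : ℝ) * q * Real.log ((n : ℝ) + 2)
        ≤ (d : ℝ) * (C * k / n) * Real.log ((n : ℝ) + 2) := by gcongr
      _ = (k / n) * (d * C * Real.log ((n : ℝ) + 2)) := by ring
      _ ≤ (k / n) * (n * Real.log 2) := mul_le_mul_of_nonneg_left hl (by positivity)
      _ = k * Real.log 2 := by field_simp
  set F := univ.filter (fun K : Finset (Finset (Fin n)) => MinCore d g K ∧ K.card = k) with hF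
  have hcover : F ⊆ 𝓗.biUnion (fun H => F.filter (fun K => Wk d (β / 2 ^ d * n) H K)) := by
    intro K hK
    have hK' := (mem_filter.1 hK).2
    obtain ⟨H, h1, h2, h3, h4, h5⟩ := hn K hK'.1.2.1.1 (by rw [hK'.2]; exact hkε)
    rw [mem_biUnion]
    refine ⟨H, ?_, mem_filter.2 ⟨hK, h1, h2, h4, h5⟩⟩
    rw [h𝓗, mem_biUnion]
    refine ⟨H.card, ?_, ?_⟩
    · rw [mem_range, Nat.lt_succ_iff, hq]
      apply Nat.le_floor
      rw [le_div_iff₀ hn0, ← hK'.2]
      exact h3
    · rw [mem_powersetCard]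
      exact ⟨fun π hπ => hA π (h1 π hπ), rfl⟩
  have hFH : ∀ H ∈ 𝓗, ((F.filter (fun K => Wk d (β / 2 ^ d * n) H K)).card : ℝ) ≤
      β ^ (k / (2 * (d + 2))) * (2 * n) ^ (k - 1) := by
    intro H _
    refine card_FH d hd β hβ hβ1 g k hk H _ fun K hK => ?_
    obtain ⟨hK1, hK2⟩ := mem_filter.1 hK
    exact ⟨(mem_filter.1 hK1).2.1, (mem_filter.1 hK1).2.2, hK2⟩
  calc (F.card : ℝ)
      ≤ ((𝓗.biUnion (fun H => F.filter (fun K => Wk d (β / 2 ^ d * n) H K))).card : ℝ) := by
        exact_mod_cast card_le_card hcover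
    _ ≤ ((∑ H ∈ 𝓗, (F.filter (fun K => Wk d (β / 2 ^ d * n) H K)).card : ℕ) : ℝ) := by
        exact_mod_cast card_biUnion_le
    _ = ∑ H ∈ 𝓗, ((F.filter (fun K => Wk d (β / 2 ^ d * n) H K)).card : ℝ) := by
        push_cast; rfl
    _ ≤ ∑ H ∈ 𝓗, β ^ (k / (2 * (d + 2))) * (2 * n) ^ (k - 1) := sum_le_sum hFH
    _ = 𝓗.card * (β ^ (k / (2 * (d + 2))) * (2 * n) ^ (k - 1)) := by
        rw [sum_const, nsmul_eq_mul]
    _ ≤ 2 ^ k * (β ^ (k / (2 * (d + 2))) * (2 * n) ^ (k - 1)) :=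
        mul_le_mul_of_nonneg_right h𝓗card (by positivity)
    _ = _ := by ring

end Pool.Agent.Lib.P0fb
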