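import Mathlib
import Pool.Agent.Lib.P0fb.Defs

/-!
# The number of vertices of a minimal core

`verts`: every vertex `v` of the core `K` lies in at least `d+1` members of `K`: take `σ ∈ K` with
`v ∈ σ` and for each `u ∈ σ.erase v` a member `σ'_u ≠ σ` with `σ.erase u ⊆ σ'_u`; these `d` members
are different from each other (`σ'_u ∩ σ = σ.erase u`) and contain `v`.  Double counting:
`(d+1) |K| ≥ (d+1) |V|`.  If `|K| ≤ |V|`, every vertex lies in exactly `d+1` members.  Take
`v ∈ g`: the members that contain `v` are `g` and the `σ'_u = insert w_u (g.erase u)`,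
`u ∈ g.erase v`, `w_u ∉ g`.  For `u ≠ u'` in `g.erase v` the set `σ'_u.erase u'` contains `v`, so it is
contained in a second member that contains `v`; this is not `g` (`w_u ∉ g`), so it is `σ'_{u''}` with
`w_{u''} = w_u`, and `g \ {u,u'} ⊆ g.erase u''` forces `u'' = u'`: all `w_u` are equal to some
`w = w(v)`.  For `v, v' ∈ g` take `u ∈ g \ {v,v'}` (`d + 1 ≥ 3`): the member containing `g.erase u`
other than `g` is unique (it contains `v`), so `w(v) = w(v')`.  So all `insert w (g.erase u)`,
`u ∈ g`, are in `K`: the boundary `(insert w g).powersetCard (d+1)` of the simplex is a core, is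
contained in `K` and contains `g`; by minimality it is `K`.
-/

namespace Pool.Agent.Lib.P0fb

open Finset

/-- a member containing `σ.erase u` and different from `σ` does not contain `u` -/
theorem smallK_notMem {n d : ℕ} {σ ρ : Finset (Fin n)} (hσ : σ.card = d + 1) (hρ : ρ.card = d + 1)
    {u : Fin n} (hne : ρ ≠ σ) (hsub : σ.erase u ⊆ ρ) : u ∉ ρ := by
  intro hu
  apply hne
  symm
  apply Finset.eq_of_subset_of_card_le
  · intro x hx
    by_cases hxu : x = u
    · rw [hxu]
      exact hu
    · exact hsub (Finset.mem_erase.2 ⟨hxu, hx⟩)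
  · rw [hσ, hρ]

/-- the fan of members around `σ` -/
theorem smallK_fan {n d : ℕ} {K : Finset (Finset (Fin n))} (hK : Core d K) {σ : Finset (Fin n)}
    (hσ : σ ∈ K) {v : Fin n} (hv : v ∈ σ) :
    ∃ F : Fin n → Finset (Fin n), F v = σ ∧ (∀ u ∈ σ, F u ∈ K.filter (fun ρ => v ∈ ρ)) ∧
      (∀ u ∈ σ, u ≠ v → F u ≠ σ ∧ σ.erase u ⊆ F u ∧ u ∉ F u) ∧ Set.InjOn F (σ : Set (Fin n)) := by
  classical
  have h1 : ∀ u : Fin n, ∃ ρ : Finset (Fin n), u ∈ σ → ρ ∈ K ∧ ρ ≠ σ ∧ σ.erase u ⊆ ρ := by
    intro u
    by_cases hu : u ∈ σ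
    · obtain ⟨ρ, a, b, c⟩ := hK.2 σ hσ u hu
      exact ⟨ρ, fun _ => ⟨a, b, c⟩⟩
    · exact ⟨∅, fun h => absurd h hu⟩
  choose f hf using h1
  refine ⟨fun u => if u = v then σ else f u, by simp, ?_, ?_, ?_⟩
  · intro u hu
    by_cases huv : u = v
    · simp only [huv, if_true]
      exact Finset.mem_filter.2 ⟨hσ, hv⟩
    · simp only [huv, if_false]
      obtain ⟨a, b, c⟩ := hf u hu
      exact Finset.mem_filter.2 ⟨a, c (Finset.mem_erase.2 ⟨Ne.symm huv, hv⟩)⟩
  · intro u hu huv
    simp only [huv, if_false]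
    obtain ⟨a, b, c⟩ := hf u hu
    exact ⟨b, c, smallK_notMem (hK.1 σ hσ) (hK.1 _ a) b c⟩
  · intro u hu u' hu' he
    simp only [Finset.mem_coe] at hu hu'
    by_contra hne
    by_cases huv : u = v
    · have hu'v : u' ≠ v := fun h => hne (huv.trans h.symm)
      simp only [huv, if_true, hu'v, if_false] at he
      exact (hf u' hu').2.1 he.symm
    · by_cases hu'v : u' = v
      · simp only [huv, if_false, hu'v, if_true] at he
        exact (hf u hu).2.1 he
      · simp only [huv, if_false, hu'v] at he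
        obtain ⟨a, b, c⟩ := hf u hu
        obtain ⟨a', b', c'⟩ := hf u' hu'
        have h2 := smallK_notMem (hK.1 σ hσ) (hK.1 _ a) b c
        rw [he] at h2
        exact h2 (c' (Finset.mem_erase.2 ⟨hne, hu⟩))

theorem smallK_count {n d : ℕ} {K : Finset (Finset (Fin n))} (hK : Core d K)
    {v : Fin n} (hv : v ∈ K.biUnion id) : d + 1 ≤ (K.filter (fun ρ => v ∈ ρ)).card := by
  classical
  rw [Finset.mem_biUnion] at hv
  obtain ⟨σ, hσ, hvσ⟩ := hv
  simp only [id_eq] at hvσ
  obtain ⟨F, -, hF1, -, hF3⟩ := smallK_fan hK hσ hvσ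
  have h1 : σ.image F ⊆ K.filter (fun ρ => v ∈ ρ) := by
    intro ρ hρ
    rw [Finset.mem_image] at hρ
    obtain ⟨u, hu, rfl⟩ := hρ
    exact hF1 u hu
  have h2 := Finset.card_le_card h1
  rwa [Finset.card_image_of_injOn hF3, hK.1 σ hσ] at h2

theorem smallK_double {n d : ℕ} {K : Finset (Finset (Fin n))} (hK : Core d K) :
    ∑ v ∈ K.biUnion id, (K.filter (fun ρ => v ∈ ρ)).card = K.card * (d + 1) := by
  classical
  simp only [Finset.card_filter]
  rw [Finset.sum_comm]
  have h1 : ∀ ρ ∈ K, ∑ v ∈ K.biUnion id, (if v ∈ ρ then 1 else 0) = d + 1 := by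
    intro ρ hρ
    rw [← Finset.card_filter, ← hK.1 ρ hρ]
    congr 1
    ext v
    simp only [Finset.mem_filter, Finset.mem_biUnion, id_eq]
    exact ⟨fun h => h.2, fun h => ⟨⟨ρ, hρ, h⟩, h⟩⟩
  rw [Finset.sum_congr rfl h1, Finset.sum_const, smul_eq_mul]

theorem verts {n d : ℕ} (hd : 2 ≤ d) {g : Finset (Fin n)} {K : Finset (Finset (Fin n))}
    (h : MinCore d g K) (hne : ∀ w : Fin n, K ≠ (insert w g).powersetCard (d + 1)) :
    (K.biUnion id).card + 1 ≤ K.card := by
  classical
  obtain ⟨hg, hK, hmin⟩ := h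
  by_contra hlt
  have hle : K.card ≤ (K.biUnion id).card := by omega
  have hgc : g.card = d + 1 := hK.1 g hg
  -- every vertex lies in exactly `d + 1` members
  have hex : ∀ v ∈ K.biUnion id, (K.filter (fun ρ => v ∈ ρ)).card = d + 1 := by
    have h1 : ∀ v ∈ K.biUnion id, d + 1 ≤ (K.filter (fun ρ => v ∈ ρ)).card :=
      fun v hv => smallK_count hK hv
    have h2 : ∑ _v ∈ K.biUnion id, (d + 1) = ∑ v ∈ K.biUnion id, (K.filter (fun ρ => v ∈ ρ)).card := by
      apply le_antisymm (Finset.sum_le_sum h1)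
      rw [smallK_double hK, Finset.sum_const, smul_eq_mul]
      exact Nat.mul_le_mul_right _ hle
    intro v hv
    exact ((Finset.sum_eq_sum_iff_of_le h1).1 h2 v hv).symm
  have hgV : ∀ v ∈ g, v ∈ K.biUnion id := fun v hv => Finset.mem_biUnion.2 ⟨g, hg, hv⟩
  -- the members around `v ∈ g`
  have hA : ∀ v ∈ g, ∀ ρ ∈ K, v ∈ ρ → ρ ≠ g → ∃ u ∈ g, u ≠ v ∧ g.erase u ⊆ ρ ∧ u ∉ ρ ∧
      ∀ ρ' ∈ K, v ∈ ρ' → ρ' ≠ g → g.erase u ⊆ ρ' → ρ' = ρ := by
    intro v hv
    obtain ⟨F, hF0, hF1, hF2, hF3⟩ := smallK_fan hK hg hv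
    have h1 : g.image F = K.filter (fun ρ => v ∈ ρ) := by
      apply Finset.eq_of_subset_of_card_le
      · intro ρ hρ
        rw [Finset.mem_image] at hρ
        obtain ⟨u, hu, rfl⟩ := hρ
        exact hF1 u hu
      · rw [hex v (hgV v hv), Finset.card_image_of_injOn hF3, hgc]
    have h2 : ∀ ρ ∈ K, v ∈ ρ → ρ ≠ g → ∃ u ∈ g, u ≠ v ∧ F u = ρ := by
      intro ρ hρ hvρ hρg
      have h3 : ρ ∈ g.image F := by
        rw [h1]
        exact Finset.mem_filter.2 ⟨hρ, hvρ⟩
      rw [Finset.mem_image] at h3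
      obtain ⟨u, hu, hFu⟩ := h3
      refine ⟨u, hu, ?_, hFu⟩
      rintro rfl
      exact hρg (hFu.symm.trans hF0)
    intro ρ hρ hvρ hρg
    obtain ⟨u, hu, huv, hFu⟩ := h2 ρ hρ hvρ hρg
    obtain ⟨a, b, c⟩ := hF2 u hu huv
    rw [hFu] at a b c
    refine ⟨u, hu, huv, b, c, ?_⟩
    intro ρ' hρ' hvρ' hρ'g hsub
    obtain ⟨u', hu', hu'v, hFu'⟩ := h2 ρ' hρ' hvρ' hρ'g
    obtain ⟨a', b', c'⟩ := hF2 u' hu' hu'v
    rw [hFu'] at a' b' c'
    have h4 : u' = u := by
      by_contra hne'
      exact c' (hsub (Finset.mem_erase.2 ⟨hne', hu'⟩))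
    rw [← hFu', ← hFu, h4]
  -- the second member that contains `g.erase u`
  have h1 : ∀ u : Fin n, ∃ ρ : Finset (Fin n), ∃ w : Fin n, u ∈ g →
      ρ ∈ K ∧ ρ ≠ g ∧ w ∉ g ∧ ρ = insert w (g.erase u) := by
    intro u
    by_cases hu : u ∈ g
    · obtain ⟨ρ, hρ, hρg, hsub⟩ := hK.2 g hg u hu
      have h2 : (g.erase u).card = d := by
        rw [Finset.card_erase_of_mem hu, hgc]
        rfl
      have h3 : (ρ \ g.erase u).card = 1 := by
        rw [Finset.card_sdiff_of_subset hsub, h2, hK.1 ρ hρ]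
        omega
      rw [Finset.card_eq_one] at h3
      obtain ⟨w, hw⟩ := h3
      have h4 : w ∈ ρ \ g.erase u := by
        rw [hw]
        exact Finset.mem_singleton_self w
      rw [Finset.mem_sdiff] at h4
      have h5 : ρ = insert w (g.erase u) := by
        ext x
        rw [Finset.mem_insert]
        constructor
        · intro hx
          by_cases hxg : x ∈ g.erase u
          · exact Or.inr hxg
          · left
            have : x ∈ ρ \ g.erase u := Finset.mem_sdiff.2 ⟨hx, hxg⟩
            rw [hw] at this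
            exact Finset.mem_singleton.1 this
        · rintro (rfl | hx)
          · exact h4.1
          · exact hsub hx
      refine ⟨ρ, w, fun _ => ⟨hρ, hρg, ?_, h5⟩⟩
      intro hwg
      have h6 : w ≠ u := by
        rintro rfl
        exact smallK_notMem hgc (hK.1 ρ hρ) hρg hsub h4.1
      exact h4.2 (Finset.mem_erase.2 ⟨h6, hwg⟩)
    · exact ⟨∅, u, fun h => absurd h hu⟩
  choose s w hsw using h1
  -- all the apices agree
  have hw : ∀ u ∈ g, ∀ u' ∈ g, u ≠ u' → w u = w u' := by
    intro u hu u' hu' huu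
    obtain ⟨a, b, c, e⟩ := hsw u hu
    obtain ⟨a', b', c', e'⟩ := hsw u' hu'
    have h2 : ∃ v ∈ g, v ∉ ({u, u'} : Finset (Fin n)) := by
      apply Finset.exists_mem_notMem_of_card_lt_card
      rw [hgc]
      exact lt_of_le_of_lt (Finset.card_le_two) (by omega)
    obtain ⟨v, hv, hvn⟩ := h2
    rw [Finset.mem_insert, Finset.mem_singleton, not_or] at hvn
    have hu's : u' ∈ s u := by
      rw [e]
      exact Finset.mem_insert_of_mem (Finset.mem_erase.2 ⟨Ne.symm huu, hu'⟩)
    have hwu' : w u ≠ u' := by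
      rintro h
      rw [h] at c
      exact c hu'
    obtain ⟨τ, hτ, hτs, hτsub⟩ := hK.2 (s u) a u' hu's
    have hvτ : v ∈ τ := by
      apply hτsub
      rw [e]
      exact Finset.mem_erase.2 ⟨hvn.2, Finset.mem_insert_of_mem (Finset.mem_erase.2 ⟨hvn.1, hv⟩)⟩
    have hwτ : w u ∈ τ := by
      apply hτsub
      rw [e]
      exact Finset.mem_erase.2 ⟨hwu', Finset.mem_insert_self _ _⟩
    have hτg : τ ≠ g := by
      rintro rfl
      exact c hwτ
    obtain ⟨u'', hu'', hu''v, hsub'', hn'', huniq⟩ := hA v hv τ hτ hvτ hτg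
    have h3 : u'' = u' := by
      by_contra h4
      have h5 : u'' ∈ (s u).erase u' ∨ u'' = u := by
        by_cases h6 : u'' = u
        · exact Or.inr h6
        · left
          rw [e]
          exact Finset.mem_erase.2 ⟨h4, Finset.mem_insert_of_mem (Finset.mem_erase.2 ⟨h6, hu''⟩)⟩
      rcases h5 with h5 | h5
      · exact hn'' (hτsub h5)
      · apply hτs
        symm
        apply huniq (s u) a _ b
        · rw [h5, e]
          exact Finset.subset_insert _ _
        · rw [e]
          exact Finset.mem_insert_of_mem (Finset.mem_erase.2 ⟨hvn.1, hv⟩)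
    have h6 : s u' = τ := by
      apply huniq (s u') a' _ b'
      · rw [h3, e']
        exact Finset.subset_insert _ _
      · rw [e']
        exact Finset.mem_insert_of_mem (Finset.mem_erase.2 ⟨hvn.2, hv⟩)
    rw [← h6, e', Finset.mem_insert] at hwτ
    rcases hwτ with h7 | h7
    · exact h7
    · exact absurd (Finset.mem_of_mem_erase h7) c
  -- the boundary of the simplex
  have hgne : g.Nonempty := by
    rw [← Finset.card_pos, hgc]
    omega
  obtain ⟨u0, hu0⟩ := hgne
  obtain ⟨-, -, hw0, -⟩ := hsw u0 hu0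
  have hall : ∀ u ∈ g, insert (w u0) (g.erase u) ∈ K := by
    intro u hu
    obtain ⟨a, -, -, e⟩ := hsw u hu
    have h2 : w u0 = w u := by
      by_cases h3 : u0 = u
      · rw [h3]
      · exact hw u0 hu0 u hu h3
    rw [h2, ← e]
    exact a
  have hins : (insert (w u0) g).card = d + 2 := by
    rw [Finset.card_insert_of_notMem hw0, hgc]
  apply hne (w u0)
  symm
  apply hmin
  · intro τ hτ
    rw [Finset.mem_powersetCard] at hτ
    obtain ⟨hτ1, hτ2⟩ := hτ
    by_cases hwτ : w u0 ∈ τ
    · -- some `u ∈ g` is missing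
      have h2 : ∃ u ∈ insert (w u0) g, u ∉ τ := by
        apply Finset.exists_mem_notMem_of_card_lt_card
        rw [hτ2, hins]
        omega
      obtain ⟨u, hu, huτ⟩ := h2
      have hug : u ∈ g := by
        rw [Finset.mem_insert] at hu
        rcases hu with rfl | hu
        · exact absurd hwτ huτ
        · exact hu
      have h3 : τ = insert (w u0) (g.erase u) := by
        apply Finset.eq_of_subset_of_card_le
        · intro x hx
          have h4 := hτ1 hx
          rw [Finset.mem_insert] at h4 ⊢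
          rcases h4 with h4 | h4
          · exact Or.inl h4
          · right
            refine Finset.mem_erase.2 ⟨?_, h4⟩
            rintro rfl
            exact huτ hx
        · rw [hτ2, Finset.card_insert_of_notMem (fun h4 => hw0 (Finset.mem_of_mem_erase h4)),
            Finset.card_erase_of_mem hug, hgc]
          omega
      rw [h3]
      exact hall u hug
    · have h3 : τ = g := by
        apply Finset.eq_of_subset_of_card_le
        · intro x hx
          have h4 := hτ1 hx
          rw [Finset.mem_insert] at h4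
          rcases h4 with h4 | h4
          · rw [h4] at hx
            exact absurd hx hwτ
          · exact h4
        · rw [hτ2, hgc]
      rw [h3]
      exact hg
  · rw [Finset.mem_powersetCard]
    exact ⟨Finset.subset_insert _ _, hgc⟩
  · refine ⟨fun σ hσ => (Finset.mem_powersetCard.1 hσ).2, ?_⟩
    intro σ hσ u hu
    rw [Finset.mem_powersetCard] at hσ
    obtain ⟨hσ1, hσ2⟩ := hσ
    have h2 : ∃ y ∈ insert (w u0) g, y ∉ σ := by
      apply Finset.exists_mem_notMem_of_card_lt_card
      rw [hσ2, hins]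
      omega
    obtain ⟨y, hy, hyσ⟩ := h2
    refine ⟨insert y (σ.erase u), ?_, ?_, Finset.subset_insert _ _⟩
    · rw [Finset.mem_powersetCard]
      constructor
      · intro x hx
        rw [Finset.mem_insert] at hx
        rcases hx with rfl | hx
        · exact hy
        · exact hσ1 (Finset.mem_of_mem_erase hx)
      · rw [Finset.card_insert_of_notMem (fun h4 => hyσ (Finset.mem_of_mem_erase h4)),
          Finset.card_erase_of_mem hu, hσ2]
        omega
    · intro h3
      apply hyσ
      rw [← h3]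
      exact Finset.mem_insert_self _ _

end Pool.Agent.Lib.P0fb
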