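import Mathlib
import Pool.Agent.Lib.P0fb.Defs

/-!
# The number of the steps of an exploration that use an old vertex

`cnt_chV`: in a valid exploration every step with `v` not an old vertex adds exactly one vertex, the
other steps add no vertex (`pick d S` is contained in a member of `S`).
-/

namespace Pool.Agent.Lib.P0fb

open Finset

theorem pick_mem {n d : ℕ} {S : Finset (Finset (Fin n))} (h : (uns d S).Nonempty) :
    pick d S ∈ uns d S := by
  unfold pick
  rw [dif_pos h]
  exact h.choose_spec

theorem pick_sub {n d : ℕ} {S : Finset (Finset (Fin n))} (h : (uns d S).Nonempty) :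
    pick d S ⊆ S.biUnion id := by
  have h1 := pick_mem h
  unfold uns at h1
  have h2 := (mem_filter.1 h1).1
  unfold cov at h2
  obtain ⟨σ, hσ, hp⟩ := mem_biUnion.1 h2
  intro x hx
  exact mem_biUnion.2 ⟨σ, hσ, (mem_powersetCard.1 hp).1 hx⟩

theorem cnt_chV_aux {n d : ℕ} {K : Finset (Finset (Fin n))} (vs : List (Fin n)) :
    ∀ S : Finset (Finset (Fin n)), Valid d K S vs →
      (K.biUnion id).card + cnt d chV S vs = (S.biUnion id).card + vs.length := by
  classical
  induction vs with
  | nil =>
    intro S hv
    have h1 : S = K := hv
    rw [h1]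
    rfl
  | cons v vs ih =>
    intro S hv
    obtain ⟨h1, h2, h3, h4, h5, h6⟩ := hv
    have h7 := ih _ h6
    have h8 : (step d S v).biUnion id = insert v (S.biUnion id) := by
      unfold step
      rw [biUnion_insert]
      ext x
      have hsub := pick_sub h2
      simp only [id_eq, mem_union, mem_insert]
      constructor
      · rintro ((h | h) | h)
        · exact Or.inl h
        · exact Or.inr (hsub h)
        · exact Or.inr h
      · rintro (h | h)
        · exact Or.inl (Or.inl h)
        · exact Or.inr h
    rw [h8] at h7
    have h9 : cnt d chV S (v :: vs) = (if chV S v then 1 else 0) + cnt d chV (step d S v) vs := by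
      rw [cnt]
    rw [h9, List.length_cons]
    by_cases hc : chV S v
    · have h10 : v ∈ S.biUnion id := hc
      rw [insert_eq_of_mem h10] at h7
      rw [if_pos hc]
      omega
    · have h10 : v ∉ S.biUnion id := hc
      rw [card_insert_of_notMem h10] at h7
      rw [if_neg hc]
      omega

theorem cnt_chV {n d : ℕ} {g : Finset (Fin n)} {K : Finset (Finset (Fin n))}
    (hg : g.card = d + 1) {vs : List (Fin n)} (hv : Valid d K {g} vs) :
    (K.biUnion id).card + cnt d chV {g} vs = d + 1 + vs.length := by
  rw [cnt_chV_aux vs {g} hv, singleton_biUnion, id_eq, hg]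

end Pool.Agent.Lib.P0fb
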