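import Mathlib
import Pool.Agent.Lib.P0fb.Expl
import Pool.Agent.Lib.P0fb.Pot
import Pool.Agent.Lib.P0fb.SmallK
import Pool.Agent.Lib.P0fb.SmallV

/-!
# The number of small minimal cores

Let `K` be a minimal core at `g`, not the boundary of a simplex, `|K| = k`, and `vs` a valid
exploration (`exists_valid`), `vs.length = k - 1`.  The number `b` of the steps with `chV` satisfies
`b = d + 1 + (k-1) - |V| ≥ d + 1` by `cnt_chV`, `verts`, and `(d+2) b ≥ k - 1` by `potential` with
`H = ∅` (no bad sets; `ch0 d ∅ S v` implies `chV S v`, `cnt_mono_valid`).  So `s ≤ b`.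
Apply `card_le_of_runs` with `ch S v := chV S v ∧ (S.biUnion id).card ≤ k + d` and
`β = (k+d)/n`; along the exploration `|V(S)| ≤ |V(K)| ≤ k + d` (`cnt_chV`: `|V(K)| ≤ d + 1 + (k-1)`),
so the two notions agree (`cnt_mono_valid`).
-/

namespace Pool.Agent.Lib.P0fb

open Finset

open Classical in
theorem cntSmall {n d k s : ℕ} (hd : 2 ≤ d) (hn : k + d ≤ n) (hk : 1 ≤ k) (g : Finset (Fin n))
    (hs : s ≤ d + 1 ∨ (d + 2) * s ≤ k - 1) :
    ((univ.filter (fun K : Finset (Finset (Fin n)) => MinCore d g K ∧ K.card = k ∧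
      ∀ w : Fin n, K ≠ (insert w g).powersetCard (d + 1))).card : ℝ) ≤
      (((k + d : ℕ) : ℝ) / n) ^ s * (2 * n) ^ (k - 1) := by
  have hn0 : 0 < n := by omega
  have hnR : (0 : ℝ) < n := by exact_mod_cast hn0
  have hkd : (0 : ℝ) < ((k + d : ℕ) : ℝ) := by exact_mod_cast (by omega : 0 < k + d)
  refine card_le_of_runs (d := d) (fun S v => chV S v ∧ (S.biUnion id).card ≤ k + d)
    (β := ((k + d : ℕ) : ℝ) / n) (by positivity) ?_ ?_ (k - 1) s {g} _ ?_
  · rw [div_le_one hnR]
    exact_mod_cast hn
  · intro S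
    rw [div_mul_cancel₀ _ hnR.ne']
    have h1 : (univ.filter (fun v : Fin n => chV S v ∧ (S.biUnion id).card ≤ k + d)).card ≤
        k + d := by
      by_cases hS : (S.biUnion id).card ≤ k + d
      · refine (Finset.card_le_card ?_).trans hS
        intro v hv
        exact (Finset.mem_filter.1 hv).2.1
      · have : univ.filter (fun v : Fin n => chV S v ∧ (S.biUnion id).card ≤ k + d) = ∅ := by
          rw [Finset.filter_eq_empty_iff]
          intro v _ hv
          exact hS hv.2
        rw [this]
        simp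
    rw [Nat.cast_le]
    convert h1
  · intro K hK
    rw [Finset.mem_filter] at hK
    obtain ⟨-, hmin, hcard, hne⟩ := hK
    obtain ⟨vs, hlen, hval⟩ := exists_valid hmin
    have hgc : g.card = d + 1 := hmin.2.1.1 g hmin.1
    have hV := verts hd hmin hne
    have hcnt := cnt_chV hgc hval
    have hpot := potential hd hmin.2.1 (H := ∅) (by simp) (by simp) hmin.1 hval
    have hbad : ((cov d K).filter (fun τ => badT (∅ : Finset (Finset (Fin n))) τ)).card = 0 := by
      rw [Finset.card_eq_zero, Finset.filter_eq_empty_iff]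
      rintro τ _ ⟨π, π', _, _, _, h, _⟩
      exact absurd h (Finset.notMem_empty _)
    rw [hbad] at hpot
    have hmono := cnt_mono_valid (ch := ch0 d ∅) (ch' := chV) (fun S' hS' hu v hv hc => by
      obtain ⟨π, hπ, _, hmem⟩ := hc
      rw [Finset.empty_union] at hmem
      unfold cov at hmem
      obtain ⟨σ, hσ, hp⟩ := Finset.mem_biUnion.1 hmem
      exact Finset.mem_biUnion.2 ⟨σ, hσ, (Finset.mem_powersetCard.1 hp).1
        (Finset.mem_insert_self _ _)⟩) hval
    have hmono2 := cnt_mono_valid (ch := chV)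
      (ch' := fun S v => chV S v ∧ (S.biUnion id).card ≤ k + d) (fun S' hS' hu v hv hc => by
      refine ⟨hc, ?_⟩
      have h1 : (S'.biUnion id).card ≤ (K.biUnion id).card :=
        Finset.card_le_card (Finset.biUnion_subset_biUnion_of_subset_left _ hS')
      omega) hval
    refine ⟨vs, by omega, valid_run hval, le_trans ?_ hmono2⟩
    rcases hs with hs | hs
    · omega
    · have h2 : (d + 2) * s ≤ (d + 2) * cnt d chV {g} vs := by
        refine le_trans hs ?_
        have h3 := Nat.mul_le_mul_left (d + 2) hmono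
        omega
      exact Nat.le_of_mul_le_mul_left h2 (by omega)

end Pool.Agent.Lib.P0fb
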