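import Mathlib
import Pool.Agent.Lib.P0fb.Defs

/-!
# The boundary map and the closure of the simplicial matroid over a field
-/

namespace Pool.Agent.Lib.P0fb

open Finset

/-- the boundary of `σ` over the field `F` -/
noncomputable def bd (F : Type) [Field F] (n : ℕ) (σ : Finset (Fin n)) : Finset (Fin n) → F :=
  ∑ v ∈ σ, ((-1 : F) ^ (σ.filter (fun u => u < v)).card) •
    (Pi.single (σ.erase v) (1 : F) : Finset (Fin n) → F)

open Classical in
/-- the closure in the simplicial matroid over `F` -/
noncomputable def clF (F : Type) [Field F] (n d : ℕ) (W : Finset (Fc n d)) : Finset (Fc n d) :=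
  univ.filter (fun x => bd F n x.val ∈
    Submodule.span F ((fun y : Fc n d => bd F n y.val) '' (W : Set (Fc n d))))

end Pool.Agent.Lib.P0fb
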