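import Mathlib
import Pool.Agent.Lib.P0fb.LinDef

/-!
# The closure system of the simplicial matroid over a field

`circuit`: if `g ∉ W` and `bd g ∈ span (bd '' W)`, take `T ⊆ W` minimal (by cardinality) with
`bd g ∈ span (bd '' T)`; in `bd g = ∑_{t ∈ T} c_t bd t` all `c_t ≠ 0` (else smaller).  So there is
a linear relation with all coefficients nonzero on `insert g T`.  The coefficient of the relation at
the `d`-set `τ = σ.erase u` is `∑ ± c_σ'` over the members `σ' ⊇ τ`, so a `d`-set covered by one
member is covered by two: `insert g T` is a core (`core_of_rel`).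
`exists_sys`: `d1`: `g ∈ cl W`, `g ∉ W`, `g ∉ Sm W`: the core `insert g T` has at least `b` members;
if `h ∈ T` and `g ∈ cl (W.erase h)` then, solving the relation for `bd h`, `h ∈ cl (W.erase h)`.
`d2`: if `h ∈ W`, `h ∈ cl (W.erase h)`, `h ∉ Sm W`: the core `insert h T`, `T ⊆ W.erase h`, has at
least `b` members, and each of them lies in the closure of the others.
-/

namespace Pool.Agent.Lib.P0fb

open Finset

private theorem bd_apply_ne (F : Type) [Field F] {n : ℕ} {σ τ : Finset (Fin n)} (h : ¬ τ ⊆ σ) :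
    bd F n σ τ = 0 := by
  unfold bd
  rw [Finset.sum_apply]
  refine Finset.sum_eq_zero fun v _ => ?_
  rw [Pi.smul_apply, Pi.single_apply, if_neg, smul_zero]
  rintro rfl
  exact h (Finset.erase_subset _ _)

private theorem bd_apply_self (F : Type) [Field F] {n : ℕ} {σ : Finset (Fin n)} {u : Fin n}
    (hu : u ∈ σ) : bd F n σ (σ.erase u) ≠ 0 := by
  unfold bd
  rw [Finset.sum_apply, Finset.sum_eq_single u]
  · rw [Pi.smul_apply, Pi.single_eq_same, smul_eq_mul, mul_one]
    exact pow_ne_zero _ (neg_ne_zero.2 one_ne_zero)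
  · intro v _ hvu
    rw [Pi.smul_apply, Pi.single_apply, if_neg, smul_zero]
    intro h
    have h1 : u ∈ σ.erase v := Finset.mem_erase.2 ⟨hvu.symm, hu⟩
    rw [← h] at h1
    exact (Finset.notMem_erase _ _) h1
  · intro h
    exact absurd hu h

private theorem core_of_rel (F : Type) [Field F] {n d : ℕ} (K : Finset (Fc n d)) (c : Fc n d → F)
    (hc : ∀ x ∈ K, c x ≠ 0) (h : ∑ x ∈ K, c x • bd F n x.val = 0) :
    Core d (K.image Subtype.val) := by
  classical
  refine ⟨fun σ hσ => ?_, fun σ hσ u hu => ?_⟩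
  · obtain ⟨x, _, rfl⟩ := Finset.mem_image.1 hσ
    exact x.2
  · obtain ⟨x, hx, rfl⟩ := Finset.mem_image.1 hσ
    by_contra hcon
    push Not at hcon
    have h1 := congrFun h (x.val.erase u)
    rw [Finset.sum_apply, Finset.sum_eq_single x] at h1
    · rw [Pi.smul_apply, smul_eq_mul] at h1
      exact mul_ne_zero (hc x hx) (bd_apply_self F hu) h1
    · intro y hy hyx
      rw [Pi.smul_apply, bd_apply_ne F (hcon y.val (Finset.mem_image_of_mem _ hy)
        (fun e => hyx (Subtype.ext e))), smul_zero]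
    · intro h
      exact absurd hx h

private theorem exists_rel (F : Type) [Field F] {n d : ℕ} {W : Finset (Fc n d)} {g : Fc n d}
    (hg : g ∈ clF F n d W) : ∃ (T : Finset (Fc n d)) (c : Fc n d → F), T ⊆ W ∧
      (∀ t ∈ T, c t ≠ 0) ∧ bd F n g.val = ∑ t ∈ T, c t • bd F n t.val := by
  classical
  have h := (Finset.mem_filter.1 hg).2
  obtain ⟨c, hc⟩ : ∃ c : Fc n d → F, ∑ x ∈ W, c x • bd F n x.val = bd F n g.val := by
    obtain ⟨c, hc⟩ := (Submodule.mem_span_image_finset_iff_exists_fun F).1 h
    refine ⟨fun x => if hx : x ∈ W then c ⟨x, hx⟩ else 0, ?_⟩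
    rw [← hc, ← Finset.sum_coe_sort W]
    refine Finset.sum_congr rfl fun x _ => ?_
    simp only [dif_pos x.2]
  refine ⟨W.filter (fun t => c t ≠ 0), c, Finset.filter_subset _ _,
    fun t ht => (Finset.mem_filter.1 ht).2, ?_⟩
  rw [← hc, Finset.sum_filter_of_ne]
  intro x _ hx h0
  rw [h0, zero_smul] at hx
  exact hx rfl

private theorem core_insert (F : Type) [Field F] {n d : ℕ} {T : Finset (Fc n d)} {c : Fc n d → F}
    {g : Fc n d} (hg : g ∉ T) (hc : ∀ t ∈ T, c t ≠ 0)
    (h : bd F n g.val = ∑ t ∈ T, c t • bd F n t.val) :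
    Core d ((insert g T).image Subtype.val) := by
  classical
  refine core_of_rel F (insert g T) (fun x => if x = g then -1 else c x) ?_ ?_
  · intro x hx
    rcases Finset.mem_insert.1 hx with rfl | hx
    · simp
    · have hne : x ≠ g := fun e => hg (e ▸ hx)
      simp only [if_neg hne]
      exact hc x hx
  · rw [Finset.sum_insert hg]
    have e : ∑ x ∈ T, (if x = g then (-1 : F) else c x) • bd F n x.val =
        ∑ x ∈ T, c x • bd F n x.val :=
      Finset.sum_congr rfl fun x hx => by
        have hne : x ≠ g := by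
          rintro rfl
          exact hg hx
        rw [if_neg hne]
    rw [e, ← h]
    simp

/-- an element of the relation lies in the closure of any set which contains the other ones -/
private theorem solve (F : Type) [Field F] {n d : ℕ} {T W : Finset (Fc n d)} {c : Fc n d → F}
    {g t : Fc n d} (hc : c t ≠ 0) (ht : t ∈ T)
    (h : bd F n g.val = ∑ t ∈ T, c t • bd F n t.val) (hgW : g ∈ clF F n d W)
    (hT : ∀ x ∈ T, x ≠ t → x ∈ W) : t ∈ clF F n d W := by
  classical
  have h1 := (Finset.mem_filter.1 hgW).2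
  refine Finset.mem_filter.2 ⟨Finset.mem_univ _, ?_⟩
  have h2 : bd F n t.val = (c t)⁻¹ • (bd F n g.val - ∑ x ∈ T.erase t, c x • bd F n x.val) := by
    rw [h, ← Finset.add_sum_erase T _ ht, add_sub_cancel_right, smul_smul, inv_mul_cancel₀ hc,
      one_smul]
  rw [h2]
  refine Submodule.smul_mem _ _ (Submodule.sub_mem _ h1 (Submodule.sum_mem _ fun x hx => ?_))
  refine Submodule.smul_mem _ _ (Submodule.subset_span ⟨x, ?_, rfl⟩)
  exact Finset.mem_coe.2 (hT x (Finset.mem_of_mem_erase hx) (Finset.ne_of_mem_erase hx))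

private theorem clF_mono (F : Type) [Field F] {n d : ℕ} {W W' : Finset (Fc n d)} (h : W ⊆ W') :
    clF F n d W ⊆ clF F n d W' := by
  classical
  intro x hx
  have h1 := (Finset.mem_filter.1 hx).2
  exact Finset.mem_filter.2 ⟨Finset.mem_univ _,
    Submodule.span_mono (Set.image_mono (Finset.coe_subset.2 h)) h1⟩

private theorem clF_sub (F : Type) [Field F] {n d : ℕ} (W : Finset (Fc n d)) :
    W ⊆ clF F n d W := by
  classical
  intro x hx
  exact Finset.mem_filter.2 ⟨Finset.mem_univ _, Submodule.subset_span ⟨x, Finset.mem_coe.2 hx, rfl⟩⟩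

private theorem big_of_notMem {n d b : ℕ} {W T : Finset (Fc n d)} {g : Fc n d} (hgT : g ∉ T)
    (hT : T ⊆ W) (hcore : Core d ((insert g T).image Subtype.val)) (hg : g ∉ Smc d n b W) :
    b ≤ T.card + 1 := by
  classical
  by_contra hlt
  push Not at hlt
  apply hg
  refine Finset.mem_filter.2 ⟨Finset.mem_univ _, (insert g T).image Subtype.val, hcore,
    Finset.mem_image_of_mem _ (Finset.mem_insert_self _ _), ?_, ?_⟩
  · intro σ hσ
    obtain ⟨h1, h2⟩ := Finset.mem_erase.1 hσ
    obtain ⟨x, hx, rfl⟩ := Finset.mem_image.1 h2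
    rcases Finset.mem_insert.1 hx with rfl | hx
    · exact absurd rfl h1
    · exact Finset.mem_image_of_mem _ (hT hx)
  · refine lt_of_le_of_lt Finset.card_image_le ?_
    rw [Finset.card_insert_of_notMem hgT]
    exact hlt

theorem exists_sys (F : Type) [Field F] (n d b : ℕ) :
    ∃ S : Sys (Fc n d) b, S.cl = clF F n d ∧ S.Sm = Smc d n b := by
  classical
  refine ⟨⟨clF F n d, Smc d n b, fun h => clF_mono F h, clF_sub F, ?_, ?_, ?_⟩, rfl, rfl⟩
  · intro W W' h g hg
    obtain ⟨K, h1, h2, h3, h4⟩ := (Finset.mem_filter.1 hg).2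
    exact Finset.mem_filter.2 ⟨Finset.mem_univ _, K, h1, h2,
      h3.trans (Finset.image_subset_image h), h4⟩
  · intro W g hg hgW hgS
    obtain ⟨T, c, hT, hc, hrel⟩ := exists_rel F hg
    have hgT : g ∉ T := fun h => hgW (hT h)
    have hb := big_of_notMem hgT hT (core_insert F hgT hc hrel) hgS
    have hsub : T ⊆ (W.filter (fun h => g ∉ clF F n d (W.erase h))) ∪
        (W.filter (fun h => h ∈ clF F n d (W.erase h))) := by
      intro t ht
      rw [Finset.mem_union, Finset.mem_filter, Finset.mem_filter]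
      by_cases hg' : g ∈ clF F n d (W.erase t)
      · refine Or.inr ⟨hT ht, solve F (hc t ht) ht hrel hg' fun x hx hxt => ?_⟩
        exact Finset.mem_erase.2 ⟨hxt, hT hx⟩
      · exact Or.inl ⟨hT ht, hg'⟩
    have h1 := (Finset.card_le_card hsub).trans (Finset.card_union_le _ _)
    refine hb.trans ?_
    convert Nat.add_le_add_right h1 1
  · intro W
    by_cases hall : W.filter (fun h => h ∈ clF F n d (W.erase h)) ⊆ Smc d n b W
    · exact Or.inr hall
    left
    obtain ⟨g, hg, hgS⟩ := Finset.not_subset.1 hall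
    obtain ⟨hgW, hgc⟩ := Finset.mem_filter.1 hg
    obtain ⟨T, c, hT, hc, hrel⟩ := exists_rel F hgc
    have hgT : g ∉ T := fun h => (Finset.notMem_erase _ _) (hT h)
    have hTW : T ⊆ W := hT.trans (Finset.erase_subset _ _)
    have hb := big_of_notMem hgT hTW (core_insert F hgT hc hrel) hgS
    have hsub : insert g T ⊆ W.filter (fun h => h ∈ clF F n d (W.erase h)) := by
      intro t ht
      rcases Finset.mem_insert.1 ht with rfl | ht
      · exact hg
      · refine Finset.mem_filter.2 ⟨hTW ht, solve F (hc t ht) ht hrel ?_ fun x hx hxt => ?_⟩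
        · apply clF_sub F
          exact Finset.mem_erase.2 ⟨fun e => hgT (e ▸ ht), hgW⟩
        · exact Finset.mem_erase.2 ⟨hxt, hTW hx⟩
    have h1 := Finset.card_le_card hsub
    rw [Finset.card_insert_of_notMem hgT] at h1
    refine hb.trans ?_
    convert h1

end Pool.Agent.Lib.P0fb
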