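import Mathlib
import Pool.Agent.Lib.P0fb.LinDef

/-!
# Rank bound in the simplicial matroid

`rank_bound`: the `h ∈ W` with `h ∉ cl (W.erase h)` are linearly independent vectors, all `bd σ` lie
in the space of the functions supported on the `d`-sets, of dimension `C(n,d)`.
-/

namespace Pool.Agent.Lib.P0fb

open Finset

namespace LinRkAux

theorem bd_apply_erase (F : Type) [Field F] (n : ℕ) (σ : Finset (Fin n)) {v : Fin n}
    (hv : v ∈ σ) : bd F n σ (σ.erase v) = (-1 : F) ^ (σ.filter (fun u => u < v)).card := by
  unfold bd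
  rw [Finset.sum_apply, Finset.sum_eq_single v]
  · simp
  · intro w hw hwv
    have h1 : σ.erase v ≠ σ.erase w := by
      intro h
      have h2 : v ∈ σ.erase w := Finset.mem_erase.2 ⟨hwv.symm, hv⟩
      rw [← h] at h2
      exact Finset.notMem_erase v σ h2
    simp [h1]
  · intro h
    exact absurd hv h

theorem bd_ne_zero (F : Type) [Field F] {n d : ℕ} (x : Fc n d) : bd F n x.val ≠ 0 := by
  intro h
  have hc : 0 < x.val.card := by rw [x.2]; omega
  obtain ⟨v, hv⟩ := Finset.card_pos.1 hc
  have h1 := bd_apply_erase F n x.val hv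
  rw [h, Pi.zero_apply] at h1
  exact pow_ne_zero _ (neg_ne_zero.2 one_ne_zero) h1.symm

open Classical in
/-- the indicator vectors of the `d`-sets -/
noncomputable def ev (F : Type) [Field F] (n d : ℕ) : Finset (Finset (Fin n) → F) :=
  ((univ : Finset (Fin n)).powersetCard d).image (fun τ => Pi.single τ (1 : F))

open Classical in
theorem card_ev_le (F : Type) [Field F] (n d : ℕ) : (ev F n d).card ≤ n.choose d := by
  refine Finset.card_image_le.trans ?_
  rw [Finset.card_powersetCard, Finset.card_univ, Fintype.card_fin]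

open Classical in
theorem bd_mem (F : Type) [Field F] {n d : ℕ} (x : Fc n d) :
    bd F n x.val ∈ Submodule.span F (ev F n d : Set (Finset (Fin n) → F)) := by
  unfold bd
  refine Submodule.sum_mem _ fun v hv => Submodule.smul_mem _ _ (Submodule.subset_span ?_)
  refine Finset.mem_coe.2 (Finset.mem_image.2 ⟨x.val.erase v, ?_, rfl⟩)
  rw [Finset.mem_powersetCard]
  refine ⟨Finset.subset_univ _, ?_⟩
  rw [Finset.card_erase_of_mem hv, x.2]
  rfl

end LinRkAux

open LinRkAux

open Classical in
theorem rank_bound (F : Type) [Field F] (n d : ℕ) (W : Finset (Fc n d)) :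
    W.card ≤ (W.filter (fun h => h ∈ clF F n d (W.erase h))).card + n.choose d := by
  rw [← Finset.card_filter_add_card_filter_not (s := W) (fun h => h ∈ clF F n d (W.erase h))]
  refine Nat.add_le_add_left ?_ _
  set W' : Finset (Fc n d) := W.filter (fun h => ¬ h ∈ clF F n d (W.erase h)) with hW'
  have hli : LinearIndependent F (fun h : W' => bd F n h.1.val) := by
    rw [linearIndependent_iff_notMem_span]
    intro i hi
    have h1 := (Finset.mem_filter.1 i.2).2
    apply h1
    unfold clF
    refine Finset.mem_filter.2 ⟨Finset.mem_univ _, ?_⟩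
    refine Submodule.span_mono ?_ hi
    rintro _ ⟨j, hj, rfl⟩
    refine ⟨j.1, ?_, rfl⟩
    rw [Finset.mem_coe, Finset.mem_erase]
    refine ⟨?_, (Finset.mem_filter.1 j.2).1⟩
    intro h
    exact hj.2 (Subtype.ext h)
  have h2 := linearIndependent_le_span' (fun h : W' => bd F n h.1.val) hli
    (ev F n d : Set (Finset (Fin n) → F)) (by
      rintro _ ⟨j, rfl⟩
      exact bd_mem F j.1)
  simp only [Cardinal.mk_fintype, Fintype.card_coe, Finset.coe_sort_coe] at h2
  have h3 : W'.card ≤ (ev F n d).card := by exact_mod_cast h2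
  exact h3.trans (card_ev_le F n d)

theorem clF_empty (F : Type) [Field F] (n d : ℕ) : clF F n d ∅ = ∅ := by
  classical
  unfold clF
  rw [Finset.filter_eq_empty_iff]
  intro x _ h
  rw [Finset.coe_empty, Set.image_empty, Submodule.span_empty, Submodule.mem_bot] at h
  exact bd_ne_zero F x h

end Pool.Agent.Lib.P0fb
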