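import Mathlib
import Pool.Agent.Lib.P0fb.Prob

/-!
# The probability that a given set is contained in the first `m` elements

`P(A ⊆ Y_m) = (m)_a / (N)_a` with `a = |A|` (falling factorials `Nat.descFactorial`).
Proof: for `|A| = |A'|` there is `π : α ≃ α` with `π '' A = A'`, and `e ↦ e.trans π` is a bijection
of the orderings that maps `{A ⊆ Y_m}` onto `{A' ⊆ Y_m}`; sum over all `A'` with `|A'| = a` and use
`∑_{A'} [A' ⊆ Y_m] = C(m, a)`, `C(m,a)/C(N,a) = (m)_a/(N)_a`.
`pp_incl_le`: every factor `(m-i)/(N-i) ≤ m/N` for `m ≤ N`.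
`pp_incl_mul`: `(m)_{a+a'}/(N)_{a+a'} ≤ (m)_a/(N)_a * (m)_{a'}/(N)_{a'}`, factor by factor
`(m-a-i)/(N-a-i) ≤ (m-i)/(N-i)`.
-/

namespace Pool.Agent.Lib.P0fb

open Finset

variable {N : ℕ} {α : Type*} [Fintype α] [DecidableEq α]

theorem InclAux_perm {A B : Finset α} (h : A.card = B.card) :
    ∃ π : α ≃ α, ∀ x, π x ∈ B ↔ x ∈ A := by
  classical
  have e : {x // x ∈ A} ≃ {x // x ∈ B} := Fintype.equivOfCardEq (by simp [h])
  refine ⟨e.extendSubtype, fun x => ⟨fun hx => ?_, fun hx => e.extendSubtype_mem x hx⟩⟩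
  by_contra hn
  exact e.extendSubtype_not_mem x hn hx

theorem InclAux_symm {A B : Finset α} (h : A.card = B.card) (m : ℕ) :
    PP (fun e : Fin N ≃ α => A ⊆ Y e m) = PP (fun e : Fin N ≃ α => B ⊆ Y e m) := by
  obtain ⟨π, hπ⟩ := InclAux_perm h
  unfold PP EE
  congr 1
  rw [← Equiv.sum_comp (⟨fun e => e.trans π, fun e => e.trans π.symm,
    fun e => by ext; simp, fun e => by ext; simp⟩ : (Fin N ≃ α) ≃ (Fin N ≃ α))
    (fun e => ind (B ⊆ Y e m))]
  refine Finset.sum_congr rfl fun e _ => ?_
  change ind (A ⊆ Y e m) = ind (B ⊆ Y (e.trans π) m)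
  congr 1
  refine propext ⟨fun h1 y hy => ?_, fun h1 x hx => ?_⟩
  · have h2 : π.symm y ∈ A := by
      rw [← hπ, Equiv.apply_symm_apply]
      exact hy
    have h3 := h1 h2
    rw [mem_Y] at h3 ⊢
    rw [Equiv.symm_trans_apply]
    exact h3
  · have h2 := h1 ((hπ x).2 hx)
    rw [mem_Y, Equiv.symm_trans_apply, Equiv.symm_apply_apply] at h2
    rw [mem_Y]
    exact h2

theorem pp_incl (hN : Fintype.card α = N) {m : ℕ} (hm : m ≤ N) (A : Finset α) :
    PP (fun e : Fin N ≃ α => A ⊆ Y e m) =
      (m.descFactorial A.card : ℝ) / (N.descFactorial A.card : ℝ) := by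
  have hA : A.card ≤ N := by
    rw [← hN]
    exact Finset.card_le_univ A
  have h1 : ∑ B ∈ (univ : Finset α).powersetCard A.card,
      PP (fun e : Fin N ≃ α => B ⊆ Y e m) = (m.choose A.card : ℝ) := by
    have h2 : ∑ B ∈ (univ : Finset α).powersetCard A.card,
        PP (fun e : Fin N ≃ α => B ⊆ Y e m) =
        EE (fun e : Fin N ≃ α => ∑ B ∈ (univ : Finset α).powersetCard A.card,
          ind (B ⊆ Y e m)) := by
      rw [EE_sum]
      rfl
    rw [h2, ← EE_const (α := α) hN (m.choose A.card : ℝ)]
    refine EE_congr fun e => ?_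
    have h3 : (Y e m).powersetCard A.card ⊆ (univ : Finset α).powersetCard A.card :=
      Finset.powersetCard_mono (Finset.subset_univ _)
    rw [← Finset.sum_subset h3]
    · rw [Finset.sum_congr rfl (g := fun _ => (1 : ℝ))
        (fun B hB => ind_of (Finset.mem_powersetCard.1 hB).1), Finset.sum_const,
        Finset.card_powersetCard, card_Y e hm, nsmul_eq_mul, mul_one]
    · intro B hB hB'
      refine ind_not_of fun h4 => hB' ?_
      rw [Finset.mem_powersetCard] at hB ⊢
      exact ⟨h4, hB.2⟩
  have h4 : ∑ B ∈ (univ : Finset α).powersetCard A.card,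
      PP (fun e : Fin N ≃ α => B ⊆ Y e m) =
      (N.choose A.card : ℝ) * PP (fun e : Fin N ≃ α => A ⊆ Y e m) := by
    rw [Finset.sum_congr rfl (g := fun _ => PP (fun e : Fin N ≃ α => A ⊆ Y e m))
      (fun B hB => InclAux_symm (Finset.mem_powersetCard.1 hB).2 m), Finset.sum_const,
      Finset.card_powersetCard, Finset.card_univ, hN, nsmul_eq_mul]
  rw [h4] at h1
  have h5 : (0 : ℝ) < (N.choose A.card : ℝ) := by exact_mod_cast Nat.choose_pos hA
  have h6 : (0 : ℝ) < (A.card.factorial : ℝ) := by exact_mod_cast Nat.factorial_pos _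
  rw [Nat.descFactorial_eq_factorial_mul_choose, Nat.descFactorial_eq_factorial_mul_choose]
  push_cast
  rw [mul_div_mul_left _ _ h6.ne', ← h1, mul_div_cancel_left₀ _ h5.ne']

theorem pp_incl_le (hN : Fintype.card α = N) {m : ℕ} (hm : m ≤ N) (A : Finset α) :
    PP (fun e : Fin N ≃ α => A ⊆ Y e m) ≤ ((m : ℝ) / (N : ℝ)) ^ A.card := by
  have hA : A.card ≤ N := by
    rw [← hN]
    exact Finset.card_le_univ A
  rw [pp_incl hN hm]
  generalize A.card = a at hA
  have key : ∀ a, a ≤ N → m.descFactorial a * N ^ a ≤ m ^ a * N.descFactorial a := by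
    intro a
    induction a with
    | zero => intro _; simp
    | succ a ih =>
      intro ha
      have h1 := ih (by omega)
      rw [Nat.descFactorial_succ, Nat.descFactorial_succ]
      have h2 : (m - a) * N ≤ m * (N - a) := by
        by_cases h : a ≤ m
        · rw [Nat.sub_mul, Nat.mul_sub]
          have := Nat.mul_le_mul_left a hm
          rw [mul_comm m a]
          omega
        · rw [Nat.sub_eq_zero_of_le (by omega), zero_mul]
          exact Nat.zero_le _
      calc (m - a) * m.descFactorial a * N ^ (a + 1)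
          = ((m - a) * N) * (m.descFactorial a * N ^ a) := by ring
        _ ≤ (m * (N - a)) * (m ^ a * N.descFactorial a) := Nat.mul_le_mul h2 h1
        _ = m ^ (a + 1) * ((N - a) * N.descFactorial a) := by ring
  have h1 := key a hA
  have h2 : 0 < N.descFactorial a := by
    rw [Nat.pos_iff_ne_zero, Ne, Nat.descFactorial_eq_zero_iff_lt]
    omega
  rcases Nat.eq_zero_or_pos N with h0 | h0
  · subst h0
    have : a = 0 := by omega
    subst this
    simp
  · rw [div_pow, div_le_div_iff₀ (by exact_mod_cast h2) (by positivity)]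
    exact_mod_cast h1

theorem pp_incl_mul (hN : Fintype.card α = N) {m : ℕ} (hm : m ≤ N) {A B : Finset α}
    (hAB : Disjoint A B) :
    PP (fun e : Fin N ≃ α => A ∪ B ⊆ Y e m) ≤
      PP (fun e : Fin N ≃ α => A ⊆ Y e m) * PP (fun e : Fin N ≃ α => B ⊆ Y e m) := by
  have hU : A.card + B.card ≤ N := by
    rw [← Finset.card_union_of_disjoint hAB, ← hN]
    exact Finset.card_le_univ _
  rw [pp_incl hN hm, pp_incl hN hm, pp_incl hN hm, Finset.card_union_of_disjoint hAB]
  generalize A.card = a at hU
  generalize B.card = b at hU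
  have key : ∀ b, a + b ≤ N → m.descFactorial (a + b) * (N.descFactorial a * N.descFactorial b) ≤
      (m.descFactorial a * m.descFactorial b) * N.descFactorial (a + b) := by
    intro b
    induction b with
    | zero => intro _; simp
    | succ b ih =>
      intro hb
      have h1 := ih (by omega)
      rw [← Nat.add_assoc, Nat.descFactorial_succ, Nat.descFactorial_succ, Nat.descFactorial_succ,
        Nat.descFactorial_succ]
      have h2 : (m - (a + b)) * (N - b) ≤ (m - b) * (N - (a + b)) := by
        by_cases h : a + b ≤ m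
        · obtain ⟨u, rfl⟩ := Nat.exists_eq_add_of_le h
          obtain ⟨v, rfl⟩ := Nat.exists_eq_add_of_le hm
          have e1 : a + b + u - (a + b) = u := by omega
          have e2 : a + b + u + v - b = a + u + v := by omega
          have e3 : a + b + u - b = a + u := by omega
          have e4 : a + b + u + v - (a + b) = u + v := by omega
          rw [e1, e2, e3, e4]
          nlinarith [Nat.zero_le (a * v)]
        · rw [Nat.sub_eq_zero_of_le (by omega), zero_mul]
          exact Nat.zero_le _
      calc (m - (a + b)) * m.descFactorial (a + b) *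
            (N.descFactorial a * ((N - b) * N.descFactorial b))
          = ((m - (a + b)) * (N - b)) * (m.descFactorial (a + b) *
              (N.descFactorial a * N.descFactorial b)) := by ring
        _ ≤ ((m - b) * (N - (a + b))) * ((m.descFactorial a * m.descFactorial b) *
              N.descFactorial (a + b)) := Nat.mul_le_mul h2 h1
        _ = m.descFactorial a * ((m - b) * m.descFactorial b) *
              ((N - (a + b)) * N.descFactorial (a + b)) := by ring
  have h1 := key b hU
  have hp : ∀ k, k ≤ N → 0 < N.descFactorial k := by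
    intro k hk
    rw [Nat.pos_iff_ne_zero, Ne, Nat.descFactorial_eq_zero_iff_lt]
    omega
  have p1 : (0 : ℝ) < (N.descFactorial (a + b) : ℝ) := by exact_mod_cast hp _ hU
  have p2 : (0 : ℝ) < (N.descFactorial a : ℝ) := by exact_mod_cast hp _ (by omega)
  have p3 : (0 : ℝ) < (N.descFactorial b : ℝ) := by exact_mod_cast hp _ (by omega)
  rw [div_mul_div_comm, div_le_div_iff₀ p1 (mul_pos p2 p3)]
  exact_mod_cast h1

end Pool.Agent.Lib.P0fb
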