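import Mathlib
import Pool.Agent.Lib.P0fb.Incl

/-!
# Second moment: boundaries of `(d+1)`-simplices with one face missing

`Zs d n W` = the pairs `(D, g)`, `D` a set of `d+2` vertices, `g ⊂ D` a face, such that all other
faces of `D` are in `W`.  `|Zs| = ∑_{(D,g)} ind (A(D,g) ⊆ Y_M)`, `A(D,g)` = the `d+1` faces of `D`
other than `g`; `p = M/N ≤ c/n` (`N = C(n,d+1)`; in particular `M ≤ N` for `n ≥ c`).
`EE |Zs| ≤ C(n,d+2) (d+2) p^(d+1) ≤ c^(d+1) n`.  Second moment: pairs of pairs with disjoint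
`A, A'` contribute at most `(EE |Zs|)^2` (`pp_incl_mul`).  If `A(D,g)` and `A(D',g')` meet then
`D = D'` (at most `C(n,d+2) (d+2)^2` pairs, `|A ∪ A'| ≥ d+1`), or `|D ∩ D'| = d+1` and `A, A'` have
exactly one common face, `|A ∪ A'| = 2d+1`; the number of such pairs is at most `(d+2)^3 n^(d+3)`
and `n^(d+3) (c/n)^(2d+1) ≤ c^(2d+1)` for `d ≥ 2` (`pp_incl_le`).  So `EE (|Zs| - EE |Zs|)^2 ≤ C' n`
and by `markov` (Chebyshev) `PP (|Zs| ≥ c^(d+1) n + n) ≤ C'/n`.
-/

namespace Pool.Agent.Lib.P0fb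

open Finset Filter

open Classical in
/-- boundaries of simplices with all faces but possibly one in `W` -/
noncomputable def Zs (d n : ℕ) (W : Finset (Fc n d)) : Finset (Finset (Fin n) × Fc n d) :=
  univ.filter (fun p => p.1.card = d + 2 ∧ p.2.val ⊆ p.1 ∧
    ∀ σ : Fc n d, σ.val ⊆ p.1 → σ ≠ p.2 → σ ∈ W)

namespace SimpAux

variable {d n : ℕ}

open Classical in
/-- the index set -/
noncomputable def II (d n : ℕ) : Finset (Finset (Fin n) × Fc n d) :=
  univ.filter (fun p => p.1.card = d + 2 ∧ p.2.val ⊆ p.1)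

open Classical in
/-- the faces of a vertex set -/
noncomputable def FF (d : ℕ) {n : ℕ} (D : Finset (Fin n)) : Finset (Fc n d) :=
  univ.filter (fun σ => σ.val ⊆ D)

/-- the faces other than the given one -/
noncomputable def AA (p : Finset (Fin n) × Fc n d) : Finset (Fc n d) :=
  (FF d p.1).erase p.2

theorem mem_FF {D : Finset (Fin n)} {σ : Fc n d} : σ ∈ FF d D ↔ σ.val ⊆ D := by
  unfold FF
  simp

theorem mem_II {p : Finset (Fin n) × Fc n d} :
    p ∈ II d n ↔ p.1.card = d + 2 ∧ p.2.val ⊆ p.1 := by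
  unfold II
  simp

theorem card_FF (D : Finset (Fin n)) : (FF d D).card = D.card.choose (d + 1) := by
  rw [← Finset.card_powersetCard (d + 1) D,
    ← Finset.card_map (⟨Subtype.val, Subtype.val_injective⟩ : Fc n d ↪ Finset (Fin n))]
  congr 1
  ext σ
  rw [Finset.mem_map, Finset.mem_powersetCard]
  constructor
  · rintro ⟨τ, hτ, rfl⟩
    exact ⟨mem_FF.1 hτ, τ.2⟩
  · rintro ⟨h1, h2⟩
    exact ⟨⟨σ, h2⟩, mem_FF.2 h1, rfl⟩

theorem card_AA {p : Finset (Fin n) × Fc n d} (hp : p ∈ II d n) : (AA p).card = d + 1 := by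
  rw [mem_II] at hp
  unfold AA
  rw [Finset.card_erase_of_mem (mem_FF.2 hp.2), card_FF, hp.1, Nat.choose_succ_self_right]
  omega

theorem Zs_eq (W : Finset (Fc n d)) : Zs d n W = (II d n).filter (fun p => AA p ⊆ W) := by
  ext p
  unfold Zs II AA
  simp only [Finset.mem_filter, Finset.mem_univ, true_and]
  constructor
  · rintro ⟨h1, h2, h3⟩
    refine ⟨⟨h1, h2⟩, fun σ hσ => ?_⟩
    rw [Finset.mem_erase, mem_FF] at hσ
    exact h3 σ hσ.2 hσ.1
  · rintro ⟨⟨h1, h2⟩, h3⟩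
    refine ⟨h1, h2, fun σ h4 h5 => h3 ?_⟩
    rw [Finset.mem_erase, mem_FF]
    exact ⟨h5, h4⟩

theorem card_Zs (W : Finset (Fc n d)) :
    ((Zs d n W).card : ℝ) = ∑ p ∈ II d n, ind (AA p ⊆ W) := by
  classical
  rw [Zs_eq, Finset.card_filter, Nat.cast_sum]
  apply Finset.sum_congr rfl
  intro p _
  by_cases h : AA p ⊆ W
  · rw [ind_of h, if_pos h, Nat.cast_one]
  · rw [ind_not_of h, if_neg h, Nat.cast_zero]

theorem card_fib (S : Finset (Finset (Fin n))) (hS : ∀ D ∈ S, D.card = d + 2) :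
    ((II d n).filter (fun p => p.1 ∈ S)).card ≤ (d + 2) * S.card := by
  classical
  have h1 := Finset.card_le_mul_card_image (f := Prod.fst) ((II d n).filter (fun p => p.1 ∈ S))
    (d + 2) (by
      intro D hD
      rw [Finset.mem_image] at hD
      obtain ⟨q, hq, rfl⟩ := hD
      rw [Finset.mem_filter] at hq
      have h2 : (FF d q.1).card = d + 2 := by
        rw [card_FF, (mem_II.1 hq.1).1, Nat.choose_succ_self_right]
      rw [← h2]
      apply Finset.card_le_card_of_injOn Prod.snd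
      · intro r hr
        have hr' := Finset.mem_filter.1 (Finset.mem_coe.1 hr)
        have hr'' := Finset.mem_filter.1 hr'.1
        rw [Finset.mem_coe, mem_FF, ← hr'.2]
        exact (mem_II.1 hr''.1).2
      · intro r hr t ht hrt
        have hr' := Finset.mem_filter.1 (Finset.mem_coe.1 hr)
        have ht' := Finset.mem_filter.1 (Finset.mem_coe.1 ht)
        exact Prod.ext (hr'.2.trans ht'.2.symm) hrt)
  refine h1.trans (Nat.mul_le_mul_left _ (Finset.card_le_card ?_))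
  intro D hD
  rw [Finset.mem_image] at hD
  obtain ⟨q, hq, rfl⟩ := hD
  exact (Finset.mem_filter.1 hq).2

theorem card_II : (II d n).card ≤ (d + 2) * n ^ (d + 2) := by
  classical
  have h1 := card_fib (d := d) ((univ : Finset (Fin n)).powersetCard (d + 2))
    (fun D hD => (Finset.mem_powersetCard.1 hD).2)
  rw [Finset.card_powersetCard, Finset.card_univ, Fintype.card_fin] at h1
  have h2 : (II d n).filter (fun p => p.1 ∈ (univ : Finset (Fin n)).powersetCard (d + 2)) =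
      II d n := by
    apply Finset.filter_true_of_mem
    intro p hp
    rw [Finset.mem_powersetCard]
    exact ⟨Finset.subset_univ _, (mem_II.1 hp).1⟩
  rw [h2] at h1
  exact h1.trans (Nat.mul_le_mul_left _ (Nat.choose_le_pow _ _))

theorem card_S1 {D : Finset (Fin n)} (hD : D.card = d + 2) :
    ((II d n).filter (fun p => p.1 = D)).card ≤ d + 2 := by
  classical
  have h1 := card_fib (d := d) {D} (fun E hE => by
    rw [Finset.mem_singleton] at hE
    rw [hE, hD])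
  rw [Finset.card_singleton, mul_one] at h1
  simpa only [Finset.mem_singleton] using h1

theorem card_S2 {D : Finset (Fin n)} (hD : D.card = d + 2) :
    ((II d n).filter (fun p => p.1 ≠ D ∧ (D ∩ p.1).card = d + 1)).card ≤
      (d + 2) * ((d + 2) * n) := by
  classical
  obtain ⟨S, hS⟩ : ∃ S : Finset (Finset (Fin n)), S = ((D ×ˢ (univ : Finset (Fin n))).image
    (fun x => insert x.2 (D.erase x.1))).filter (fun E => E.card = d + 2) := ⟨_, rfl⟩
  have hSc : S.card ≤ (d + 2) * n := by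
    rw [hS]
    refine (Finset.card_filter_le _ _).trans (Finset.card_image_le.trans ?_)
    rw [Finset.card_product, hD, Finset.card_univ, Fintype.card_fin]
  refine le_trans ?_ ((card_fib (d := d) S (fun E hE => by
    rw [hS, Finset.mem_filter] at hE
    exact hE.2)).trans (Nat.mul_le_mul_left _ hSc))
  apply Finset.card_le_card
  intro p hp
  rw [Finset.mem_filter] at hp ⊢
  refine ⟨hp.1, ?_⟩
  obtain ⟨hp1, hp2, hp3⟩ := hp
  rw [mem_II] at hp1
  rw [hS, Finset.mem_filter]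
  refine ⟨?_, hp1.1⟩
  rw [Finset.mem_image]
  have h1 : (D \ p.1).card = 1 := by
    have := Finset.card_sdiff_add_card_inter D p.1
    omega
  have h2 : (p.1 \ D).card = 1 := by
    have := Finset.card_sdiff_add_card_inter p.1 D
    rw [Finset.inter_comm] at this
    omega
  obtain ⟨x, hx⟩ := Finset.card_eq_one.1 h1
  obtain ⟨y, hy⟩ := Finset.card_eq_one.1 h2
  refine ⟨(x, y), ?_, ?_⟩
  · rw [Finset.mem_product]
    refine ⟨?_, Finset.mem_univ _⟩
    have : x ∈ D \ p.1 := by rw [hx]; exact Finset.mem_singleton_self x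
    exact (Finset.mem_sdiff.1 this).1
  · ext z
    have hxz : z ∈ D \ p.1 ↔ z = x := by rw [hx, Finset.mem_singleton]
    have hyz : z ∈ p.1 \ D ↔ z = y := by rw [hy, Finset.mem_singleton]
    rw [Finset.mem_sdiff] at hxz hyz
    rw [Finset.mem_insert, Finset.mem_erase]
    simp only
    tauto

theorem inter_facts {p q : Finset (Fin n) × Fc n d} (hp : p ∈ II d n) (hq : q ∈ II d n)
    (hne : q.1 ≠ p.1) (hd : ¬ Disjoint (AA p) (AA q)) :
    (p.1 ∩ q.1).card = d + 1 ∧ 2 * d + 1 ≤ (AA p ∪ AA q).card := by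
  classical
  rw [mem_II] at hp hq
  have hle : (p.1 ∩ q.1).card ≤ d + 1 := by
    by_contra hcon
    have h1 : (p.1 ∩ q.1).card = d + 2 := by
      have := Finset.card_le_card (Finset.inter_subset_left (s₁ := p.1) (s₂ := q.1))
      omega
    have h2 : p.1 ∩ q.1 = p.1 :=
      Finset.eq_of_subset_of_card_le Finset.inter_subset_left (by omega)
    have h3 : p.1 ∩ q.1 = q.1 :=
      Finset.eq_of_subset_of_card_le Finset.inter_subset_right (by omega)
    exact hne (h3.symm.trans h2)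
  have key : ∀ σ : Fc n d, σ ∈ AA p ∩ AA q → σ.val = p.1 ∩ q.1 := by
    intro σ hσ
    unfold AA at hσ
    rw [Finset.mem_inter, Finset.mem_erase, Finset.mem_erase, mem_FF, mem_FF] at hσ
    apply Finset.eq_of_subset_of_card_le (Finset.subset_inter hσ.1.2 hσ.2.2)
    rw [σ.2]
    exact hle
  rw [Finset.not_disjoint_iff] at hd
  obtain ⟨σ, h1, h2⟩ := hd
  have h3 := key σ (Finset.mem_inter.2 ⟨h1, h2⟩)
  refine ⟨by rw [← h3, σ.2], ?_⟩
  have h4 : (AA p ∩ AA q).card ≤ 1 := by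
    rw [Finset.card_le_one]
    intro a ha b hb
    exact Subtype.ext ((key a ha).trans (key b hb).symm)
  have h5 := Finset.card_union_add_card_inter (AA p) (AA q)
  rw [card_AA (mem_II.2 hp), card_AA (mem_II.2 hq)] at h5
  omega

/-- the covariance of two indicators -/
theorem cov_le {M : ℕ} {q : ℝ} (hM : M ≤ n.choose (d + 1)) (hq0 : 0 ≤ q) (hq1 : q ≤ 1)
    (hMq : (M : ℝ) / (n.choose (d + 1) : ℕ) ≤ q) {x y : Finset (Fin n) × Fc n d}
    (hx : x ∈ II d n) (hy : y ∈ II d n) :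
    PP (fun e : Fin (n.choose (d + 1)) ≃ Fc n d => AA x ∪ AA y ⊆ Y e M) -
      PP (fun e : Fin (n.choose (d + 1)) ≃ Fc n d => AA x ⊆ Y e M) *
      PP (fun e : Fin (n.choose (d + 1)) ≃ Fc n d => AA y ⊆ Y e M) ≤
    (if y.1 = x.1 then q ^ (d + 1) else 0) +
      (if y.1 ≠ x.1 ∧ (x.1 ∩ y.1).card = d + 1 then q ^ (2 * d + 1) else 0) := by
  classical
  have hN : Fintype.card (Fc n d) = n.choose (d + 1) := by
    rw [Fintype.card_finset_len, Fintype.card_fin]
  have hpos : 0 ≤ (if y.1 = x.1 then q ^ (d + 1) else 0) +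
      (if y.1 ≠ x.1 ∧ (x.1 ∩ y.1).card = d + 1 then q ^ (2 * d + 1) else 0) := by
    apply add_nonneg
    · split_ifs <;> positivity
    · split_ifs <;> positivity
  have h0 := PP_nonneg (fun e : Fin (n.choose (d + 1)) ≃ Fc n d => AA x ⊆ Y e M)
  have h0' := PP_nonneg (fun e : Fin (n.choose (d + 1)) ≃ Fc n d => AA y ⊆ Y e M)
  by_cases hdis : Disjoint (AA x) (AA y)
  · have h1 := pp_incl_mul hN hM hdis
    linarith
  · have h1 := pp_incl_le hN hM (AA x ∪ AA y)
    have h2 : PP (fun e : Fin (n.choose (d + 1)) ≃ Fc n d => AA x ∪ AA y ⊆ Y e M) ≤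
        q ^ (AA x ∪ AA y).card :=
      h1.trans (pow_le_pow_left₀ (by positivity) hMq _)
    have h3 : PP (fun e : Fin (n.choose (d + 1)) ≃ Fc n d => AA x ∪ AA y ⊆ Y e M) ≤
        (if y.1 = x.1 then q ^ (d + 1) else 0) +
      (if y.1 ≠ x.1 ∧ (x.1 ∩ y.1).card = d + 1 then q ^ (2 * d + 1) else 0) := by
      by_cases he : y.1 = x.1
      · rw [if_pos he, if_neg (fun h => h.1 he), add_zero]
        refine h2.trans (pow_le_pow_of_le_one hq0 hq1 ?_)
        exact (card_AA hx).symm.le.trans (Finset.card_le_card Finset.subset_union_left)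
      · obtain ⟨h4, h5⟩ := inter_facts hx hy he hdis
        rw [if_neg he, if_pos ⟨he, h4⟩, zero_add]
        exact h2.trans (pow_le_pow_of_le_one hq0 hq1 h5)
    have h4 := mul_nonneg h0 h0'
    linarith

/-- the variance -/
theorem var_le {M : ℕ} {q : ℝ} (hM : M ≤ n.choose (d + 1)) (hq0 : 0 ≤ q) (hq1 : q ≤ 1)
    (hMq : (M : ℝ) / (n.choose (d + 1) : ℕ) ≤ q) {Z : (Fin (n.choose (d + 1)) ≃ Fc n d) → ℝ}
    (hZ : ∀ e, Z e = ∑ x ∈ II d n, ind (AA x ⊆ Y e M)) :
    EE Z ≤ (II d n).card * q ^ (d + 1) ∧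
    EE (fun e => (Z e - EE Z) ^ 2) ≤ (II d n).card *
      ((d + 2) * q ^ (d + 1) + (d + 2) * ((d + 2) * n) * q ^ (2 * d + 1)) := by
  classical
  have hN : Fintype.card (Fc n d) = n.choose (d + 1) := by
    rw [Fintype.card_finset_len, Fintype.card_fin]
  obtain ⟨Pp, hPp⟩ : ∃ Pp : Finset (Fin n) × Fc n d → ℝ, ∀ x, Pp x =
    PP (fun e : Fin (n.choose (d + 1)) ≃ Fc n d => AA x ⊆ Y e M) := ⟨_, fun _ => rfl⟩
  have hE : EE Z = ∑ x ∈ II d n, Pp x := by
    rw [EE_congr hZ, EE_sum]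
    apply Finset.sum_congr rfl
    intro x _
    rw [hPp]
    rfl
  have hE2 : EE (fun e => Z e ^ 2) = ∑ x ∈ II d n, ∑ y ∈ II d n,
      PP (fun e : Fin (n.choose (d + 1)) ≃ Fc n d => AA x ∪ AA y ⊆ Y e M) := by
    rw [EE_congr (g := fun e => ∑ x ∈ II d n, ∑ y ∈ II d n, ind (AA x ∪ AA y ⊆ Y e M)) (by
      intro e
      rw [hZ, sq, Finset.sum_mul_sum]
      apply Finset.sum_congr rfl
      intro x _
      apply Finset.sum_congr rfl
      intro y _
      rw [← ind_and]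
      congr 1
      exact propext Finset.union_subset_iff.symm), EE_sum]
    apply Finset.sum_congr rfl
    intro x _
    rw [EE_sum]
    rfl
  have hV : EE (fun e => (Z e - EE Z) ^ 2) = EE (fun e => Z e ^ 2) - EE Z ^ 2 := by
    obtain ⟨m, hm⟩ : ∃ m, m = EE Z := ⟨_, rfl⟩
    rw [← hm]
    rw [EE_congr (g := fun e => Z e ^ 2 - (2 * m * Z e - m ^ 2)) (by intro e; ring), EE_sub,
      EE_sub, EE_mul_left, EE_const hN, ← hm]
    ring
  constructor
  · rw [hE]
    have h1 : ∀ x ∈ II d n, Pp x ≤ q ^ (d + 1) := by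
      intro x hx
      rw [hPp]
      refine (pp_incl_le hN hM (AA x)).trans ?_
      rw [card_AA hx]
      exact pow_le_pow_left₀ (by positivity) hMq _
    refine (Finset.sum_le_sum h1).trans (le_of_eq ?_)
    rw [Finset.sum_const, nsmul_eq_mul]
  · rw [hV, hE2, hE, sq, Finset.sum_mul_sum, ← Finset.sum_sub_distrib]
    have h1 : ∀ x ∈ II d n, (∑ y ∈ II d n,
        PP (fun e : Fin (n.choose (d + 1)) ≃ Fc n d => AA x ∪ AA y ⊆ Y e M) -
        ∑ y ∈ II d n, Pp x * Pp y) ≤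
        (d + 2) * q ^ (d + 1) + (d + 2) * ((d + 2) * n) * q ^ (2 * d + 1) := by
      intro x hx
      rw [← Finset.sum_sub_distrib]
      have h2 : ∀ y ∈ II d n,
          PP (fun e : Fin (n.choose (d + 1)) ≃ Fc n d => AA x ∪ AA y ⊆ Y e M) - Pp x * Pp y ≤
          (if y.1 = x.1 then q ^ (d + 1) else 0) +
            (if y.1 ≠ x.1 ∧ (x.1 ∩ y.1).card = d + 1 then q ^ (2 * d + 1) else 0) := by
        intro y hy
        rw [hPp, hPp]
        exact cov_le hM hq0 hq1 hMq hx hy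
      refine (Finset.sum_le_sum h2).trans ?_
      rw [Finset.sum_add_distrib, ← Finset.sum_filter, ← Finset.sum_filter, Finset.sum_const,
        Finset.sum_const, nsmul_eq_mul, nsmul_eq_mul]
      have h3 : (((II d n).filter (fun y => y.1 = x.1)).card : ℝ) ≤ d + 2 := by
        exact_mod_cast card_S1 (mem_II.1 hx).1
      have h4 : (((II d n).filter (fun y => y.1 ≠ x.1 ∧ (x.1 ∩ y.1).card = d + 1)).card : ℝ) ≤
          (d + 2) * ((d + 2) * n) := by
        exact_mod_cast card_S2 (mem_II.1 hx).1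
      gcongr
    refine (Finset.sum_le_sum h1).trans (le_of_eq ?_)
    rw [Finset.sum_const, nsmul_eq_mul]

theorem tail_n {M : ℕ} {c : ℝ} (hc : 0 < c) (hn : 1 ≤ n) (hd : 1 ≤ d) (hcn : c ≤ n)
    (hM : (M : ℝ) * n ≤ c * (n.choose (d + 1) : ℝ)) :
    1 - ((d + 2) ^ 2 * c ^ (d + 1) + (d + 2) ^ 3 * c ^ (2 * d + 1)) / n ≤
      PP (fun e : Fin (n.choose (d + 1)) ≃ Fc n d =>
        ((Zs d n (Y e M)).card : ℝ) ≤ ((d + 2) * c ^ (d + 1) + 1) * n) := by
  have hN : Fintype.card (Fc n d) = n.choose (d + 1) := by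
    rw [Fintype.card_finset_len, Fintype.card_fin]
  have hn1 : (1 : ℝ) ≤ n := by exact_mod_cast hn
  have hn0 : (0 : ℝ) < n := by linarith
  obtain ⟨q, hq⟩ : ∃ q : ℝ, q = c / n := ⟨_, rfl⟩
  have hq0 : 0 ≤ q := by rw [hq]; positivity
  have hq1 : q ≤ 1 := by
    rw [hq, div_le_one hn0]
    exact hcn
  have hMN : M ≤ n.choose (d + 1) := by
    have h1 : (M : ℝ) * n ≤ (n.choose (d + 1) : ℝ) * n := by
      refine hM.trans ?_
      rw [mul_comm]
      exact mul_le_mul_of_nonneg_left hcn (by positivity)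
    have h2 := le_of_mul_le_mul_right h1 hn0
    exact_mod_cast h2
  have hMq : (M : ℝ) / (n.choose (d + 1) : ℕ) ≤ q := by
    rcases Nat.eq_zero_or_pos (n.choose (d + 1)) with h0 | h0
    · rw [h0, Nat.cast_zero, div_zero]
      exact hq0
    · have h0' : (0 : ℝ) < (n.choose (d + 1) : ℕ) := by exact_mod_cast h0
      rw [div_le_iff₀ h0', hq, div_mul_eq_mul_div, le_div_iff₀ hn0]
      exact hM
  obtain ⟨Z, hZ⟩ : ∃ Z : (Fin (n.choose (d + 1)) ≃ Fc n d) → ℝ,
    ∀ e, Z e = ∑ x ∈ II d n, ind (AA x ⊆ Y e M) := ⟨_, fun _ => rfl⟩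
  obtain ⟨hv1, hv2⟩ := var_le hMN hq0 hq1 hMq hZ
  have hI : ((II d n).card : ℝ) ≤ (d + 2) * n ^ (d + 2) := by exact_mod_cast card_II (d := d) (n := n)
  have e1 : (n : ℝ) ^ (d + 2) * q ^ (d + 1) = c ^ (d + 1) * n := by
    rw [hq, div_pow]
    field_simp
    ring
  have e2 : (n : ℝ) ^ (d + 2) * n * q ^ (2 * d + 1) ≤ c ^ (2 * d + 1) * n := by
    rw [hq, div_pow]
    have h1 : (n : ℝ) ^ (d + 2) ≤ n ^ (2 * d + 1) := pow_le_pow_right₀ hn1 (by omega)
    calc (n : ℝ) ^ (d + 2) * n * (c ^ (2 * d + 1) / n ^ (2 * d + 1)) ≤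
        (n : ℝ) ^ (2 * d + 1) * n * (c ^ (2 * d + 1) / n ^ (2 * d + 1)) := by gcongr
      _ = c ^ (2 * d + 1) * n := by field_simp
  have hm : EE Z ≤ (d + 2) * c ^ (d + 1) * n := by
    refine hv1.trans ?_
    calc ((II d n).card : ℝ) * q ^ (d + 1) ≤ ((d + 2) * n ^ (d + 2)) * q ^ (d + 1) := by gcongr
      _ = (d + 2) * ((n : ℝ) ^ (d + 2) * q ^ (d + 1)) := by ring
      _ = _ := by rw [e1]; ring
  have hv : EE (fun e => (Z e - EE Z) ^ 2) ≤
      ((d + 2) ^ 2 * c ^ (d + 1) + (d + 2) ^ 3 * c ^ (2 * d + 1)) * n := by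
    refine hv2.trans ?_
    calc ((II d n).card : ℝ) *
        ((d + 2) * q ^ (d + 1) + (d + 2) * ((d + 2) * n) * q ^ (2 * d + 1)) ≤
        ((d + 2) * n ^ (d + 2)) *
        ((d + 2) * q ^ (d + 1) + (d + 2) * ((d + 2) * n) * q ^ (2 * d + 1)) := by gcongr
      _ = (d + 2) ^ 2 * ((n : ℝ) ^ (d + 2) * q ^ (d + 1)) +
          (d + 2) ^ 3 * ((n : ℝ) ^ (d + 2) * n * q ^ (2 * d + 1)) := by ring
      _ ≤ (d + 2) ^ 2 * (c ^ (d + 1) * n) + (d + 2) ^ 3 * (c ^ (2 * d + 1) * n) := by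
          rw [e1]
          gcongr
      _ = _ := by ring
  have hmk := markov (f := fun e => (Z e - EE Z) ^ 2) (fun e => sq_nonneg _)
    (t := (n : ℝ) ^ 2) (by positivity)
  have hnot : PP (fun e : Fin (n.choose (d + 1)) ≃ Fc n d =>
      ¬ (((Zs d n (Y e M)).card : ℝ) ≤ ((d + 2) * c ^ (d + 1) + 1) * n)) ≤
      PP (fun e => (n : ℝ) ^ 2 ≤ (Z e - EE Z) ^ 2) := by
    apply PP_mono
    intro e he
    rw [not_le, card_Zs, ← hZ] at he
    apply pow_le_pow_left₀ hn0.le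
    linarith
  have hadd := PP_add_not hN (fun e : Fin (n.choose (d + 1)) ≃ Fc n d =>
    ((Zs d n (Y e M)).card : ℝ) ≤ ((d + 2) * c ^ (d + 1) + 1) * n)
  have hfin : EE (fun e => (Z e - EE Z) ^ 2) / (n : ℝ) ^ 2 ≤
      ((d + 2) ^ 2 * c ^ (d + 1) + (d + 2) ^ 3 * c ^ (2 * d + 1)) / n := by
    rw [div_le_div_iff₀ (by positivity) hn0]
    calc EE (fun e => (Z e - EE Z) ^ 2) * n ≤
        (((d + 2) ^ 2 * c ^ (d + 1) + (d + 2) ^ 3 * c ^ (2 * d + 1)) * n) * n := by gcongr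
      _ = _ := by ring
  linarith

end SimpAux

open SimpAux

theorem simp_tail (d : ℕ) (hd : 2 ≤ d) (c : ℝ) (hc : 0 < c) : ∃ C : ℝ, 0 < C ∧
    ∀ M : ℕ → ℕ, (∀ᶠ n : ℕ in atTop, (M n : ℝ) * n ≤ c * (n.choose (d + 1) : ℝ)) →
      Tendsto (fun n : ℕ => PP (fun e : Fin (n.choose (d + 1)) ≃ Fc n d =>
        ((Zs d n (Y e (M n))).card : ℝ) ≤ C * n)) atTop (nhds 1) := by
  obtain ⟨C', hC'⟩ : ∃ C' : ℝ, C' = ((d + 2) ^ 2 * c ^ (d + 1) + (d + 2) ^ 3 * c ^ (2 * d + 1)) :=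
    ⟨_, rfl⟩
  refine ⟨(d + 2) * c ^ (d + 1) + 1, by positivity, ?_⟩
  intro M hM
  have hev : ∀ᶠ n : ℕ in atTop, 1 - C' / (n : ℝ) ≤
      PP (fun e : Fin (n.choose (d + 1)) ≃ Fc n d =>
        ((Zs d n (Y e (M n))).card : ℝ) ≤ ((d + 2) * c ^ (d + 1) + 1) * n) := by
    filter_upwards [hM, eventually_ge_atTop (max 1 ⌈c⌉₊)] with n hMn hn
    rw [hC']
    refine tail_n hc ((le_max_left _ _).trans hn) (by omega) ?_ hMn
    exact (Nat.le_ceil c).trans (by exact_mod_cast (le_max_right _ _).trans hn)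
  refine tendsto_of_tendsto_of_tendsto_of_le_of_le' ?_ tendsto_const_nhds hev
    (Eventually.of_forall fun n => PP_le_one _)
  have h1 := (tendsto_const_div_atTop_nhds_zero_nat C').const_sub 1
  rwa [sub_zero] at h1

end Pool.Agent.Lib.P0fb
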