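import Mathlib
import Pool.Agent.Lib.P0fb.CntSmall
import Pool.Agent.Lib.P0fb.CntLarge

/-!
# The expected number of small cores at a face is `O(n^(-(d+1)))`

Split the sum over `K` according to `k = |K|` (`k ≥ d + 2 ≥ 4` for a core: `g` and one further
member for each of the `d+1` sets `g.erase u`).  WLOG `c ≥ 1`.  Write `q = 2 c`.
* `k - 1 ≤ k₁ := 8 (d+2)^2`: `cntSmall` with `s = d+1` gives `≤ ((k+d)/n)^(d+1) (2 n p)^(k-1)
   ≤ ((k₁+1+d)/n)^(d+1) q^(k₁)`; at most `k₁ + 1` values of `k`.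
* `k₁ < k - 1` and `k ≤ √n`: `cntSmall` with `s = (k-1)/(d+2)` (natural division,
  `k - 1 ≤ 2 (d+2) s`, `s ≥ 8 (d+2)`): `≤ ((k+d)/n)^s q^(k-1) ≤ (2 n^(-1/2) q^(2(d+2)))^s ≤
  (n^(-1/4))^s ≤ n^(-2(d+2))` for large `n`; at most `√n` values of `k`.
* `√n < k < ε n^d`: `cntLarge` with `β` so small that `β^(1/(4(d+2))) 2 q ≤ 1/2`:
  `≤ 2^k β^(k/(2(d+2))) q^(k-1) ≤ 2^(-k)` up to a constant factor (natural division:
  `k/(2(d+2)) ≥ k/(4(d+2))` as reals for `k ≥ 4(d+2)`); the sum over `k > √n` is at most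
  `2 * 2^(-√n)`, smaller than `n^(-(d+1))` for large `n`.
-/

namespace Pool.Agent.Lib.P0fb

open Finset Filter

namespace SumKAux

theorem fib {n : ℕ} (F : Finset (Finset (Finset (Fin n)))) (T : Finset ℕ) (p b : ℝ)
    (hT : ∀ K ∈ F, K.card ∈ T)
    (hb : ∀ k ∈ T, ((F.filter (fun K => K.card = k)).card : ℝ) * p ^ (k - 1) ≤ b) :
    ∑ K ∈ F, p ^ (K.card - 1) ≤ T.card * b := by
  rw [← Finset.sum_fiberwise_of_maps_to hT]
  calc ∑ k ∈ T, ∑ K ∈ F with K.card = k, p ^ (K.card - 1)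
      = ∑ k ∈ T, ((F.filter (fun K => K.card = k)).card : ℝ) * p ^ (k - 1) := by
        refine Finset.sum_congr rfl fun k _ => ?_
        have h : ∀ K ∈ F.filter (fun K => K.card = k), p ^ (K.card - 1) = p ^ (k - 1) := by
          intro K hK
          rw [(Finset.mem_filter.1 hK).2]
        rw [Finset.sum_congr rfl h, Finset.sum_const, nsmul_eq_mul]
    _ ≤ ∑ _k ∈ T, b := Finset.sum_le_sum hb
    _ = _ := by rw [Finset.sum_const, nsmul_eq_mul]

theorem exists_B (M : ℕ) : ∃ B : ℝ, 0 < B ∧ ∀ k : ℕ, (k : ℝ) ^ M ≤ B * 2 ^ k := by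
  have h := tendsto_pow_const_div_const_pow_of_one_lt M (r := (2 : ℝ)) (by norm_num)
  obtain ⟨B, hB⟩ := h.bddAbove_range
  refine ⟨max B 1, by positivity, fun k => ?_⟩
  have h1 : (k : ℝ) ^ M / 2 ^ k ≤ B := hB ⟨k, rfl⟩
  rw [div_le_iff₀ (by positivity)] at h1
  exact h1.trans (by gcongr; exact le_max_left _ _)

open Classical in
/-- few members -/
theorem smallPart (d n k₁ : ℕ) (hd : 2 ≤ d) (hn1 : k₁ + 1 + d ≤ n) (q p : ℝ) (hq : 1 ≤ q)
    (hp : 0 ≤ p) (hpq : 2 * n * p ≤ q) (g : Finset (Fin n))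
    (F : Finset (Finset (Finset (Fin n))))
    (hF : ∀ K ∈ F, MinCore d g K ∧ (∀ w : Fin n, K ≠ (insert w g).powersetCard (d + 1)) ∧
      K.card ≤ k₁ + 1) :
    ∑ K ∈ F, p ^ (K.card - 1) ≤
      ((k₁ + 2 : ℕ) : ℝ) * ((((k₁ + 1 + d : ℕ) : ℝ) / n) ^ (d + 1) * q ^ k₁) := by
  have hn0 : (0 : ℝ) < n := by
    have : 0 < n := by omega
    exact_mod_cast this
  have h := fib F (Finset.range (k₁ + 2)) p
    ((((k₁ + 1 + d : ℕ) : ℝ) / n) ^ (d + 1) * q ^ k₁)
    (fun K hK => Finset.mem_range.2 (by have := (hF K hK).2.2; omega)) ?_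
  · rwa [Finset.card_range] at h
  · intro k hk
    rw [Finset.mem_range] at hk
    rcases Nat.eq_zero_or_pos k with h0 | h0
    · have : F.filter (fun K => K.card = k) = ∅ := by
        apply Finset.filter_false_of_mem
        intro K hK hKk
        rw [h0, Finset.card_eq_zero] at hKk
        have := (hF K hK).1.1
        rw [hKk] at this
        exact absurd this (Finset.notMem_empty _)
      rw [this]
      simp only [Finset.card_empty, Nat.cast_zero, zero_mul]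
      positivity
    · have h1 := cntSmall (n := n) (d := d) (k := k) (s := d + 1) hd (by omega) h0 g
        (Or.inl le_rfl)
      have h2 : ((F.filter (fun K => K.card = k)).card : ℝ) ≤
          (((k + d : ℕ) : ℝ) / n) ^ (d + 1) * (2 * n) ^ (k - 1) := by
        refine le_trans ?_ h1
        have : F.filter (fun K => K.card = k) ⊆
            univ.filter (fun K : Finset (Finset (Fin n)) => MinCore d g K ∧ K.card = k ∧
              ∀ w : Fin n, K ≠ (insert w g).powersetCard (d + 1)) := by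
          intro K hK
          rw [Finset.mem_filter] at hK ⊢
          have := hF K hK.1
          exact ⟨Finset.mem_univ _, this.1, hK.2, this.2.1⟩
        exact_mod_cast Finset.card_le_card this
      calc ((F.filter (fun K => K.card = k)).card : ℝ) * p ^ (k - 1)
          ≤ ((((k + d : ℕ) : ℝ) / n) ^ (d + 1) * (2 * n) ^ (k - 1)) * p ^ (k - 1) := by gcongr
        _ = (((k + d : ℕ) : ℝ) / n) ^ (d + 1) * (2 * n * p) ^ (k - 1) := by
          rw [mul_pow (2 * (n : ℝ)) p]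
          ring
        _ ≤ (((k₁ + 1 + d : ℕ) : ℝ) / n) ^ (d + 1) * q ^ k₁ := by
          have e1 : (2 * n * p) ^ (k - 1) ≤ q ^ k₁ :=
            (pow_le_pow_left₀ (by positivity) hpq _).trans (pow_le_pow_right₀ hq (by omega))
          have e2 : ((k + d : ℕ) : ℝ) ≤ ((k₁ + 1 + d : ℕ) : ℝ) := by
            exact_mod_cast (by omega : k + d ≤ k₁ + 1 + d)
          gcongr

open Classical in
/-- the middle range -/
theorem midPart (d n : ℕ) (hd : 2 ≤ d) (q p : ℝ) (hq : 1 ≤ q)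
    (hn : 16 * (q ^ (2 * (d + 2))) ^ 4 ≤ n) (hn1 : 1 ≤ n)
    (hp : 0 ≤ p) (hpq : 2 * n * p ≤ q) (g : Finset (Fin n))
    (F : Finset (Finset (Finset (Fin n))))
    (hF : ∀ K ∈ F, MinCore d g K ∧ (∀ w : Fin n, K ≠ (insert w g).powersetCard (d + 1)) ∧
      8 * (d + 2) ^ 2 + 1 < K.card ∧ K.card ^ 2 ≤ n) :
    ∑ K ∈ F, p ^ (K.card - 1) ≤ ((n + 1 : ℕ) : ℝ) * (1 / n) ^ (2 * (d + 2)) := by
  have hn0 : (0 : ℝ) < n := by exact_mod_cast hn1
  have h := fib F ((Finset.range (n + 1)).filter fun k => 8 * (d + 2) ^ 2 + 1 < k ∧ k ^ 2 ≤ n) p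
    ((1 / n) ^ (2 * (d + 2)))
    (fun K hK => by
      have h1 := hF K hK
      refine Finset.mem_filter.2 ⟨Finset.mem_range.2 ?_, h1.2.2⟩
      have h2 : K.card ≤ K.card ^ 2 := Nat.le_self_pow (by norm_num) _
      have := h1.2.2.2
      omega) ?_
  · refine h.trans ?_
    gcongr
    exact (Finset.card_filter_le _ _).trans (by rw [Finset.card_range])
  · intro k hk
    obtain ⟨hk0, hk1, hk2⟩ := Finset.mem_filter.1 hk
    have hk3 : 8 * (d + 2) ^ 2 ≤ k - 1 := by omega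
    have hd2 : d + 2 ≤ (d + 2) ^ 2 := Nat.le_self_pow (by norm_num) _
    have hkd : d ≤ k := by omega
    have hk2' : 2 * k ≤ k ^ 2 := by nlinarith
    set s : ℕ := (k - 1) / (d + 2) with hs
    have hs1 : 8 * (d + 2) ≤ s := by
      rw [hs, Nat.le_div_iff_mul_le (by omega)]
      calc 8 * (d + 2) * (d + 2) = 8 * (d + 2) ^ 2 := by ring
        _ ≤ k - 1 := hk3
    have hs2 : (d + 2) * s ≤ k - 1 := by
      rw [mul_comm]
      exact Nat.div_mul_le_self _ _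
    have hs3 : k - 1 ≤ 2 * (d + 2) * s := by
      have h1 : k - 1 < (d + 2) * (s + 1) := Nat.lt_mul_div_succ _ (by omega)
      nlinarith
    have h1 := cntSmall (n := n) (d := d) (k := k) (s := s) hd (by omega) (by omega) g
      (Or.inr hs2)
    have h2 : ((F.filter (fun K => K.card = k)).card : ℝ) ≤
        (((k + d : ℕ) : ℝ) / n) ^ s * (2 * n) ^ (k - 1) := by
      refine le_trans ?_ h1
      have : F.filter (fun K => K.card = k) ⊆
          univ.filter (fun K : Finset (Finset (Fin n)) => MinCore d g K ∧ K.card = k ∧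
            ∀ w : Fin n, K ≠ (insert w g).powersetCard (d + 1)) := by
        intro K hK
        rw [Finset.mem_filter] at hK ⊢
        have := hF K hK.1
        exact ⟨Finset.mem_univ _, this.1, hK.2, this.2.1⟩
      exact_mod_cast Finset.card_le_card this
    set Q : ℝ := q ^ (2 * (d + 2)) with hQ
    have hQ1 : 1 ≤ Q := one_le_pow₀ hq
    set y : ℝ := ((k + d : ℕ) : ℝ) / n * Q with hy
    have hy0 : 0 ≤ y := by positivity
    have hx : (((k + d : ℕ) : ℝ) / n) ^ 2 ≤ 4 / n := by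
      have e1 : ((k + d : ℕ) : ℝ) ≤ 2 * k := by exact_mod_cast (by omega : k + d ≤ 2 * k)
      have e2 : (k : ℝ) ^ 2 ≤ n := by exact_mod_cast hk2
      rw [div_pow, div_le_div_iff₀ (by positivity) hn0]
      calc ((k + d : ℕ) : ℝ) ^ 2 * (n : ℝ) ≤ (2 * (k : ℝ)) ^ 2 * (n : ℝ) := by gcongr
        _ = 4 * ((k : ℝ) ^ 2 * (n : ℝ)) := by ring
        _ ≤ 4 * ((n : ℝ) * (n : ℝ)) := by gcongr
        _ = 4 * (n : ℝ) ^ 2 := by ring
    have hy4 : y ^ 4 ≤ 1 / n := by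
      calc y ^ 4 = ((((k + d : ℕ) : ℝ) / n) ^ 2) ^ 2 * Q ^ 4 := by rw [hy]; ring
        _ ≤ (4 / n) ^ 2 * Q ^ 4 := by gcongr
        _ = (16 * Q ^ 4) / n * (1 / n) := by ring
        _ ≤ 1 * (1 / n) := by
          gcongr
          rw [div_le_one hn0]
          exact hn
        _ = 1 / n := one_mul _
    have hy1 : y ≤ 1 := by
      by_contra hlt
      push Not at hlt
      have e1 : (1 : ℝ) < y ^ 4 := one_lt_pow₀ hlt (by norm_num)
      have e2 : (1 : ℝ) / n ≤ 1 := by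
        rw [div_le_one hn0]
        exact_mod_cast hn1
      linarith
    calc ((F.filter (fun K => K.card = k)).card : ℝ) * p ^ (k - 1)
        ≤ ((((k + d : ℕ) : ℝ) / n) ^ s * (2 * n) ^ (k - 1)) * p ^ (k - 1) := by gcongr
      _ = (((k + d : ℕ) : ℝ) / n) ^ s * (2 * n * p) ^ (k - 1) := by
        rw [mul_pow (2 * (n : ℝ)) p]
        ring
      _ ≤ (((k + d : ℕ) : ℝ) / n) ^ s * Q ^ s := by
        have e1 : (2 * n * p) ^ (k - 1) ≤ Q ^ s := by
          rw [hQ, ← pow_mul]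
          exact (pow_le_pow_left₀ (by positivity) hpq _).trans (pow_le_pow_right₀ hq hs3)
        gcongr
      _ = y ^ s := by rw [hy, mul_pow]
      _ ≤ y ^ (8 * (d + 2)) := pow_le_pow_of_le_one hy0 hy1 hs1
      _ = (y ^ 4) ^ (2 * (d + 2)) := by
        rw [← pow_mul]
        congr 1
        ring
      _ ≤ (1 / n) ^ (2 * (d + 2)) := by gcongr

open Classical in
/-- many members -/
theorem largePart (d n : ℕ) (hd : 2 ≤ d) (q p ε B : ℝ) (hq : 1 ≤ q) (hε : 0 < ε)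
    (hB : ∀ k : ℕ, (k : ℝ) ^ (4 * (d + 1)) ≤ B * 2 ^ k) (hB0 : 0 < B)
    (hn1 : 1 ≤ n) (hn2 : (2 * (d + 2)) ^ 2 ≤ n)
    (hp : 0 ≤ p) (hpq : 2 * n * p ≤ q) (g : Finset (Fin n))
    (hcnt : ∀ (g : Finset (Fin n)) (k : ℕ), 4 ≤ k → (k : ℝ) ≤ ε * (n : ℝ) ^ d →
      ((univ.filter (fun K : Finset (Finset (Fin n)) => MinCore d g K ∧ K.card = k)).card : ℝ) ≤
        2 ^ k * ((1 / (4 * q)) ^ (4 * (d + 2))) ^ (k / (2 * (d + 2))) * (2 * n) ^ (k - 1))
    (F : Finset (Finset (Finset (Fin n))))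
    (hF : ∀ K ∈ F, MinCore d g K ∧ (K.card : ℝ) < ε * (n : ℝ) ^ d ∧ n < K.card ^ 2) :
    ∑ K ∈ F, p ^ (K.card - 1) ≤ (ε * (n : ℝ) ^ d + 1) * (B / (n : ℝ) ^ (2 * (d + 1))) := by
  have hn0 : (0 : ℝ) < n := by exact_mod_cast hn1
  have hεn : 0 ≤ ε * (n : ℝ) ^ d := by positivity
  have h := fib F ((Finset.range (⌊ε * (n : ℝ) ^ d⌋₊ + 1)).filter fun k => n < k ^ 2) p
    (B / (n : ℝ) ^ (2 * (d + 1)))
    (fun K hK => by
      have h1 := hF K hK
      refine Finset.mem_filter.2 ⟨Finset.mem_range.2 ?_, h1.2.2⟩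
      have := Nat.le_floor h1.2.1.le
      omega) ?_
  · refine h.trans ?_
    have hc : ((((Finset.range (⌊ε * (n : ℝ) ^ d⌋₊ + 1)).filter fun k => n < k ^ 2).card : ℕ) : ℝ) ≤
        ε * (n : ℝ) ^ d + 1 := by
      have h1 : ((Finset.range (⌊ε * (n : ℝ) ^ d⌋₊ + 1)).filter fun k => n < k ^ 2).card ≤
          ⌊ε * (n : ℝ) ^ d⌋₊ + 1 := (Finset.card_filter_le _ _).trans (by rw [Finset.card_range])
      have h2 : ((((Finset.range (⌊ε * (n : ℝ) ^ d⌋₊ + 1)).filter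
          fun k => n < k ^ 2).card : ℕ) : ℝ) ≤ (⌊ε * (n : ℝ) ^ d⌋₊ + 1 : ℕ) := by exact_mod_cast h1
      refine h2.trans ?_
      push_cast
      have := Nat.floor_le hεn
      linarith
    gcongr
  · intro k hk
    obtain ⟨hk0, hk1⟩ := Finset.mem_filter.1 hk
    rw [Finset.mem_range] at hk0
    have hkε : (k : ℝ) ≤ ε * (n : ℝ) ^ d := by
      have h1 : (k : ℝ) ≤ ⌊ε * (n : ℝ) ^ d⌋₊ := by exact_mod_cast (by omega : k ≤ ⌊ε * (n : ℝ) ^ d⌋₊)
      exact h1.trans (Nat.floor_le hεn)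
    have hk2 : 2 * (d + 2) < k := by
      by_contra hlt
      push Not at hlt
      have : k ^ 2 ≤ (2 * (d + 2)) ^ 2 := Nat.pow_le_pow_left hlt 2
      omega
    set t : ℕ := k / (2 * (d + 2)) with ht
    have ht1 : 1 ≤ t := by
      rw [ht, Nat.le_div_iff_mul_le (by omega)]
      omega
    have ht2 : k ≤ 4 * (d + 2) * t := by
      have h1 : k < 2 * (d + 2) * (t + 1) := Nat.lt_mul_div_succ _ (by omega)
      nlinarith
    have h1 := hcnt g k (by omega) hkε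
    have h2 : ((F.filter (fun K => K.card = k)).card : ℝ) ≤
        2 ^ k * ((1 / (4 * q)) ^ (4 * (d + 2))) ^ t * (2 * n) ^ (k - 1) := by
      refine le_trans ?_ h1
      have : F.filter (fun K => K.card = k) ⊆
          univ.filter (fun K : Finset (Finset (Fin n)) => MinCore d g K ∧ K.card = k) := by
        intro K hK
        rw [Finset.mem_filter] at hK ⊢
        have := hF K hK.1
        exact ⟨Finset.mem_univ _, this.1, hK.2⟩
      exact_mod_cast Finset.card_le_card this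
    have hq0 : 0 < q := by linarith
    calc ((F.filter (fun K => K.card = k)).card : ℝ) * p ^ (k - 1)
        ≤ (2 ^ k * ((1 / (4 * q)) ^ (4 * (d + 2))) ^ t * (2 * n) ^ (k - 1)) * p ^ (k - 1) := by
          gcongr
      _ = 2 ^ k * ((1 / (4 * q)) ^ (4 * (d + 2))) ^ t * (2 * n * p) ^ (k - 1) := by
        rw [mul_pow (2 * (n : ℝ)) p]
        ring
      _ ≤ 2 ^ k * (1 / (4 * q)) ^ k * q ^ k := by
        have e1 : (2 * n * p) ^ (k - 1) ≤ q ^ k :=
          (pow_le_pow_left₀ (by positivity) hpq _).trans (pow_le_pow_right₀ hq (by omega))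
        have e2 : ((1 / (4 * q)) ^ (4 * (d + 2))) ^ t ≤ (1 / (4 * q)) ^ k := by
          rw [← pow_mul]
          apply pow_le_pow_of_le_one (by positivity) _ ht2
          rw [div_le_one (by positivity)]
          linarith
        gcongr
      _ = (1 / 2) ^ k := by
        rw [← mul_pow, ← mul_pow]
        congr 1
        field_simp
        norm_num
      _ ≤ B / (n : ℝ) ^ (2 * (d + 1)) := by
        have e1 := hB k
        have e2 : (n : ℝ) ^ (2 * (d + 1)) ≤ (k : ℝ) ^ (4 * (d + 1)) := by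
          have e3 : (n : ℝ) ≤ (k : ℝ) ^ 2 := by exact_mod_cast hk1.le
          calc (n : ℝ) ^ (2 * (d + 1)) ≤ ((k : ℝ) ^ 2) ^ (2 * (d + 1)) := by gcongr
            _ = (k : ℝ) ^ (4 * (d + 1)) := by
              rw [← pow_mul]
              congr 1
              ring
        rw [one_div, inv_pow, le_div_iff₀ (by positivity), inv_mul_le_iff₀ (by positivity)]
        calc (n : ℝ) ^ (2 * (d + 1)) ≤ (k : ℝ) ^ (4 * (d + 1)) := e2
          _ ≤ B * 2 ^ k := e1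
          _ = 2 ^ k * B := by ring

end SumKAux

open SumKAux

open Classical in
theorem sumK (d : ℕ) (hd : 2 ≤ d) (c : ℝ) (hc : 0 < c) : ∃ ε C : ℝ, 0 < ε ∧ 0 < C ∧
    ∀ᶠ n : ℕ in atTop, ∀ g : Finset (Fin n), g.card = d + 1 → ∀ p : ℝ, 0 ≤ p → p * n ≤ c →
      ∑ K ∈ univ.filter (fun K : Finset (Finset (Fin n)) => MinCore d g K ∧
        (K.card : ℝ) < ε * (n : ℝ) ^ d ∧ ∀ w : Fin n, K ≠ (insert w g).powersetCard (d + 1)),
        p ^ (K.card - 1) ≤ C / (n : ℝ) ^ (d + 1) := by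
  set q : ℝ := 2 * max c 1 with hq
  have hq1 : 1 ≤ q := by
    have := le_max_right c 1
    linarith
  have hcq : 2 * c ≤ q := by
    have := le_max_left c 1
    linarith
  obtain ⟨B, hB0, hB⟩ := exists_B (4 * (d + 1))
  have hβ1 : (1 / (4 * q)) ^ (4 * (d + 2)) < 1 := by
    apply pow_lt_one₀ (by positivity) _ (by omega)
    rw [div_lt_one (by positivity)]
    linarith
  obtain ⟨ε, hε, hcnt⟩ := cntLarge d hd ((1 / (4 * q)) ^ (4 * (d + 2))) (by positivity) hβ1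
  set k₁ : ℕ := 8 * (d + 2) ^ 2 with hk₁
  set C₁ : ℝ := ((k₁ + 2 : ℕ) : ℝ) * (((k₁ + 1 + d : ℕ) : ℝ) ^ (d + 1) * q ^ k₁) with hC₁
  refine ⟨ε, C₁ + 2 + (ε + 1) * B, hε, by positivity, ?_⟩
  filter_upwards [hcnt, eventually_ge_atTop (k₁ + 1 + d), eventually_ge_atTop 1,
    eventually_ge_atTop ((2 * (d + 2)) ^ 2),
    eventually_ge_atTop ⌈16 * (q ^ (2 * (d + 2))) ^ 4⌉₊] with n hn hn1 hn2 hn3 hn4 g hg p hp hpc
  have hn0 : (0 : ℝ) < n := by exact_mod_cast hn2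
  have hn1' : (1 : ℝ) ≤ n := by exact_mod_cast hn2
  have hpq : 2 * n * p ≤ q := by
    calc 2 * n * p = 2 * (p * n) := by ring
      _ ≤ 2 * c := by linarith
      _ ≤ q := hcq
  set F := univ.filter (fun K : Finset (Finset (Fin n)) => MinCore d g K ∧
        (K.card : ℝ) < ε * (n : ℝ) ^ d ∧ ∀ w : Fin n, K ≠ (insert w g).powersetCard (d + 1)) with hF
  have hsplit : ∑ K ∈ F, p ^ (K.card - 1) =
      ∑ K ∈ F.filter (fun K => K.card ≤ k₁ + 1), p ^ (K.card - 1) +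
      (∑ K ∈ (F.filter (fun K => ¬ K.card ≤ k₁ + 1)).filter (fun K => K.card ^ 2 ≤ n),
        p ^ (K.card - 1) +
       ∑ K ∈ (F.filter (fun K => ¬ K.card ≤ k₁ + 1)).filter (fun K => ¬ K.card ^ 2 ≤ n),
        p ^ (K.card - 1)) := by
    rw [Finset.sum_filter_add_sum_filter_not, Finset.sum_filter_add_sum_filter_not]
  rw [hsplit]
  have s1 := smallPart d n k₁ hd hn1 q p hq1 hp hpq g (F.filter (fun K => K.card ≤ k₁ + 1))
    (fun K hK => by
      obtain ⟨h1, h2⟩ := Finset.mem_filter.1 hK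
      obtain ⟨_, h3, h4, h5⟩ := Finset.mem_filter.1 h1
      exact ⟨h3, h5, h2⟩)
  have s2 := midPart d n hd q p hq1 ((Nat.le_ceil _).trans (by exact_mod_cast hn4)) hn2 hp hpq g
    ((F.filter (fun K => ¬ K.card ≤ k₁ + 1)).filter (fun K => K.card ^ 2 ≤ n))
    (fun K hK => by
      obtain ⟨h0, h1⟩ := Finset.mem_filter.1 hK
      obtain ⟨h2, h3⟩ := Finset.mem_filter.1 h0
      obtain ⟨_, h4, h5, h6⟩ := Finset.mem_filter.1 h2
      exact ⟨h4, h6, not_le.1 h3, h1⟩)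
  have s3 := largePart d n hd q p ε B hq1 hε hB hB0 hn2 hn3 hp hpq g hn
    ((F.filter (fun K => ¬ K.card ≤ k₁ + 1)).filter (fun K => ¬ K.card ^ 2 ≤ n))
    (fun K hK => by
      obtain ⟨h0, h1⟩ := Finset.mem_filter.1 hK
      obtain ⟨h2, h3⟩ := Finset.mem_filter.1 h0
      obtain ⟨_, h4, h5, h6⟩ := Finset.mem_filter.1 h2
      exact ⟨h4, h5, not_le.1 h1⟩)
  have t1 : ((k₁ + 2 : ℕ) : ℝ) * ((((k₁ + 1 + d : ℕ) : ℝ) / n) ^ (d + 1) * q ^ k₁) =
      C₁ / (n : ℝ) ^ (d + 1) := by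
    rw [hC₁, div_pow]
    ring
  have t2 : ((n + 1 : ℕ) : ℝ) * (1 / n) ^ (2 * (d + 2)) ≤ 2 / (n : ℝ) ^ (d + 1) := by
    have e1 : ((n + 1 : ℕ) : ℝ) ≤ 2 * n := by
      push_cast
      linarith
    calc ((n + 1 : ℕ) : ℝ) * (1 / n) ^ (2 * (d + 2)) ≤ (2 * n) * (1 / n) ^ (2 * (d + 2)) := by
          gcongr
      _ = 2 / (n : ℝ) ^ (2 * d + 3) := by
          rw [show 2 * (d + 2) = (2 * d + 3) + 1 by ring, pow_succ, one_div, inv_pow]
          field_simp
      _ ≤ 2 / (n : ℝ) ^ (d + 1) := by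
          have e4 : (n : ℝ) ^ (d + 1) ≤ (n : ℝ) ^ (2 * d + 3) :=
            pow_le_pow_right₀ hn1' (by omega)
          gcongr
  have t3 : (ε * (n : ℝ) ^ d + 1) * (B / (n : ℝ) ^ (2 * (d + 1))) ≤
      (ε + 1) * B / (n : ℝ) ^ (d + 1) := by
    have e1 : ε * (n : ℝ) ^ d + 1 ≤ (ε + 1) * (n : ℝ) ^ (d + 1) := by
      have e2 : (1 : ℝ) ≤ (n : ℝ) ^ (d + 1) := one_le_pow₀ hn1'
      have e3 : (n : ℝ) ^ d ≤ (n : ℝ) ^ (d + 1) := pow_le_pow_right₀ hn1' (by omega)
      nlinarith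
    calc (ε * (n : ℝ) ^ d + 1) * (B / (n : ℝ) ^ (2 * (d + 1)))
        ≤ ((ε + 1) * (n : ℝ) ^ (d + 1)) * (B / (n : ℝ) ^ (2 * (d + 1))) := by gcongr
      _ = (ε + 1) * B / (n : ℝ) ^ (d + 1) := by
          have h2 : (n : ℝ) ^ (2 * (d + 1)) = (n : ℝ) ^ (d + 1) * (n : ℝ) ^ (d + 1) := by
            rw [← pow_add]
            congr 1
            ring
          rw [h2]
          have hX : (n : ℝ) ^ (d + 1) ≠ 0 := by positivity
          generalize (n : ℝ) ^ (d + 1) = X at hX ⊢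
          field_simp
  calc _ ≤ C₁ / (n : ℝ) ^ (d + 1) + (2 / (n : ℝ) ^ (d + 1) + (ε + 1) * B / (n : ℝ) ^ (d + 1)) :=
        add_le_add (s1.trans (le_of_eq t1)) (add_le_add (s2.trans t2) (s3.trans t3))
    _ = _ := by ring

end Pool.Agent.Lib.P0fb
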