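import Mathlib
import Pool.Agent.Lib.P0fb.SumK
import Pool.Agent.Lib.P0fb.Simp

/-!
# With high probability only `O(n)` faces lie in small cores

Let `b = ⌈ε n^d⌉₊` with `ε` from `sumK`.  Let `g ∈ Smc d n b W`: there is a core `K ∋ g` with
`K.erase g ⊆ W`, `|K| < b` (i.e. `|K| < ε n^d`, `Nat.lt_ceil`); choose it minimal: a `MinCore d g K`
contained in it.  If `K = (insert w g).powersetCard (d+1)` then `w ∉ g` and `(insert w g, g) ∈ Zs`.
Otherwise `K` is in the family of `sumK`.  So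
`|Smc| ≤ |Zs| + ∑_g ∑_K ind (K.erase g ⊆ Y_M)` and the expectation of the last sum is at most
`C(n,d+1) * C/n^(d+1) ≤ C` by `pp_incl_le` (the preimage of `K.erase g` in `Fc n d` has
`|K| - 1` elements because all members of `K` have `d+1` elements) with `p = M/N`, `p n ≤ c`.
Markov: it is `≥ n` with probability `≤ C/n`; and `simp_tail`.
-/

namespace Pool.Agent.Lib.P0fb

open Finset Filter

namespace SmallShAux

open Classical in
/-- the cores of `sumK` -/
noncomputable def fam (d n : ℕ) (ε : ℝ) (g : Finset (Fin n)) : Finset (Finset (Finset (Fin n))) :=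
  univ.filter (fun K : Finset (Finset (Fin n)) => MinCore d g K ∧
        (K.card : ℝ) < ε * (n : ℝ) ^ d ∧ ∀ w : Fin n, K ≠ (insert w g).powersetCard (d + 1))

open Classical in
/-- the other members of `K`, as faces -/
noncomputable def AA (d n : ℕ) (g : Fc n d) (K : Finset (Finset (Fin n))) : Finset (Fc n d) :=
  univ.filter (fun x => x.val ∈ K.erase g.val)

theorem exists_min {d n : ℕ} {g : Finset (Fin n)} (K : Finset (Finset (Fin n)))
    (hg : g ∈ K) (hK : Core d K) : ∃ K' ⊆ K, MinCore d g K' := by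
  classical
  have hne : (K.powerset.filter (fun K' => g ∈ K' ∧ Core d K')).Nonempty :=
    ⟨K, by simp [hg, hK]⟩
  obtain ⟨K', hK', hmin⟩ := Finset.exists_min_image _ (fun K' => K'.card) hne
  rw [Finset.mem_filter, Finset.mem_powerset] at hK'
  refine ⟨K', hK'.1, hK'.2.1, hK'.2.2, fun K'' hs hg'' hc => ?_⟩
  have h1 : K'' ∈ K.powerset.filter (fun K' => g ∈ K' ∧ Core d K') := by
    rw [Finset.mem_filter, Finset.mem_powerset]
    exact ⟨hs.trans hK'.1, hg'', hc⟩
  exact Finset.eq_of_subset_of_card_le hs (hmin _ h1)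

theorem card_AA {d n : ℕ} (g : Fc n d) {K : Finset (Finset (Fin n))}
    (hg : g.val ∈ K) (hK : ∀ σ ∈ K, σ.card = d + 1) : (AA d n g K).card = K.card - 1 := by
  classical
  rw [← Finset.card_erase_of_mem hg]
  rw [← Finset.card_map ⟨Subtype.val, Subtype.val_injective⟩]
  congr 1
  ext σ
  rw [Finset.mem_map]
  constructor
  · rintro ⟨x, hx, rfl⟩
    rw [AA, Finset.mem_filter] at hx
    exact hx.2
  · intro hσ
    refine ⟨⟨σ, hK σ (Finset.mem_of_mem_erase hσ)⟩, ?_, rfl⟩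
    rw [AA, Finset.mem_filter]
    exact ⟨Finset.mem_univ _, hσ⟩

theorem card_Smc_le {d n : ℕ} (ε : ℝ) (W : Finset (Fc n d)) :
    ((Smc d n ⌈ε * (n : ℝ) ^ d⌉₊ W).card : ℝ) ≤ (Zs d n W).card +
      ∑ g : Fc n d, ∑ K ∈ fam d n ε g.val, ind (AA d n g K ⊆ W) := by
  classical
  -- split `Smc` into the two parts
  have hsplit : Smc d n ⌈ε * (n : ℝ) ^ d⌉₊ W ⊆ (Zs d n W).image Prod.snd ∪
      univ.filter (fun g : Fc n d => ∃ K ∈ fam d n ε g.val, AA d n g K ⊆ W) := by
    intro g hg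
    rw [Smc, Finset.mem_filter] at hg
    obtain ⟨-, K, hK, hgK, hKW, hcard⟩ := hg
    obtain ⟨K', hK'K, hmin⟩ := exists_min K hgK hK
    have hK'W : K'.erase g.val ⊆ W.image Subtype.val := (Finset.erase_subset_erase _ hK'K).trans hKW
    have hc' : (K'.card : ℝ) < ε * (n : ℝ) ^ d := by
      have h1 : K'.card ≤ K.card := Finset.card_le_card hK'K
      have h2 : K'.card < ⌈ε * (n : ℝ) ^ d⌉₊ := lt_of_le_of_lt h1 hcard
      exact Nat.lt_ceil.1 h2
    by_cases hw : ∃ w : Fin n, K' = (insert w g.val).powersetCard (d + 1)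
    · obtain ⟨w, hw⟩ := hw
      rw [Finset.mem_union]
      left
      rw [Finset.mem_image]
      refine ⟨(insert w g.val, g), ?_, rfl⟩
      have hwg : w ∉ g.val := by
        intro hwg
        have h1 : K' = {g.val} := by
          rw [hw, Finset.insert_eq_of_mem hwg]
          have h2 := Finset.powersetCard_self g.val
          rwa [g.2] at h2
        have hne : g.val.Nonempty := by
          rw [← Finset.card_pos, g.2]; omega
        obtain ⟨u, hu⟩ := hne
        obtain ⟨σ', hσ', hne', -⟩ := hmin.2.1.2 g.val hmin.1 u hu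
        rw [h1, Finset.mem_singleton] at hσ'
        exact hne' hσ'
      rw [Zs, Finset.mem_filter]
      refine ⟨Finset.mem_univ _, ?_, Finset.subset_insert _ _, ?_⟩
      · show (insert w g.val).card = d + 2
        rw [Finset.card_insert_of_notMem hwg, g.2]
      · intro σ hσ hne
        have h1 : σ.val ∈ K'.erase g.val := by
          rw [Finset.mem_erase]
          refine ⟨fun h => hne (Subtype.ext h), ?_⟩
          rw [hw, Finset.mem_powersetCard]
          exact ⟨hσ, σ.2⟩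
        have h2 := hK'W h1
        rw [Finset.mem_image] at h2
        obtain ⟨x, hx, hxσ⟩ := h2
        rwa [← Subtype.ext hxσ]
    · rw [Finset.mem_union]
      right
      rw [Finset.mem_filter]
      refine ⟨Finset.mem_univ _, K', ?_, ?_⟩
      · rw [fam, Finset.mem_filter]
        exact ⟨Finset.mem_univ _, hmin, hc', fun w h => hw ⟨w, h⟩⟩
      · intro x hx
        rw [AA, Finset.mem_filter] at hx
        have h2 := hK'W hx.2
        rw [Finset.mem_image] at h2
        obtain ⟨y, hy, hyx⟩ := h2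
        rwa [← Subtype.ext hyx]
  have h1 := (Finset.card_le_card hsplit).trans (Finset.card_union_le _ _)
  have h2 : ((Zs d n W).image Prod.snd).card ≤ (Zs d n W).card := Finset.card_image_le
  have h3 : ((univ.filter (fun g : Fc n d => ∃ K ∈ fam d n ε g.val, AA d n g K ⊆ W)).card : ℝ) ≤
      ∑ g : Fc n d, ∑ K ∈ fam d n ε g.val, ind (AA d n g K ⊆ W) := by
    rw [Finset.card_filter]
    push_cast
    apply Finset.sum_le_sum
    intro g _
    by_cases hg : ∃ K ∈ fam d n ε g.val, AA d n g K ⊆ W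
    · rw [if_pos hg]
      obtain ⟨K, hK, hKW⟩ := hg
      calc (1 : ℝ) = ind (AA d n g K ⊆ W) := (ind_of hKW).symm
        _ ≤ _ := Finset.single_le_sum (f := fun K => ind (AA d n g K ⊆ W))
            (fun K _ => ind_nonneg _) hK
    · rw [if_neg hg]
      exact Finset.sum_nonneg (fun K _ => ind_nonneg _)
  calc ((Smc d n ⌈ε * (n : ℝ) ^ d⌉₊ W).card : ℝ)
      ≤ (((Zs d n W).image Prod.snd).card +
        (univ.filter (fun g : Fc n d => ∃ K ∈ fam d n ε g.val, AA d n g K ⊆ W)).card : ℕ) := by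
        exact_mod_cast h1
    _ ≤ _ := by
        push_cast
        have h2' : (((Zs d n W).image Prod.snd).card : ℝ) ≤ (Zs d n W).card := by exact_mod_cast h2
        linarith

theorem EE_T_le {d n : ℕ} {ε C p : ℝ} {M : ℕ} (hM : M ≤ n.choose (d + 1)) (hn : 0 < n)
    (hp : p = (M : ℝ) / (n.choose (d + 1) : ℝ))
    (hs : ∀ g : Finset (Fin n), g.card = d + 1 →
      ∑ K ∈ fam d n ε g, p ^ (K.card - 1) ≤ C / (n : ℝ) ^ (d + 1)) (hC : 0 < C) :
    EE (fun e : Fin (n.choose (d + 1)) ≃ Fc n d =>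
      ∑ g : Fc n d, ∑ K ∈ fam d n ε g.val, ind (AA d n g K ⊆ Y e M)) ≤ C := by
  classical
  have hcardFc : Fintype.card (Fc n d) = n.choose (d + 1) := by
    rw [Fintype.card_finset_len, Fintype.card_fin]
  rw [EE_sum]
  have h1 : ∀ g : Fc n d, EE (fun e : Fin (n.choose (d + 1)) ≃ Fc n d =>
      ∑ K ∈ fam d n ε g.val, ind (AA d n g K ⊆ Y e M)) ≤ C / (n : ℝ) ^ (d + 1) := by
    intro g
    rw [EE_sum]
    refine le_trans ?_ (hs g.val g.2)
    apply Finset.sum_le_sum
    intro K hK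
    rw [fam, Finset.mem_filter] at hK
    have h2 := pp_incl_le (N := n.choose (d + 1)) hcardFc hM (AA d n g K)
    rw [card_AA g hK.2.1.1 hK.2.1.2.1.1, ← hp] at h2
    exact h2
  refine (Finset.sum_le_sum (fun g _ => h1 g)).trans ?_
  rw [Finset.sum_const, nsmul_eq_mul, Finset.card_univ, hcardFc]
  have h3 : (n.choose (d + 1) : ℝ) ≤ (n : ℝ) ^ (d + 1) := by
    exact_mod_cast Nat.choose_le_pow n (d + 1)
  have h4 : (0 : ℝ) < (n : ℝ) ^ (d + 1) := by positivity
  rw [mul_div_assoc', div_le_iff₀ h4]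
  nlinarith

end SmallShAux

open SmallShAux in
theorem small_shadow (d : ℕ) (hd : 2 ≤ d) (c : ℝ) (hc : 0 < c) : ∃ ε C : ℝ, 0 < ε ∧ 0 < C ∧
    ∀ M : ℕ → ℕ, (∀ᶠ n : ℕ in atTop, (M n : ℝ) * n ≤ c * (n.choose (d + 1) : ℝ)) →
      Tendsto (fun n : ℕ => PP (fun e : Fin (n.choose (d + 1)) ≃ Fc n d =>
        ((Smc d n ⌈ε * (n : ℝ) ^ d⌉₊ (Y e (M n))).card : ℝ) ≤ C * n)) atTop (nhds 1) := by
  classical
  obtain ⟨ε, C₁, hε, hC₁, hsum⟩ := sumK d hd c hc
  obtain ⟨C₂, hC₂, hsimp⟩ := simp_tail d hd c hc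
  refine ⟨ε, C₂ + 1, hε, by positivity, fun M hM => ?_⟩
  have hcardFc : ∀ n : ℕ, Fintype.card (Fc n d) = n.choose (d + 1) := by
    intro n
    rw [Fintype.card_finset_len, Fintype.card_fin]
  have hlow : Tendsto (fun n : ℕ => PP (fun e : Fin (n.choose (d + 1)) ≃ Fc n d =>
        ((Zs d n (Y e (M n))).card : ℝ) ≤ C₂ * n) - C₁ / (n : ℝ)) atTop (nhds 1) := by
    have h1 := (hsimp M hM).sub (tendsto_const_div_atTop_nhds_zero_nat C₁)
    simpa using h1
  refine tendsto_of_tendsto_of_tendsto_of_le_of_le' hlow tendsto_const_nhds ?_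
    (Eventually.of_forall (fun n => PP_le_one _))
  filter_upwards [hM, hsum, eventually_gt_atTop 0, eventually_ge_atTop ⌈c⌉₊,
    eventually_ge_atTop (d + 1)] with n hMn hsn hn0 hnc hnd
  have hn0' : (0 : ℝ) < n := by exact_mod_cast hn0
  have hnc' : c ≤ n := (Nat.le_ceil c).trans (by exact_mod_cast hnc)
  have hNpos : 0 < n.choose (d + 1) := Nat.choose_pos hnd
  have hNpos' : (0 : ℝ) < (n.choose (d + 1) : ℝ) := by exact_mod_cast hNpos
  have hMN : M n ≤ n.choose (d + 1) := by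
    have h1 : (M n : ℝ) * n ≤ (n.choose (d + 1) : ℝ) * n := by
      calc (M n : ℝ) * n ≤ c * (n.choose (d + 1) : ℝ) := hMn
        _ ≤ n * (n.choose (d + 1) : ℝ) := by gcongr
        _ = _ := mul_comm _ _
    have h2 := le_of_mul_le_mul_right h1 hn0'
    exact_mod_cast h2
  have hs : ∀ g : Finset (Fin n), g.card = d + 1 →
      ∑ K ∈ fam d n ε g, ((M n : ℝ) / (n.choose (d + 1) : ℝ)) ^ (K.card - 1) ≤
        C₁ / (n : ℝ) ^ (d + 1) := by
    intro g hg
    refine hsn g hg _ (by positivity) ?_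
    rw [div_mul_eq_mul_div, div_le_iff₀ hNpos']
    exact hMn
  have hT := EE_T_le (ε := ε) (C := C₁) (M := M n) hMN hn0 rfl hs hC₁
  have hmar := markov (f := fun e : Fin (n.choose (d + 1)) ≃ Fc n d =>
      ∑ g : Fc n d, ∑ K ∈ fam d n ε g.val, ind (AA d n g K ⊆ Y e (M n)))
      (fun e => Finset.sum_nonneg (fun g _ => Finset.sum_nonneg (fun K _ => ind_nonneg _))) hn0'
  have hmar2 : PP (fun e : Fin (n.choose (d + 1)) ≃ Fc n d => (n : ℝ) ≤
      ∑ g : Fc n d, ∑ K ∈ fam d n ε g.val, ind (AA d n g K ⊆ Y e (M n))) ≤ C₁ / n :=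
    hmar.trans (by gcongr)
  have h1 := PP_add_not (hcardFc n) (fun e : Fin (n.choose (d + 1)) ≃ Fc n d =>
        ((Smc d n ⌈ε * (n : ℝ) ^ d⌉₊ (Y e (M n))).card : ℝ) ≤ (C₂ + 1) * n)
  have h2 := PP_add_not (hcardFc n) (fun e : Fin (n.choose (d + 1)) ≃ Fc n d =>
        ((Zs d n (Y e (M n))).card : ℝ) ≤ C₂ * n)
  have h3 : PP (fun e : Fin (n.choose (d + 1)) ≃ Fc n d =>
        ¬ ((Smc d n ⌈ε * (n : ℝ) ^ d⌉₊ (Y e (M n))).card : ℝ) ≤ (C₂ + 1) * n) ≤
      PP (fun e : Fin (n.choose (d + 1)) ≃ Fc n d => ¬ ((Zs d n (Y e (M n))).card : ℝ) ≤ C₂ * n) +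
      PP (fun e : Fin (n.choose (d + 1)) ≃ Fc n d => (n : ℝ) ≤
        ∑ g : Fc n d, ∑ K ∈ fam d n ε g.val, ind (AA d n g K ⊆ Y e (M n))) := by
    refine le_trans (PP_mono ?_) (PP_or_le _ _)
    intro e he
    by_contra hcon
    push Not at hcon
    apply he
    have h4 := card_Smc_le ε (Y e (M n))
    have h5 := hcon.1
    have h6 := hcon.2
    linarith
  linarith

end Pool.Agent.Lib.P0fb
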