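import Mathlib
import Pool.Agent.Lib.P0fb.SmallSh

/-!
# Choice of the parameters

`M n = 3 C(n,d)`; `M n * n ≤ 6 (d+1) C(n,d+1)` for `n ≥ 2 d` (`C(n,d+1) (d+1) = C(n,d) (n-d)`), so
`small_shadow` applies with `c = 6 (d+1)` and gives `ε₀`, `C₀`.  Put `ε' = min ε₀ (1/(2 * 2^d * d!))`,
`b n = ⌈ε' n^d⌉₊`; `Smc` is monotone in `b`; `|Smc| ≤ C₀ n` is the same as `|Smc| ≤ ⌊C₀ n⌋₊`.
`b n ≤ C(n,d)` for large `n` because `C(n,d) ≥ (n/2)^d / d!` for `n ≥ 2d`; and with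
`ε = min 1 (ε'/6)`, `C(n,d) ≤ n^d`: `ε * 3 C(n,d) ≤ ε' n^d / 2`, `C₀ n + 1 ≤ ε' n^d / 2` for large
`n` (`d ≥ 2`).
-/

namespace Pool.Agent.Lib.P0fb

open Finset Filter

namespace ParamsAux

/-- `(n/2)^d / d! ≤ C(n,d)` -/
theorem choose_ge {n d : ℕ} (h : 2 * d ≤ n) :
    (n : ℝ) ^ d / (2 ^ d * d.factorial) ≤ (n.choose d : ℝ) := by
  have h1 := Nat.pow_le_choose (α := ℝ) d n
  refine le_trans ?_ h1
  rw [← div_div, ← div_pow]
  have h2 : (n : ℝ) / 2 ≤ ((n + 1 - d : ℕ) : ℝ) := by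
    rw [Nat.cast_sub (by omega)]
    push_cast
    have h3 : (2 : ℝ) * d ≤ n := by exact_mod_cast h
    linarith
  have h4 : ((n : ℝ) / 2) ^ d ≤ (((n + 1 - d : ℕ) ^ d : ℕ) : ℝ) := by
    push_cast
    exact pow_le_pow_left₀ (by positivity) h2 d
  have h5 : (0 : ℝ) < (d.factorial : ℝ) := by exact_mod_cast d.factorial_pos
  have h6 : ((n : ℝ) / 2) ^ d / (d.factorial : ℝ) ≤
      (((n + 1 - d : ℕ) ^ d : ℕ) : ℝ) / (d.factorial : ℝ) :=
    div_le_div_of_nonneg_right h4 h5.le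
  simpa using h6

theorem Mn_le {n d : ℕ} (h : 2 * d ≤ n) :
    ((3 * n.choose d : ℕ) : ℝ) * n ≤ (6 * ((d : ℝ) + 1)) * (n.choose (d + 1) : ℝ) := by
  have h1 := Nat.choose_succ_right_eq n d
  have h2 : n ≤ 2 * (n - d) := by omega
  have h3 : 3 * n.choose d * n ≤ 6 * (d + 1) * n.choose (d + 1) := by
    calc 3 * n.choose d * n ≤ 3 * n.choose d * (2 * (n - d)) := Nat.mul_le_mul_left _ h2
      _ = 6 * (n.choose d * (n - d)) := by ring
      _ = 6 * (d + 1) * n.choose (d + 1) := by rw [← h1]; ring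
  exact_mod_cast h3

theorem Smc_mono {d n b b' : ℕ} (h : b ≤ b') (W : Finset (Fc n d)) :
    Smc d n b W ⊆ Smc d n b' W := by
  classical
  intro g hg
  unfold Smc at hg ⊢
  rw [Finset.mem_filter] at hg ⊢
  obtain ⟨h1, K, h2, h3, h4, h5⟩ := hg
  exact ⟨h1, K, h2, h3, h4, h5.trans_le h⟩

end ParamsAux

open ParamsAux in
theorem params (d : ℕ) (hd : 2 ≤ d) : ∃ (ε C₀ : ℝ) (b : ℕ → ℕ), 0 < ε ∧ ε ≤ 1 ∧ 0 < C₀ ∧
    (∀ᶠ n : ℕ in atTop, ε * ((3 * n.choose d : ℕ) : ℝ) + (⌊C₀ * n⌋₊ : ℝ) + 1 ≤ b n ∧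
      b n ≤ n.choose d) ∧
    Tendsto (fun n : ℕ => PP (fun e : Fin (n.choose (d + 1)) ≃ Fc n d =>
      (Smc d n (b n) (Y e (3 * n.choose d))).card ≤ ⌊C₀ * n⌋₊)) atTop (nhds 1) := by
  obtain ⟨ε₀, C₀, hε₀, hC₀, hS⟩ := small_shadow d hd (6 * ((d : ℝ) + 1)) (by positivity)
  obtain ⟨ε', hε'⟩ : ∃ ε' : ℝ, ε' = min ε₀ (1 / (2 * (2 ^ d * d.factorial))) := ⟨_, rfl⟩
  have hfac : (0 : ℝ) < (d.factorial : ℝ) := by exact_mod_cast d.factorial_pos
  have hε'0 : 0 < ε' := by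
    rw [hε']
    exact lt_min hε₀ (by positivity)
  have hε'1 : ε' ≤ ε₀ := by
    rw [hε']
    exact min_le_left _ _
  have hε'2 : ε' ≤ 1 / (2 * (2 ^ d * d.factorial)) := by
    rw [hε']
    exact min_le_right _ _
  refine ⟨min 1 (ε' / 6), C₀, fun n => ⌈ε' * (n : ℝ) ^ d⌉₊, lt_min one_pos (by positivity),
    min_le_left _ _, hC₀, ?_, ?_⟩
  · have hlarge : ∀ᶠ n : ℕ in atTop, 2 * (C₀ + 1) / ε' ≤ (n : ℝ) :=
      tendsto_natCast_atTop_atTop.eventually_ge_atTop _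
    filter_upwards [hlarge, eventually_ge_atTop (2 * d)] with n hn hnd
    have hn1 : (1 : ℝ) ≤ n := by
      have : 1 ≤ n := by omega
      exact_mod_cast this
    constructor
    · have h1 : min 1 (ε' / 6) * ((3 * n.choose d : ℕ) : ℝ) ≤ ε' * (n : ℝ) ^ d / 2 := by
        have h2 : (n.choose d : ℝ) ≤ (n : ℝ) ^ d := by
          exact_mod_cast Nat.choose_le_pow n d
        have h3 : min 1 (ε' / 6) ≤ ε' / 6 := min_le_right _ _
        calc min 1 (ε' / 6) * ((3 * n.choose d : ℕ) : ℝ) ≤ ε' / 6 * ((3 * n.choose d : ℕ) : ℝ) :=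
              mul_le_mul_of_nonneg_right h3 (Nat.cast_nonneg _)
          _ = ε' / 2 * (n.choose d : ℝ) := by push_cast; ring
          _ ≤ ε' / 2 * (n : ℝ) ^ d := mul_le_mul_of_nonneg_left h2 (by positivity)
          _ = _ := by ring
      have h4 : (⌊C₀ * n⌋₊ : ℝ) + 1 ≤ ε' * (n : ℝ) ^ d / 2 := by
        have h5 : (⌊C₀ * n⌋₊ : ℝ) ≤ C₀ * n := Nat.floor_le (by positivity)
        have h6 : (n : ℝ) ^ 2 ≤ (n : ℝ) ^ d := pow_le_pow_right₀ hn1 hd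
        rw [div_le_iff₀ hε'0] at hn
        have h7 : (C₀ + 1) * n ≤ ε' * (n : ℝ) ^ 2 / 2 := by nlinarith
        have h8 : ε' * (n : ℝ) ^ 2 / 2 ≤ ε' * (n : ℝ) ^ d / 2 := by
          have := mul_le_mul_of_nonneg_left h6 hε'0.le
          linarith
        nlinarith
      have h9 : ε' * (n : ℝ) ^ d ≤ (⌈ε' * (n : ℝ) ^ d⌉₊ : ℝ) := Nat.le_ceil _
      linarith
    · show ⌈ε' * (n : ℝ) ^ d⌉₊ ≤ n.choose d
      rw [Nat.ceil_le]
      refine le_trans ?_ (choose_ge hnd)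
      have h1 : ε' ≤ 1 / (2 ^ d * d.factorial) := by
        refine hε'2.trans ?_
        apply one_div_le_one_div_of_le (by positivity)
        have : (0 : ℝ) < 2 ^ d * d.factorial := by positivity
        linarith
      calc ε' * (n : ℝ) ^ d ≤ 1 / (2 ^ d * d.factorial) * (n : ℝ) ^ d :=
            mul_le_mul_of_nonneg_right h1 (by positivity)
        _ = _ := by ring
  · have hS1 := hS (fun n => 3 * n.choose d) (by
      filter_upwards [eventually_ge_atTop (2 * d)] with n hn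
      exact Mn_le hn)
    refine tendsto_of_tendsto_of_tendsto_of_le_of_le hS1 tendsto_const_nhds ?_ ?_
    · intro n
      refine PP_mono fun e he => ?_
      refine Nat.le_floor ?_
      refine le_trans ?_ he
      have h1 : ⌈ε' * (n : ℝ) ^ d⌉₊ ≤ ⌈ε₀ * (n : ℝ) ^ d⌉₊ :=
        Nat.ceil_le_ceil (mul_le_mul_of_nonneg_right hε'1 (by positivity))
      exact_mod_cast Finset.card_le_card (Smc_mono h1 (Y e (3 * n.choose d)))
    · intro n
      exact PP_le_one _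

end Pool.Agent.Lib.P0fb
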