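import Mathlib
import Pool.Agent.Lib.P0fb.Prob

/-!
# Backward decay of the closure before the first big circuit

Put `T = m + L` and, for `m ≤ t ≤ T`, let `E_t` be the event
`g ∉ Y_T, g ∉ Sm(Y_T), |NC(Y_T)| < b, |Sm(Y_T)| ≤ s, g ∈ cl(Y_t)`.  For `m < t ≤ T`:
`P(E_{t-1}) ≤ (1 - ε) P(E_t)`.  Proof: `E_{t-1}` is the event `E_t` and `g ∈ cl(Y_t \ {f_t})`,
`f_t = e (t-1)`, `Y_t \ {f_t} = Y_{t-1}` (`Y_erase`); by `back` (with the function
`h e x = ind (E_t(e)) * ind (g ∈ cl (Y_t.erase x))`, invariant by `Y_swap_fut`) the conditional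
probability of `g ∉ cl(Y_t \ {f_t})` is `#{x ∈ Y_t : g ∉ cl(Y_t.erase x)}/t`.  By `S.d1` this number
is at least `b - 1 - |NC(Y_t)|` (note `g ∉ Y_t`, `g ∉ Sm(Y_t) ⊆ Sm(Y_T)`), and
`|NC(Y_t)| ≤ |NC(Y_T)| ≤ |Sm(Y_T)| ≤ s` by `S.NC_mono` and `S.d2`.  So it is `≥ ε (m+L) ≥ ε t`.
Induction on `L` or on `T - t`.
-/

namespace Pool.Agent.Lib.P0fb

open Finset

variable {N b : ℕ} {α : Type*} [Fintype α] [DecidableEq α]

theorem back1 (S : Sys α b) {m L s : ℕ} (hmL : m + L ≤ N) {ε : ℝ}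
    (h0 : 0 ≤ ε) (h1 : ε ≤ 1) (hε : ε * ((m + L : ℕ) : ℝ) + s + 1 ≤ b) (g : α) :
    PP (fun e : Fin N ≃ α => g ∉ Y e (m + L) ∧ g ∉ S.Sm (Y e (m + L)) ∧
      (S.NC (Y e (m + L))).card < b ∧ (S.Sm (Y e (m + L))).card ≤ s ∧ g ∈ S.cl (Y e m))
      ≤ (1 - ε) ^ L := by
  classical
  set T := m + L with hT
  set Ev : ℕ → (Fin N ≃ α) → Prop := fun t e => g ∉ Y e T ∧ g ∉ S.Sm (Y e T) ∧
      (S.NC (Y e T)).card < b ∧ (S.Sm (Y e T)).card ≤ s ∧ g ∈ S.cl (Y e t) with hEv
  have hstep : ∀ t, t < T → PP (Ev t) ≤ (1 - ε) * PP (Ev (t + 1)) := by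
    intro t ht
    have htN : t < N := lt_of_lt_of_le ht hmL
    have h2 : PP (Ev t) = EE (fun e : Fin N ≃ α => ind (Ev (t + 1) e) *
        ind (g ∈ S.cl ((Y e (t + 1)).erase (e ⟨t, htN⟩)))) := by
      refine EE_congr fun e => ?_
      rw [← ind_and]
      congr 1
      have h3 := Y_erase e ⟨t, htN⟩
      simp only at h3
      rw [h3]
      refine propext ⟨fun h => ⟨⟨h.1, h.2.1, h.2.2.1, h.2.2.2.1,
        S.mono (Y_mono e (Nat.le_succ t)) h.2.2.2.2⟩, h.2.2.2.2⟩, fun h => ⟨h.1.1, h.1.2.1,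
        h.1.2.2.1, h.1.2.2.2.1, h.2⟩⟩
    have h3 := back (N := N) (α := α) ⟨t, htN⟩ (fun e x => ind (Ev (t + 1) e) *
        ind (g ∈ S.cl ((Y e (t + 1)).erase x))) (by
      intro x e i j hi hj
      simp only at hi hj
      have h4 : Y ((Equiv.swap i j).trans e) T = Y e T := Y_swap_fut e hi hj ht
      have h5 : Y ((Equiv.swap i j).trans e) (t + 1) = Y e (t + 1) :=
        Y_swap_fut e hi hj le_rfl
      simp only [hEv, h4, h5])
    rw [h2, h3]
    have h6 : (1 - ε) * PP (Ev (t + 1)) = EE (fun e => (1 - ε) * ind (Ev (t + 1) e)) :=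
      (EE_mul_left _ _).symm
    rw [h6]
    refine EE_mono fun e => ?_
    simp only
    by_cases hE : Ev (t + 1) e
    · rw [ind_of hE]
      obtain ⟨g1, g2, g3, g4, g5⟩ := hE
      set W := Y e (t + 1) with hW
      have hWT : W ⊆ Y e T := Y_mono e ht
      have hWc : W.card = t + 1 := card_Y e (by omega)
      have d1 := S.d1 W g g5 (fun h => g1 (hWT h)) (fun h => g2 (S.smono hWT h))
      have hNC : (W.filter (fun h => h ∈ S.cl (W.erase h))).card ≤ s := by
        have h7 : S.NC W ⊆ S.NC (Y e T) := S.NC_mono hWT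
        have h8 : S.NC (Y e T) ⊆ S.Sm (Y e T) := by
          rcases S.d2 (Y e T) with h | h
          · exact absurd h (not_le.2 g3)
          · exact h
        exact (card_le_card (h7.trans h8)).trans g4
      have hsplit : (W.filter (fun h => g ∈ S.cl (W.erase h))).card +
          (W.filter (fun h => g ∉ S.cl (W.erase h))).card = t + 1 := by
        rw [← hWc]
        exact card_filter_add_card_filter_not (s := W) (fun h => g ∈ S.cl (W.erase h))
      have hsum : ∑ x ∈ W, (1 : ℝ) * ind (g ∈ S.cl (W.erase x)) =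
          ((W.filter (fun h => g ∈ S.cl (W.erase h))).card : ℝ) := by
        rw [card_filter]
        push_cast
        refine sum_congr rfl fun x _ => ?_
        rw [one_mul]
        by_cases hx : g ∈ S.cl (W.erase x)
        · rw [ind_of hx, if_pos hx]
        · rw [ind_not_of hx, if_neg hx]
      rw [hsum, mul_one]
      have ht1 : (0 : ℝ) < (t : ℝ) + 1 := by positivity
      rw [div_le_iff₀ ht1]
      have c1 : (b : ℝ) ≤ ((W.filter (fun h => g ∉ S.cl (W.erase h))).card : ℝ) + s + 1 := by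
        have : b ≤ (W.filter (fun h => g ∉ S.cl (W.erase h))).card + s + 1 := by omega
        exact_mod_cast this
      have c2 : ((W.filter (fun h => g ∈ S.cl (W.erase h))).card : ℝ) +
          ((W.filter (fun h => g ∉ S.cl (W.erase h))).card : ℝ) = (t : ℝ) + 1 := by
        exact_mod_cast hsplit
      have c3 : ε * ((t : ℝ) + 1) ≤ ε * ((T : ℕ) : ℝ) := by
        refine mul_le_mul_of_nonneg_left ?_ h0
        exact_mod_cast ht
      nlinarith
    · rw [ind_not_of hE]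
      simp
  have hall : ∀ j, j ≤ L → PP (Ev m) ≤ (1 - ε) ^ j * PP (Ev (m + j)) := by
    intro j
    induction j with
    | zero =>
      intro _
      simp
    | succ j ih =>
      intro hj
      have h4 := ih (by omega)
      have h5 := hstep (m + j) (by omega)
      calc PP (Ev m) ≤ (1 - ε) ^ j * PP (Ev (m + j)) := h4
        _ ≤ (1 - ε) ^ j * ((1 - ε) * PP (Ev (m + j + 1))) :=
          mul_le_mul_of_nonneg_left h5 (pow_nonneg (by linarith) _)
        _ = (1 - ε) ^ (j + 1) * PP (Ev (m + (j + 1))) := by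
          rw [pow_succ, mul_assoc]
          rfl
  calc PP (Ev m) ≤ (1 - ε) ^ L * PP (Ev (m + L)) := hall L le_rfl
    _ ≤ (1 - ε) ^ L * 1 := mul_le_mul_of_nonneg_left (PP_le_one _) (pow_nonneg (by linarith) _)
    _ = (1 - ε) ^ L := mul_one _

end Pool.Agent.Lib.P0fb
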