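import Mathlib
import Pool.Agent.Lib.P0fb.WBack
import Pool.Agent.Lib.P0fb.WFor

/-!
# The window from no shadow to a giant closure has length `O(L)`

Bad events, for `m + L ≤ M`:
`F1(m)`: there is `g` as in `back1` (with this `m`, `L`), probability `≤ N (1-ε)^L`;
`F2(m)`: `b ≤ |NC(Y_m)|` and `|cl(Y_{m+L})| < D`, probability `≤ 2 q^L` by `tails` with
`Φ = Ψ = 1` (either `J ≤ η L` or `J ≥ η L`).
Outside of the bad events and if `|Sm(Y_M)| ≤ s`: let `m'` be the least `m` with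
`b ≤ |NC(Y_m)|`; `m' ≤ M₁` by `hrank` (`card_Y`).  If `m' ≥ L + 1` put `m = m' - 1 - L`: then
`|NC(Y_{m+L})| < b`, so `NC(Y_{m+L}) ⊆ Sm(Y_{m+L})` (`S.d2`), and every `g ∈ cl(Y_m) \ Y_m` lies in
`Sm(Y_{m+L})` (if `g ∈ Y_{m+L}` then `g ∈ NC(Y_{m+L})` because `Y_m ⊆ Y_{m+L}.erase g`; if not,
use that `F1(m)` fails); so `|cl(Y_m) \ Y_m| ≤ s`.  As `F2(m')` fails,
`D ≤ |cl(Y_{m'+L})| = |cl(Y_{m+2L+1})|`.  If `m' ≤ L` take `m = 0` (`cl ∅ = ∅`).
-/

namespace Pool.Agent.Lib.P0fb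

open Finset

namespace WinAAux

theorem det {α : Type} [Fintype α] [DecidableEq α] {b N : ℕ} (S : Sys α b)
    (hcl : S.cl ∅ = ∅) {M M₁ L s D : ℕ} (hMN : M ≤ N) (hM1 : M₁ + L ≤ M) (hL : 2 * L + 1 ≤ M)
    (hrank : ∀ W : Finset α, W.card = M₁ → b ≤ (S.NC W).card) (e : Fin N ≃ α)
    (he : (S.Sm (Y e M)).card ≤ s ∧
      ¬ ∃ m : ℕ, m + (2 * L + 1) ≤ M ∧ (S.cl (Y e m) \ Y e m).card ≤ s ∧
        D ≤ (S.cl (Y e (m + (2 * L + 1)))).card) :
    ∃ m ∈ Finset.range (M + 1), m + L ≤ M ∧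
      ((∃ g ∈ (univ : Finset α), g ∉ Y e (m + L) ∧ g ∉ S.Sm (Y e (m + L)) ∧
        (S.NC (Y e (m + L))).card < b ∧ (S.Sm (Y e (m + L))).card ≤ s ∧ g ∈ S.cl (Y e m)) ∨
      (b ≤ (S.NC (Y e m)).card ∧ (S.cl (Y e (m + L))).card < D)) := by
  classical
  obtain ⟨hs, hno⟩ := he
  by_contra hbad
  apply hno
  have hex : ∃ m, b ≤ (S.NC (Y e m)).card :=
    ⟨M₁, hrank _ (card_Y e (by omega))⟩
  have hspec := Nat.find_spec hex
  have hmin : ∀ k, k < Nat.find hex → (S.NC (Y e k)).card < b :=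
    fun k hk => not_le.1 (Nat.find_min hex hk)
  have hle : Nat.find hex ≤ M₁ := Nat.find_min' hex (hrank _ (card_Y e (by omega)))
  generalize Nat.find hex = m' at hspec hmin hle
  have hF2 : D ≤ (S.cl (Y e (m' + L))).card := by
    by_contra h
    exact hbad ⟨m', Finset.mem_range.2 (by omega), by omega, Or.inr ⟨hspec, not_le.1 h⟩⟩
  rcases Nat.lt_or_ge L m' with hm | hm
  · refine ⟨m' - 1 - L, by omega, ?_, ?_⟩
    swap
    · have : m' - 1 - L + (2 * L + 1) = m' + L := by omega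
      rw [this]
      exact hF2
    · set m := m' - 1 - L with hmdef
      have hmL : m + L < m' := by omega
      have hNC := hmin (m + L) hmL
      have hsub : S.NC (Y e (m + L)) ⊆ S.Sm (Y e (m + L)) := by
        rcases S.d2 (Y e (m + L)) with h | h
        · exact absurd hNC (not_lt.2 h)
        · exact h
      have hSm : S.Sm (Y e (m + L)) ⊆ S.Sm (Y e M) := S.smono (Y_mono e (by omega))
      refine (Finset.card_le_card fun g hg => hSm ?_).trans hs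
      rw [Finset.mem_sdiff] at hg
      obtain ⟨hg1, hg2⟩ := hg
      by_cases hgY : g ∈ Y e (m + L)
      · apply hsub
        unfold Sys.NC
        rw [Finset.mem_filter]
        refine ⟨hgY, S.mono ?_ hg1⟩
        intro x hx
        rw [Finset.mem_erase]
        refine ⟨?_, Y_mono e (by omega) hx⟩
        rintro rfl
        exact hg2 hx
      · by_contra hgS
        exact hbad ⟨m, Finset.mem_range.2 (by omega), by omega, Or.inl ⟨g, Finset.mem_univ _,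
          hgY, hgS, hNC, (Finset.card_le_card hSm).trans hs, hg1⟩⟩
  · refine ⟨0, by omega, ?_, ?_⟩
    · rw [Y_zero, hcl]
      simp
    · exact hF2.trans (Finset.card_le_card (S.mono (Y_mono e (by omega))))

end WinAAux

theorem windowA {ε : ℝ} (h0 : 0 < ε) (h1 : ε ≤ 1) : ∃ q δ₀ : ℝ, 0 < q ∧ q < 1 ∧ 0 < δ₀ ∧
    ∀ (α : Type) [Fintype α] [DecidableEq α] {b N : ℕ} (S : Sys α b), Fintype.card α = N →
      S.cl ∅ = ∅ → ∀ {M M₁ L s D : ℕ}, M ≤ N → ε * M + s + 1 ≤ b →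
      (D : ℝ) ≤ δ₀ * ((N : ℝ) - (M : ℝ)) → M₁ + L ≤ M → 2 * L + 1 ≤ M →
      (∀ W : Finset α, W.card = M₁ → b ≤ (S.NC W).card) →
      PP (fun e : Fin N ≃ α => (S.Sm (Y e M)).card ≤ s ∧
        ¬ ∃ m : ℕ, m + (2 * L + 1) ≤ M ∧ (S.cl (Y e m) \ Y e m).card ≤ s ∧
          D ≤ (S.cl (Y e (m + (2 * L + 1)))).card) ≤ ((M : ℝ) + 1) * ((N : ℝ) + 2) * q ^ L := by
  obtain ⟨q, η, δ₀, hq1, hq0, hq2, hη, hδ, H⟩ := tails h0 h1
  refine ⟨q, δ₀, hq0, hq2, hδ, ?_⟩
  intro α _ _ b N S hN hcl M M₁ L s D hMN hεb hD hM1 hL hrank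
  have hqL : (1 - ε) ^ L ≤ q ^ L := pow_le_pow_left₀ (by linarith) (by linarith) L
  have hb : ∀ e : Fin N ≃ α, ((S.Sm (Y e M)).card ≤ s ∧
      ¬ ∃ m : ℕ, m + (2 * L + 1) ≤ M ∧ (S.cl (Y e m) \ Y e m).card ≤ s ∧
        D ≤ (S.cl (Y e (m + (2 * L + 1)))).card) →
      ∃ m ∈ Finset.range (M + 1), m + L ≤ M ∧
        ((∃ g ∈ (univ : Finset α), g ∉ Y e (m + L) ∧ g ∉ S.Sm (Y e (m + L)) ∧
          (S.NC (Y e (m + L))).card < b ∧ (S.Sm (Y e (m + L))).card ≤ s ∧ g ∈ S.cl (Y e m)) ∨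
        (b ≤ (S.NC (Y e m)).card ∧ (S.cl (Y e (m + L))).card < D)) :=
    WinAAux.det S hcl hMN hM1 hL hrank
  refine (PP_mono hb).trans ?_
  refine (PP_exists_le _ _).trans ?_
  have hterm : ∀ m ∈ Finset.range (M + 1), PP (fun e : Fin N ≃ α => m + L ≤ M ∧
        ((∃ g ∈ (univ : Finset α), g ∉ Y e (m + L) ∧ g ∉ S.Sm (Y e (m + L)) ∧
          (S.NC (Y e (m + L))).card < b ∧ (S.Sm (Y e (m + L))).card ≤ s ∧ g ∈ S.cl (Y e m)) ∨
        (b ≤ (S.NC (Y e m)).card ∧ (S.cl (Y e (m + L))).card < D))) ≤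
      ((N : ℝ) + 2) * q ^ L := by
    intro m _
    have hpos : (0 : ℝ) ≤ ((N : ℝ) + 2) * q ^ L := by positivity
    by_cases hmL : m + L ≤ M
    swap
    · refine (PP_mono (B := fun _ => False) fun e he => hmL he.1).trans ?_
      refine le_trans (le_of_eq ?_) hpos
      unfold PP
      have : EE (fun _ : Fin N ≃ α => ind False) = ind False := EE_const hN _
      rw [this]
      exact ind_not_of (fun h => h)
    have hmLR : ((m + L : ℕ) : ℝ) ≤ (M : ℝ) := by exact_mod_cast hmL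
    have hε' : ε * ((m + L : ℕ) : ℝ) + s + 1 ≤ b := by
      have := mul_le_mul_of_nonneg_left hmLR h0.le
      linarith
    have hε'' : ε * ((m + L : ℕ) : ℝ) ≤ b := by
      have : (0 : ℝ) ≤ s := Nat.cast_nonneg s
      linarith
    have hD' : (D : ℝ) ≤ δ₀ * ((N : ℝ) - ((m + L : ℕ) : ℝ)) := by
      refine hD.trans (mul_le_mul_of_nonneg_left ?_ hδ.le)
      linarith
    refine (PP_mono fun e he => he.2).trans ?_
    refine (PP_or_le _ _).trans ?_
    have a1 : PP (fun e : Fin N ≃ α => ∃ g ∈ (univ : Finset α), g ∉ Y e (m + L) ∧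
          g ∉ S.Sm (Y e (m + L)) ∧
          (S.NC (Y e (m + L))).card < b ∧ (S.Sm (Y e (m + L))).card ≤ s ∧ g ∈ S.cl (Y e m)) ≤
        N * q ^ L := by
      refine (PP_exists_le _ _).trans ?_
      refine (Finset.sum_le_sum (g := fun _ => q ^ L) fun g _ =>
        (back1 S (hmL.trans hMN) h0.le h1 hε' g).trans hqL).trans ?_
      rw [Finset.sum_const, Finset.card_univ, hN, nsmul_eq_mul]
    have a2 : PP (fun e : Fin N ≃ α => b ≤ (S.NC (Y e m)).card ∧
        (S.cl (Y e (m + L))).card < D) ≤ 2 * q ^ L := by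
      obtain ⟨H1, H2⟩ := H α S (m := m) (r := L) (D := D) (hmL.trans hMN)
      have c1 := H1 (fun _ => 1) (fun _ => zero_le_one) (fun _ _ _ _ _ => rfl) hε''
      have c2 := H2 (fun _ => 1) (fun _ => zero_le_one) (fun _ _ _ _ _ => rfl) hD'
      have c3 : EE (fun _ : Fin N ≃ α => (1 : ℝ)) = 1 := EE_const hN 1
      rw [c3, mul_one] at c1 c2
      have c4 : PP (fun e : Fin N ≃ α => b ≤ (S.NC (Y e m)).card ∧
          (S.cl (Y e (m + L))).card < D) ≤
          EE (fun e : Fin N ≃ α =>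
            1 * ind (b ≤ (S.NC (Y e m)).card ∧ (S.J e m L : ℝ) ≤ η * L) +
            1 * ind ((S.cl (Y e (m + L))).card < D ∧ η * L ≤ (S.J e m L : ℝ))) := by
        refine EE_mono fun e => ?_
        rw [one_mul, one_mul]
        refine le_trans (ind_mono ?_) (ind_or_le _ _)
        rintro ⟨k1, k2⟩
        rcases le_total (S.J e m L : ℝ) (η * L) with h | h
        · exact Or.inl ⟨k1, h⟩
        · exact Or.inr ⟨k2, h⟩
      rw [EE_add] at c4
      linarith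
    have : ((N : ℝ) + 2) * q ^ L = N * q ^ L + 2 * q ^ L := by ring
    rw [this]
    exact add_le_add a1 a2
  refine (Finset.sum_le_sum hterm).trans (le_of_eq ?_)
  rw [Finset.sum_const, Finset.card_range, nsmul_eq_mul]
  push_cast
  ring

end Pool.Agent.Lib.P0fb
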