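import Mathlib
import Pool.Agent.Lib.P0fb.Params
import Pool.Agent.Lib.P0fb.WinA
import Pool.Agent.Lib.P0fb.LinAlg
import Pool.Agent.Lib.P0fb.LinRk

/-!
# Theorem A: the window of length `O(log n)`

Parameters from `params`; `M = 3 C(n,d)`, `M₁ = 2 C(n,d)`, `s = ⌊C₀ n⌋₊`, `S` from `exists_sys`
(with `b = b n`), `q, δ₀` from `windowA`, `N = C(n,d+1)`, `D = ⌊(δ₀/2) N⌋₊` (for large `n`
`M ≤ N/2`, so `D ≤ δ₀ (N - M)`), `L = ⌊C₁ log n⌋₊` with `C₁ log (1/q) ≥ 2d + 3`: then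
`(M+1)(N+2) q^L → 0` (`M + 1 ≤ 4 n^d`, `N + 2 ≤ 3 n^(d+1)`, `q^L ≤ q⁻¹ n^(-(2d+3))`).
`rank_bound`: `|W| = M₁` implies `|NC W| ≥ M₁ - C(n,d) = C(n,d) ≥ b`.
So with probability tending to 1 there is `m` with `m + 2L + 1 ≤ M`, `|cl(Y_m) \ Y_m| ≤ s ≤ C₀ n` and
`D ≤ |cl(Y_{m+2L+1})|`.  With `C = max C₀ (3 C₁ + 1)` one has `2L + 1 ≤ ⌊C log n⌋₊` for large `n`, so
`D ≤ |cl(Y_{m'})|`, `m' = m + ⌊C log n⌋₊ ≤ N`, and `|cl(Y_{m'}) \ Y_{m'}| ≥ D - m' ≥ δ n^(d+1)`
(`N ≥ (n/2)^(d+1)/(d+1)!`).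
-/

set_option autoImplicit false

namespace Pool.Agent.Lib.P0fb

open Finset Filter

namespace FinAAux

lemma card_Fc (n d : ℕ) : Fintype.card (Fc n d) = n.choose (d + 1) := by
  have h := Fintype.card_finset_len (α := Fin n) (d + 1)
  rw [Fintype.card_fin] at h
  rw [← h]

lemma choose_lower (d n : ℕ) (h : 2 * d ≤ n) :
    (n : ℝ) ^ d / (2 ^ d * (d.factorial : ℝ)) ≤ n.choose d := by
  refine le_trans ?_ (Nat.pow_le_choose (α := ℝ) d n)
  have hf : (0 : ℝ) < d.factorial := by exact_mod_cast Nat.factorial_pos d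
  rw [← div_div, ← div_pow]
  apply div_le_div_of_nonneg_right _ hf.le
  apply pow_le_pow_left₀ (by positivity)
  have h1 : n ≤ 2 * (n + 1 - d) := by omega
  have h2 : (n : ℝ) ≤ 2 * ((n + 1 - d : ℕ) : ℝ) := by exact_mod_cast h1
  linarith

lemma ev_choose_ge (d : ℕ) (hd : 2 ≤ d) : ∀ᶠ n : ℕ in atTop, n ≤ n.choose d := by
  filter_upwards [eventually_ge_atTop (2 * d + 2 ^ d * d.factorial)] with n hn
  have h1 := choose_lower d n (by omega)
  have hf : (0 : ℝ) < d.factorial := by exact_mod_cast Nat.factorial_pos d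
  have h2 : (2 : ℝ) ^ d * (d.factorial : ℝ) ≤ n := by
    have : 2 ^ d * d.factorial ≤ n := by omega
    exact_mod_cast this
  have h2' : (0 : ℝ) < 2 ^ d * (d.factorial : ℝ) := by positivity
  have hn1 : (1 : ℝ) ≤ n := by
    have : 1 ≤ n := by omega
    exact_mod_cast this
  have h3 : (n : ℝ) ≤ (n : ℝ) ^ d / (2 ^ d * (d.factorial : ℝ)) := by
    rw [le_div_iff₀ h2']
    have h4 : (n : ℝ) ^ 2 ≤ (n : ℝ) ^ d := pow_le_pow_right₀ hn1 hd
    nlinarith
  exact_mod_cast h3.trans h1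

lemma ev_ratio (d : ℕ) {c : ℝ} (hc : 0 < c) (C : ℝ) :
    ∀ᶠ n : ℕ in atTop, C * (n.choose d : ℝ) ≤ c * (n.choose (d + 1) : ℝ) := by
  obtain ⟨n0, hn0⟩ := exists_nat_ge ((|C| * (d + 1)) / c)
  filter_upwards [eventually_ge_atTop (n0 + d)] with n hn
  have h1 := Nat.choose_succ_right_eq n d
  have h2 : (n.choose (d + 1) : ℝ) * (d + 1) = n.choose d * ((n - d : ℕ) : ℝ) := by
    exact_mod_cast h1
  have h3 : (n0 : ℝ) ≤ ((n - d : ℕ) : ℝ) := by
    have : n0 ≤ n - d := by omega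
    exact_mod_cast this
  have hd : (0 : ℝ) < (d : ℝ) + 1 := by positivity
  have h4 : |C| * (d + 1) ≤ c * ((n - d : ℕ) : ℝ) := by
    have h5 : |C| * (d + 1) / c ≤ ((n - d : ℕ) : ℝ) := hn0.trans h3
    rw [div_le_iff₀ hc] at h5
    linarith
  have h6 : C * (n.choose d : ℝ) ≤ |C| * (n.choose d : ℝ) :=
    mul_le_mul_of_nonneg_right (le_abs_self C) (Nat.cast_nonneg _)
  refine h6.trans ?_
  have h7 : (|C| * (n.choose d : ℝ)) * (d + 1) ≤ (c * (n.choose (d + 1) : ℝ)) * (d + 1) := by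
    calc (|C| * (n.choose d : ℝ)) * (d + 1) = (|C| * (d + 1)) * (n.choose d : ℝ) := by ring
      _ ≤ (c * ((n - d : ℕ) : ℝ)) * (n.choose d : ℝ) :=
          mul_le_mul_of_nonneg_right h4 (Nat.cast_nonneg _)
      _ = c * (n.choose d * ((n - d : ℕ) : ℝ)) := by ring
      _ = _ := by rw [← h2]; ring
  exact le_of_mul_le_mul_right h7 hd

lemma ev_loglin (C : ℝ) : ∀ᶠ n : ℕ in atTop, C * Real.log n ≤ n := by
  have h := Real.isLittleO_log_id_atTop.bound (c := 1 / (|C| + 1)) (by positivity)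
  have h2 := tendsto_natCast_atTop_atTop (R := ℝ) |>.eventually h
  filter_upwards [h2, eventually_ge_atTop 1] with n hn hn1
  have h3 : (0 : ℝ) ≤ Real.log n := Real.log_nonneg (by exact_mod_cast hn1)
  have h4 : (0 : ℝ) ≤ n := Nat.cast_nonneg n
  rw [Real.norm_of_nonneg h3, id, Real.norm_of_nonneg h4, one_div, inv_mul_eq_div,
    le_div_iff₀ (by positivity)] at hn
  have h5 : C * Real.log n ≤ |C| * Real.log n := mul_le_mul_of_nonneg_right (le_abs_self C) h3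
  nlinarith

lemma choose_le_pow' (n k : ℕ) : (n.choose k : ℝ) ≤ (n : ℝ) ^ k := by
  refine (Nat.choose_le_pow_div (α := ℝ) k n).trans ?_
  apply div_le_self (by positivity)
  exact_mod_cast Nat.succ_le_of_lt (Nat.factorial_pos k)

lemma tail_zero {q C₁ : ℝ} (hq0 : 0 < q) (hq1 : q < 1) (d : ℕ)
    (hC₁ : C₁ * (-Real.log q) = 2 * d + 3) :
    Tendsto (fun n : ℕ => (((3 * n.choose d : ℕ) : ℝ) + 1) * ((n.choose (d + 1) : ℝ) + 2) *
      q ^ ⌊C₁ * Real.log n⌋₊) atTop (nhds 0) := by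
  have hlim : Tendsto (fun n : ℕ => (12 / q) / (n : ℝ)) atTop (nhds 0) :=
    tendsto_const_div_atTop_nhds_zero_nat _
  refine tendsto_of_tendsto_of_tendsto_of_le_of_le' tendsto_const_nhds hlim ?_ ?_
  · filter_upwards with n
    positivity
  · filter_upwards [eventually_ge_atTop 1] with n hn
    have hnr : (1 : ℝ) ≤ n := by exact_mod_cast hn
    have hn0 : (0 : ℝ) < n := by linarith
    have h1 : ((3 * n.choose d : ℕ) : ℝ) + 1 ≤ 4 * (n : ℝ) ^ d := by
      push_cast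
      have h2 := choose_le_pow' n d
      have h3 : (1 : ℝ) ≤ (n : ℝ) ^ d := one_le_pow₀ hnr
      linarith
    have h2 : (n.choose (d + 1) : ℝ) + 2 ≤ 3 * (n : ℝ) ^ (d + 1) := by
      have h2 := choose_le_pow' n (d + 1)
      have h3 : (1 : ℝ) ≤ (n : ℝ) ^ (d + 1) := one_le_pow₀ hnr
      linarith
    have h3 : q ^ ⌊C₁ * Real.log n⌋₊ ≤ 1 / q / (n : ℝ) ^ (2 * d + 3) := by
      rw [← Real.rpow_natCast q]
      have h4 : C₁ * Real.log n - 1 ≤ (⌊C₁ * Real.log n⌋₊ : ℝ) := by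
        have := Nat.lt_floor_add_one (C₁ * Real.log n)
        linarith
      refine (Real.rpow_le_rpow_of_exponent_ge hq0 hq1.le h4).trans (le_of_eq ?_)
      rw [Real.rpow_sub hq0, Real.rpow_one]
      have h5 : q ^ (C₁ * Real.log n) = ((n : ℝ) ^ (2 * d + 3))⁻¹ := by
        rw [Real.rpow_def_of_pos hq0]
        have h6 : Real.log q * (C₁ * Real.log n) = -(((2 * d + 3 : ℕ) : ℝ) * Real.log n) := by
          push_cast
          calc Real.log q * (C₁ * Real.log n) = -((C₁ * (-Real.log q)) * Real.log n) := by ring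
            _ = _ := by rw [hC₁]
        rw [h6, Real.exp_neg, ← Real.log_pow, Real.exp_log (by positivity)]
      rw [h5]
      field_simp
    have h5 : (((3 * n.choose d : ℕ) : ℝ) + 1) * ((n.choose (d + 1) : ℝ) + 2) *
        q ^ ⌊C₁ * Real.log n⌋₊ ≤ (4 * (n : ℝ) ^ d) * (3 * (n : ℝ) ^ (d + 1)) *
          (1 / q / (n : ℝ) ^ (2 * d + 3)) := by
      apply mul_le_mul _ h3 (by positivity) (by positivity)
      apply mul_le_mul h1 h2 (by positivity) (by positivity)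
    refine h5.trans ?_
    have h6 : (4 * (n : ℝ) ^ d) * (3 * (n : ℝ) ^ (d + 1)) * (1 / q / (n : ℝ) ^ (2 * d + 3)) =
        12 / q / (n : ℝ) ^ 2 := by
      have h7 : (n : ℝ) ^ (2 * d + 3) = (n : ℝ) ^ d * (n : ℝ) ^ (d + 1) * (n : ℝ) ^ 2 := by ring
      rw [h7]
      field_simp
      norm_num
    rw [h6]
    apply div_le_div_of_nonneg_left (by positivity) hn0
    nlinarith

/-- The conclusion of `windowA` for the simplicial matroid. -/
lemma winA_all (d : ℕ) (hd : 2 ≤ d) {ε C₀ : ℝ} {b : ℕ → ℕ} (h0 : 0 < ε) (h1 : ε ≤ 1)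
    (hev : ∀ᶠ n : ℕ in atTop, ε * ((3 * n.choose d : ℕ) : ℝ) + (⌊C₀ * n⌋₊ : ℝ) + 1 ≤ b n ∧
      b n ≤ n.choose d) :
    ∃ C₁ δ₀ : ℝ, 0 < C₁ ∧ 0 < δ₀ ∧ ∀ (F : Type) [Field F] (D : ℕ → ℕ),
      (∀ n, (D n : ℝ) ≤ δ₀ * (n.choose (d + 1) : ℝ)) →
      Tendsto (fun n : ℕ => PP (fun e : Fin (n.choose (d + 1)) ≃ Fc n d =>
        (Smc d n (b n) (Y e (3 * n.choose d))).card ≤ ⌊C₀ * n⌋₊ ∧
        ¬ ∃ m : ℕ, m + (2 * ⌊C₁ * Real.log n⌋₊ + 1) ≤ 3 * n.choose d ∧
          (clF F n d (Y e m) \ Y e m).card ≤ ⌊C₀ * n⌋₊ ∧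
          D n ≤ (clF F n d (Y e (m + (2 * ⌊C₁ * Real.log n⌋₊ + 1)))).card)) atTop (nhds 0) := by
  obtain ⟨q, δ₀, hq0, hq1, hδ₀, hwin⟩ := windowA h0 h1
  have hlq : 0 < -Real.log q := by
    have := Real.log_neg hq0 hq1
    linarith
  refine ⟨(2 * d + 3) / (-Real.log q), δ₀ / 2, by positivity, by positivity, ?_⟩
  intro F _ D hD
  obtain ⟨C₁, hC₁⟩ : ∃ C₁ : ℝ, C₁ = (2 * d + 3) / (-Real.log q) := ⟨_, rfl⟩
  rw [← hC₁]
  have hC₁' : C₁ * (-Real.log q) = 2 * d + 3 := by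
    rw [hC₁, div_mul_cancel₀ _ hlq.ne']
  refine tendsto_of_tendsto_of_tendsto_of_le_of_le' tendsto_const_nhds
    (tail_zero hq0 hq1 d hC₁') ?_ ?_
  · filter_upwards with n
    exact PP_nonneg _
  · filter_upwards [hev, ev_ratio d (show (0 : ℝ) < 1 / 2 by norm_num) 3, ev_choose_ge d hd,
      ev_loglin C₁, eventually_ge_atTop 1] with n e1 e2 e3 e4 e5
    obtain ⟨S, hS1, hS2⟩ := exists_sys F n d (b n)
    have hch : 1 ≤ n.choose d := by omega
    have hL : ⌊C₁ * Real.log n⌋₊ ≤ n.choose d := by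
      apply Nat.floor_le_of_le
      have : (n : ℝ) ≤ n.choose d := by exact_mod_cast e3
      linarith
    have hMN : 3 * n.choose d ≤ n.choose (d + 1) := by
      have h2 : ((3 * n.choose d : ℕ) : ℝ) ≤ (n.choose (d + 1) : ℝ) := by
        push_cast
        have : (0 : ℝ) ≤ n.choose (d + 1) := Nat.cast_nonneg _
        linarith
      exact_mod_cast h2
    have hw := hwin (Fc n d) S (card_Fc n d) (by rw [hS1]; exact clF_empty F n d)
      (M := 3 * n.choose d) (M₁ := 2 * n.choose d) (L := ⌊C₁ * Real.log n⌋₊)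
      (s := ⌊C₀ * n⌋₊) (D := D n) hMN e1.1 (by
        refine (hD n).trans ?_
        push_cast
        have h2 : δ₀ * (1 / 2 * (n.choose (d + 1) : ℝ)) ≤
            δ₀ * ((n.choose (d + 1) : ℝ) - 3 * (n.choose d : ℝ)) := by
          apply mul_le_mul_of_nonneg_left _ hδ₀.le
          linarith
        linarith) (by omega) (by omega) (by
        intro W hW
        have h2 := rank_bound F n d W
        have h3 : (S.NC W).card = (W.filter (fun h => h ∈ clF F n d (W.erase h))).card := by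
          unfold Sys.NC
          rw [hS1]
        have h4 : b n ≤ (W.filter (fun h => h ∈ clF F n d (W.erase h))).card := by
          have h5 := e1.2
          have h6 : 2 * n.choose d ≤
              (W.filter (fun h => h ∈ clF F n d (W.erase h))).card + n.choose d := by
            rw [hW] at h2
            convert h2 using 3
          omega
        rw [h3]
        exact h4)
    rw [hS1, hS2] at hw
    exact hw

lemma PP_and_ge {N : ℕ} {α : Type} [Fintype α] [DecidableEq α]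
    (A B : (Fin N ≃ α) → Prop) : PP A - PP (fun e => A e ∧ ¬ B e) ≤ PP B := by
  have h1 : PP A ≤ PP (fun e => (A e ∧ ¬ B e) ∨ B e) := by
    apply PP_mono
    intro e he
    by_cases h : B e
    · exact Or.inr h
    · exact Or.inl ⟨he, h⟩
  have h2 := PP_or_le (fun e => A e ∧ ¬ B e) B
  linarith

end FinAAux

open FinAAux

theorem finalA (d : ℕ) (hd : 2 ≤ d) : ∃ C δ : ℝ, 0 < C ∧ 0 < δ ∧ ∀ (F : Type) [Field F],
    Tendsto (fun n : ℕ => PP (fun e : Fin (n.choose (d + 1)) ≃ Fc n d =>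
      ∃ m : ℕ, m + ⌊C * Real.log n⌋₊ ≤ n.choose (d + 1) ∧
        ((clF F n d (Y e m) \ Y e m).card : ℝ) ≤ C * n ∧
        δ * (n : ℝ) ^ (d + 1) ≤ ((clF F n d (Y e (m + ⌊C * Real.log n⌋₊)) \
          Y e (m + ⌊C * Real.log n⌋₊)).card : ℝ))) atTop (nhds 1) := by
  obtain ⟨ε, C₀, b, h0, h1, hC₀, hev, hsm⟩ := params d hd
  obtain ⟨C₁, δ₀, hC₁, hδ₀, hwin⟩ := winA_all d hd h0 h1 hev
  have hf : (0 : ℝ) < (d + 1).factorial := by exact_mod_cast Nat.factorial_pos _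
  refine ⟨C₀ + 2 * C₁ + 1, δ₀ / 4 / (2 ^ (d + 1) * ((d + 1).factorial : ℝ)), by positivity,
    by positivity, ?_⟩
  intro F _
  obtain ⟨C, hC⟩ : ∃ C : ℝ, C = C₀ + 2 * C₁ + 1 := ⟨_, rfl⟩
  rw [← hC]
  have hwin' := hwin F (fun n => ⌊δ₀ * (n.choose (d + 1) : ℝ)⌋₊)
    (fun n => Nat.floor_le (by positivity))
  have hlim := hsm.sub hwin'
  rw [sub_zero] at hlim
  refine tendsto_of_tendsto_of_tendsto_of_le_of_le' hlim tendsto_const_nhds ?_ ?_
  · filter_upwards [ev_ratio d (show (0 : ℝ) < 1 / 4 by norm_num) 3, ev_choose_ge d hd,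
      ev_ratio d (show (0 : ℝ) < δ₀ / 4 by positivity) 3,
      ev_ratio d (show (0 : ℝ) < 1 / 4 by norm_num) C,
      ev_ratio d (show (0 : ℝ) < δ₀ / 4 by positivity) (C + 1),
      ev_loglin 1, eventually_ge_atTop (2 * (d + 1)),
      (Real.tendsto_log_atTop.comp tendsto_natCast_atTop_atTop).eventually_ge_atTop 2]
      with n e1 e2 e3 e4 e5 e6 e7 e8
    refine (PP_and_ge _ _).trans (PP_mono ?_)
    rintro e ⟨m, hm1, hm2, hm3⟩
    have hlog : (2 : ℝ) ≤ Real.log n := e8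
    have hnc : (n : ℝ) ≤ n.choose d := by exact_mod_cast e2
    have hn1 : (1 : ℝ) ≤ n := by
      have : 1 ≤ n := by omega
      exact_mod_cast this
    have hCpos : 0 < C := by rw [hC]; positivity
    have hlogn : C * Real.log n ≤ C * (n.choose d : ℝ) := by
      apply mul_le_mul_of_nonneg_left _ hCpos.le
      linarith
    have hfl : (⌊C * Real.log n⌋₊ : ℝ) ≤ C * Real.log n := Nat.floor_le (by positivity)
    have hm3M : (m : ℝ) ≤ 3 * (n.choose d : ℝ) := by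
      have : m ≤ 3 * n.choose d := by omega
      exact_mod_cast this
    have hNn : (0 : ℝ) ≤ (n.choose (d + 1) : ℝ) := Nat.cast_nonneg _
    refine ⟨m, ?_, ?_, ?_⟩
    · have h2 : ((m + ⌊C * Real.log n⌋₊ : ℕ) : ℝ) ≤ (n.choose (d + 1) : ℝ) := by
        push_cast
        linarith
      exact_mod_cast h2
    · have h2 : ((clF F n d (Y e m) \ Y e m).card : ℝ) ≤ (⌊C₀ * n⌋₊ : ℝ) := by exact_mod_cast hm2
      have h3 : (⌊C₀ * n⌋₊ : ℝ) ≤ C₀ * n := Nat.floor_le (by positivity)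
      have h4 : C₀ * n ≤ C * n := by
        apply mul_le_mul_of_nonneg_right _ (by linarith)
        rw [hC]
        linarith
      linarith
    · have h2 : 2 * ⌊C₁ * Real.log n⌋₊ + 1 ≤ ⌊C * Real.log n⌋₊ := by
        apply Nat.le_floor
        push_cast
        have h3 : (⌊C₁ * Real.log n⌋₊ : ℝ) ≤ C₁ * Real.log n := Nat.floor_le (by positivity)
        have h4 : C * Real.log n = C₀ * Real.log n + 2 * (C₁ * Real.log n) + Real.log n := by
          rw [hC]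
          ring
        have h5 : 0 ≤ C₀ * Real.log n := by positivity
        linarith
      obtain ⟨S, hS1, hS2⟩ := exists_sys F n d (b n)
      have h3 : clF F n d (Y e (m + (2 * ⌊C₁ * Real.log n⌋₊ + 1))) ⊆
          clF F n d (Y e (m + ⌊C * Real.log n⌋₊)) := by
        rw [← hS1]
        exact S.mono (Y_mono e (by omega))
      have h4 := hm3.trans (card_le_card h3)
      have h5 : (clF F n d (Y e (m + ⌊C * Real.log n⌋₊))).card ≤
          (clF F n d (Y e (m + ⌊C * Real.log n⌋₊)) \ Y e (m + ⌊C * Real.log n⌋₊)).card +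
            (m + ⌊C * Real.log n⌋₊) := by
        have h6 := le_card_sdiff (Y e (m + ⌊C * Real.log n⌋₊)) (clF F n d (Y e (m + ⌊C * Real.log n⌋₊)))
        have h7 := card_Y_le e (m + ⌊C * Real.log n⌋₊)
        omega
      have h6 : (⌊δ₀ * (n.choose (d + 1) : ℝ)⌋₊ : ℝ) ≤
          ((clF F n d (Y e (m + ⌊C * Real.log n⌋₊)) \ Y e (m + ⌊C * Real.log n⌋₊)).card : ℝ) +
            (m + ⌊C * Real.log n⌋₊) := by
        exact_mod_cast h4.trans h5
      have h7 : δ₀ * (n.choose (d + 1) : ℝ) - 1 ≤ (⌊δ₀ * (n.choose (d + 1) : ℝ)⌋₊ : ℝ) := by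
        have := Nat.lt_floor_add_one (δ₀ * (n.choose (d + 1) : ℝ))
        linarith
      have h8 := choose_lower (d + 1) n e7
      have h9 : δ₀ / 4 / (2 ^ (d + 1) * ((d + 1).factorial : ℝ)) * (n : ℝ) ^ (d + 1) ≤
          δ₀ / 4 * (n.choose (d + 1) : ℝ) := by
        calc δ₀ / 4 / (2 ^ (d + 1) * ((d + 1).factorial : ℝ)) * (n : ℝ) ^ (d + 1) =
            δ₀ / 4 * ((n : ℝ) ^ (d + 1) / (2 ^ (d + 1) * ((d + 1).factorial : ℝ))) := by ring
          _ ≤ _ := mul_le_mul_of_nonneg_left h8 (by positivity)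
      have h10 : C * Real.log n + 1 ≤ (C + 1) * (n.choose d : ℝ) := by
        rw [add_mul]
        linarith
      linarith
  · filter_upwards with n
    exact PP_le_one _

end Pool.Agent.Lib.P0fb
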