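import Mathlib
import Pool.Agent.Lib.P0fb.BandG
import Pool.Agent.Lib.P0fb.BandB

/-!
# A single macroscopic jump of the closure

Suppose `D ≤ |cl(Y_M)|` and every step `m < M` satisfies
`2 (2ρ+1) (|cl(Y_{m+1})| - |cl(Y_m)|) < D`.  Let `m_a` be the least `m` with `D ≤ 2 |cl(Y_m)|`
(`m_a ≥ 1` because `cl ∅ = ∅`) and `m_b` the least `m` with `D ≤ |cl(Y_m)|`; all `m` with
`m_a ≤ m < m_b` are in the band, and `D/2 < |cl(Y_{m_b})| - |cl(Y_{m_a - 1})|` is a sum of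
`m_b - m_a + 1` increments, so `m_b - m_a > 2ρ`, i.e. the band has more than `2ρ` elements, so
either more than `ρ` of them are good (`|NC| < b`, `band_good` with `r = ρ+1`) or more than `ρ` of
them are not good (`band_bad` with `r = ρ`).
-/

namespace Pool.Agent.Lib.P0fb

open Finset

theorem winB_incr {c : ℕ → ℕ} {K D M : ℕ} (h : ∀ m : ℕ, m < M → K * c (m + 1) < D + K * c m)
    (a k : ℕ) (hk : a + k ≤ M) : K * c (a + k) ≤ K * c a + k * D := by
  induction k with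
  | zero => simp
  | succ k ih =>
    have h1 := ih (by omega)
    have h2 := h (a + k) (by omega)
    have h3 : a + (k + 1) = a + k + 1 := by ring
    rw [h3, Nat.succ_mul]
    omega

open Classical in
theorem winB_det {c : ℕ → ℕ} {D M ρ : ℕ} (hc : Monotone c) (h0 : c 0 = 0) (hD : 0 < D)
    (hM : D ≤ c M)
    (h : ∀ m : ℕ, m < M → 2 * (2 * ρ + 1) * c (m + 1) < D + 2 * (2 * ρ + 1) * c m)
    (P : ℕ → Prop) :
    ρ + 1 ≤ ((Icc 1 M).filter (fun m => P m ∧ D ≤ 2 * c m ∧ c m < D)).card ∨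
      ρ < ((range (M + 1)).filter (fun m => ¬ P m ∧ c m < D)).card := by
  have ha : ∃ m, D ≤ 2 * c m := ⟨M, by omega⟩
  have hb : ∃ m, D ≤ c m := ⟨M, hM⟩
  set a := Nat.find ha with haa
  set b := Nat.find hb with hbb
  have ha1 : D ≤ 2 * c a := Nat.find_spec ha
  have hb1 : D ≤ c b := Nat.find_spec hb
  have hbM : b ≤ M := Nat.find_min' hb hM
  have ha0 : 0 < a := by
    rcases Nat.eq_zero_or_pos a with h | h
    · rw [h, h0] at ha1; omega
    · exact h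
  have hab : a ≤ b := Nat.find_min' ha (by omega)
  have ha2 : 2 * c (a - 1) < D := by
    have := Nat.find_min ha (m := a - 1) (by omega)
    omega
  have hinc := winB_incr h (a - 1) (b - a + 1) (by omega)
  have e1 : a - 1 + (b - a + 1) = b := by omega
  rw [e1] at hinc
  have h5 : 2 * (2 * ρ + 1) * D ≤ 2 * (2 * ρ + 1) * c b := Nat.mul_le_mul_left _ hb1
  have h6 : 2 * (2 * ρ + 1) * c (a - 1) < (2 * ρ + 1) * D := by
    calc 2 * (2 * ρ + 1) * c (a - 1) = (2 * ρ + 1) * (2 * c (a - 1)) := by ring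
      _ < (2 * ρ + 1) * D := Nat.mul_lt_mul_of_pos_left ha2 (by omega)
  have h7 : (2 * ρ + 1) * D < (b - a + 1) * D := by
    have : 2 * (2 * ρ + 1) * D = (2 * ρ + 1) * D + (2 * ρ + 1) * D := by ring
    omega
  have h8 : 2 * ρ + 1 < b - a + 1 := lt_of_mul_lt_mul_right h7 (Nat.zero_le _)
  have hcard : ((Ico a b).filter P).card + ((Ico a b).filter (fun m => ¬ P m)).card = b - a := by
    rw [Finset.card_filter_add_card_filter_not, Nat.card_Ico]
  have hlt : ∀ m, m < b → c m < D := by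
    intro m hm
    have := Nat.find_min hb (m := m) hm
    omega
  have s1 : ((Ico a b).filter P).card ≤
      ((Icc 1 M).filter (fun m => P m ∧ D ≤ 2 * c m ∧ c m < D)).card := by
    apply Finset.card_le_card
    intro m hm
    simp only [Finset.mem_filter, Finset.mem_Ico, Finset.mem_Icc] at hm ⊢
    have := hc hm.1.1
    exact ⟨⟨by omega, by omega⟩, hm.2, by omega, hlt m hm.1.2⟩
  have s2 : ((Ico a b).filter (fun m => ¬ P m)).card ≤
      ((range (M + 1)).filter (fun m => ¬ P m ∧ c m < D)).card := by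
    apply Finset.card_le_card
    intro m hm
    simp only [Finset.mem_filter, Finset.mem_Ico, Finset.mem_range] at hm ⊢
    exact ⟨by omega, hm.2, hlt m hm.1.2⟩
  omega

theorem windowB {ε : ℝ} (h0 : 0 < ε) (h1 : ε ≤ 1) : ∃ q δ₀ C : ℝ, 0 < q ∧ q < 1 ∧ 0 < δ₀ ∧ 0 < C ∧
    ∀ (α : Type) [Fintype α] [DecidableEq α] {b N : ℕ} (S : Sys α b), Fintype.card α = N →
      S.cl ∅ = ∅ → ∀ {M s D : ℕ} (ρ : ℕ), M ≤ N → ε * M + s + 1 ≤ b → 4 * (M + s) ≤ D → 0 < D →
      (D : ℝ) ≤ δ₀ * ((N : ℝ) - (M : ℝ)) →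
      PP (fun e : Fin N ≃ α => (S.Sm (Y e M)).card ≤ s ∧ D ≤ (S.cl (Y e M)).card ∧
        ∀ m : ℕ, m < M → 2 * (2 * ρ + 1) * (S.cl (Y e (m + 1))).card <
          D + 2 * (2 * ρ + 1) * (S.cl (Y e m)).card) ≤ C * q ^ ρ := by
  classical
  obtain ⟨q, δ₀, hq0, hq1, hδ, hbad⟩ := band_bad h0 h1
  have hL : 1 < 1 + ε / 8 := by linarith
  have hLi : 0 < (1 + ε / 8)⁻¹ := by positivity
  have hLi1 : (1 + ε / 8)⁻¹ < 1 := inv_lt_one_of_one_lt₀ hL
  have h1q : 0 < 1 - q := by linarith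
  refine ⟨max q (1 + ε / 8)⁻¹, δ₀, 2 + 2 / (1 - q), lt_max_of_lt_left hq0, max_lt hq1 hLi1, hδ,
    by positivity, ?_⟩
  intro α _ _ b N S hN hcl M s D ρ hM hε hD hD0 hDδ
  have hb' : ε * M ≤ b := by
    have : (0 : ℝ) ≤ s := Nat.cast_nonneg _
    linarith
  have hg := band_good (r := ρ + 1) S hN hM h0.le h1 hε hD hD0
  have hbd := hbad α S hN (r := ρ) hM hb' hDδ
  have hsub : ∀ e : Fin N ≃ α, ((S.Sm (Y e M)).card ≤ s ∧ D ≤ (S.cl (Y e M)).card ∧
        ∀ m : ℕ, m < M → 2 * (2 * ρ + 1) * (S.cl (Y e (m + 1))).card <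
          D + 2 * (2 * ρ + 1) * (S.cl (Y e m)).card) →
      (((S.Sm (Y e M)).card ≤ s ∧
      ρ + 1 ≤ ((Icc 1 M).filter (fun m => (S.NC (Y e m)).card < b ∧
        D ≤ 2 * (S.cl (Y e m)).card ∧ (S.cl (Y e m)).card < D)).card) ∨
      ρ < ((range (M + 1)).filter (fun m => b ≤ (S.NC (Y e m)).card ∧
        (S.cl (Y e m)).card < D)).card) := by
    rintro e ⟨hs, hDM, hinc⟩
    have := winB_det (c := fun m => (S.cl (Y e m)).card) (D := D) (M := M) (ρ := ρ)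
      (fun m m' h => Finset.card_le_card (S.mono (Y_mono e h))) (by
        simp only [Y_zero, hcl, Finset.card_empty]) hD0 hDM hinc
      (fun m => (S.NC (Y e m)).card < b)
    rcases this with h | h
    · exact Or.inl ⟨hs, by convert h⟩
    · right
      simpa only [not_lt] using h
  refine (PP_mono hsub).trans ((PP_or_le _ _).trans ?_)
  have e1 : 2 / (1 + ε / 8) ^ (ρ + 1) ≤ 2 * (max q (1 + ε / 8)⁻¹) ^ ρ := by
    rw [div_eq_mul_inv]
    apply mul_le_mul_of_nonneg_left _ (by norm_num)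
    rw [← inv_pow]
    calc ((1 + ε / 8)⁻¹) ^ (ρ + 1) ≤ ((1 + ε / 8)⁻¹) ^ ρ :=
          pow_le_pow_of_le_one hLi.le hLi1.le (Nat.le_succ _)
      _ ≤ (max q (1 + ε / 8)⁻¹) ^ ρ := pow_le_pow_left₀ hLi.le (le_max_right _ _) _
  have e2 : 2 * q ^ ρ / (1 - q) ≤ 2 / (1 - q) * (max q (1 + ε / 8)⁻¹) ^ ρ := by
    rw [mul_div_right_comm]
    exact mul_le_mul_of_nonneg_left (pow_le_pow_left₀ hq0.le (le_max_left _ _) _) (by positivity)
  calc _ ≤ 2 / (1 + ε / 8) ^ (ρ + 1) + 2 * q ^ ρ / (1 - q) := add_le_add hg hbd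
    _ ≤ 2 * (max q (1 + ε / 8)⁻¹) ^ ρ + 2 / (1 - q) * (max q (1 + ε / 8)⁻¹) ^ ρ :=
        add_le_add e1 e2
    _ = _ := by ring

end Pool.Agent.Lib.P0fb
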