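import Mathlib
import Pool.Agent.Lib.P0fb.Params
import Pool.Agent.Lib.P0fb.WinA
import Pool.Agent.Lib.P0fb.WinB
import Pool.Agent.Lib.P0fb.LinAlg
import Pool.Agent.Lib.P0fb.LinRk
import Pool.Agent.Lib.P0fb.FinA

/-!
# Theorem B: a macroscopic jump in a single step

Parameters as in Theorem A, with `δ₀` the minimum of the two `δ₀` of `windowA`, `windowB`, and
`D = ⌊(δ₀/2) N⌋₊` (both windows apply; `4 (M + s) ≤ D` for large `n`).  The events
`|Sm(Y_M)| ≤ s` (`params`) and `D ≤ |cl(Y_M)|` (`windowA`, `cl` monotone) have probability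
tending to 1.  Let `κ > 0`, `D ≥ δ' n^(d+1)` for large `n`, `ρ = ⌊δ'/(12 κ)⌋₊`.  If `ρ = 0` then
`δ'/(12κ) < 1`, `K exp(-c/κ) ≥ 1` for `K ≥ exp(12 c/δ')` and there is nothing to prove.  If `ρ ≥ 1`
then `2 (2ρ+1) ≤ 6 ρ ≤ δ'/(2κ)` and (for large `n`, `κ n^(d+1) ≥ 1`)
`2 (2ρ+1) (κ n^(d+1) + 1) ≤ D`: by `windowB`, with probability `≥ 1 - C q^ρ - o(1)` some `m < M` has
`|cl(Y_{m+1})| - |cl(Y_m)| ≥ D/(2(2ρ+1)) ≥ κ n^(d+1) + 1`, i.e. the shadow `cl \ Y` (whose size is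
`|cl(Y_m)| - m`) grows by at least `κ n^(d+1)`.  `q^ρ ≤ q⁻¹ exp(-(δ' log(1/q)/12)/κ)`, and the `o(1)`
is at most `C q^ρ` for `n` large depending on `κ`.
-/

set_option autoImplicit false

namespace Pool.Agent.Lib.P0fb

open Finset Filter

open FinAAux

theorem finalB (d : ℕ) (hd : 2 ≤ d) : ∃ K c : ℝ, 0 < K ∧ 0 < c ∧ ∀ (F : Type) [Field F],
    ∀ κ : ℝ, 0 < κ → ∀ᶠ n : ℕ in atTop,
      1 - K * Real.exp (-c / κ) ≤ PP (fun e : Fin (n.choose (d + 1)) ≃ Fc n d =>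
        ∃ m : ℕ, m < n.choose (d + 1) ∧
          ((clF F n d (Y e m) \ Y e m).card : ℝ) + κ * (n : ℝ) ^ (d + 1) ≤
            ((clF F n d (Y e (m + 1)) \ Y e (m + 1)).card : ℝ)) := by
  obtain ⟨ε, C₀, b, h0, h1, hC₀, hev, hsm⟩ := params d hd
  obtain ⟨C₁, δ₁, hC₁, hδ₁, hwin⟩ := winA_all d hd h0 h1 hev
  obtain ⟨q, δ₂, C₂, hq0, hq1, hδ₂, hC₂, hwinB⟩ := windowB h0 h1
  have hf : (0 : ℝ) < (d + 1).factorial := by exact_mod_cast Nat.factorial_pos _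
  have hlq : 0 < -Real.log q := by
    have := Real.log_neg hq0 hq1
    linarith
  obtain ⟨δ₀, hδ₀'⟩ : ∃ δ₀ : ℝ, δ₀ = min δ₁ (δ₂ / 2) := ⟨_, rfl⟩
  have hδ₀ : 0 < δ₀ := by
    rw [hδ₀']
    exact lt_min hδ₁ (by positivity)
  have hδ₀1 : δ₀ ≤ δ₁ := by rw [hδ₀']; exact min_le_left _ _
  have hδ₀2 : δ₀ ≤ δ₂ / 2 := by rw [hδ₀']; exact min_le_right _ _
  obtain ⟨δ', hδ'⟩ : ∃ δ' : ℝ, δ' = δ₀ / 2 / (2 ^ (d + 1) * ((d + 1).factorial : ℝ)) := ⟨_, rfl⟩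
  have hδ'0 : 0 < δ' := by rw [hδ']; positivity
  refine ⟨(2 * C₂ + 1) / q, δ' * (-Real.log q) / 12, by positivity, by positivity, ?_⟩
  intro F _ κ hκ
  obtain ⟨x, hx⟩ : ∃ x : ℝ, x = δ' / (12 * κ) := ⟨_, rfl⟩
  have hx0 : 0 < x := by rw [hx]; positivity
  have hexp : Real.exp (-(δ' * (-Real.log q) / 12) / κ) = q ^ x := by
    rw [Real.rpow_def_of_pos hq0]
    congr 1
    rw [hx]
    field_simp
  rw [hexp]
  obtain ⟨ρ, hρ⟩ : ∃ ρ : ℕ, ρ = ⌊x⌋₊ := ⟨_, rfl⟩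
  have hqx : 0 < q ^ x := Real.rpow_pos_of_pos hq0 x
  rcases Nat.eq_zero_or_pos ρ with hr | hr
  · -- the trivial case
    filter_upwards with n
    have h2 : x < 1 := by
      rw [hρ] at hr
      exact Nat.floor_eq_zero.1 hr
    have h3 : q ≤ q ^ x := by
      have := Real.rpow_le_rpow_of_exponent_ge hq0 hq1.le h2.le
      rwa [Real.rpow_one] at this
    have h4 : 1 ≤ (2 * C₂ + 1) / q * q ^ x := by
      have h5 : (2 * C₂ + 1) / q * q ≤ (2 * C₂ + 1) / q * q ^ x := by gcongr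
      rw [div_mul_cancel₀ _ hq0.ne'] at h5
      linarith
    have h5 := PP_nonneg (fun e : Fin (n.choose (d + 1)) ≃ Fc n d =>
        ∃ m : ℕ, m < n.choose (d + 1) ∧
          ((clF F n d (Y e m) \ Y e m).card : ℝ) + κ * (n : ℝ) ^ (d + 1) ≤
            ((clF F n d (Y e (m + 1)) \ Y e (m + 1)).card : ℝ))
    linarith
  · have hρx : (ρ : ℝ) ≤ x := by rw [hρ]; exact Nat.floor_le hx0.le
    have hρ1 : (1 : ℝ) ≤ ρ := by exact_mod_cast hr
    have hqρ : q ^ ρ ≤ q ^ x / q := by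
      rw [← Real.rpow_natCast q]
      have h4 : x - 1 ≤ (ρ : ℝ) := by
        have := Nat.lt_floor_add_one x
        rw [← hρ] at this
        linarith
      refine (Real.rpow_le_rpow_of_exponent_ge hq0 hq1.le h4).trans (le_of_eq ?_)
      rw [Real.rpow_sub hq0, Real.rpow_one]
    have hqρ0 : 0 < C₂ * q ^ ρ := by positivity
    have hR : 2 * (2 * (ρ : ℝ) + 1) * (2 * κ) ≤ δ' := by
      have h2 : 12 * κ * x = δ' := by
        rw [hx]
        field_simp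
      have h3 : 12 * κ * ρ ≤ 12 * κ * x := by gcongr
      nlinarith
    have hwin' := hwin F (fun n => ⌊δ₀ * (n.choose (d + 1) : ℝ)⌋₊)
      (fun n => (Nat.floor_le (by positivity)).trans (by gcongr))
    have hlim := hsm.sub hwin'
    rw [sub_zero] at hlim
    have hev2 := hlim.eventually (lt_mem_nhds (show 1 - C₂ * q ^ ρ < 1 by linarith))
    obtain ⟨n0, hn0⟩ := exists_nat_ge (1 / κ)
    filter_upwards [hev2, hev, ev_ratio d (show (0 : ℝ) < 1 / 2 by norm_num) 3, ev_choose_ge d hd,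
      ev_ratio d hδ₀ (13 + 4 * C₀), eventually_ge_atTop (2 * (d + 1)), eventually_ge_atTop n0]
      with n e1 e2 e3 e4 e5 e6 e7
    obtain ⟨S, hS1, hS2⟩ := exists_sys F n d (b n)
    have hnc : (n : ℝ) ≤ n.choose d := by exact_mod_cast e4
    have hn1 : (1 : ℝ) ≤ n := by
      have : 1 ≤ n := by omega
      exact_mod_cast this
    have hch1 : (1 : ℝ) ≤ n.choose d := by linarith
    have hNn : (0 : ℝ) ≤ (n.choose (d + 1) : ℝ) := Nat.cast_nonneg _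
    have hMN : 3 * n.choose d ≤ n.choose (d + 1) := by
      have h2 : ((3 * n.choose d : ℕ) : ℝ) ≤ (n.choose (d + 1) : ℝ) := by
        push_cast
        linarith
      exact_mod_cast h2
    have hD1 : δ₀ * (n.choose (d + 1) : ℝ) - 1 ≤ (⌊δ₀ * (n.choose (d + 1) : ℝ)⌋₊ : ℝ) := by
      have := Nat.lt_floor_add_one (δ₀ * (n.choose (d + 1) : ℝ))
      linarith
    have hD2 : (⌊δ₀ * (n.choose (d + 1) : ℝ)⌋₊ : ℝ) ≤ δ₀ * (n.choose (d + 1) : ℝ) :=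
      Nat.floor_le (by positivity)
    have hC₀n : C₀ * (n : ℝ) ≤ C₀ * (n.choose d : ℝ) := by gcongr
    have hC₀c : 0 ≤ C₀ * (n.choose d : ℝ) := by positivity
    have hs : (⌊C₀ * n⌋₊ : ℝ) ≤ C₀ * n := Nat.floor_le (by positivity)
    have e5' : 13 * (n.choose d : ℝ) + 4 * (C₀ * (n.choose d : ℝ)) ≤
        δ₀ * (n.choose (d + 1) : ℝ) := by
      have h2 : (13 + 4 * C₀) * (n.choose d : ℝ) =
        13 * (n.choose d : ℝ) + 4 * (C₀ * (n.choose d : ℝ)) := by ring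
      linarith
    have hMD : 4 * (3 * n.choose d + ⌊C₀ * n⌋₊) ≤ ⌊δ₀ * (n.choose (d + 1) : ℝ)⌋₊ := by
      have h2 : ((4 * (3 * n.choose d + ⌊C₀ * n⌋₊) : ℕ) : ℝ) ≤
          (⌊δ₀ * (n.choose (d + 1) : ℝ)⌋₊ : ℝ) := by
        push_cast
        linarith
      exact_mod_cast h2
    have hch : 1 ≤ n.choose d := by exact_mod_cast hch1
    have hw := hwinB (Fc n d) S (card_Fc n d) (by rw [hS1]; exact clF_empty F n d)
      (M := 3 * n.choose d) (s := ⌊C₀ * n⌋₊) (D := ⌊δ₀ * (n.choose (d + 1) : ℝ)⌋₊) ρ hMN e2.1 hMD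
      (by omega) (by
        push_cast
        have h2 : δ₀ * (n.choose (d + 1) : ℝ) ≤ δ₂ / 2 * (n.choose (d + 1) : ℝ) := by gcongr
        have h3 : δ₂ * (1 / 2 * (n.choose (d + 1) : ℝ)) ≤
            δ₂ * ((n.choose (d + 1) : ℝ) - 3 * (n.choose d : ℝ)) := by
          apply mul_le_mul_of_nonneg_left _ hδ₂.le
          linarith
        linarith)
    rw [hS2] at hw
    -- the union
    have hun : PP (fun e : Fin (n.choose (d + 1)) ≃ Fc n d =>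
        (Smc d n (b n) (Y e (3 * n.choose d))).card ≤ ⌊C₀ * n⌋₊) ≤
        PP (fun e : Fin (n.choose (d + 1)) ≃ Fc n d =>
          (Smc d n (b n) (Y e (3 * n.choose d))).card ≤ ⌊C₀ * n⌋₊ ∧
        ¬ ∃ m : ℕ, m + (2 * ⌊C₁ * Real.log n⌋₊ + 1) ≤ 3 * n.choose d ∧
          (clF F n d (Y e m) \ Y e m).card ≤ ⌊C₀ * n⌋₊ ∧
          ⌊δ₀ * (n.choose (d + 1) : ℝ)⌋₊ ≤
            (clF F n d (Y e (m + (2 * ⌊C₁ * Real.log n⌋₊ + 1)))).card) +
        (PP (fun e : Fin (n.choose (d + 1)) ≃ Fc n d =>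
          (Smc d n (b n) (Y e (3 * n.choose d))).card ≤ ⌊C₀ * n⌋₊ ∧
            ⌊δ₀ * (n.choose (d + 1) : ℝ)⌋₊ ≤ (S.cl (Y e (3 * n.choose d))).card ∧
            ∀ m : ℕ, m < 3 * n.choose d → 2 * (2 * ρ + 1) * (S.cl (Y e (m + 1))).card <
              ⌊δ₀ * (n.choose (d + 1) : ℝ)⌋₊ + 2 * (2 * ρ + 1) * (S.cl (Y e m)).card) +
        PP (fun e : Fin (n.choose (d + 1)) ≃ Fc n d =>
        ∃ m : ℕ, m < n.choose (d + 1) ∧
          ((clF F n d (Y e m) \ Y e m).card : ℝ) + κ * (n : ℝ) ^ (d + 1) ≤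
            ((clF F n d (Y e (m + 1)) \ Y e (m + 1)).card : ℝ))) := by
      refine le_trans ?_ (add_le_add_right (PP_or_le _ _) _)
      refine le_trans ?_ (PP_or_le _ _)
      apply PP_mono
      intro e he
      by_cases hA : ∃ m : ℕ, m + (2 * ⌊C₁ * Real.log n⌋₊ + 1) ≤ 3 * n.choose d ∧
          (clF F n d (Y e m) \ Y e m).card ≤ ⌊C₀ * n⌋₊ ∧
          ⌊δ₀ * (n.choose (d + 1) : ℝ)⌋₊ ≤
            (clF F n d (Y e (m + (2 * ⌊C₁ * Real.log n⌋₊ + 1)))).card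
      swap
      · exact Or.inl ⟨he, hA⟩
      right
      obtain ⟨m, hm1, hm2, hm3⟩ := hA
      have hcl : ⌊δ₀ * (n.choose (d + 1) : ℝ)⌋₊ ≤ (S.cl (Y e (3 * n.choose d))).card := by
        rw [← hS1] at hm3
        exact hm3.trans (card_le_card (S.mono (Y_mono e hm1)))
      by_cases hB : ∀ m : ℕ, m < 3 * n.choose d → 2 * (2 * ρ + 1) * (S.cl (Y e (m + 1))).card <
              ⌊δ₀ * (n.choose (d + 1) : ℝ)⌋₊ + 2 * (2 * ρ + 1) * (S.cl (Y e m)).card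
      · exact Or.inl ⟨he, hcl, hB⟩
      right
      push Not at hB
      obtain ⟨k, hk1, hk2⟩ := hB
      refine ⟨k, by omega, ?_⟩
      have hcard : ∀ j : ℕ, j ≤ n.choose (d + 1) → ((clF F n d (Y e j) \ Y e j).card : ℝ) =
          ((S.cl (Y e j)).card : ℝ) - j := by
        intro j hj
        rw [← hS1]
        have h2 := card_sdiff_add_card_eq_card (S.sub (Y e j))
        rw [card_Y e hj] at h2
        have h3 : ((S.cl (Y e j) \ Y e j).card : ℝ) + j = ((S.cl (Y e j)).card : ℝ) := by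
          exact_mod_cast h2
        linarith
      rw [hcard k (by omega), hcard (k + 1) (by omega)]
      have h2 : (⌊δ₀ * (n.choose (d + 1) : ℝ)⌋₊ : ℝ) + 2 * (2 * ρ + 1) * ((S.cl (Y e k)).card : ℝ) ≤
          2 * (2 * ρ + 1) * ((S.cl (Y e (k + 1))).card : ℝ) := by exact_mod_cast hk2
      have h3 := choose_lower (d + 1) n e6
      have h4 : δ' * (n : ℝ) ^ (d + 1) ≤ δ₀ / 2 * (n.choose (d + 1) : ℝ) := by
        calc δ' * (n : ℝ) ^ (d + 1) =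
            δ₀ / 2 * ((n : ℝ) ^ (d + 1) / (2 ^ (d + 1) * ((d + 1).factorial : ℝ))) := by
              rw [hδ']
              ring
          _ ≤ _ := mul_le_mul_of_nonneg_left h3 (by positivity)
      have h5 : δ' * (n : ℝ) ^ (d + 1) ≤ (⌊δ₀ * (n.choose (d + 1) : ℝ)⌋₊ : ℝ) := by linarith
      have hR0 : (0 : ℝ) < 2 * (2 * (ρ : ℝ) + 1) := by positivity
      have h6 : 2 * (2 * (ρ : ℝ) + 1) * (2 * κ * (n : ℝ) ^ (d + 1)) ≤ δ' * (n : ℝ) ^ (d + 1) := by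
        have h7 : 2 * (2 * (ρ : ℝ) + 1) * (2 * κ) * (n : ℝ) ^ (d + 1) ≤ δ' * (n : ℝ) ^ (d + 1) := by
          gcongr
        calc 2 * (2 * (ρ : ℝ) + 1) * (2 * κ * (n : ℝ) ^ (d + 1)) =
            2 * (2 * (ρ : ℝ) + 1) * (2 * κ) * (n : ℝ) ^ (d + 1) := by ring
          _ ≤ _ := h7
      have h7 : 2 * κ * (n : ℝ) ^ (d + 1) ≤
          ((S.cl (Y e (k + 1))).card : ℝ) - ((S.cl (Y e k)).card : ℝ) := by
        have h8 : 2 * (2 * (ρ : ℝ) + 1) * (2 * κ * (n : ℝ) ^ (d + 1)) ≤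
            2 * (2 * (ρ : ℝ) + 1) * (((S.cl (Y e (k + 1))).card : ℝ) - ((S.cl (Y e k)).card : ℝ)) := by
          rw [mul_sub (2 * (2 * (ρ : ℝ) + 1))]
          linarith
        exact le_of_mul_le_mul_left h8 hR0
      have h8 : 1 ≤ κ * (n : ℝ) ^ (d + 1) := by
        have h9 : (n : ℝ) ≤ (n : ℝ) ^ (d + 1) := by
          calc (n : ℝ) = (n : ℝ) ^ 1 := (pow_one _).symm
            _ ≤ _ := pow_le_pow_right₀ hn1 (by omega)
        have h10 : 1 / κ ≤ n := hn0.trans (by exact_mod_cast e7)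
        rw [div_le_iff₀ hκ] at h10
        calc (1 : ℝ) ≤ n * κ := h10
          _ = κ * n := mul_comm _ _
          _ ≤ _ := by gcongr
      push_cast
      linarith
    have h2 : (2 * C₂ + 1) / q * q ^ x = 2 * (C₂ * (q ^ x / q)) + q ^ x / q := by ring
    have h3 : 0 ≤ q ^ x / q := by positivity
    have h4 : C₂ * q ^ ρ ≤ C₂ * (q ^ x / q) := by gcongr
    linarith

end Pool.Agent.Lib.P0fb
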